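import Pool.Agent.Lib.H42Y.Defs3

/-!
# Chunk NE2 (M)
The point `q` is small.

Proof. Suppose `q > c (1+w)`, `c = cN h ≥ 4/5`. `m = d - h - j = d - J + y ≥ 0`, `M' = M + p w`, `a = 1 - w ∈ [1/2, 1]` (`(1-x) w ≤ t + h`, `x ≤ 11/20`).
(1) `g ≤ a j / 2`: `p ≥ (R - j - h)/2` (`R = 1 - x`; `y ≤ p` and `y = J - j - h = R - p - j - h`), so by `g1` `g ≤ (R - t - v)/2 - a (R - j - h)/2 + 3h = (w R - t - v)/2 + a j/2 + a h / 2 + 3h`, `w R ≤ t + h`, `v ≥ 1/100`.
(2) `b2`: `q ≤ r η + M' + m g / j + 30 h / j ≤ r η + M' + m a / 2 + 8/10^4` (`j ≥ 1/250`).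
(3) `b3` with `max = q - c (1+w)`: `(r + d) η ≤ 2 q - c (1+w) + (d-J) w - M' + g + h`, so with (1), (2): `c (1+w) + (d - r) η ≤ M' + m a + (d - J) w + a j/2 + 2/10^3 ≤ M' + (d - J) + a (J + y)/2 + 2/10^3 ≤ M' + d - J/2 + y/2 + 2/10^3`.
(4) `M' ≤ (x + p) w ≤ 4/5 w` (`f1`, `pR`). If `d ≥ r`: `d ≤ (1+J)/2`: `4/5 ≤ 1/2 + y/2 + 2/10^3 ≤ 3/4 + 2/10^3` (`y ≤ p ≤ R/2 ≤ 1/2`). If `d < r`: `(d - r) η ≥ d - r`, so `4/5 ≤ r - J/2 + y/2 + 2/10^3`, `r ≤ 1 - J` (`r = 1 + J - 2h - 2d`, `d ≥ J`), `J = R - p`, `y ≤ p ≤ R/2`: the right side is at most `1 - R/2 + 2/10^3 ≤ 31/40 + 2/10^3`. Contradiction.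
-/

namespace Pool.Agent.Lib.H42Y

theorem star (h t x M w p y J d r g j η q : ℝ) (P : Pt h t x M w)
    (D : RD h t x M w p y J d r g j) (C : CB h t x M w p J d r g j η q) :
    q ≤ cN h * (1 + w) := by
  by_contra hq
  have hq' : cN h * (1 + w) < q := not_le.1 hq
  have hh0 := P.h0
  have hh1 := P.h1
  have hc : 4 / 5 ≤ cN h := by
    unfold cN
    linarith
  have hx0 := P.x0
  have hx1 := P.x1
  have hM := P.M0
  have hw := P.w0
  have hf1 := P.f1
  have hf2 := P.f2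
  have ht1 := P.t1
  have ht0 := P.t0
  have hv := P.v0
  have hp0 := D.p0
  have hy0 := D.y0
  have hsum := D.sum
  have hyp := D.yp
  have hpR := D.pR
  have hj := D.jd
  have hj0 := D.j0
  have hJd := D.Jd
  have hr0 := D.r0
  have hrd := D.rd
  have hg1 := D.g1
  have he0 := C.e0
  have he1 := C.e1
  have hb2 := C.b2
  have hb3 := C.b3
  have hw2 : w ≤ 1 / 2 := by
    have h1 : (9 / 20 : ℝ) * w ≤ (1 - x) * w := mul_le_mul_of_nonneg_right (by linarith) hw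
    linarith
  -- (1)
  have h1 : g ≤ (1 - w) * j / 2 := by
    have h2 : 0 ≤ (1 - w) * (p - ((1 - x) - j - h) / 2) :=
      mul_nonneg (by linarith) (by linarith)
    have h3 : (1 - x) * w ≤ t + h := by linarith
    have h4 : 0 ≤ w * h := mul_nonneg hw hh0.le
    nlinarith
  -- (2)
  have hm : 0 ≤ d - h - j := by linarith
  have h2 : q - r * η - (M + p * w) ≤ (d - h - j) * (1 - w) / 2 + 8 / 10 ^ 4 := by
    by_contra hcon
    have hcon' := not_le.1 hcon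
    have h3 : (d - h - j) * g ≤ (d - h - j) * ((1 - w) * j / 2) :=
      mul_le_mul_of_nonneg_left h1 hm
    have h4 : j * ((d - h - j) * (1 - w) / 2 + 8 / 10 ^ 4) < j * (q - r * η - (M + p * w)) :=
      mul_lt_mul_of_pos_left hcon' (by linarith)
    have h5 : (8 / 10 ^ 4 : ℝ) * (1 / 250) ≤ (8 / 10 ^ 4 : ℝ) * j :=
      mul_le_mul_of_nonneg_left hj0 (by norm_num)
    nlinarith
  -- (3)
  have hmax : max 0 (q - cN h * (1 + w)) = q - cN h * (1 + w) := max_eq_right (by linarith)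
  rw [hmax] at hb3
  have h3 : cN h * (1 + w) + (d - r) * η ≤ (M + p * w) + d - J / 2 + y / 2 + 2 / 10 ^ 3 := by
    have h4 : (1 - w) * (J + y) ≤ 1 * (J + y) :=
      mul_le_mul_of_nonneg_right (by linarith) (by linarith)
    have h5 : 0 ≤ (1 - w) * h := mul_nonneg (by linarith) hh0.le
    subst hj
    nlinarith
  -- (4)
  have h4 : M + p * w ≤ cN h * w := by
    have h5 : (x + p) * w ≤ (4 / 5) * w := mul_le_mul_of_nonneg_right (by linarith) hw
    have h6 : (4 / 5) * w ≤ cN h * w := mul_le_mul_of_nonneg_right hc hw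
    linarith
  have h5 : cN h + (d - r) * η ≤ d - J / 2 + y / 2 + 2 / 10 ^ 3 := by linarith
  rcases le_total r d with h6 | h6
  · have h7 : 0 ≤ (d - r) * η := mul_nonneg (by linarith) he0
    linarith
  · have h7 : (r - d) * η ≤ (r - d) * 1 := mul_le_mul_of_nonneg_left he1 (by linarith)
    linarith

end Pool.Agent.Lib.H42Y
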