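import Pool.Agent.Lib.H42Y.Defs3

/-!
# Chunk NE3 (M)
Elimination in case (B).

Proof. `c = cN h ≥ 4/5`, `v = vv`, `R = 1 - x`, `M' = M + p w`, `m = d - h - j = d - J + y ≥ 0`; `w < 1/2`. If `q ≤ c w`: `max = 0` in `b1` and `q - r η ≥ -h`, so `CA`. Let `q > c w`; then `b1`: `j (v + p (1-2w) + c w - r η) ≤ (d - h - 2j) g + 2h`. `b3` (`max = 0`) times `j` plus `b2`: `j d η ≤ (m + j) g + j (d-J) w + 31 h ≤ d g + j (d-J) w + 32 h` (`g ≥ -h`). Multiply by `r / d`:
`j r η ≤ r g + j w r (d-J)/d + 32 h r/d`. `J ≥ R/2 ≥ 9/40` (`pR`); `r ≤ 1 - J ≤ 31/40`, `d ≥ J`, so `r/d ≤ 7/2`; and `r (d - J) ≤ 6/25 d`: with `r ≤ 1 + J - 2d` this follows from `2 d^2 - (19/25 + 3J) d + J + J^2 ≥ 0` for `1/5 ≤ J ≤ 1`, i.e. `8 (J + J^2) ≥ (19/25 + 3J)^2`. So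
`j (v + p (1-2w) + 14/25 w) ≤ (d + r - h - 2j) g + 114 h`, and `d + r ≤ 1` (`d + r = 1 + J - 2h - d`). If `d + r - h - 2j ≤ 0` or `g ≤ 0` the right side is at most `116 h` (`g ≥ -h`, coefficient in `[-2, 1]`) but the left side is at least `1/25000`: contradiction (`h ≤ 1/10^7`). Otherwise `0 < 1 - 2j` and
`0 < g ≤ G := (R - t - v)/2 - p (1-w) + 3h`, so `j (v + 14/25 w) + p (j (1-2w) + (1-2j)(1-w)) ≤ (1-2j) ((R-t-v)/2 + 3h) + 114 h`. The coefficient of `p` is `1 - j - w > 0`, and `p ≥ (R - j - h)/2`. Expanding: `j^2 - 2 Y j + (t + v - w R) ≤ 250 h` with `Y = x/2 + t - 53/50 w`. Since `t + v - w R ≥ v - h > 250 h`: `Y > 0`, and `t + v - w R ≤ Y^2 + 250 h`.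
-/

namespace Pool.Agent.Lib.H42Y

theorem elim_B (h t x M w p y J d r g j η q : ℝ) (P : Pt h t x M w)
    (D : RD h t x M w p y J d r g j) (C : CB h t x M w p J d r g j η q)
    (hq : q ≤ cN h * (1 + w)) :
    CA h t x M w p d g j ∨ (0 ≤ x / 2 + t - 53 / 50 * w ∧
      t + vv h t x M w - w * (1 - x) ≤ (x / 2 + t - 53 / 50 * w) ^ 2 + 250 * h) := by
  obtain ⟨h0, h1, t0, t1, x0, x1, M0, w0, f1, f2, v0⟩ := P
  obtain ⟨p0, y0, sum, yp, pR, jd, j0, Jd, r0, rd, g0, g1⟩ := D
  obtain ⟨e0, e1, rq, b1, b2, b3⟩ := C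
  have hc : cN h = 4 / 5 + h / 5 := rfl
  have hv : vv h t x M w = x + 3 * t + 1 - 2 * (cN h * (1 + w)) - 2 * M := rfl
  have hw : w < 1 / 2 := by
    rw [hv, hc] at v0
    nlinarith [mul_nonneg h0.le w0]
  generalize hvv : vv h t x M w = v at *
  generalize hcc : cN h = c at *
  have hc4 : 4 / 5 ≤ c := by rw [hc]; linarith
  have hJ0 : 9 / 40 ≤ J := by linarith
  have hJ1 : J ≤ 1 := by linarith
  have hj1 : j ≤ 1 := by linarith
  have hjpos : 0 < j := by linarith
  by_cases hqw : q ≤ c * w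
  · left
    rw [max_eq_left (by linarith)] at b1
    show j * (vv h t x M w + p * (1 - 2 * w)) ≤ (d - h - 2 * j) * g + 3 * h
    rw [hvv]
    have h2 : j * (-h) ≤ j * (q - r * η) := mul_le_mul_of_nonneg_left (by linarith) hjpos.le
    have h3 : j * h ≤ 1 * h := mul_le_mul_of_nonneg_right hj1 h0.le
    have e1 : j * (v + p * (1 - 2 * w) + q - 0 - r * η) =
        j * (v + p * (1 - 2 * w)) + j * (q - r * η) := by ring
    have e2 : j * (-h) = -(j * h) := by ring
    linarith
  · push Not at hqw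
    right
    rw [max_eq_right (by linarith)] at b1
    rw [max_eq_left (by linarith)] at b3
    have hd0 : 9 / 40 ≤ d := by linarith
    have hr1 : r ≤ 31 / 40 := by linarith
    have hrd : r ≤ 7 / 2 * d := by linarith
    -- the bound for j d η
    have k1 : j * (d * η) ≤ d * g + j * ((d - J) * w) + 32 * h := by
      have e : j * ((r + d) * η) ≤ j * (q + 0 + (d - J) * w - (M + p * w) + g + h) :=
        mul_le_mul_of_nonneg_left b3 hjpos.le
      have hh : h * (-g) ≤ h * 1 := mul_le_mul_of_nonneg_left (by linarith) h0.le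
      have hjh : j * h ≤ 1 * h := mul_le_mul_of_nonneg_right hj1 h0.le
      have e1 : j * ((r + d) * η) = j * (d * η) + j * (r * η) := by ring
      have e2 : j * (q + 0 + (d - J) * w - (M + p * w) + g + h) =
        j * q + j * ((d - J) * w) - j * (M + p * w) + j * g + j * h := by ring
      have e3 : j * (q - r * η - (M + p * w)) = j * q - j * (r * η) - j * (M + p * w) := by ring
      have e4 : (d - h - j) * g = d * g + h * (-g) - j * g := by ring
      linarith
    -- multiplied by r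
    have k2 : r * (d - J) ≤ 6 / 25 * d := by
      have s1 : r ≤ 1 + J - 2 * d := by linarith
      have s2 : r * (d - J) ≤ (1 + J - 2 * d) * (d - J) :=
        mul_le_mul_of_nonneg_right s1 (by linarith)
      have s3 : (19 / 25 + 3 * J) ^ 2 ≤ 8 * (J + J ^ 2) := by nlinarith
      nlinarith [sq_nonneg (4 * d - (19 / 25 + 3 * J))]
    have k3 : j * (r * η) ≤ r * g + 6 / 25 * (j * w) + 112 * h := by
      have s1 : r * (j * (d * η)) ≤ r * (d * g + j * ((d - J) * w) + 32 * h) :=
        mul_le_mul_of_nonneg_left k1 r0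
      have s2 : (j * w) * (r * (d - J)) ≤ (j * w) * (6 / 25 * d) :=
        mul_le_mul_of_nonneg_left k2 (mul_nonneg hjpos.le w0)
      have s3 : h * r ≤ h * (7 / 2 * d) := mul_le_mul_of_nonneg_left hrd h0.le
      have s4 : d * (j * (r * η)) ≤ d * (r * g + 6 / 25 * (j * w) + 112 * h) := by
        have e1 : d * (j * (r * η)) = r * (j * (d * η)) := by ring
        have e2 : r * (d * g + j * ((d - J) * w) + 32 * h) =
          d * (r * g) + (j * w) * (r * (d - J)) + 32 * (h * r) := by ring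
        have e3 : d * (r * g + 6 / 25 * (j * w) + 112 * h) =
          d * (r * g) + (j * w) * (6 / 25 * d) + 32 * (h * (7 / 2 * d)) := by ring
        linarith
      exact le_of_mul_le_mul_left s4 (by linarith)
    -- the main inequality
    have k4 : j * (v + p * (1 - 2 * w) + 14 / 25 * w) ≤ (d + r - h - 2 * j) * g + 114 * h := by
      have s1 : j * (4 / 5 * w) ≤ j * (c * w) :=
        mul_le_mul_of_nonneg_left (mul_le_mul_of_nonneg_right hc4 w0) hjpos.le
      have e1 : j * (v + p * (1 - 2 * w) + q - (q - c * w) - r * η) =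
        j * (v + p * (1 - 2 * w)) + j * (c * w) - j * (r * η) := by ring
      have e2 : j * (v + p * (1 - 2 * w) + 14 / 25 * w) =
        j * (v + p * (1 - 2 * w)) + 14 / 25 * (j * w) := by ring
      have e3 : j * (4 / 5 * w) = 4 / 5 * (j * w) := by ring
      have e4 : (d + r - h - 2 * j) * g = (d - h - 2 * j) * g + r * g := by ring
      linarith
    have hK1 : d + r - h - 2 * j ≤ 1 - 2 * j := by linarith
    have hK2 : -2 ≤ d + r - h - 2 * j := by linarith
    have hlow : 1 / 25000 ≤ j * (v + p * (1 - 2 * w) + 14 / 25 * w) := by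
      have s1 : 0 ≤ p * (1 - 2 * w) := mul_nonneg p0 (by linarith)
      have s2 : (1 / 250) * (1 / 100) ≤ j * (v + p * (1 - 2 * w) + 14 / 25 * w) :=
        mul_le_mul j0 (by linarith) (by norm_num) hjpos.le
      linarith
    have hKg : 0 < d + r - h - 2 * j ∧ 0 < g := by
      by_contra hcon
      have : (d + r - h - 2 * j) * g ≤ 2 * h := by
        by_cases hK : d + r - h - 2 * j ≤ 0
        · have s1 : (d + r - h - 2 * j) * (g + h) ≤ 0 :=
            mul_nonpos_of_nonpos_of_nonneg hK (by linarith)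
          have s2 : (-(d + r - h - 2 * j)) * h ≤ 2 * h :=
            mul_le_mul_of_nonneg_right (by linarith) h0.le
          have e1 : (d + r - h - 2 * j) * (g + h) = (d + r - h - 2 * j) * g -
            (-(d + r - h - 2 * j)) * h := by ring
          linarith
        · push Not at hK
          have hg : g ≤ 0 := by
            by_contra hg
            exact hcon ⟨hK, not_le.1 hg⟩
          have := mul_nonpos_of_nonneg_of_nonpos hK.le hg
          linarith
      linarith
    obtain ⟨hK, hg⟩ := hKg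
    have hj2 : 0 < 1 - 2 * j := by linarith
    set R : ℝ := 1 - x with hR
    have k5 : j * (v + p * (1 - 2 * w) + 14 / 25 * w) ≤
        (1 - 2 * j) * ((R - t - v) / 2 - p * (1 - w) + 3 * h) + 114 * h := by
      have s1 : (d + r - h - 2 * j) * g ≤ (1 - 2 * j) * g := mul_le_mul_of_nonneg_right hK1 hg.le
      have s2 : (1 - 2 * j) * g ≤ (1 - 2 * j) * ((R - t - v) / 2 - p * (1 - w) + 3 * h) :=
        mul_le_mul_of_nonneg_left (by linarith) hj2.le
      linarith
    have hp : (R - j - h) / 2 ≤ p := by linarith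
    have hcoef : 0 < 1 - j - w := by linarith
    have k6 : (1 - j - w) * ((R - j - h) / 2) ≤ (1 - j - w) * p :=
      mul_le_mul_of_nonneg_left hp hcoef.le
    have k7 : j ^ 2 - 2 * (x / 2 + t - 53 / 50 * w) * j + (t + v - w * R) ≤ 250 * h := by
      have s1 : 0 ≤ h * (j + w) := mul_nonneg h0.le (by linarith)
      have s2 : 0 ≤ h * j := mul_nonneg h0.le hjpos.le
      have hx : x = 1 - R := by rw [hR]; ring
      have e1 : j * (v + p * (1 - 2 * w) + 14 / 25 * w) =
        j * v + 14 / 25 * (j * w) + p * (j * (1 - 2 * w)) := by ring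
      have e2 : (1 - 2 * j) * ((R - t - v) / 2 - p * (1 - w) + 3 * h) =
        (1 - 2 * j) * (R - t - v) / 2 - (1 - j - w) * p + p * (j * (1 - 2 * w)) +
          3 * h - 6 * (h * j) := by ring
      have e3 : (1 - j - w) * ((R - j - h) / 2) =
        (1 - j - w) * (R - j) / 2 - h / 2 + h * (j + w) / 2 := by ring
      have e4 : j ^ 2 - 2 * (x / 2 + t - 53 / 50 * w) * j + (t + v - w * R) =
        2 * (j * v + 14 / 25 * (j * w)) + (1 - j - w) * (R - j) -
          (1 - 2 * j) * (R - t - v) := by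
        rw [hx]; ring
      rw [e4]
      linarith
    have k8 : 250 * h < t + v - w * R := by
      have e1 : w * R = R * w := by ring
      have : R * w ≤ t + h := by linarith
      linarith
    have hY : 0 < x / 2 + t - 53 / 50 * w := by
      by_contra hcon
      push Not at hcon
      have s1 : (x / 2 + t - 53 / 50 * w) * j ≤ 0 := mul_nonpos_of_nonpos_of_nonneg hcon hjpos.le
      have s2 : 0 ≤ j ^ 2 := sq_nonneg j
      have e1 : 2 * (x / 2 + t - 53 / 50 * w) * j = 2 * ((x / 2 + t - 53 / 50 * w) * j) := by ring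
      linarith
    refine ⟨hY.le, ?_⟩
    have s1 : 0 ≤ (j - (x / 2 + t - 53 / 50 * w)) ^ 2 := sq_nonneg _
    have e1 : (j - (x / 2 + t - 53 / 50 * w)) ^ 2 = j ^ 2 -
      2 * (x / 2 + t - 53 / 50 * w) * j + (x / 2 + t - 53 / 50 * w) ^ 2 := by ring
    linarith

end Pool.Agent.Lib.H42Y
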