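import Pool.Agent.Lib.H42Y.Defs3

/-!
# Chunk NE5 (M)
Elimination in case (A).

Proof. `v = vv ≥ 1/100`, `R = 1 - x`, `a = 1 - w`, `w < 1/2` (`(1-x) w ≤ t + h`, `x ≤ 11/20`). `CA`: `j (v + p (1-2w)) ≤ (d - h - 2j) g + 3h`. If `g ≤ 0` or `d - h - 2j ≤ 0` the right side is at most `6 h` (`g ≥ -h`, `g ≤ 1`, `|d - h - 2j| ≤ 2`; if both are `≤ 0` the product is at most `2h`) and the left side is at least `1/25000`: contradiction.
Otherwise `0 < d - h - 2j ≤ A(p) := (1 + R - p)/2 - 2j` (`2 d ≤ 1 + J`, `J = R - p`) and `0 < g ≤ G(p) := (R - t - v)/2 - p a + 3h`. Let `p0 = (R - j - h)/2 ≤ p` (`y ≤ p`, `y = R - p - j - h`). `A(p) ≤ A(p0)`, `G(p) ≤ G(p0)`, `p (1-2w) ≥ p0 (1-2w)`. So `j v + j p0 (1-2w) ≤ A(p0) G(p0) + 3h`, with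
`A(p0) = 1/2 + R/4 - 7/4 j + h/4`, `G(p0) = a j/2 - D0 + a h/2 + 3h`, `D0 = (t + v - w R)/2`. Expanding this is `QA ≤ 10 h` (the terms with `h` are at most `10 h`: `0 ≤ A(p0) ≤ 3/4 + h`, `0 ≤ G(p0) ≤ 1/2`, `j h/2 ≤ h/2`).
-/

namespace Pool.Agent.Lib.H42Y

theorem elim_A (h t x M w p y J d r g j : ℝ) (P : Pt h t x M w)
    (D : RD h t x M w p y J d r g j) (C : CA h t x M w p d g j) :
    QA t x w (vv h t x M w) j ≤ 10 * h := by
  obtain ⟨h0, h1, t0, t1, x0, x1, M0, w0, f1, f2, v0⟩ := P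
  obtain ⟨p0, y0, sum, yp, pR, jd, j0, Jd, r0, rd, g0, g1⟩ := D
  unfold CA at C
  unfold QA
  generalize vv h t x M w = v at *
  have hh : (1 : ℝ) / 10 ^ 7 = 1 / 10000000 := by norm_num
  rw [hh] at h1
  have hw9 : 9 / 20 * w ≤ 1 / 5 + 1 / 10000000 := by
    nlinarith [mul_nonneg (sub_nonneg.2 x1) w0]
  have hw : w < 1 / 2 := by linarith
  have hw2 : 0 ≤ 1 - 2 * w := by linarith
  have hj1 : j ≤ 1 := by linarith
  have hj00 : 0 ≤ j := by linarith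
  have hpw : 0 ≤ p * (1 - 2 * w) := mul_nonneg p0 hw2
  have hlhs : 1 / 25000 ≤ j * (v + p * (1 - 2 * w)) := by
    have h2 : 1 / 100 ≤ v + p * (1 - 2 * w) := by linarith
    calc (1 / 25000 : ℝ) = 1 / 250 * (1 / 100) := by norm_num
      _ ≤ j * (v + p * (1 - 2 * w)) := mul_le_mul j0 h2 (by norm_num) hj00
  rcases le_or_gt g 0 with hg | hg
  · exfalso
    have h3 : 0 ≤ (d - h - 2 * j + 3) * (-g) := mul_nonneg (by linarith) (by linarith)
    have h4 : (d - h - 2 * j) * g ≤ 3 * h := by nlinarith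
    linarith
  rcases le_or_gt (d - h - 2 * j) 0 with hA | hA
  · exfalso
    have h3 : (d - h - 2 * j) * g ≤ 0 := mul_nonpos_of_nonpos_of_nonneg hA hg.le
    linarith
  have hpp : (1 - x - j - h) / 2 ≤ p := by linarith
  have hA1 : d - h - 2 * j ≤ 3 / 4 - x / 4 - 7 / 4 * j + h / 4 := by linarith
  have hG1 : g ≤ (1 - x - t - v) / 2 - (1 - x - j - h) / 2 * (1 - w) + 3 * h := by
    have h3 : (1 - x - j - h) / 2 * (1 - w) ≤ p * (1 - w) :=
      mul_le_mul_of_nonneg_right hpp (by linarith)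
    linarith
  have hprod : (d - h - 2 * j) * g ≤ (3 / 4 - x / 4 - 7 / 4 * j + h / 4) *
      ((1 - x - t - v) / 2 - (1 - x - j - h) / 2 * (1 - w) + 3 * h) :=
    mul_le_mul hA1 hG1 hg.le (hA.le.trans hA1)
  have hp : j * (v + (1 - x - j - h) / 2 * (1 - 2 * w)) ≤ j * (v + p * (1 - 2 * w)) := by
    apply mul_le_mul_of_nonneg_left _ hj00
    have h3 : (1 - x - j - h) / 2 * (1 - 2 * w) ≤ p * (1 - 2 * w) :=
      mul_le_mul_of_nonneg_right hpp hw2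
    linarith
  have e1 : (3 / 4 - x / 4 - 7 / 4 * j) * ((1 - w) / 2 + 3) ≤ 21 / 8 := by
    have h3 : 3 / 4 - x / 4 - 7 / 4 * j ≤ 3 / 4 := by linarith
    have h4 : 0 ≤ (1 - w) / 2 + 3 := by linarith
    have h5 := mul_le_mul_of_nonneg_right h3 h4
    linarith
  have e2 : (1 - x - t - v) / 2 - (1 - x - j - h) / 2 * (1 - w) + 3 * h ≤ 1 := by
    have h3 : 0 ≤ (t + h - M - (1 - x) * w) := by linarith
    have h4 : j * (1 - w) ≤ 1 := by nlinarith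
    have h5 : h * (1 - w) ≤ h := by nlinarith
    nlinarith
  have e3 : j * (1 - 2 * w) ≤ 1 := by nlinarith
  have f1' : h * ((3 / 4 - x / 4 - 7 / 4 * j) * ((1 - w) / 2 + 3)) ≤ h * (21 / 8) :=
    mul_le_mul_of_nonneg_left e1 h0.le
  have f2' : h * ((1 - x - t - v) / 2 - (1 - x - j - h) / 2 * (1 - w) + 3 * h) ≤ h * 1 :=
    mul_le_mul_of_nonneg_left e2 h0.le
  have f3' : h * (j * (1 - 2 * w)) ≤ h * 1 := mul_le_mul_of_nonneg_left e3 h0.le
  have key : (3 / 8 + w / 8) * j ^ 2 -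
      j * ((3 / 4 - x / 4) * (1 - w) / 2 + 7 / 8 * (t + v - w * (1 - x)) - v -
        (1 - 2 * w) * (1 - x) / 2) + (3 / 4 - x / 4) * ((t + v - w * (1 - x)) / 2) =
      j * (v + (1 - x - j - h) / 2 * (1 - 2 * w)) -
        (3 / 4 - x / 4 - 7 / 4 * j + h / 4) *
          ((1 - x - t - v) / 2 - (1 - x - j - h) / 2 * (1 - w) + 3 * h) +
        h * ((3 / 4 - x / 4 - 7 / 4 * j) * ((1 - w) / 2 + 3)) +
        h * ((1 - x - t - v) / 2 - (1 - x - j - h) / 2 * (1 - w) + 3 * h) / 4 +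
        h * (j * (1 - 2 * w)) / 2 := by ring
  rw [key]
  linarith

end Pool.Agent.Lib.H42Y
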