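import Pool.Agent.Lib.H42Y.Defs3

/-!
# Chunk NE6 (M)
The quadratic expression is positive.

Proof. `α = 3/8 + w/8`, `β = 3/4 - x/4`, `D0 = (t + v - w (1-x))/2`, `QA = α j^2 - j C + β D0` with (expand) `C = t - 1/8 + 3/8 x - (3/8 - x/8) w - D0/4`. `4 α QA = (2 α j - C)^2 + 4 α β D0 - C^2 ≥ F(v) := 4 α β D0 - C^2`. `F` is increasing in `v` on `[1/100, ..]` (derivative `2 α β + C/4 > 0` as `C ≥ -1`; or directly: `F(v) - F(1/100) = (v - 1/100) (2 α β + (C(v) + C(1/100))/8)`). With `v = 1/100`: `C = 7/8 t + 3/8 x - 101/800 - w/4` and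
`F(1/100) = (3/8 + w/8)(3/2 - x/2)(t + 1/100 - w (1-x)) - (7/8 t + 3/8 x - 101/800 - w/4)^2`. Claim: `F(1/100) ≥ 3/1000` for `0 ≤ w`, `8/5 w ≤ x + 3t - 61/100` in the region (checked by computer: the minimum is `0.0031`, at `t = 3/25`, `x = 11/20`, `w = 3/16`; and `0.0038` for `x ≤ 1/2`). `F(1/100)` is concave in `w` (the coefficient of `w^2` is negative), so it is enough to treat `w = 0` and `w = 5/8 (x + 3t - 61/100)`: polynomials in `x, t` on a polygon.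
(Then `QA ≥ 3/1000/(4 α) > 10^(-5)`, as `w ≤ 1`.) Alternatively cut the region into small boxes and use `nlinarith` on each.
-/

namespace Pool.Agent.Lib.H42Y

private theorem NE6_G1A (x u : ℝ) (hu : 0 ≤ u) (h1 : u ≤ x - 1 / 4) (h2 : x ≤ 11 / 20) :
    1 / 1000 ≤ (3 / 4 + 5 * u / 32) * (3 / 4 - x / 4) * (16 / 75 - x / 3 - u * (7 / 24 - 5 * x / 8)) -
      (13 * u / 96 + x / 12 + 31 / 600) ^ 2 := by
  nlinarith [mul_nonneg hu (sub_nonneg.2 h1), mul_nonneg hu (sub_nonneg.2 h2),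
    mul_nonneg (sub_nonneg.2 h1) (sub_nonneg.2 h2),
    mul_nonneg (mul_nonneg hu (sub_nonneg.2 h1)) (sub_nonneg.2 h2), mul_nonneg hu hu,
    mul_nonneg (sub_nonneg.2 h2) (sub_nonneg.2 h2), mul_nonneg (mul_nonneg hu hu) (sub_nonneg.2 h2),
    mul_nonneg (mul_nonneg hu hu) (sub_nonneg.2 h1)]

private theorem NE6_G1B (x u : ℝ) (hu : 0 ≤ u) (h1 : u ≤ x) (h2 : x ≤ 1 / 2) :
    1 / 1000 ≤ (3 / 4 + 5 * u / 32) * (3 / 4 - x / 4) * (16 / 75 - x / 3 - u * (7 / 24 - 5 * x / 8)) -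
      (13 * u / 96 + x / 12 + 31 / 600) ^ 2 := by
  nlinarith [mul_nonneg hu (sub_nonneg.2 h1), mul_nonneg hu (sub_nonneg.2 h2),
    mul_nonneg (sub_nonneg.2 h1) (sub_nonneg.2 h2),
    mul_nonneg (mul_nonneg hu (sub_nonneg.2 h1)) (sub_nonneg.2 h2), mul_nonneg hu hu,
    mul_nonneg (sub_nonneg.2 h2) (sub_nonneg.2 h2), mul_nonneg (mul_nonneg hu hu) (sub_nonneg.2 h2),
    mul_nonneg (mul_nonneg hu hu) (sub_nonneg.2 h1)]

private theorem NE6_G0 (x t : ℝ) (t0 : 1 / 25 ≤ t) (t1 : t ≤ 1 / 5) (x0 : 0 ≤ x) (x1 : x ≤ 11 / 20)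
    (h : 61 / 100 ≤ x + 3 * t) :
    1 / 1000 ≤ 3 / 4 * (3 / 4 - x / 4) * (t + 1 / 100) - (7 * t / 8 + 3 * x / 8 - 101 / 800) ^ 2 := by
  nlinarith [mul_nonneg (sub_nonneg.2 t0) (sub_nonneg.2 t1), mul_nonneg x0 (sub_nonneg.2 x1),
    mul_nonneg x0 (sub_nonneg.2 t1), mul_nonneg (sub_nonneg.2 t0) (sub_nonneg.2 x1),
    mul_nonneg (sub_nonneg.2 h) (sub_nonneg.2 x1), mul_nonneg (sub_nonneg.2 h) (sub_nonneg.2 t1)]

/-- The discriminant at `v = 1/100`. -/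
private noncomputable def NE6_F (t x w : ℝ) : ℝ :=
  2 * (3 / 8 + w / 8) * (3 / 4 - x / 4) * (t + 1 / 100 - w * (1 - x)) -
    (7 * t / 8 + 3 * x / 8 - 101 / 800 - w / 4) ^ 2

private theorem NE6_one (t x w : ℝ) (t0 : 1 / 25 ≤ t) (t1 : t ≤ 1 / 5) (x0 : 0 ≤ x)
    (x1 : x ≤ 11 / 20) (reg : t ≤ 3 / 25 ∨ x ≤ 1 / 2) (w0 : 0 ≤ w)
    (hw : w ≤ 5 / 8 * (x + 3 * t - 61 / 100)) : 1 / 1000 ≤ NE6_F t x w := by
  obtain ⟨m, hm⟩ : ∃ m : ℝ, m = 5 / 8 * (x + 3 * t - 61 / 100) := ⟨_, rfl⟩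
  have hwm : w ≤ m := by rw [hm]; exact hw
  have h0 : 1 / 1000 ≤ NE6_F t x 0 := by
    have h1 := NE6_G0 x t t0 t1 x0 x1 (by linarith)
    unfold NE6_F
    nlinarith [h1]
  have hu0 : 0 ≤ 8 / 5 * m := by linarith
  have hu1 : 8 / 5 * m = x + 3 * t - 61 / 100 := by rw [hm]; ring
  have h1 : 1 / 1000 ≤ NE6_F t x m := by
    have e : NE6_F t x m = (3 / 4 + 5 * (8 / 5 * m) / 32) * (3 / 4 - x / 4) *
        (16 / 75 - x / 3 - (8 / 5 * m) * (7 / 24 - 5 * x / 8)) -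
        (13 * (8 / 5 * m) / 96 + x / 12 + 31 / 600) ^ 2 := by
      unfold NE6_F
      rw [hm]
      ring
    rw [e]
    rcases reg with h | h
    · exact NE6_G1A x _ hu0 (by linarith) x1
    · exact NE6_G1B x _ hu0 (by linarith) h
  rcases w0.lt_or_eq with hw0 | hw0
  · have hm0 : 0 < m := by linarith
    have key : m * NE6_F t x w = (m - w) * NE6_F t x 0 + w * NE6_F t x m +
        w * (m - w) * m * (1 / 4 * (3 / 4 - x / 4) * (1 - x) + 1 / 16) := by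
      unfold NE6_F
      ring
    have h2 : 0 ≤ w * (m - w) * m * (1 / 4 * (3 / 4 - x / 4) * (1 - x) + 1 / 16) := by
      have h3 : 0 ≤ m - w := by linarith
      have h4 : 0 ≤ 3 / 4 - x / 4 := by linarith
      have h5 : 0 ≤ 1 - x := by linarith
      positivity
    have h3 : (m - w) * (1 / 1000) ≤ (m - w) * NE6_F t x 0 :=
      mul_le_mul_of_nonneg_left h0 (by linarith)
    have h4 : w * (1 / 1000) ≤ w * NE6_F t x m := mul_le_mul_of_nonneg_left h1 w0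
    have h5 : m * (1 / 1000) ≤ m * NE6_F t x w := by
      rw [key]
      linarith
    exact le_of_mul_le_mul_left h5 hm0
  · rw [← hw0]
    exact h0

theorem quad (t x w v j : ℝ) (t0 : 1 / 25 ≤ t) (t1 : t ≤ 1 / 5) (x0 : 0 ≤ x) (x1 : x ≤ 11 / 20)
    (reg : t ≤ 3 / 25 ∨ x ≤ 1 / 2) (w0 : 0 ≤ w) (v0 : 1 / 100 ≤ v)
    (hv : v + 8 / 5 * w ≤ x + 3 * t - 3 / 5) : 1 / 10 ^ 5 < QA t x w v j := by
  have h1 := NE6_one t x w t0 t1 x0 x1 reg w0 (by linarith)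
  have hw1 : w ≤ 1 / 2 := by linarith
  have hv1 : v ≤ 3 / 5 := by linarith
  obtain ⟨C, hC⟩ : ∃ C : ℝ, C = (3 / 4 - x / 4) * (1 - w) / 2 + 7 / 8 * (t + v - w * (1 - x)) - v -
      (1 - 2 * w) * (1 - x) / 2 := ⟨_, rfl⟩
  have hC1 : C = 7 * t / 8 + 3 * x / 8 - 101 / 800 - w / 4 - (v - 1 / 100) / 8 := by
    rw [hC]
    ring
  have hCm : -1 ≤ C := by
    rw [hC1]
    linarith
  have hα0 : 3 / 8 ≤ 3 / 8 + w / 8 := by linarith
  have hβ0 : 6 / 10 ≤ 3 / 4 - x / 4 := by linarith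
  have hαβ : 9 / 40 ≤ (3 / 8 + w / 8) * (3 / 4 - x / 4) := by nlinarith
  have hF : NE6_F t x w ≤ 4 * (3 / 8 + w / 8) * ((3 / 4 - x / 4) * ((t + v - w * (1 - x)) / 2)) -
      C ^ 2 := by
    have e : 4 * (3 / 8 + w / 8) * ((3 / 4 - x / 4) * ((t + v - w * (1 - x)) / 2)) - C ^ 2 -
        NE6_F t x w = (v - 1 / 100) * (2 * ((3 / 8 + w / 8) * (3 / 4 - x / 4)) +
          (C + (C + (v - 1 / 100) / 8)) / 8) := by
      unfold NE6_F
      rw [hC1]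
      ring
    have h2 : 0 ≤ (v - 1 / 100) * (2 * ((3 / 8 + w / 8) * (3 / 4 - x / 4)) +
          (C + (C + (v - 1 / 100) / 8)) / 8) := by
      apply mul_nonneg
      · linarith
      · linarith
    linarith
  have hQ : 4 * (3 / 8 + w / 8) * QA t x w v j = (2 * (3 / 8 + w / 8) * j - C) ^ 2 +
      (4 * (3 / 8 + w / 8) * ((3 / 4 - x / 4) * ((t + v - w * (1 - x)) / 2)) - C ^ 2) := by
    unfold QA
    rw [hC]
    ring
  have h3 : 1 / 1000 ≤ 4 * (3 / 8 + w / 8) * QA t x w v j := by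
    rw [hQ]
    have := sq_nonneg (2 * (3 / 8 + w / 8) * j - C)
    linarith
  by_contra hcon
  push Not at hcon
  have h4 : 4 * (3 / 8 + w / 8) * QA t x w v j ≤ 4 * (3 / 8 + w / 8) * (1 / 10 ^ 5) :=
    mul_le_mul_of_nonneg_left hcon (by linarith)
  have h5 : (4 : ℝ) * (3 / 8 + w / 8) * (1 / 10 ^ 5) ≤ 4 * 1 * (1 / 10 ^ 5) := by
    apply mul_le_mul_of_nonneg_right _ (by positivity)
    linarith
  norm_num at h5
  linarith

end Pool.Agent.Lib.H42Y
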