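import Pool.Agent.Lib.H42Y.NE1
import Pool.Agent.Lib.H42Y.NE2
import Pool.Agent.Lib.H42Y.NE3
import Pool.Agent.Lib.H42Y.NE5
import Pool.Agent.Lib.H42Y.NE6

/-!
# Chunk ALT (M)
The alternatives at the index `k`.

Proof. `elim`: `reduce` (NE1) gives `RD` and `CA` or `CB`. `CB`: `star` (NE2) gives `q ≤ cN h (1 + w)`, then `elim_B` (NE3) gives `CA` or the claim. `CA` is impossible: `elim_A` (NE5) gives `QA ≤ 10 h` at `v = vv`, and `quad` (NE6) gives `10^(-5) < QA` (`v + 8/5 w ≤ x + 3t - 3/5` by definition of `vv`, `M ≥ 0`, `h ≥ 0`).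
`alt`: let `x = h k`, and suppose `4/5 w < 1/5 + t - 2 h` (otherwise the third alternative). `KQ` by `S.kk`. `w ≤ 1`. If `vv h t x M w < 1/100`: by definition `2 M + 8/5 w > x + 3 t - 61/100 - 2/5 h (1 + w) ≥ x + 3t - 61/100 - h`. Otherwise `Pt` holds (`S.f1`, `S.f2`, ...), and `elim` gives, by definition of `vv` (`2 cN h (1+w) = 8/5 + 8/5 w + 2/5 h (1+w)`), the second alternative.
-/

namespace Pool.Agent.Lib.H42Y

theorem elim (h t x M w : ℝ) (P : Pt h t x M w) (K : KQ h t x M w)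
    (reg : t ≤ 3 / 25 ∨ x ≤ 1 / 2) :
    0 ≤ x / 2 + t - 53 / 50 * w ∧
      t + vv h t x M w - w * (1 - x) ≤ (x / 2 + t - 53 / 50 * w) ^ 2 + 250 * h := by
  obtain ⟨p, y, J, d, r, g, j, D, hC⟩ := reduce h t x M w P K
  have hv : vv h t x M w + 8 / 5 * w ≤ x + 3 * t - 3 / 5 := by
    have h1 : 0 ≤ h * (1 + w) := mul_nonneg P.h0.le (by linarith [P.w0])
    have h2 := P.M0
    unfold vv cN
    nlinarith
  have hA : CA h t x M w p d g j → False := by
    intro C
    have h1 := elim_A h t x M w p y J d r g j P D C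
    have h2 := quad t x w (vv h t x M w) j P.t0 P.t1 P.x0 P.x1 reg P.w0 P.v0 hv
    have h3 := P.h1
    norm_num at h2 h3
    linarith
  rcases hC with C | ⟨η, q, C⟩
  · exact (hA C).elim
  · rcases elim_B h t x M w p y J d r g j η q P D C (star h t x M w p y J d r g j η q P D C) with
      C' | h'
    · exact (hA C').elim
    · exact h'

theorem alt (n : ℕ) (h t : ℝ) (M w : ℕ → ℝ) (S : Sq n h t M w) (ht : 1 / 25 ≤ t) (k : ℕ)
    (hk : 2 ≤ k) (hkn : k ≤ n) (hx : h * k ≤ 11 / 20) (hreg : t ≤ 3 / 25 ∨ h * k ≤ 1 / 2) :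
    h * k + 3 * t - 61 / 100 - h ≤ 2 * M k + 8 / 5 * w k ∨
      (0 ≤ h * k / 2 + t - 53 / 50 * w k ∧
        h * k + 4 * t - 3 / 5 - 251 * h ≤ 2 * M k + (8 / 5 + (1 - h * k)) * w k +
          (h * k / 2 + t - 53 / 50 * w k) ^ 2) ∨
      1 / 5 + t - 2 * h ≤ 4 / 5 * w k := by
  have hn : (0 : ℝ) < (n : ℝ) + 1 := by positivity
  have h0 : 0 < h := by
    by_contra hcon
    push Not at hcon
    have := mul_nonpos_of_nonpos_of_nonneg hcon hn.le
    linarith [S.h0]
  have hw0 := S.w0 k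
  have hM0 := S.M0 k
  have ht1 := S.t1
  by_cases h3 : 1 / 5 + t - 2 * h ≤ 4 / 5 * w k
  · exact Or.inr (Or.inr h3)
  · push Not at h3
    have K := S.kk k hk hkn h3
    have hw1 : w k ≤ 1 / 2 := by linarith
    have hhw : h * (1 + w k) ≤ h * (3 / 2) := mul_le_mul_of_nonneg_left (by linarith) h0.le
    by_cases hv : 1 / 100 ≤ vv h t (h * k) (M k) (w k)
    · have P : Pt h t (h * k) (M k) (w k) :=
        { h0 := h0
          h1 := S.h1
          t0 := ht
          t1 := S.t1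
          x0 := by positivity
          x1 := hx
          M0 := hM0
          w0 := hw0
          f1 := S.f1 k (by omega)
          f2 := S.f2 k (by omega) (by omega)
          v0 := hv }
      obtain ⟨e1, e2⟩ := elim h t (h * k) (M k) (w k) P K hreg
      refine Or.inr (Or.inl ⟨e1, ?_⟩)
      unfold vv cN at e2
      nlinarith
    · push Not at hv
      left
      unfold vv cN at hv
      nlinarith

end Pool.Agent.Lib.H42Y
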