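import Pool.Agent.Lib.H42Y.MA2

/-!
# Chunk TB1 (S/M)
Weighted Taylor coefficients: linearity and multiplication by `T = X - C ζ`.

Proof. `taylor ζ` is linear, `taylor_mul`, `taylor_X`, `taylor_C`: `taylor ζ (X - C ζ) = X`, so `taylor ζ ((X - C ζ) * p) = X * taylor ζ p` (`coeff_X_mul`,
`mul_coeff_zero`). `wn_shift`: a minor of the left side whose columns contain 0 vanishes (zero column: the value of every
`(X - ζ) v i` at `ζ` is 0); the others have columns `s j = s' j + 1`, with entries `t (s' j + 1) * coeff (s' j)`: minors of the right side with columns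
`s' j < M - 1`. Conversely a minor of the right side with a column `M - 1` vanishes (`natDegree (v i) < M - 1`, and `taylor` keeps the degree:
`natDegree_taylor`), and the others have columns `s' j < M - 1` and come from `s j = s' j + 1`. For an empty `ι` both are 1. `wn_sub`: `mx_elim_sub` for `tv` of the
families. `wn_mono`: a minor for the weights `t` is `(∏ t (s j))` times the minor of the unweighted coefficients (`Matrix.det_mul_row`/`det_mul_column`).
-/

open Polynomial

namespace Pool.Agent.Lib.H42Y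

variable {ι κ : Type} [Fintype ι] [DecidableEq ι] [Fintype κ] [DecidableEq κ]

private theorem tb1_taylor_T (ζ : ℝ) (p : ℝ[X]) :
    taylor ζ ((X - C ζ) * p) = X * taylor ζ p := by
  rw [taylor_mul, map_sub, taylor_X, taylor_C, add_sub_cancel_right]

theorem tv_sum (M : ℕ) (ζ : ℝ) (t : ℕ → ℝ) (c : ι → ℝ) (p : ι → ℝ[X]) :
    tv M ζ t (∑ i, C (c i) * p i) = ∑ i, c i • tv M ζ t (p i) := by
  funext j
  simp only [tv, map_sum, taylor_mul, taylor_C, finsetSum_coeff, coeff_C_mul, Finset.mul_sum,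
    Finset.sum_apply, Pi.smul_apply, smul_eq_mul]
  exact Finset.sum_congr rfl fun i _ => by ring

theorem tv_sub (M : ℕ) (ζ : ℝ) (t : ℕ → ℝ) (p q : ℝ[X]) :
    tv M ζ t (p - q) = tv M ζ t p - tv M ζ t q := by
  funext j
  simp only [tv, map_sub, coeff_sub, Pi.sub_apply]
  ring

theorem taylor_T_zero (ζ : ℝ) (p : ℝ[X]) : (taylor ζ ((X - C ζ) * p)).coeff 0 = 0 := by
  rw [tb1_taylor_T, mul_coeff_zero, coeff_X_zero, zero_mul]

theorem taylor_T_succ (ζ : ℝ) (p : ℝ[X]) (c : ℕ) :
    (taylor ζ ((X - C ζ) * p)).coeff (c + 1) = (taylor ζ p).coeff c := by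
  rw [tb1_taylor_T, coeff_X_mul]

theorem wn_shift (M : ℕ) (ζ : ℝ) (t : ℕ → ℝ) (v : ι → ℝ[X]) (hv : ∀ i, (v i).natDegree + 1 < M) :
    wn M ζ t (fun i => (X - C ζ) * v i) = wn M ζ (fun c => t (c + 1)) v := by
  apply le_antisymm
  · refine mx_le _ _ (mx_nonneg _) fun s => ?_
    by_cases h : ∃ j, (s j : ℕ) = 0
    · obtain ⟨j, hj⟩ := h
      rw [Matrix.det_eq_zero_of_column_eq_zero j (fun i => by
        show t (s j) * (taylor ζ ((X - C ζ) * v i)).coeff (s j) = 0
        rw [hj, taylor_T_zero, mul_zero]), abs_zero]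
      exact mx_nonneg _
    · push Not at h
      have hs : ∀ j, (s j : ℕ) - 1 < M := fun j => lt_of_le_of_lt (Nat.sub_le _ _) (s j).2
      refine le_trans (le_of_eq ?_) (le_mx (fun i => tv M ζ (fun c => t (c + 1)) (v i))
        fun j => ⟨(s j : ℕ) - 1, hs j⟩)
      refine congrArg (fun A : Matrix ι ι ℝ => |A.det|) ?_
      ext i j
      show t (s j) * (taylor ζ ((X - C ζ) * v i)).coeff (s j) =
        t ((s j : ℕ) - 1 + 1) * (taylor ζ (v i)).coeff ((s j : ℕ) - 1)
      obtain ⟨c, hc⟩ : ∃ c, (s j : ℕ) = c + 1 := Nat.exists_eq_succ_of_ne_zero (h j)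
      rw [hc, taylor_T_succ, Nat.add_sub_cancel]
  · refine mx_le _ _ (mx_nonneg _) fun s => ?_
    by_cases h : ∃ j, (s j : ℕ) + 1 = M
    · obtain ⟨j, hj⟩ := h
      rw [Matrix.det_eq_zero_of_column_eq_zero j (fun i => by
        show t ((s j : ℕ) + 1) * (taylor ζ (v i)).coeff (s j) = 0
        have h1 : (taylor ζ (v i)).coeff (s j) = 0 := by
          apply coeff_eq_zero_of_natDegree_lt
          rw [natDegree_taylor]
          have := hv i
          omega
        rw [h1, mul_zero]), abs_zero]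
      exact mx_nonneg _
    · push Not at h
      have hs : ∀ j, (s j : ℕ) + 1 < M := fun j => lt_of_le_of_ne (s j).2 (h j)
      refine le_trans (le_of_eq ?_) (le_mx (fun i => tv M ζ t ((X - C ζ) * v i))
        fun j => ⟨(s j : ℕ) + 1, hs j⟩)
      refine congrArg (fun A : Matrix ι ι ℝ => |A.det|) ?_
      ext i j
      show t ((s j : ℕ) + 1) * (taylor ζ (v i)).coeff (s j) =
        t ((s j : ℕ) + 1) * (taylor ζ ((X - C ζ) * v i)).coeff ((s j : ℕ) + 1)
      rw [taylor_T_succ]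

theorem wn_sub (M : ℕ) (ζ : ℝ) (t : ℕ → ℝ) (v : ι → ℝ[X]) (w : κ → ℝ[X]) (c : κ → ι → ℝ) :
    wn M ζ t (Sum.elim v fun k => w k - ∑ i, C (c k i) * v i) = wn M ζ t (Sum.elim v w) := by
  have h1 : (fun i : ι ⊕ κ => tv M ζ t (Sum.elim v (fun k => w k - ∑ i, C (c k i) * v i) i)) =
      Sum.elim (fun i => tv M ζ t (v i))
        fun k => tv M ζ t (w k) - ∑ i, c k i • tv M ζ t (v i) := by
    funext i
    rcases i with i | k
    · rfl
    · simp only [Sum.elim_inr]
      rw [tv_sub, tv_sum]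
  have h2 : (fun i : ι ⊕ κ => tv M ζ t (Sum.elim v w i)) =
      Sum.elim (fun i => tv M ζ t (v i)) fun k => tv M ζ t (w k) := by
    funext i
    rcases i with i | k <;> rfl
  rw [wn, wn, h1, h2, mx_elim_sub]

theorem wn_mono (M : ℕ) (ζ : ℝ) (t t' : ℕ → ℝ) (h0 : ∀ c, 0 ≤ t c) (h : ∀ c, t c ≤ t' c)
    (v : ι → ℝ[X]) : wn M ζ t v ≤ wn M ζ t' v := by
  refine mx_le _ _ (mx_nonneg _) fun s => ?_
  have key : ∀ t : ℕ → ℝ, (Matrix.of fun i j : ι => tv M ζ t (v i) (s j)).det =
      (∏ j, t (s j)) * (Matrix.of fun i j : ι => (taylor ζ (v i)).coeff (s j)).det := fun t =>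
    Matrix.det_mul_row (fun j => t (s j))
      (Matrix.of fun i j : ι => (taylor ζ (v i)).coeff (s j))
  refine le_trans ?_ (le_mx (fun i => tv M ζ t' (v i)) s)
  rw [key t, key t', abs_mul, abs_mul]
  refine mul_le_mul_of_nonneg_right ?_ (abs_nonneg _)
  rw [abs_of_nonneg (Finset.prod_nonneg fun j _ => h0 _),
    abs_of_nonneg (Finset.prod_nonneg fun j _ => (h0 _).trans (h _))]
  exact Finset.prod_le_prod (fun j _ => h0 _) fun j _ => h _

end Pool.Agent.Lib.H42Y
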