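import Pool.Agent.Lib.H42Y.LC1
import Pool.Agent.Lib.H42Y.TB1

/-!
# Chunk LC2 (M)
The covolume of the integer points.

Proof. `cov_eq`: by `exists_zb` (every finite-dimensional... here `V` has a `ℤ`-basis `v`, so by `zb_card` and an equivalence `ι ≃ Fin (finrank V)` the set in the definition of `cov` is nonempty); let `v'` be the chosen
basis, reindexed to `ι`. `v' = A v` and `v = A' v'` with integer matrices (`ZB.int`, membership in a span over `ℤ`), `A' A = 1` by independence, so `det A = ±1` and `mx_lin`, `mx_reindex` give the equality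
(`tv` of an integer combination: `tv_sum`, `toR` is additive; `toR (∑ i, A i j • v j) = ∑ C (A i j) * toR (v j)`). `cov_le`: `exists_zb` gives `v`, reindexed to `ι` (`hc`), `w = A v` with an integer matrix `A`,
`det A ≠ 0` since the `w i` are independent over `ℚ`, so `|det A| ≥ 1` and `wn w = |det A| wn v ≥ wn v = cov` (`cov_eq`). `wn_pos`: integer polynomials of degree `< M`, independent over `ℚ`, are independent over `ℝ`
(`LinearIndependent.map`-type result for field extensions, or a nonzero minor of the integer coefficient matrix; see `rw_indep` in `Lib/H42W/RW.lean`), so are their Taylor vectors (the map `p ↦ tv p` is injective on polynomials of degree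
`< M` as `t c > 0`), `mx_pos`. `cov_pos`: `exists_zb`, `cov_eq`, `wn_pos`. `cov_bot`: the empty family.
-/

open Polynomial

namespace Pool.Agent.Lib.H42Y

/-- Reindexing a `ℤ`-basis. -/
private theorem lc2_re {V : Submodule ℚ ℚ[X]} {ι κ : Type} [Fintype ι] [Fintype κ] (e : κ ≃ ι)
    {v : ι → ℤ[X]} (hv : ZB V v) : ZB V (fun k => v (e k)) where
  ind := hv.ind.comp e e.injective
  span := by
    rw [← hv.span]
    congr 1
    ext x
    constructor
    · rintro ⟨k, rfl⟩
      exact ⟨e k, rfl⟩
    · rintro ⟨i, rfl⟩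
      exact ⟨e.symm i, by simp only [Equiv.apply_symm_apply]⟩
  int := fun f hf => by
    have h := hv.int f hf
    have h2 : Set.range (fun k => v (e k)) = Set.range v := by
      ext x
      constructor
      · rintro ⟨k, rfl⟩
        exact ⟨e k, rfl⟩
      · rintro ⟨i, rfl⟩
        exact ⟨e.symm i, by simp only [Equiv.apply_symm_apply]⟩
    rw [h2]
    exact h

private theorem lc2_toR (A : ℤ) (p : ℤ[X]) : toR (A • p) = C (A : ℝ) * toR p := by
  unfold toR
  rw [smul_eq_C_mul, Polynomial.map_mul, map_C]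
  rfl

private theorem lc2_toQ (A : ℤ) (p : ℤ[X]) : toQ (A • p) = (A : ℚ) • toQ p := by
  unfold toQ
  rw [smul_eq_C_mul, Polynomial.map_mul, map_C, smul_eq_C_mul]
  rfl

private theorem lc2_toR_sum {ι : Type} [Fintype ι] (p : ι → ℤ[X]) :
    toR (∑ i, p i) = ∑ i, toR (p i) := by
  unfold toR
  exact Polynomial.map_sum _ _ _

private theorem lc2_toQ_sum {ι : Type} [Fintype ι] (p : ι → ℤ[X]) :
    toQ (∑ i, p i) = ∑ i, toQ (p i) := by
  unfold toQ
  exact Polynomial.map_sum _ _ _

/-- A `ℤ`-basis has the smallest norm among the independent families of the same size. -/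
private theorem lc2_le (M : ℕ) (ζ : ℝ) (t : ℕ → ℝ) (V : Submodule ℚ ℚ[X]) {ι : Type} [Fintype ι]
    [DecidableEq ι] (v w : ι → ℤ[X]) (hv : ZB V v) (hw : ∀ i, toQ (w i) ∈ V)
    (hi : LinearIndependent ℚ fun i => toQ (w i)) :
    wn M ζ t (fun i => toR (v i)) ≤ wn M ζ t (fun i => toR (w i)) := by
  have h1 : ∀ i, ∃ a : ι → ℤ, ∑ j, a j • v j = w i := fun i =>
    (Submodule.mem_span_range_iff_exists_fun ℤ).1 (hv.int (w i) (hw i))
  choose A hA using h1
  have hdet : (Matrix.of A).det ≠ 0 := by
    intro h0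
    obtain ⟨x, hx0, hx⟩ := Matrix.exists_vecMul_eq_zero_iff.2 h0
    apply hx0
    have h2 : ∑ i, (x i : ℚ) • toQ (w i) = 0 := by
      have h3 : ∑ i, x i • w i = 0 := by
        calc ∑ i, x i • w i = ∑ i, ∑ j, (x i * A i j) • v j := by
              refine Finset.sum_congr rfl fun i _ => ?_
              rw [← hA i, Finset.smul_sum]
              exact Finset.sum_congr rfl fun j _ => by rw [mul_smul]
          _ = ∑ j, (∑ i, x i * A i j) • v j := by
              rw [Finset.sum_comm]
              exact Finset.sum_congr rfl fun j _ => (Finset.sum_smul).symm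
          _ = 0 := by
              refine Finset.sum_eq_zero fun j _ => ?_
              have h4 : ∑ i, x i * A i j = 0 := by
                have h5 := congrFun hx j
                simpa [Matrix.vecMul, dotProduct] using h5
              rw [h4, zero_smul]
      have h6 := congrArg toQ h3
      rw [lc2_toQ_sum] at h6
      simp only [lc2_toQ] at h6
      rw [h6]
      exact Polynomial.map_zero _
    have h7 := Fintype.linearIndependent_iff.1 hi (fun i => (x i : ℚ)) h2
    funext i
    exact Int.cast_eq_zero.1 (h7 i)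
  have hw2 : (fun i => tv M ζ t (toR (w i))) =
      fun i => ∑ j, ((Matrix.of A).map (Int.castRingHom ℝ)) i j • tv M ζ t (toR (v j)) := by
    funext i
    rw [← tv_sum]
    congr 1
    rw [← hA i, lc2_toR_sum]
    refine Finset.sum_congr rfl fun j _ => ?_
    rw [lc2_toR]
    rfl
  have hd1 : (1 : ℝ) ≤ |((Matrix.of A).map (Int.castRingHom ℝ)).det| := by
    have h8 := RingHom.map_det (Int.castRingHom ℝ) (Matrix.of A)
    rw [RingHom.mapMatrix_apply] at h8
    rw [← h8, Int.coe_castRingHom, ← Int.cast_abs]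
    exact_mod_cast Int.one_le_abs hdet
  unfold wn
  rw [hw2, mx_lin]
  exact le_mul_of_one_le_left (mx_nonneg _) hd1

private theorem lc2_mem {V : Submodule ℚ ℚ[X]} {ι : Type} [Fintype ι] {v : ι → ℤ[X]}
    (hv : ZB V v) (i : ι) : toQ (v i) ∈ V := by
  rw [← hv.span]
  exact Submodule.subset_span ⟨i, rfl⟩

theorem cov_eq (M : ℕ) (ζ : ℝ) (t : ℕ → ℝ) (V : Submodule ℚ ℚ[X]) {ι : Type} [Fintype ι]
    [DecidableEq ι] (v : ι → ℤ[X]) (hv : ZB V v) : cov M ζ t V = wn M ζ t (fun i => toR (v i)) := by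
  have hcard := zb_card V v hv
  let e : ι ≃ Fin (Module.finrank ℚ V) := Fintype.equivFinOfCardEq hcard
  have h : ∃ v : Fin (Module.finrank ℚ V) → ℤ[X], ZB V v :=
    ⟨fun k => v (e.symm k), lc2_re e.symm hv⟩
  have h0 : cov M ζ t V = wn M ζ t (fun i => toR (h.choose i)) := by
    unfold cov
    rw [dif_pos h]
  have h1 : wn M ζ t (fun i => toR (h.choose i)) =
      wn M ζ t (fun i => toR (h.choose (e i))) := by
    unfold wn
    exact (mx_reindex e (fun i => tv M ζ t (toR (h.choose i)))).symm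
  have h2 : ZB V (fun i => h.choose (e i)) := lc2_re e h.choose_spec
  rw [h0, h1]
  exact le_antisymm
    (lc2_le M ζ t V (fun i => h.choose (e i)) v h2 (fun i => lc2_mem hv i) hv.ind)
    (lc2_le M ζ t V v (fun i => h.choose (e i)) hv (fun i => lc2_mem h2 i) h2.ind)

theorem cov_le (M : ℕ) (ζ : ℝ) (t : ℕ → ℝ) (m : ℕ) (V : Submodule ℚ ℚ[X]) (hV : V ≤ degreeLT ℚ m)
    {ι : Type} [Fintype ι] [DecidableEq ι] (w : ι → ℤ[X]) (hw : ∀ i, toQ (w i) ∈ V)
    (hi : LinearIndependent ℚ fun i => toQ (w i)) (hc : Fintype.card ι = Module.finrank ℚ V) :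
    cov M ζ t V ≤ wn M ζ t (fun i => toR (w i)) := by
  obtain ⟨v, hv⟩ := exists_zb m V hV
  let e : ι ≃ Fin (Module.finrank ℚ V) := Fintype.equivFinOfCardEq hc
  have h2 : ZB V (fun i => v (e i)) := lc2_re e hv
  rw [cov_eq M ζ t V (fun i => v (e i)) h2]
  exact lc2_le M ζ t V (fun i => v (e i)) w h2 hw hi

theorem wn_pos (M : ℕ) (ζ : ℝ) (t : ℕ → ℝ) (ht : ∀ c, 0 < t c) {ι : Type} [Fintype ι]
    [DecidableEq ι] (v : ι → ℤ[X]) (hd : ∀ i, (v i).natDegree < M)
    (hi : LinearIndependent ℚ fun i => toQ (v i)) : 0 < wn M ζ t (fun i => toR (v i)) := by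
  have hco : ∀ (f : ℤ[X]) (k : ℕ), (toR f).coeff k = ((f.coeff k : ℤ) : ℝ) := fun f k => by
    unfold toR
    rw [coeff_map]
    rfl
  have hR : LinearIndependent ℝ fun i => toR (v i) := by
    rw [Fintype.linearIndependent_iff]
    intro c hc i
    rw [← Module.forall_dual_apply_eq_zero_iff ℚ (c i)]
    intro φ
    have h1 : ∑ i, (φ (c i)) • toQ (v i) = 0 := by
      ext k
      have h2 := congrArg (fun p : ℝ[X] => φ (p.coeff k)) hc
      simp only [finsetSum_coeff, coeff_smul, smul_eq_mul, hco, coeff_zero, map_zero,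
        map_sum] at h2 ⊢
      rw [← h2]
      refine Finset.sum_congr rfl fun i _ => ?_
      have h3 : c i * (((v i).coeff k : ℤ) : ℝ) = (((v i).coeff k : ℤ) : ℚ) • c i := by
        rw [Rat.smul_def, Rat.cast_intCast, mul_comm]
      rw [h3, map_smul, smul_eq_mul, mul_comm]
      unfold toQ
      rw [coeff_map]
      rfl
    exact Fintype.linearIndependent_iff.1 hi (fun i => φ (c i)) h1 i
  unfold wn
  refine mx_pos _ ?_
  rw [Fintype.linearIndependent_iff] at hR ⊢
  intro c hc
  apply hR c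
  rw [← tv_sum] at hc
  have hs : ∑ i, c i • toR (v i) = ∑ i, C (c i) * toR (v i) :=
    Finset.sum_congr rfl fun i _ => smul_eq_C_mul _
  rw [hs, ← taylor_eq_zero ζ]
  ext k
  rw [coeff_zero]
  by_cases hk : k < M
  · have h4 := congrFun hc ⟨k, hk⟩
    have h5 : t k * (taylor ζ (∑ i, C (c i) * toR (v i))).coeff k = 0 := h4
    exact (mul_eq_zero.1 h5).resolve_left (ht k).ne'
  · have h6 : (∑ i, C (c i) * toR (v i)).degree < (M : WithBot ℕ) := by
      rw [degree_lt_iff_coeff_zero]
      intro m hm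
      rw [finsetSum_coeff]
      refine Finset.sum_eq_zero fun i _ => ?_
      rw [coeff_C_mul, hco, coeff_eq_zero_of_natDegree_lt ((hd i).trans_le hm), Int.cast_zero,
        mul_zero]
    rw [← degree_taylor _ ζ] at h6
    exact (degree_lt_iff_coeff_zero _ _).1 h6 k (not_lt.1 hk)

theorem cov_pos (M m : ℕ) (hm : m ≤ M) (ζ : ℝ) (t : ℕ → ℝ) (ht : ∀ c, 0 < t c)
    (V : Submodule ℚ ℚ[X]) (hV : V ≤ degreeLT ℚ m) : 0 < cov M ζ t V := by
  obtain ⟨v, hv⟩ := exists_zb m V hV
  rw [cov_eq M ζ t V v hv]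
  refine wn_pos M ζ t ht v (fun i => ?_) hv.ind
  have h1 : toQ (v i) ≠ 0 := hv.ind.ne_zero i
  have h2 : v i ≠ 0 := by
    intro h0
    apply h1
    rw [h0]
    exact Polynomial.map_zero _
  have h3 : (toQ (v i)).degree < (m : WithBot ℕ) := mem_degreeLT.1 (hV (lc2_mem hv i))
  unfold toQ at h3
  rw [degree_map_eq_of_injective (RingHom.injective_int _)] at h3
  exact ((natDegree_lt_iff_degree_lt h2).2 h3).trans_le hm

theorem cov_bot (M : ℕ) (ζ : ℝ) (t : ℕ → ℝ) : cov M ζ t ⊥ = 1 := by
  have h : ZB (⊥ : Submodule ℚ ℚ[X]) (fun i : Fin 0 => (i.elim0 : ℤ[X])) :=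
    { ind := linearIndependent_empty_type
      span := by
        rw [Set.range_eq_empty, Submodule.span_empty]
      int := fun f hf => by
        have h1 : toQ f = 0 := (Submodule.mem_bot ℚ).1 hf
        have h2 : f = 0 := by
          unfold toQ at h1
          exact (Polynomial.map_eq_zero_iff (RingHom.injective_int _)).1 h1
        rw [h2]
        exact Submodule.zero_mem _ }
  rw [cov_eq M ζ t ⊥ _ h]
  unfold wn
  exact mx_empty _

end Pool.Agent.Lib.H42Y
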