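import Pool.Agent.Lib.H42Y.MA1

/-!
# Chunk MA3 (S/M)
Upper bounds for the largest minor (`‖·‖` is the sup norm of `Fin M → ℝ`).

Proof. `mx_prod`: every minor is a sum of `(card ι)!` products of entries `u i (s (σ i))`, `|u i c| ≤ ‖u i‖ ≤ a i`
(`Matrix.det_apply'`, `Fintype.card_perm`, `norm_le_pi_norm`; if the index type of `s` is empty use `mx_le`). `mx_snoc_le`: Laplace expansion of
a minor of `Sum.elim u α` along the last row: `card ι + 1` terms, each `≤ ‖α‖ * mx u`. (Reindex `ι ⊕ Unit ≃ Fin (card ι + 1)` by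
`mx_reindex` and use `Matrix.det_succ_row` with the row `Fin.last`, or write the determinant as a sum over the column that is
multiplied with the row `α`: `Matrix.det_updateRow_sum` / `Matrix.adjugate`.) `mx_append_le`: induction on `b` with `mx_snoc_le`
(`Fin (b+1) ≃ Fin b ⊕ Unit`, `finSumFinEquiv`, `Fin.snoc`; each step costs a factor `a + b + 1 ≤ M` unless `a + b + 1 > M`, when `mx = 0`:
two equal columns, `Matrix.det_zero_of_column_eq`); `K = (M + 1)^M` works for `b ≤ M`, and for `b > M` the left side is 0.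
-/

open Polynomial

namespace Pool.Agent.Lib.H42Y

variable {M : ℕ} {ι κ : Type} [Fintype ι] [DecidableEq ι] [Fintype κ] [DecidableEq κ]

theorem mx_prod (u : ι → Fin M → ℝ) (a : ι → ℝ) (ha : ∀ i, ‖u i‖ ≤ a i) :
    mx u ≤ (Fintype.card ι).factorial * ∏ i, a i := by
  have ha0 : ∀ i, 0 ≤ a i := fun i => (norm_nonneg _).trans (ha i)
  have hP : 0 ≤ ∏ i, a i := Finset.prod_nonneg fun i _ => ha0 i
  refine mx_le u _ (mul_nonneg (Nat.cast_nonneg _) hP) fun s => ?_
  rw [Matrix.det_apply']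
  refine (Finset.abs_sum_le_sum_abs _ _).trans ?_
  have h1 : ∀ σ : Equiv.Perm ι, |((Equiv.Perm.sign σ : ℤ) : ℝ) *
      ∏ i, (Matrix.of fun i j : ι => u i (s j)) (σ i) i| ≤ ∏ i, a i := by
    intro σ
    have h2 : |((Equiv.Perm.sign σ : ℤ) : ℝ)| = 1 := by
      rcases Int.units_eq_one_or (Equiv.Perm.sign σ) with h | h <;> simp [h]
    rw [abs_mul, h2, one_mul, Finset.abs_prod]
    calc ∏ i, |(Matrix.of fun i j : ι => u i (s j)) (σ i) i| ≤ ∏ i, a (σ i) := by
          refine Finset.prod_le_prod (fun i _ => abs_nonneg _) fun i _ => ?_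
          rw [Matrix.of_apply, ← Real.norm_eq_abs]
          exact (norm_le_pi_norm (u (σ i)) (s i)).trans (ha _)
      _ = ∏ i, a i := Equiv.prod_comp σ a
  refine (Finset.sum_le_sum fun σ _ => h1 σ).trans ?_
  rw [Finset.sum_const, Finset.card_univ, Fintype.card_perm, nsmul_eq_mul]

theorem mx_card (u : ι → Fin M → ℝ) (h : M < Fintype.card ι) : mx u = 0 := by
  refine le_antisymm (mx_le u 0 le_rfl fun s => ?_) (mx_nonneg u)
  obtain ⟨i, j, hij, hs⟩ := Fintype.exists_ne_map_eq_of_card_lt s (by rwa [Fintype.card_fin])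
  rw [Matrix.det_zero_of_column_eq hij fun k => by rw [Matrix.of_apply, Matrix.of_apply, hs]]
  simp

theorem mx_snoc_le (u : ι → Fin M → ℝ) (α : Fin M → ℝ) :
    mx (Sum.elim u fun _ : Unit => α) ≤ (Fintype.card ι + 1) * (‖α‖ * mx u) := by
  have hm := mx_nonneg u
  have hR : 0 ≤ (Fintype.card ι + 1 : ℝ) * (‖α‖ * mx u) := by positivity
  refine mx_le _ _ hR fun s => ?_
  set A : Matrix (ι ⊕ Unit) (ι ⊕ Unit) ℝ :=
    Matrix.of fun i j => (Sum.elim u fun _ : Unit => α) i (s j) with hA
  have key : ∀ j : ι ⊕ Unit, |A.adjugate j (Sum.inr ())| ≤ mx u := by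
    intro j
    rw [Matrix.adjugate_apply]
    set B := A.updateRow (Sum.inr ()) (Pi.single j 1) with hB
    let e : Equiv.Perm (ι ⊕ Unit) := Equiv.swap j (Sum.inr ())
    have h1 := Matrix.det_permute' e B
    have h2 : |((Equiv.Perm.sign e : ℤ) : ℝ)| = 1 := by
      rcases Int.units_eq_one_or (Equiv.Perm.sign e) with h | h <;> simp [h]
    have h3 : |B.det| = |(B.submatrix id e).det| := by
      rw [h1, abs_mul, h2, one_mul]
    have he1 : e (Sum.inr ()) = j := Equiv.swap_apply_right _ _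
    have he2 : ∀ k : ι, e (Sum.inl k) ≠ j := by
      intro k hk
      rw [← he1] at hk
      exact absurd (e.injective hk) Sum.inl_ne_inr
    have h4 : B.submatrix id e = Matrix.fromBlocks
        (Matrix.of fun i k : ι => u i (s (e (Sum.inl k))))
        (Matrix.of fun (i : ι) (_ : Unit) => u i (s (e (Sum.inr ())))) 0 1 := by
      ext i k
      rcases i with i | i <;> rcases k with k | k
      · rw [Matrix.fromBlocks_apply₁₁, Matrix.submatrix_apply, hB,
          Matrix.updateRow_ne (by exact Sum.inl_ne_inr)]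
        rfl
      · rw [Matrix.fromBlocks_apply₁₂, Matrix.submatrix_apply, hB,
          Matrix.updateRow_ne (by exact Sum.inl_ne_inr)]
        rfl
      · rw [Matrix.fromBlocks_apply₂₁, Matrix.submatrix_apply, hB]
        show (A.updateRow (Sum.inr ()) (Pi.single j 1)) (Sum.inr ()) (e (Sum.inl k)) = 0
        rw [Matrix.updateRow_self, Pi.single_eq_of_ne (he2 k)]
      · rw [Matrix.fromBlocks_apply₂₂, Matrix.submatrix_apply, hB]
        show (A.updateRow (Sum.inr ()) (Pi.single j 1)) (Sum.inr ()) (e (Sum.inr ())) = 1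
        rw [Matrix.updateRow_self, he1, Pi.single_eq_same]
    rw [h3, h4, Matrix.det_fromBlocks_zero₂₁, Matrix.det_one, mul_one]
    exact le_mx u fun k => s (e (Sum.inl k))
  rw [Matrix.det_eq_sum_mul_adjugate_row A (Sum.inr ())]
  refine (Finset.abs_sum_le_sum_abs _ _).trans ?_
  have h5 : ∀ j : ι ⊕ Unit, |A (Sum.inr ()) j * A.adjugate j (Sum.inr ())| ≤ ‖α‖ * mx u := by
    intro j
    rw [abs_mul]
    refine mul_le_mul ?_ (key j) (abs_nonneg _) (norm_nonneg _)
    show |α (s j)| ≤ ‖α‖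
    rw [← Real.norm_eq_abs]
    exact norm_le_pi_norm α (s j)
  refine (Finset.sum_le_sum fun j _ => h5 j).trans ?_
  rw [Finset.sum_const, Finset.card_univ, Fintype.card_sum, Fintype.card_unit, nsmul_eq_mul]
  push_cast
  exact le_rfl

theorem mx_append_le (M : ℕ) : ∃ K : ℝ, 1 ≤ K ∧ ∀ (a b : ℕ) (u : Fin a → Fin M → ℝ)
    (w : Fin b → Fin M → ℝ) (β : Fin b → ℝ), (∀ i, ‖w i‖ ≤ β i) →
      mx (Sum.elim u w) ≤ K * (mx u * ∏ i, β i) := by
  have step : ∀ (a b : ℕ) (u : Fin a → Fin M → ℝ)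
      (w : Fin b → Fin M → ℝ) (β : Fin b → ℝ), (∀ i, ‖w i‖ ≤ β i) →
        mx (Sum.elim u w) ≤ ((M : ℝ) + 1) ^ b * (mx u * ∏ i, β i) := by
    intro a b
    induction b with
    | zero =>
      intro u w β _
      have h1 := mx_reindex (Equiv.sumEmpty (Fin a) (Fin 0)).symm (Sum.elim u w)
      have h2 : (fun k => Sum.elim u w ((Equiv.sumEmpty (Fin a) (Fin 0)).symm k)) = u := by
        funext k
        rfl
      rw [h2] at h1
      rw [← h1]
      simp
    | succ b ih =>
      intro u w β hβ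
      have hβ0 : ∀ i, 0 ≤ β i := fun i => (norm_nonneg _).trans (hβ i)
      have hm := mx_nonneg u
      have hM : (0 : ℝ) ≤ M := Nat.cast_nonneg M
      have hR : 0 ≤ ((M : ℝ) + 1) ^ (b + 1) * (mx u * ∏ i, β i) :=
        mul_nonneg (by positivity) (mul_nonneg hm (Finset.prod_nonneg fun i _ => hβ0 i))
      by_cases hab : M < a + (b + 1)
      · rw [mx_card _ (by simpa using hab)]
        exact hR
      · let e' : Fin b ⊕ Unit ≃ Fin (b + 1) :=
          (Equiv.sumCongr (Equiv.refl (Fin b)) finOneEquiv.symm).trans finSumFinEquiv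
        let e : (Fin a ⊕ Fin b) ⊕ Unit ≃ Fin a ⊕ Fin (b + 1) :=
          (Equiv.sumAssoc _ _ _).trans (Equiv.sumCongr (Equiv.refl _) e')
        have h1 := mx_reindex e (Sum.elim u w)
        have h2 : (fun k => Sum.elim u w (e k)) = Sum.elim (Sum.elim u fun i : Fin b => w i.castSucc)
            (fun _ : Unit => w (Fin.last b)) := by
          funext k
          rcases k with (k | k) | k <;> rfl
        rw [h2] at h1
        rw [← h1]
        refine (mx_snoc_le _ _).trans ?_
        have h3 := ih u (fun i : Fin b => w i.castSucc) (fun i : Fin b => β i.castSucc)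
          fun i : Fin b => hβ i.castSucc
        have h4 : ((Fintype.card (Fin a ⊕ Fin b) : ℕ) : ℝ) + 1 ≤ (M : ℝ) + 1 := by
          rw [Fintype.card_sum, Fintype.card_fin, Fintype.card_fin]
          have : a + b ≤ M := by omega
          have h5 : ((a + b : ℕ) : ℝ) ≤ M := by exact_mod_cast this
          linarith
        have h6 := mx_nonneg (Sum.elim u fun i : Fin b => w i.castSucc)
        rw [Fin.prod_univ_castSucc, pow_succ]
        calc ((Fintype.card (Fin a ⊕ Fin b) : ℕ) + 1 : ℝ) * (‖w (Fin.last b)‖ *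
              mx (Sum.elim u fun i : Fin b => w i.castSucc))
            ≤ ((M : ℝ) + 1) * (β (Fin.last b) * (((M : ℝ) + 1) ^ b *
              (mx u * ∏ i : Fin b, β i.castSucc))) := by
              refine mul_le_mul h4 ?_ (mul_nonneg (norm_nonneg _) h6) (by positivity)
              exact mul_le_mul (hβ _) h3 h6 (hβ0 _)
          _ = ((M : ℝ) + 1) ^ b * ((M : ℝ) + 1) *
              (mx u * ((∏ i : Fin b, β i.castSucc) * β (Fin.last b))) := by ring
  have hM1 : (1 : ℝ) ≤ (M : ℝ) + 1 := by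
    have : (0 : ℝ) ≤ M := Nat.cast_nonneg M
    linarith
  refine ⟨((M : ℝ) + 1) ^ M, one_le_pow₀ hM1, fun a b u w β hβ => ?_⟩
  have hβ0 : ∀ i, 0 ≤ β i := fun i => (norm_nonneg _).trans (hβ i)
  have hR : 0 ≤ mx u * ∏ i, β i := mul_nonneg (mx_nonneg u) (Finset.prod_nonneg fun i _ => hβ0 i)
  by_cases hb : b ≤ M
  · exact (step a b u w β hβ).trans
      (mul_le_mul_of_nonneg_right (pow_le_pow_right₀ hM1 hb) hR)
  · rw [mx_card _ (by simp; omega)]
    exact mul_nonneg (by positivity) hR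

end Pool.Agent.Lib.H42Y
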