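import Pool.Agent.Lib.H42Y.GQ

/-!
# Chunk RQ (M)
Cheap integer bases of `up^[j] (Vk y k)` (compare `Lib/H42W/RW.lean`).

Proof. `D = finrank (up^[j] (Vk y k))`. Apply `greedy` with `S m = {toQ (X^e * y a) : e ≤ j, a < k, a ≤ max 1 (m - 2j)}` for `m : Fin D`. The `a` with `a < k`, `a ≤ max 1 (m - 2 j)` are the `a < l`, `l = min k (max 2 (m + 1 - 2 j)) ≥ 2`, and `span (S m) = up^[j] (Vk y l)` (`iter_span`). `finrank (Vk y l) = l` (`ind`, `l ≤ k ≤ n + 1`), and
`Vk y l` contains the coprime `toQ (y 0)`, `toQ (y 1)`, the latter of degree `n`. If `l = k` then the dimension is `D ≥ m + 1`. Otherwise `l ≥ m + 1 - 2 j`, `levels` gives `min (n + j + 1) (l + 2 j) ≥ m + 1` (`m + 1 ≤ D ≤ n + 1 + j`). Choose the integer polynomials. `extend_rows`: `up^[j] (Vk y k)` is spanned by the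
`toQ (X^e * y a)`, `e ≤ j`, `a < k` (`iter_span`); extend the independent family `x0` by some of them to a basis (`LinearIndependent.extend`/exchange), `finrank - a0` new vectors.
-/

open Polynomial

namespace Pool.Agent.Lib.H42Y

private theorem rq_toQ (e : ℕ) (f : ℤ[X]) : toQ (X ^ e * f) = X ^ e * toQ f := by
  simp only [toQ, Polynomial.map_mul, Polynomial.map_pow, map_X]

private theorem rq_mem (y : ℕ → ℤ[X]) (k a : ℕ) (h : a < k) : toQ (y a) ∈ Vk y k :=
  Submodule.subset_span ⟨a, h, rfl⟩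

theorem finrank_Vk (n k : ℕ) (y : ℕ → ℤ[X]) (hy : Frm n y) (hk : k ≤ n + 1) :
    Module.finrank ℚ (Vk y k) = k := by
  have h0 : LinearIndependent ℚ fun a : Fin k => toQ (y a) :=
    hy.ind.comp (Fin.castLE hk) (Fin.castLE_injective hk)
  have h1 := finrank_span_eq_card h0
  rw [Fintype.card_fin] at h1
  have e : (Set.range fun a : Fin k => toQ (y a)) = (fun a => toQ (y a)) '' Set.Iio k := by
    ext f
    constructor
    · rintro ⟨a, rfl⟩
      exact ⟨a, a.2, rfl⟩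
    · rintro ⟨a, ha, rfl⟩
      exact ⟨⟨a, ha⟩, rfl⟩
  rw [e] at h1
  exact h1

theorem Vk_deg (n k : ℕ) (y : ℕ → ℤ[X]) (hy : Frm n y) : Vk y k ≤ degreeLT ℚ (n + 1) := by
  refine Submodule.span_le.2 ?_
  rintro _ ⟨a, -, rfl⟩
  have h1 : (toQ (y a)).natDegree ≤ n := natDegree_map_le.trans (hy.deg a)
  refine mem_degreeLT.2 ?_
  exact lt_of_le_of_lt (degree_le_of_natDegree_le h1) (by exact_mod_cast Nat.lt_succ_self n)

private theorem rq_fd (n k j : ℕ) (y : ℕ → ℤ[X]) (hy : Frm n y) :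
    Module.finrank ℚ (up^[j] (Vk y k) : Submodule ℚ ℚ[X]) ≤ n + 1 + j ∧
      Module.Finite ℚ (up^[j] (Vk y k) : Submodule ℚ ℚ[X]) := by
  have h1 := iter_deg (n + 1) j (Vk y k) (Vk_deg n k y hy)
  have : Module.Finite ℚ (degreeLT ℚ (n + 1 + j)) :=
    Module.Finite.equiv (degreeLTEquiv ℚ (n + 1 + j)).symm
  have : Module.Finite ℚ (up^[j] (Vk y k) : Submodule ℚ ℚ[X]) :=
    Submodule.finiteDimensional_of_le h1
  refine ⟨?_, inferInstance⟩
  have h2 := Submodule.finrank_mono h1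
  rwa [(degreeLTEquiv ℚ (n + 1 + j)).finrank_eq, Module.finrank_fin_fun] at h2

theorem rowsQ (n k j : ℕ) (y : ℕ → ℤ[X]) (hy : Frm n y) (hk : 2 ≤ k) (hkn : k ≤ n + 1) :
    ∃ x : Fin (Module.finrank ℚ (up^[j] (Vk y k) : Submodule ℚ ℚ[X])) → ℤ[X],
      LinearIndependent ℚ (fun i => toQ (x i)) ∧
      (∀ i, toQ (x i) ∈ (up^[j] (Vk y k) : Submodule ℚ ℚ[X])) ∧
      ∀ i : Fin (Module.finrank ℚ (up^[j] (Vk y k) : Submodule ℚ ℚ[X])), ∃ e ≤ j, ∃ a, a < k ∧
        a ≤ max 1 ((i : ℕ) - 2 * j) ∧ x i = X ^ e * y a := by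
  have hD := (rq_fd n k j y hy).1
  generalize hDD : Module.finrank ℚ (up^[j] (Vk y k) : Submodule ℚ ℚ[X]) = D at *
  let l : Fin D → ℕ := fun m => min k (max 2 ((m : ℕ) + 1 - 2 * j))
  have hl : ∀ m : Fin D, l m = min k (max 2 ((m : ℕ) + 1 - 2 * j)) := fun _ => rfl
  have hT : ∀ m : Fin D, (m : ℕ) + 1 ≤ Module.finrank ℚ (Submodule.span ℚ
      {f : ℚ[X] | ∃ e ≤ j, ∃ g ∈ (fun a => toQ (y a)) '' Set.Iio (l m), f = X ^ e * g}) := by
    intro m
    have hm := m.2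
    rw [← iter_span]
    change (m : ℕ) + 1 ≤ Module.finrank ℚ (up^[j] (Vk y (l m)) : Submodule ℚ ℚ[X])
    by_cases hlk : l m = k
    · rw [hlk, hDD]
      omega
    · have hlk' : l m = max 2 ((m : ℕ) + 1 - 2 * j) := by
        rw [hl] at hlk ⊢
        omega
      have hl2 : 2 ≤ l m := by rw [hlk']; exact le_max_left _ _
      have hlk2 : l m ≤ k := by rw [hl]; exact min_le_left _ _
      have h1 := levels n j (l m) (Vk y (l m)) (Vk_deg n (l m) y hy) (toQ (y 0)) (toQ (y 1))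
        (rq_mem y (l m) 0 (by omega)) (rq_mem y (l m) 1 (by omega)) hy.co
        (by rw [toQ, natDegree_map_eq_of_injective (Int.cast_injective), hy.top])
        (finrank_Vk n (l m) y hy (by omega)).ge
      refine le_trans (le_min ?_ ?_) h1
      · omega
      · rw [hlk']
        omega
  obtain ⟨v, hv, hli⟩ := greedy D _ hT
  have hex : ∀ m : Fin D, ∃ Y : ℤ[X], toQ Y = v m ∧ ∃ e ≤ j, ∃ a, a < k ∧
      a ≤ max 1 ((m : ℕ) - 2 * j) ∧ Y = X ^ e * y a := by
    intro m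
    obtain ⟨e, he, g, ⟨a, ha, rfl⟩, hva⟩ := hv m
    have ha' : a < l m := ha
    rw [hl] at ha'
    refine ⟨X ^ e * y a, by rw [hva, rq_toQ], e, he, a, by omega, by omega, rfl⟩
  choose x hx1 hx2 using hex
  refine ⟨x, ?_, ?_, hx2⟩
  · have e : (fun i => toQ (x i)) = v := funext hx1
    rw [e]
    exact hli
  · intro i
    obtain ⟨e, he, a, hak, -, hxa⟩ := hx2 i
    rw [hxa, rq_toQ]
    exact iter_mem j e he _ _ (rq_mem y k a hak)

private theorem rq_comp {K V ι : Type} [Field K] [AddCommGroup V] [Module K V] (b : Set V)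
    (hb : LinearIndependent K ((↑) : b → V)) (v : ι → V) (hm : ∀ i, v i ∈ b)
    (hv : Function.Injective v) : LinearIndependent K v := by
  have hinj : Function.Injective (fun i => (⟨v i, hm i⟩ : b)) :=
    fun i i' h => hv (congrArg Subtype.val h)
  have h := hb.comp (fun i => (⟨v i, hm i⟩ : b)) hinj
  exact h

private theorem rq_ext (W : Submodule ℚ ℚ[X]) (hfin : Module.Finite ℚ W) (S : Set ℚ[X])
    (hWS : W = Submodule.span ℚ S) (P : ℤ[X] → Prop) (hS : ∀ f ∈ S, ∃ Y : ℤ[X], toQ Y = f ∧ P Y)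
    (a0 : ℕ) (x0 : Fin a0 → ℤ[X]) (hi : LinearIndependent ℚ fun i => toQ (x0 i))
    (hm : ∀ i, toQ (x0 i) ∈ W) :
    ∃ x1 : Fin (Module.finrank ℚ W - a0) → ℤ[X],
      LinearIndependent ℚ (fun i => toQ (Sum.elim x0 x1 i)) ∧ ∀ i, P (x1 i) := by
  have hind : LinearIndepOn ℚ id (Set.range fun i => toQ (x0 i)) := hi.linearIndepOn_id
  obtain ⟨b, hbt, hsb, htb, hb⟩ :=
    exists_linearIndepOn_id_extension hind (Set.subset_union_left (t := S))
  have hbW : Submodule.span ℚ b = W := by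
    apply le_antisymm
    · refine Submodule.span_le.2 fun f hf => ?_
      rcases hbt hf with ⟨i, rfl⟩ | h
      · exact hm i
      · rw [hWS]
        exact Submodule.subset_span h
    · rw [hWS]
      exact Submodule.span_le.2 fun f hf => htb (Or.inr hf)
  have hb' : LinearIndependent ℚ ((↑) : b → ℚ[X]) := hb
  have hbfin : Finite b := by
    have h1 : Module.Finite ℚ (Submodule.span ℚ (Set.range ((↑) : b → ℚ[X]))) := by
      rw [Subtype.range_coe, hbW]
      exact hfin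
    exact Module.Finite.finite_basis (Module.Basis.span hb')
  have hcard : Nat.card b = Module.finrank ℚ W := by
    have := Fintype.ofFinite b
    have h1 := finrank_span_eq_card hb'
    rw [Subtype.range_coe, hbW] at h1
    rw [Nat.card_eq_fintype_card, h1]
  have hinj0 : Function.Injective fun i => toQ (x0 i) := hi.injective
  have hcs : (Set.range fun i => toQ (x0 i)).ncard = a0 := by
    rw [← Set.image_univ, Set.ncard_image_of_injective _ hinj0, Set.ncard_univ, Nat.card_fin]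
  have hcd : Nat.card (b \ (Set.range fun i => toQ (x0 i)) : Set ℚ[X]) =
      Module.finrank ℚ W - a0 := by
    have h1 := Set.ncard_sdiff_add_ncard_of_subset hsb (Set.toFinite b)
    rw [hcs] at h1
    have h2 : b.ncard = Module.finrank ℚ W := hcard
    have h3 : (b \ (Set.range fun i => toQ (x0 i))).ncard = Module.finrank ℚ W - a0 := by omega
    exact h3
  have hdf : Finite (b \ (Set.range fun i => toQ (x0 i)) : Set ℚ[X]) :=
    Set.Finite.subset (Set.toFinite b) Set.sdiff_subset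
  obtain ⟨φ⟩ : Nonempty (Fin (Module.finrank ℚ W - a0) ≃
      (b \ (Set.range fun i => toQ (x0 i)) : Set ℚ[X])) := ⟨(Finite.equivFinOfCardEq hcd).symm⟩
  have hex : ∀ i, ∃ Y : ℤ[X], toQ Y = (φ i : ℚ[X]) ∧ P Y := fun i =>
    hS _ ((hbt (φ i).2.1).resolve_left (φ i).2.2)
  choose x1 hx1 hx2 using hex
  refine ⟨x1, ?_, hx2⟩
  have hmem : ∀ i : Fin a0 ⊕ Fin (Module.finrank ℚ W - a0), toQ (Sum.elim x0 x1 i) ∈ b := by
    rintro (i | i)
    · exact hsb ⟨i, rfl⟩
    · rw [Sum.elim_inr, hx1]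
      exact (φ i).2.1
  refine rq_comp b hb' _ hmem ?_
  rintro (i | i) (i' | i') h
  · have h1 : toQ (x0 i) = toQ (x0 i') := h
    rw [hinj0 h1]
  · have h1 : toQ (x0 i) = toQ (x1 i') := h
    rw [hx1] at h1
    exact absurd ⟨i, h1⟩ (φ i').2.2
  · have h1 : toQ (x1 i) = toQ (x0 i') := h
    rw [hx1] at h1
    exact absurd ⟨i', h1.symm⟩ (φ i).2.2
  · have h1 : toQ (x1 i) = toQ (x1 i') := h
    rw [hx1, hx1] at h1
    rw [φ.injective (Subtype.ext h1)]

theorem extend_rows (n k j : ℕ) (y : ℕ → ℤ[X]) (hy : Frm n y) (a0 : ℕ)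
    (x0 : Fin a0 → ℤ[X]) (hi : LinearIndependent ℚ fun i => toQ (x0 i))
    (hm : ∀ i, toQ (x0 i) ∈ (up^[j] (Vk y k) : Submodule ℚ ℚ[X])) :
    ∃ x1 : Fin (Module.finrank ℚ (up^[j] (Vk y k) : Submodule ℚ ℚ[X]) - a0) → ℤ[X],
      LinearIndependent ℚ (fun i => toQ (Sum.elim x0 x1 i)) ∧
      ∀ i, ∃ e ≤ j, ∃ a, a < k ∧ x1 i = X ^ e * y a := by
  refine rq_ext _ (rq_fd n k j y hy).2 _ (iter_span j _)
    (fun Y => ∃ e ≤ j, ∃ a, a < k ∧ Y = X ^ e * y a) ?_ a0 x0 hi hm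
  rintro f ⟨e, he, g, ⟨a, ha, rfl⟩, rfl⟩
  exact ⟨X ^ e * y a, rq_toQ e _, e, he, a, ha, rfl⟩

end Pool.Agent.Lib.H42Y
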