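import Pool.Agent.Lib.H42Y.Defs2
import Pool.Agent.Lib.H42Y.RQ
import Pool.Agent.Lib.H42Y.LC2
import Pool.Agent.Lib.H42Y.MA3

/-!
# Chunk AS1 (M)
The cost of `up^[j] (Vk y k)`.

Proof. `D = finrank = k + ρ + 2 j`. `rowsQ` gives an independent integer family `x i = X^(e i) * y (a i)` in `up^[j] (Vk y k)` with `a i < k`, `a i ≤ max 1 (i - 2j)`, `e i ≤ j ≤ n`. `cov_le` and `mx_prod`: `cov ≤ D! * ∏ Z^(μ (a i) + e) = D! * Z^(∑ μ (a i) + D e)`, `D ≤ n + 1 + j ≤ 3 n + 1`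
(`iter_deg`, `Vk_deg`), so `K = (3n+1)!`. `μ (a i) ≤ μ (min (k-1) (max 1 (i - 2j)))` (monotone), and `∑_{i < D} μ (min (k-1) (max 1 (i-2j))) = (2j + 2) * 1 + ∑_{2 ≤ a < k} μ a + ρ μ (k-1) = 2 j + ∑_{a<k} μ a + ρ μ (k-1)` (`i < 2j+2`: `μ 1 = 1`; `2j + 2 ≤ i < 2 j + k`: `μ (i - 2j)`; the last `ρ` terms: `μ (k-1)`).
`cost_step`: `L` of dimension `finrank W + 2` containing `W` with `L = up W`, `W = up^[J-1] (Vk y k)`: a `ℤ`-basis of `W` (`exists_zb`) together with two of the integer polynomials `X^J * y a`, `a < k` (`L = up^[J] (Vk y k)` is spanned by `W` and these, `iter_span`) is an independent family in `L`: `cov_le` and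
`mx_append_le`: `cov L ≤ K * (cov W * (Z^(ν + e))^2)`.
-/

open Polynomial

namespace Pool.Agent.Lib.H42Y

private theorem AS1_toR (a : ℕ) (f : ℤ[X]) : toR (X ^ a * f) = X ^ a * toR f := by
  unfold toR
  rw [Polynomial.map_mul, Polynomial.map_pow, Polynomial.map_X]

private theorem AS1_toQ (a : ℕ) (f : ℤ[X]) : toQ (X ^ a * f) = X ^ a * toQ f := by
  unfold toQ
  rw [Polynomial.map_mul, Polynomial.map_pow, Polynomial.map_X]

private theorem AS1_mem {k J e a : ℕ} (y : ℕ → ℤ[X]) (he : e ≤ J) (ha : a < k) :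
    toQ (X ^ e * y a) ∈ (up^[J] (Vk y k) : Submodule ℚ ℚ[X]) := by
  rw [AS1_toQ]
  exact iter_mem J e he _ _ (Submodule.subset_span ⟨a, ha, rfl⟩)

private theorem AS1_bound (n : ℕ) (ζ : ℝ) (k j ρ : ℕ) (Z B δ e : ℝ) (y : ℕ → ℤ[X]) (μ : ℕ → ℝ)
    (hZ : 1 ≤ Z) (he : 0 ≤ e) (hD : Dat n k ζ Z B δ e y μ) (hk : 2 ≤ k) (hjn : j ≤ n)
    (D : ℕ) (hD3 : D ≤ 3 * n + 1)
    (hfin : D = k + ρ + 2 * j)
    (hsum : ∑ i ∈ Finset.range (k + ρ + 2 * j), μ (min (k - 1) (max 1 (i - 2 * j))) =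
      ∑ a ∈ Finset.range k, μ a + 2 * j + ρ * μ (k - 1))
    (x : Fin D → ℤ[X])
    (hx3 : ∀ i : Fin D, ∃ e ≤ j, ∃ a, a < k ∧ a ≤ max 1 ((i : ℕ) - 2 * j) ∧ x i = X ^ e * y a) :
    mx (fun i => tv (2 * n + 4) ζ (w2 (Z ^ B) (Z ^ δ)) (toR (x i))) ≤
      ((3 * n + 1).factorial : ℝ) *
        Z ^ (∑ a ∈ Finset.range k, μ a + 2 * j + ρ * μ (k - 1) + (3 * n + 1) * e) := by
  have hZ0 : 0 < Z := lt_of_lt_of_le one_pos hZ
  choose ee hee aa haa haa2 hxx using hx3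
  have h5 : ∀ i, ‖tv (2 * n + 4) ζ (w2 (Z ^ B) (Z ^ δ)) (toR (x i))‖ ≤ Z ^ (μ (aa i) + e) := by
    intro i
    rw [hxx i, AS1_toR]
    exact hD.nb (aa i) (haa i) (ee i) ((hee i).trans hjn)
  have h6 := mx_prod (fun i => tv (2 * n + 4) ζ (w2 (Z ^ B) (Z ^ δ)) (toR (x i)))
    (fun i => Z ^ (μ (aa i) + e)) h5
  refine h6.trans ?_
  rw [Fintype.card_fin]
  have h7 : ∏ i : Fin D, Z ^ (μ (aa i) + e) = Z ^ (∑ i : Fin D, (μ (aa i) + e)) := by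
    rw [Real.rpow_sum_of_pos hZ0]
  have h8 : ∑ i : Fin D, (μ (aa i) + e) ≤
      ∑ a ∈ Finset.range k, μ a + 2 * j + ρ * μ (k - 1) + (3 * n + 1) * e := by
    have h9 : ∀ i : Fin D, μ (aa i) + e ≤ μ (min (k - 1) (max 1 ((i : ℕ) - 2 * j))) + e := by
      intro i
      have h10 : aa i ≤ min (k - 1) (max 1 ((i : ℕ) - 2 * j)) := by
        have a1 := haa i
        have a2 := haa2 i
        exact le_min (by omega) a2
      have := hD.mono h10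
      linarith
    refine (Finset.sum_le_sum fun i _ => h9 i).trans ?_
    have h11 : ∑ _i : Fin D, e = D * e := by
      simp
    rw [Finset.sum_add_distrib, Fin.sum_univ_eq_sum_range
      (fun i => μ (min (k - 1) (max 1 (i - 2 * j)))) D, h11]
    have h12 : (D : ℝ) ≤ 3 * n + 1 := by exact_mod_cast hD3
    have h13 := mul_le_mul_of_nonneg_right h12 he
    rw [hfin] at h13 ⊢
    rw [hsum]
    linarith
  rw [h7]
  have h14 : (D.factorial : ℝ) ≤ ((3 * n + 1).factorial : ℝ) := by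
    exact_mod_cast Nat.factorial_le hD3
  exact mul_le_mul h14 (Real.rpow_le_rpow_of_exponent_le hZ h8) (Real.rpow_nonneg hZ0.le _)
    (Nat.cast_nonneg _)

private theorem AS1_sum (k j ρ : ℕ) (hk : 2 ≤ k) (μ : ℕ → ℝ) (h0 : μ 0 = 1) (h1 : μ 1 = 1) :
    ∑ i ∈ Finset.range (k + ρ + 2 * j), μ (min (k - 1) (max 1 (i - 2 * j))) =
      ∑ a ∈ Finset.range k, μ a + 2 * j + ρ * μ (k - 1) := by
  have e : k + ρ + 2 * j = 2 * j + k + ρ := by ring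
  rw [e, Finset.sum_range_add, Finset.sum_range_add]
  have s1 : ∑ i ∈ Finset.range (2 * j), μ (min (k - 1) (max 1 (i - 2 * j))) = 2 * j := by
    have h : ∀ i ∈ Finset.range (2 * j), μ (min (k - 1) (max 1 (i - 2 * j))) = 1 := by
      intro i hi
      rw [Finset.mem_range] at hi
      have e1 : min (k - 1) (max 1 (i - 2 * j)) = 1 := by omega
      rw [e1, h1]
    rw [Finset.sum_congr rfl h]
    simp
  have s2 : ∑ i ∈ Finset.range k, μ (min (k - 1) (max 1 (2 * j + i - 2 * j))) =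
      ∑ a ∈ Finset.range k, μ a := by
    refine Finset.sum_congr rfl fun i hi => ?_
    rw [Finset.mem_range] at hi
    rcases Nat.eq_zero_or_pos i with hi0 | hi0
    · have e1 : min (k - 1) (max 1 (2 * j + i - 2 * j)) = 1 := by omega
      rw [e1, hi0, h1, h0]
    · have e1 : min (k - 1) (max 1 (2 * j + i - 2 * j)) = i := by omega
      rw [e1]
  have s3 : ∑ i ∈ Finset.range ρ, μ (min (k - 1) (max 1 (2 * j + k + i - 2 * j))) =
      ρ * μ (k - 1) := by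
    have h : ∀ i ∈ Finset.range ρ, μ (min (k - 1) (max 1 (2 * j + k + i - 2 * j))) =
        μ (k - 1) := by
      intro i _
      have e1 : min (k - 1) (max 1 (2 * j + k + i - 2 * j)) = k - 1 := by omega
      rw [e1]
    rw [Finset.sum_congr rfl h]
    simp
  rw [s1, s2, s3]
  ring

theorem cost (n : ℕ) (ζ : ℝ) : ∃ K : ℝ, 1 ≤ K ∧ ∀ (k j ρ : ℕ) (Z B δ e : ℝ) (y : ℕ → ℤ[X])
    (μ : ℕ → ℝ), 1 ≤ Z → 0 ≤ e → Dat n k ζ Z B δ e y μ → 2 ≤ k → k ≤ n + 1 → j ≤ n →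
    Module.finrank ℚ (up^[j] (Vk y k) : Submodule ℚ ℚ[X]) = k + ρ + 2 * j →
      cov (2 * n + 4) ζ (w2 (Z ^ B) (Z ^ δ)) (up^[j] (Vk y k)) ≤
        K * Z ^ (∑ a ∈ Finset.range k, μ a + 2 * j + ρ * μ (k - 1) + (3 * n + 1) * e) := by
  refine ⟨((3 * n + 1).factorial : ℝ), ?_, ?_⟩
  · exact_mod_cast Nat.one_le_iff_ne_zero.2 (Nat.factorial_ne_zero _)
  intro k j ρ Z B δ e y μ hZ he hD hk hkn hjn hfin
  obtain ⟨x, hx1, hx2, hx3⟩ := rowsQ n k j y hD.frm hk hkn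
  have hdeg : (up^[j] (Vk y k) : Submodule ℚ ℚ[X]) ≤ degreeLT ℚ (n + 1 + j) :=
    iter_deg (n + 1) j _ (Vk_deg n k y hD.frm)
  have h1 := cov_le (2 * n + 4) ζ (w2 (Z ^ B) (Z ^ δ)) (n + 1 + j) _ hdeg x hx2 hx1
    (Fintype.card_fin _)
  have hD3 : Module.finrank ℚ (up^[j] (Vk y k) : Submodule ℚ ℚ[X]) ≤ 3 * n + 1 := by
    have h3 := Submodule.finrank_mono hdeg
    have h4 : Module.finrank ℚ (degreeLT ℚ (n + 1 + j)) = n + 1 + j := by
      rw [LinearEquiv.finrank_eq (degreeLTEquiv ℚ (n + 1 + j))]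
      simp
    rw [h4] at h3
    omega
  exact h1.trans (AS1_bound n ζ k j ρ Z B δ e y μ hZ he hD hk hjn _ hD3 hfin
    (AS1_sum k j ρ hk μ hD.mu0 hD.mu1) x hx3)

theorem cost_step (n : ℕ) (ζ : ℝ) : ∃ K : ℝ, 1 ≤ K ∧ ∀ (k J : ℕ) (Z B δ e : ℝ) (y : ℕ → ℤ[X])
    (μ : ℕ → ℝ), 1 ≤ Z → 0 ≤ e → Dat n k ζ Z B δ e y μ → 2 ≤ k → k ≤ n + 1 → 1 ≤ J → J ≤ n →
    Module.finrank ℚ (up^[J] (Vk y k) : Submodule ℚ ℚ[X]) =
      Module.finrank ℚ (up^[J - 1] (Vk y k) : Submodule ℚ ℚ[X]) + 2 →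
      cov (2 * n + 4) ζ (w2 (Z ^ B) (Z ^ δ)) (up^[J] (Vk y k)) ≤
        K * (cov (2 * n + 4) ζ (w2 (Z ^ B) (Z ^ δ)) (up^[J - 1] (Vk y k)) *
          Z ^ (2 * μ (k - 1) + 2 * e)) := by
  obtain ⟨K, hK1, hK⟩ := mx_append_le (2 * n + 4)
  refine ⟨K, hK1, ?_⟩
  intro k J Z B δ e y μ hZ he hD hk hkn hJ1 hJn hfin
  have hZ0 : 0 < Z := lt_of_lt_of_le one_pos hZ
  set W : Submodule ℚ ℚ[X] := up^[J - 1] (Vk y k) with hW
  set L : Submodule ℚ ℚ[X] := up^[J] (Vk y k) with hL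
  have hWL : W ≤ L := iter_mono (J - 1) J (by omega) _
  have hWdeg : W ≤ degreeLT ℚ (n + 1 + (J - 1)) := iter_deg (n + 1) (J - 1) _ (Vk_deg n k y hD.frm)
  have hLdeg : L ≤ degreeLT ℚ (n + 1 + J) := iter_deg (n + 1) J _ (Vk_deg n k y hD.frm)
  obtain ⟨v, hv⟩ := exists_zb _ W hWdeg
  have hvW : ∀ i, toQ (v i) ∈ W := by
    intro i
    rw [← hv.span]
    exact Submodule.subset_span ⟨i, rfl⟩
  obtain ⟨x1, hx1, hx2⟩ := extend_rows n k J y hD.frm (Module.finrank ℚ W) v hv.ind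
    (fun i => hWL (hvW i))
  have hmem : ∀ i, toQ (Sum.elim v x1 i) ∈ L := by
    rintro (i | i)
    · exact hWL (hvW i)
    · obtain ⟨ee, hee, a, ha, hxa⟩ := hx2 i
      show toQ (x1 i) ∈ L
      rw [hxa]
      exact AS1_mem y hee ha
  have hcard : Fintype.card (Fin (Module.finrank ℚ W) ⊕ Fin (Module.finrank ℚ L -
      Module.finrank ℚ W)) = Module.finrank ℚ L := by
    rw [Fintype.card_sum, Fintype.card_fin, Fintype.card_fin]
    omega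
  have h1 := cov_le (2 * n + 4) ζ (w2 (Z ^ B) (Z ^ δ)) (n + 1 + J) L hLdeg (Sum.elim v x1) hmem
    hx1 hcard
  refine h1.trans ?_
  have h2 : wn (2 * n + 4) ζ (w2 (Z ^ B) (Z ^ δ)) (fun i => toR (Sum.elim v x1 i)) =
      mx (Sum.elim (fun i => tv (2 * n + 4) ζ (w2 (Z ^ B) (Z ^ δ)) (toR (v i)))
        (fun i => tv (2 * n + 4) ζ (w2 (Z ^ B) (Z ^ δ)) (toR (x1 i)))) := by
    unfold wn
    congr 1
    funext i
    rcases i with i | i
    · rfl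
    · rfl
  have h3 : ∀ i, ‖tv (2 * n + 4) ζ (w2 (Z ^ B) (Z ^ δ)) (toR (x1 i))‖ ≤ Z ^ (μ (k - 1) + e) := by
    intro i
    obtain ⟨ee, hee, a, ha, hxa⟩ := hx2 i
    rw [hxa, AS1_toR]
    refine (hD.nb a ha ee (hee.trans hJn)).trans ?_
    refine Real.rpow_le_rpow_of_exponent_le hZ ?_
    have := hD.mono (show a ≤ k - 1 by omega)
    linarith
  have h4 := hK _ _ (fun i => tv (2 * n + 4) ζ (w2 (Z ^ B) (Z ^ δ)) (toR (v i)))
    (fun i => tv (2 * n + 4) ζ (w2 (Z ^ B) (Z ^ δ)) (toR (x1 i)))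
    (fun _ => Z ^ (μ (k - 1) + e)) h3
  rw [h2]
  refine h4.trans (le_of_eq ?_)
  have h5 : mx (fun i => tv (2 * n + 4) ζ (w2 (Z ^ B) (Z ^ δ)) (toR (v i))) =
      cov (2 * n + 4) ζ (w2 (Z ^ B) (Z ^ δ)) W := (cov_eq (2 * n + 4) ζ _ W v hv).symm
  have h6 : ∏ _i : Fin (Module.finrank ℚ L - Module.finrank ℚ W), Z ^ (μ (k - 1) + e) =
      Z ^ (2 * μ (k - 1) + 2 * e) := by
    rw [Finset.prod_const, Finset.card_univ, Fintype.card_fin]
    have e1 : Module.finrank ℚ L - Module.finrank ℚ W = 2 := by omega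
    rw [e1, ← Real.rpow_natCast, ← Real.rpow_mul hZ0.le]
    congr 1
    push_cast
    ring
  rw [h5, h6]

end Pool.Agent.Lib.H42Y
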