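import Pool.Agent.Lib.H42Y.TB1

/-!
# Chunk TB3 (M)
The full space: a lower bound for independent integer polynomials (compare `Lib/H42W/DT.lean`).

Proof. Take the columns `s j = j < m ≤ M`: the minor is `(∏_{c < m} t c)` times the determinant of the matrix of the first `m` Taylor coefficients, which is the
product of the `m × m` integer matrix of the coefficients of the `v i` (`natDegree < m`) and the matrix `(j, c) ↦ binom(j, c) ζ^(j-c)`, triangular with ones on the diagonal
(see `H42W.dtU`, `H42W.dt_detU` in `Lib/H42W/DT.lean`; `taylor_coeff`, `hasseDeriv_coeff`), so of determinant 1. The integer matrix has a nonzero determinant since the `v i` are independent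
over `ℚ`, so its determinant has absolute value at least 1.
-/

open Polynomial

namespace Pool.Agent.Lib.H42Y

private theorem tb3_int (m : ℕ) (v : Fin m → ℤ[X]) (hv : ∀ i, (v i).natDegree < m)
    (hi : LinearIndependent ℚ fun i => toQ (v i)) :
    (Matrix.of fun i l : Fin m => (v i).coeff l.val).det ≠ 0 := by
  have hrow : LinearIndependent ℚ (Matrix.row (Matrix.of fun i l : Fin m => ((v i).coeff l.val : ℚ))) := by
    rw [Fintype.linearIndependent_iff] at hi ⊢
    intro g hg
    apply hi g
    ext l
    rw [finsetSum_coeff, coeff_zero]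
    by_cases hl : l < m
    · have h := congrFun hg ⟨l, hl⟩
      rw [Finset.sum_apply, Pi.zero_apply] at h
      rw [← h]
      refine Finset.sum_congr rfl fun i _ => ?_
      rw [coeff_smul, toQ, coeff_map, Pi.smul_apply]
      rfl
    · refine Finset.sum_eq_zero fun i _ => ?_
      rw [coeff_smul, toQ, coeff_map, coeff_eq_zero_of_natDegree_lt (lt_of_lt_of_le (hv i) (not_lt.1 hl)),
        map_zero, smul_zero]
  have hu := Matrix.linearIndependent_rows_iff_isUnit.1 hrow
  rw [Matrix.isUnit_iff_isUnit_det, isUnit_iff_ne_zero] at hu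
  intro h
  apply hu
  have hc : (((Matrix.of fun i l : Fin m => (v i).coeff l.val).det : ℤ) : ℚ) =
      (Matrix.of fun i l : Fin m => ((v i).coeff l.val : ℚ)).det := by
    rw [Int.cast_det]
    rfl
  rw [← hc, h, Int.cast_zero]

private theorem tb3_coeff (m : ℕ) (ζ : ℝ) (f : ℤ[X]) (hf : f.natDegree < m) (c : ℕ) :
    (taylor ζ (toR f)).coeff c =
      ∑ l : Fin m, (f.coeff l.val : ℝ) * (ζ ^ (l.val - c) * (l.val.choose c : ℝ)) := by
  have hd : (toR f).natDegree < m := lt_of_le_of_lt natDegree_map_le hf
  conv_lhs => rw [as_sum_range' (toR f) m hd]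
  rw [map_sum, finsetSum_coeff, ← Fin.sum_univ_eq_sum_range
    (fun l => (taylor ζ (monomial l ((toR f).coeff l))).coeff c) m]
  refine Finset.sum_congr rfl fun l _ => ?_
  rw [taylor_monomial, coeff_C_mul, coeff_X_add_C_pow, toR, coeff_map]
  rfl

theorem wn_full (M m : ℕ) (hm : m ≤ M) (ζ : ℝ) (t : ℕ → ℝ) (ht : ∀ c, 0 < t c)
    (v : Fin m → ℤ[X]) (hv : ∀ i, (v i).natDegree < m)
    (hi : LinearIndependent ℚ fun i => toQ (v i)) :
    ∏ c ∈ Finset.range m, t c ≤ wn M ζ t (fun i => toR (v i)) := by
  have h1 := tb3_int m v hv hi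
  have hA : (1 : ℝ) ≤ |((Matrix.of fun i l : Fin m => ((v i).coeff l.val : ℝ)).det)| := by
    have hc : (((Matrix.of fun i l : Fin m => (v i).coeff l.val).det : ℤ) : ℝ) =
        (Matrix.of fun i l : Fin m => ((v i).coeff l.val : ℝ)).det := by
      rw [Int.cast_det]
      rfl
    rw [← hc]
    have := Int.one_le_abs h1
    exact_mod_cast this
  set U : Matrix (Fin m) (Fin m) ℝ :=
    Matrix.of fun l c => ζ ^ (l.val - c.val) * (l.val.choose c.val : ℝ) with hU
  have hdU : U.det = 1 := by
    rw [Matrix.det_of_isLowerTriangular]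
    · refine Finset.prod_eq_one fun i _ => ?_
      rw [hU, Matrix.of_apply, Nat.sub_self, pow_zero, Nat.choose_self, Nat.cast_one, one_mul]
    · intro i j hij
      have hij' : i < j := hij
      have hlt : i.val < j.val := hij'
      rw [hU, Matrix.of_apply, Nat.choose_eq_zero_of_lt hlt, Nat.cast_zero, mul_zero]
  have hmat : (Matrix.of fun i j : Fin m => tv M ζ t (toR (v i)) (Fin.castLE hm j)) =
      Matrix.of fun i j : Fin m => t j.val *
        (((Matrix.of fun i l : Fin m => ((v i).coeff l.val : ℝ)) * U) i j) := by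
    ext i j
    rw [Matrix.of_apply, Matrix.of_apply, tv, Fin.val_castLE, tb3_coeff m ζ (v i) (hv i), Matrix.mul_apply]
    rfl
  have hdet : (Matrix.of fun i j : Fin m => tv M ζ t (toR (v i)) (Fin.castLE hm j)).det =
      (∏ c ∈ Finset.range m, t c) * (Matrix.of fun i l : Fin m => ((v i).coeff l.val : ℝ)).det := by
    rw [hmat, Matrix.det_mul_row, Matrix.det_mul, hdU, mul_one, Finset.prod_range]
  have hpos : 0 < ∏ c ∈ Finset.range m, t c := Finset.prod_pos fun c _ => ht c
  have hle : |(Matrix.of fun i j : Fin m => tv M ζ t (toR (v i)) (Fin.castLE hm j)).det| ≤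
      wn M ζ t (fun i => toR (v i)) := by
    unfold wn mx
    exact le_ciSup (f := fun s : Fin m → Fin M =>
      |(Matrix.of fun i j : Fin m => tv M ζ t (toR (v i)) (s j)).det|)
      (Set.finite_range _).bddAbove (Fin.castLE hm)
  refine le_trans ?_ hle
  rw [hdet, abs_mul, abs_of_pos hpos]
  exact le_mul_of_one_le_right hpos.le hA

end Pool.Agent.Lib.H42Y
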