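import Pool.Agent.Lib.H42Y.LC2
import Pool.Agent.Lib.H42Y.TB3

/-!
# Chunk AS2 (S)
The covolume of the full space.

Proof. `exists_zb` for `degreeLT ℚ m` gives a `ℤ`-basis of `finrank = m` integer polynomials of degree `< m`; `cov_eq` and `wn_full` (reindex `Fin (finrank ..)` to `Fin m`, `mx_reindex`): the covolume is at least `∏ c ∈ range m, t c`. For `w2 Y Δ` and `m ≥ 2` the product is `Y * Δ`, for `w3 Λ Y Δ` and `m ≥ 3` it is `Λ * Y * Δ`.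
-/

open Polynomial

namespace Pool.Agent.Lib.H42Y

private lemma AS2_full (M m : ℕ) (hm : m ≤ M) (ζ : ℝ) (t : ℕ → ℝ) (ht : ∀ c, 0 < t c) :
    ∏ c ∈ Finset.range m, t c ≤ cov M ζ t (degreeLT ℚ m) := by
  have hfr : Module.finrank ℚ (degreeLT ℚ m) = m :=
    (degreeLTEquiv ℚ m).finrank_eq.trans (Module.finrank_fin_fun ℚ)
  obtain ⟨v, hv⟩ := exists_zb m (degreeLT ℚ m) le_rfl
  let e : Fin m ≃ Fin (Module.finrank ℚ (degreeLT ℚ m)) := finCongr hfr.symm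
  have hr1 : (Set.range fun i => toQ (v (e i))) = Set.range fun i => toQ (v i) :=
    e.surjective.range_comp (fun i => toQ (v i))
  have hr2 : (Set.range fun i => v (e i)) = Set.range v := e.surjective.range_comp v
  have hv' : ZB (degreeLT ℚ m) (fun i => v (e i)) := by
    refine ⟨hv.ind.comp e e.injective, ?_, ?_⟩
    · rw [hr1]
      exact hv.span
    · intro f hf
      rw [hr2]
      exact hv.int f hf
  rw [cov_eq M ζ t _ _ hv']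
  refine wn_full M m hm ζ t ht _ (fun i => ?_) hv'.ind
  have h1 : toQ (v (e i)) ∈ degreeLT ℚ m := by
    have h2 : toQ (v (e i)) ∈ Submodule.span ℚ (Set.range fun i => toQ (v (e i))) :=
      Submodule.subset_span ⟨i, rfl⟩
    rw [hv'.span] at h2
    exact h2
  have h3 : toQ (v (e i)) ≠ 0 := hv'.ind.ne_zero i
  rw [mem_degreeLT, ← natDegree_lt_iff_degree_lt h3] at h1
  have h4 : (toQ (v (e i))).natDegree = (v (e i)).natDegree :=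
    natDegree_map_eq_of_injective (RingHom.injective_int _) _
  rw [← h4]
  exact h1

private lemma AS2_w2_pos (Y Δ : ℝ) (hY : 0 < Y) (hΔ : 0 < Δ) : ∀ c, 0 < w2 Y Δ c
  | 0 => hY
  | 1 => hΔ
  | _ + 2 => one_pos

private lemma AS2_w3_pos (Λ Y Δ : ℝ) (hΛ : 0 < Λ) (hY : 0 < Y) (hΔ : 0 < Δ) :
    ∀ c, 0 < w3 Λ Y Δ c
  | 0 => hΛ
  | c + 1 => AS2_w2_pos Y Δ hY hΔ c

private lemma AS2_prod2 (Y Δ : ℝ) (k : ℕ) : ∏ c ∈ Finset.range (k + 2), w2 Y Δ c = Y * Δ := by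
  rw [Finset.prod_range_succ', Finset.prod_range_succ']
  have h : ∏ c ∈ Finset.range k, w2 Y Δ (c + 1 + 1) = 1 :=
    Finset.prod_eq_one fun c _ => rfl
  rw [h]
  show 1 * Δ * Y = Y * Δ
  ring

theorem full2 (M m : ℕ) (hm : m ≤ M) (h2 : 2 ≤ m) (ζ Y Δ : ℝ) (hY : 0 < Y) (hΔ : 0 < Δ) :
    Y * Δ ≤ cov M ζ (w2 Y Δ) (degreeLT ℚ m) := by
  have h := AS2_full M m hm ζ (w2 Y Δ) (AS2_w2_pos Y Δ hY hΔ)
  obtain ⟨k, rfl⟩ : ∃ k, m = k + 2 := ⟨m - 2, by omega⟩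
  rwa [AS2_prod2] at h

theorem full3 (M m : ℕ) (hm : m ≤ M) (h3 : 3 ≤ m) (ζ Λ Y Δ : ℝ) (hΛ : 0 < Λ) (hY : 0 < Y)
    (hΔ : 0 < Δ) : Λ * (Y * Δ) ≤ cov M ζ (w3 Λ Y Δ) (degreeLT ℚ m) := by
  have h := AS2_full M m hm ζ (w3 Λ Y Δ) (AS2_w3_pos Λ Y Δ hΛ hY hΔ)
  obtain ⟨k, rfl⟩ : ∃ k, m = k + 2 + 1 := ⟨m - 3, by omega⟩
  rw [Finset.prod_range_succ'] at h
  have h1 : ∏ c ∈ Finset.range (k + 2), w3 Λ Y Δ (c + 1) = Y * Δ := AS2_prod2 Y Δ k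
  rw [h1] at h
  have h2 : Y * Δ * w3 Λ Y Δ 0 = Λ * (Y * Δ) := mul_comm _ _
  rwa [h2] at h

end Pool.Agent.Lib.H42Y
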