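import Pool.Agent.Lib.H42Y.Defs

/-!
# Chunk GA (S)
Gauss's lemma: the integer points of `D * degreeLT r`.

Proof. Independence: distinct degrees (or `mulLeft (toQ D)` is injective and the `X^i` are independent). Span: `degreeLT ℚ r` is spanned by the `X^i`, `i < r` (`Polynomial.degreeLT_eq_span_X_pow`). Integrality: if `toQ f = toQ D * g` then `D ∣ f` in `ℤ[X]`
(`Polynomial.IsPrimitive.Int.dvd_iff_map_cast_dvd_map_cast`, or `IsPrimitive.dvd...`), `f = D * g'`, `toQ g' = g` has degree `< r`, so `f = ∑ i < r, g'.coeff i • (X^i * D)`.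
-/

open Polynomial

namespace Pool.Agent.Lib.H42Y

private theorem ga_toQ_mul (p q : ℤ[X]) : toQ (p * q) = toQ p * toQ q := Polynomial.map_mul _

private theorem ga_toQ_X_pow (i : ℕ) : toQ (X ^ i) = X ^ i := by
  simp [toQ]

private theorem ga_range (R : Type) [CommRing R] [DecidableEq R[X]] (r : ℕ) (D : R[X]) :
    Set.range (fun i : Fin r => X ^ (i : ℕ) * D) =
      (LinearMap.mulLeft R D) '' (((Finset.range r).image fun n => (X : R[X]) ^ n : Finset R[X]) :
        Set R[X]) := by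
  ext f
  constructor
  · rintro ⟨i, rfl⟩
    refine ⟨X ^ (i : ℕ), ?_, ?_⟩
    · rw [Finset.mem_coe, Finset.mem_image]
      exact ⟨i, Finset.mem_range.2 i.2, rfl⟩
    · rw [LinearMap.mulLeft_apply]
      exact mul_comm _ _
  · rintro ⟨g, hg, rfl⟩
    rw [Finset.mem_coe, Finset.mem_image] at hg
    obtain ⟨i, hi, rfl⟩ := hg
    refine ⟨⟨i, Finset.mem_range.1 hi⟩, ?_⟩
    rw [LinearMap.mulLeft_apply]
    exact mul_comm _ _

private theorem ga_dvd (D f : ℤ[X]) (hD : D.IsPrimitive) (h : toQ D ∣ toQ f) : D ∣ f := by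
  by_cases hf : f = 0
  · rw [hf]
    exact dvd_zero _
  have hc : f.content ≠ 0 := by
    rw [Ne, content_eq_zero_iff]
    exact hf
  have h1 : toQ f = C ((f.content : ℤ) : ℚ) * toQ f.primPart := by
    conv_lhs => rw [f.eq_C_content_mul_primPart]
    rw [ga_toQ_mul]
    simp [toQ]
  have h2 : toQ D ∣ toQ f.primPart := by
    rw [h1] at h
    have h3 : IsUnit (C ((f.content : ℤ) : ℚ)) := by
      rw [isUnit_C]
      exact isUnit_iff_ne_zero.2 (by exact_mod_cast hc)
    exact (h3.dvd_mul_left).1 h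
  have h4 : D ∣ f.primPart :=
    (IsPrimitive.Int.dvd_iff_map_cast_dvd_map_cast D f.primPart hD).2 h2
  exact h4.trans f.primPart_dvd

theorem gauss_zb (D : ℤ[X]) (hD : D.IsPrimitive) (r : ℕ) :
    ZB ((degreeLT ℚ r).map (LinearMap.mulLeft ℚ (toQ D))) (fun i : Fin r => X ^ (i : ℕ) * D) := by
  classical
  have hD0 : D ≠ 0 := hD.ne_zero
  have hQ0 : toQ D ≠ 0 := by
    rw [toQ, Ne, Polynomial.map_eq_zero_iff (RingHom.injective_int _)]
    exact hD0
  have hfun : (fun i : Fin r => toQ (X ^ (i : ℕ) * D)) = fun i : Fin r => X ^ (i : ℕ) * toQ D := by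
    funext i
    rw [ga_toQ_mul, ga_toQ_X_pow]
  refine ⟨?_, ?_, ?_⟩
  · rw [hfun]
    have h1 : LinearIndependent ℚ (fun i : Fin r => (X : ℚ[X]) ^ (i : ℕ)) := by
      have h2 := (Polynomial.basisMonomials ℚ).linearIndependent.comp (Fin.val : Fin r → ℕ)
        Fin.val_injective
      have h3 : (fun i : Fin r => (X : ℚ[X]) ^ (i : ℕ)) =
          (Polynomial.basisMonomials ℚ) ∘ (Fin.val : Fin r → ℕ) := by
        funext i
        simp [X_pow_eq_monomial]
      rw [h3]
      exact h2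
    have h4 := h1.map' (LinearMap.mulLeft ℚ (toQ D)) (by
      rw [LinearMap.ker_eq_bot]
      intro a b hab
      exact mul_left_cancel₀ hQ0 hab)
    have h5 : (fun i : Fin r => (X : ℚ[X]) ^ (i : ℕ) * toQ D) =
        (LinearMap.mulLeft ℚ (toQ D)) ∘ (fun i : Fin r => (X : ℚ[X]) ^ (i : ℕ)) := by
      funext i
      rw [Function.comp_apply, LinearMap.mulLeft_apply]
      exact mul_comm _ _
    rw [h5]
    exact h4
  · rw [hfun, ga_range, ← Submodule.map_span, ← degreeLT_eq_span_X_pow]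
  · intro f hf
    rw [Submodule.mem_map] at hf
    obtain ⟨g, hg, hgf⟩ := hf
    rw [LinearMap.mulLeft_apply] at hgf
    obtain ⟨g', rfl⟩ := ga_dvd D f hD ⟨g, hgf.symm⟩
    rw [ga_toQ_mul] at hgf
    have hgg : g = toQ g' := mul_left_cancel₀ hQ0 hgf
    rw [ga_range, ← Submodule.map_span, ← degreeLT_eq_span_X_pow]
    refine ⟨g', ?_, rfl⟩
    rw [SetLike.mem_coe, mem_degreeLT]
    rw [hgg, mem_degreeLT, toQ, degree_map_eq_of_injective (RingHom.injective_int _)] at hg
    exact hg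

end Pool.Agent.Lib.H42Y
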