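import Pool.Agent.Lib.H42Y.UD

/-!
# Chunk GQ (M)
The growth lemma over `ℚ` (port of `Lib/H42W/GL1.lean`, `GL2.lean`, `GR.lean`, where it is proved over `ℝ`).

Proof. `grow`: the proof of `H42W.grow` over `ℚ` gives `min (m + 2) (finrank W + 2) ≤ finrank (up W)`; as `W ≠ degreeLT ℚ (m + 1)`, `finrank W ≤ m`. `levels`: induction on `j` as in `H42W.levels`: `up^[j] V ≤ degreeLT ℚ (n + 1 + j)` contains `p`, `r` and `X^j * r` of degree
`n + j`; if it is everything then its dimension is `n + j + 1` and so is that of the later ones (they contain `X^i * ·`; or use `grow` in the `min` form). `greedy`: the proof of `H42W.greedy` for a general field `K`.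
-/

open Polynomial

namespace Pool.Agent.Lib.H42Y

private theorem GQ_apply (v : ℚ[X]) : mulX v = X * v := rfl

private theorem GQ_finrank (k : ℕ) : Module.finrank ℚ (degreeLT ℚ k) = k := by
  rw [(degreeLTEquiv ℚ k).finrank_eq, Module.finrank_fin_fun]

private theorem GQ_fin (k : ℕ) : FiniteDimensional ℚ (degreeLT ℚ k) :=
  Module.Finite.equiv (degreeLTEquiv ℚ k).symm

/-- The chain of subspaces. -/
private noncomputable def GQU (W : Submodule ℚ ℚ[X]) : ℕ → Submodule ℚ ℚ[X]
  | 0 => W
  | j + 1 => W ⊓ (GQU W j).map mulX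

private theorem GQU_le (W : Submodule ℚ ℚ[X]) (j : ℕ) : GQU W j ≤ W := by
  cases j with
  | zero => exact le_rfl
  | succ j => exact inf_le_left

private theorem GQU_mem (W : Submodule ℚ ℚ[X]) (j : ℕ) :
    ∀ u ∈ GQU W j, ∃ e : ℚ[X], u = X ^ j * e ∧ ∀ i ≤ j, X ^ i * e ∈ W := by
  induction j with
  | zero =>
    intro u hu
    refine ⟨u, by simp, fun i hi => ?_⟩
    obtain rfl : i = 0 := by omega
    rw [pow_zero, one_mul]
    exact hu
  | succ j ih =>
    intro u hu
    have hu' : u ∈ W ⊓ (GQU W j).map mulX := hu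
    rw [Submodule.mem_inf] at hu'
    obtain ⟨huW, v, hv, hvu⟩ := hu'
    obtain ⟨e, hve, he⟩ := ih v hv
    have hue : u = X ^ (j + 1) * e := by
      rw [← hvu, GQ_apply, hve]; ring
    refine ⟨e, hue, fun i hi => ?_⟩
    rcases Nat.lt_or_ge i (j + 1) with h | h
    · exact he i (by omega)
    · obtain rfl : i = j + 1 := by omega
      rwa [← hue]

private theorem GQ_inj : Function.Injective mulX := by
  intro a b hab
  rw [GQ_apply, GQ_apply] at hab
  exact mul_left_cancel₀ X_ne_zero hab

private theorem GQ_grow (W : Submodule ℚ ℚ[X]) (m : ℕ) (hW : ∀ f ∈ W, f.natDegree ≤ m) (p r s : ℚ[X])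
    (hp : p ∈ W) (hr : r ∈ W) (hcop : IsCoprime p r) (hs : s ∈ W) (hsm : s.natDegree = m) :
    min (m + 2) (Module.finrank ℚ W + 2) ≤
      Module.finrank ℚ (W ⊔ W.map mulX : Submodule ℚ ℚ[X]) := by
  have hWle : W ≤ degreeLT ℚ (m + 1) := by
    intro f hf
    rw [mem_degreeLT]
    refine lt_of_le_of_lt degree_le_natDegree ?_
    exact_mod_cast Nat.lt_succ_of_le (hW f hf)
  have hfl := GQ_fin (m + 1)
  have hWf : FiniteDimensional ℚ W := Submodule.finiteDimensional_of_le hWle
  set T := mulX with hT
  have hTWf : FiniteDimensional ℚ (W.map T) := inferInstance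
  have hsupf : FiniteDimensional ℚ (W ⊔ W.map T : Submodule ℚ ℚ[X]) := inferInstance
  set d := Module.finrank ℚ W with hd
  by_contra hcon
  rw [not_le, lt_min_iff] at hcon
  obtain ⟨hcon1, hcon2⟩ := hcon
  -- `W ≠ 0`
  have hd1 : 1 ≤ d := by
    by_contra h0
    have : Module.finrank ℚ W = 0 := by omega
    have hbot : W = ⊥ := Submodule.finrank_eq_zero.1 this
    have hp0 : p = 0 := by rw [hbot] at hp; simpa using hp
    have hr0 : r = 0 := by rw [hbot] at hr; simpa using hr
    rw [hp0, hr0] at hcop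
    exact not_isCoprime_zero_zero hcop
  have hdim : ∀ j, d ≤ Module.finrank ℚ (GQU W j) + j := by
    intro j
    induction j with
    | zero => exact le_of_eq rfl
    | succ j ih =>
      have hUf : FiniteDimensional ℚ (GQU W j) := Submodule.finiteDimensional_of_le (GQU_le W j)
      have h1 : Module.finrank ℚ ((GQU W j).map T) = Module.finrank ℚ (GQU W j) :=
        (Submodule.equivMapOfInjective T GQ_inj (GQU W j)).finrank_eq.symm
      have h2 := Submodule.finrank_sup_add_finrank_inf_eq W ((GQU W j).map T)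
      have h3 : Module.finrank ℚ (W ⊔ (GQU W j).map T : Submodule ℚ ℚ[X]) ≤
          Module.finrank ℚ (W ⊔ W.map T : Submodule ℚ ℚ[X]) :=
        Submodule.finrank_mono (sup_le_sup_left (Submodule.map_mono (GQU_le W j)) W)
      have h4 : Module.finrank ℚ (GQU W (j + 1)) =
          Module.finrank ℚ (W ⊓ (GQU W j).map T : Submodule ℚ ℚ[X]) := rfl
      omega
  -- the element `e`
  obtain ⟨e, he0, heW⟩ : ∃ e : ℚ[X], e ≠ 0 ∧ ∀ i < d, X ^ i * e ∈ W := by
    have h1 := hdim (d - 1)
    have h2 : 0 < Module.finrank ℚ (GQU W (d - 1)) := by omega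
    have h3 : GQU W (d - 1) ≠ ⊥ := by
      intro h
      rw [h, finrank_bot] at h2
      exact lt_irrefl _ h2
    obtain ⟨u, hu, hu0⟩ := Submodule.exists_mem_ne_zero_of_ne_bot h3
    obtain ⟨e, hue, he⟩ := GQU_mem W (d - 1) u hu
    refine ⟨e, ?_, fun i hi => he i (by omega)⟩
    rintro rfl
    exact hu0 (by rw [hue, mul_zero])
  -- `W` consists of the multiples
  have hDf := GQ_fin d
  have hmap : (degreeLT ℚ d).map (LinearMap.mulRight ℚ e) = W := by
    apply Submodule.eq_of_le_of_finrank_eq
    · rintro f ⟨q, hq, rfl⟩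
      rw [SetLike.mem_coe, degreeLT_eq_span_X_pow] at hq
      rw [LinearMap.mulRight_apply]
      induction hq using Submodule.span_induction with
      | mem x hx =>
        rw [Finset.mem_coe, Finset.mem_image] at hx
        obtain ⟨i, hi, rfl⟩ := hx
        exact heW i (Finset.mem_range.1 hi)
      | zero => rw [zero_mul]; exact W.zero_mem
      | add x y _ _ hx hy => rw [add_mul]; exact W.add_mem hx hy
      | smul c x _ hx => rw [smul_mul_assoc]; exact W.smul_mem c hx
    · have hinj : Function.Injective (LinearMap.mulRight ℚ e) := by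
        intro a b hab
        simp only [LinearMap.mulRight_apply] at hab
        exact mul_right_cancel₀ he0 hab
      rw [← (Submodule.equivMapOfInjective _ hinj (degreeLT ℚ d)).finrank_eq, GQ_finrank]
  have hdvd : ∀ f ∈ W, e ∣ f := by
    intro f hf
    rw [← hmap] at hf
    obtain ⟨q, _, rfl⟩ := hf
    exact ⟨q, by rw [LinearMap.mulRight_apply, mul_comm]⟩
  have hunit : IsUnit e := hcop.isUnit_of_dvd' (hdvd p hp) (hdvd r hr)
  obtain ⟨c, hc, hce⟩ := Polynomial.isUnit_iff.1 hunit
  have hc0 : c ≠ 0 := hc.ne_zero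
  have hWX : ∀ i < d, (X : ℚ[X]) ^ i ∈ W := by
    intro i hi
    have h1 := W.smul_mem c⁻¹ (heW i hi)
    rw [← hce, mul_comm, ← smul_eq_C_mul, smul_smul, inv_mul_cancel₀ hc0, one_smul] at h1
    exact h1
  have hmd : m < d := by
    have hs' := hs
    rw [← hmap] at hs'
    obtain ⟨q, hq, hqs⟩ := hs'
    rw [LinearMap.mulRight_apply, ← hce] at hqs
    rw [SetLike.mem_coe, mem_degreeLT] at hq
    have hle : s.natDegree ≤ q.natDegree := by
      rw [← hqs, natDegree_mul_C hc0]
    have hlt : q.natDegree < d := by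
      by_cases hq0 : q = 0
      · rw [hq0, natDegree_zero]; omega
      · rwa [degree_eq_natDegree hq0, Nat.cast_lt] at hq
    omega
  have hbig : degreeLT ℚ (d + 1) ≤ W ⊔ W.map T := by
    rw [degreeLT_eq_span_X_pow, Submodule.span_le]
    intro x hx
    rw [Finset.mem_coe, Finset.mem_image] at hx
    obtain ⟨i, hi, rfl⟩ := hx
    rw [Finset.mem_range] at hi
    rcases Nat.lt_or_ge i d with h | h
    · exact Submodule.mem_sup_left (hWX i h)
    · refine Submodule.mem_sup_right ⟨X ^ (d - 1), hWX _ (by omega), ?_⟩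
      rw [hT, GQ_apply, ← pow_succ']
      congr 1
      omega
  have hfin := Submodule.finrank_mono hbig
  rw [GQ_finrank] at hfin
  omega

theorem grow (m : ℕ) (W : Submodule ℚ ℚ[X]) (hW : W ≤ degreeLT ℚ (m + 1))
    (hne : W ≠ degreeLT ℚ (m + 1)) (p r s : ℚ[X]) (hp : p ∈ W) (hr : r ∈ W)
    (hcop : IsCoprime p r) (hs : s ∈ W) (hsm : s.natDegree = m) :
    Module.finrank ℚ W + 2 ≤ Module.finrank ℚ (up W) := by
  have hdeg : ∀ f ∈ W, f.natDegree ≤ m := by
    intro f hf
    have h1 := hW hf
    rw [mem_degreeLT] at h1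
    by_cases hf0 : f = 0
    · rw [hf0, natDegree_zero]; exact Nat.zero_le _
    · rw [degree_eq_natDegree hf0] at h1
      have h2 : f.natDegree < m + 1 := by exact_mod_cast h1
      omega
  have hg := GQ_grow W m hdeg p r s hp hr hcop hs hsm
  have hf := GQ_fin (m + 1)
  have hlt : Module.finrank ℚ W < Module.finrank ℚ (degreeLT ℚ (m + 1)) :=
    Submodule.finrank_lt_finrank_of_lt (lt_of_le_of_ne hW hne)
  rw [GQ_finrank] at hlt
  unfold up
  omega

theorem levels (n j l : ℕ) (V : Submodule ℚ ℚ[X]) (hV : V ≤ degreeLT ℚ (n + 1)) (p r : ℚ[X])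
    (hp : p ∈ V) (hr : r ∈ V) (hcop : IsCoprime p r) (hrn : r.natDegree = n)
    (hl : l ≤ Module.finrank ℚ V) :
    min (n + j + 1) (l + 2 * j) ≤ Module.finrank ℚ (up^[j] V : Submodule ℚ ℚ[X]) := by
  induction j with
  | zero =>
    rw [Function.iterate_zero, id_eq]
    omega
  | succ j ih =>
    rw [Function.iterate_succ_apply']
    have hWle := iter_deg (n + 1) j V hV
    set W := (up^[j] V : Submodule ℚ ℚ[X]) with hWdef
    have hdeg : ∀ f ∈ W, f.natDegree ≤ n + j := by
      intro f hf
      have h1 := hWle hf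
      rw [mem_degreeLT] at h1
      by_cases hf0 : f = 0
      · rw [hf0, natDegree_zero]; exact Nat.zero_le _
      · rw [degree_eq_natDegree hf0] at h1
        have h2 : f.natDegree < n + 1 + j := by exact_mod_cast h1
        omega
    have hpW : p ∈ W := iter_mono 0 j (Nat.zero_le j) V hp
    have hrW : r ∈ W := iter_mono 0 j (Nat.zero_le j) V hr
    have hex : ∃ s ∈ W, s.natDegree = n + j := by
      by_cases hr0 : r = 0
      · have hn : n = 0 := by rw [← hrn, hr0]; simp
        have hu : IsUnit p := by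
          rw [hr0] at hcop
          exact isCoprime_zero_right.mp hcop
        refine ⟨X ^ j * p, iter_mem j j le_rfl V p hp, ?_⟩
        rw [Polynomial.natDegree_mul (pow_ne_zero _ Polynomial.X_ne_zero) hu.ne_zero,
          Polynomial.natDegree_X_pow, Polynomial.natDegree_eq_zero_of_isUnit hu, hn]
        omega
      · refine ⟨X ^ j * r, iter_mem j j le_rfl V r hr, ?_⟩
        rw [Polynomial.natDegree_mul (pow_ne_zero _ Polynomial.X_ne_zero) hr0,
          Polynomial.natDegree_X_pow, hrn]
        omega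
    obtain ⟨s, hs, hsm⟩ := hex
    have hg := GQ_grow W (n + j) hdeg p r s hpW hrW hcop hs hsm
    change min (n + (j + 1) + 1) (l + 2 * (j + 1)) ≤
      Module.finrank ℚ (W ⊔ W.map mulX : Submodule ℚ ℚ[X])
    omega

theorem greedy {K V : Type} [Field K] [AddCommGroup V] [Module K V] (D : ℕ) (S : Fin D → Set V)
    (h : ∀ m : Fin D, (m : ℕ) + 1 ≤ Module.finrank K (Submodule.span K (S m))) :
    ∃ y : Fin D → V, (∀ m, y m ∈ S m) ∧ LinearIndependent K y := by
  induction D with
  | zero => exact ⟨fun m => m.elim0, fun m => m.elim0, linearIndependent_empty_type⟩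
  | succ D ih =>
    obtain ⟨y, hy, hli⟩ := ih (fun m => S m.castSucc) (fun m => h m.castSucc)
    have hz : ∃ z ∈ S (Fin.last D), z ∉ Submodule.span K (Set.range y) := by
      by_contra hcon
      push Not at hcon
      have h1 : Submodule.span K (S (Fin.last D)) ≤ Submodule.span K (Set.range y) :=
        Submodule.span_le.2 hcon
      have : Module.Finite K (Submodule.span K (Set.range y)) :=
        FiniteDimensional.span_of_finite K (Set.finite_range y)
      have h2 := Submodule.finrank_mono h1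
      have h3 := finrank_span_eq_card hli
      have h4 := h (Fin.last D)
      rw [h3, Fintype.card_fin] at h2
      rw [Fin.val_last] at h4
      omega
    obtain ⟨z, hzS, hz⟩ := hz
    refine ⟨Fin.snoc y z, fun m => ?_, ?_⟩
    · refine Fin.lastCases ?_ (fun i => ?_) m
      · rw [Fin.snoc_last]
        exact hzS
      · rw [Fin.snoc_castSucc]
        exact hy i
    · exact linearIndependent_finSnoc.2 ⟨hli, hz⟩

end Pool.Agent.Lib.H42Y
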