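import Pool.Agent.Lib.H42Y.ONE
import Pool.Agent.Lib.H42Y.GA
import Pool.Agent.Lib.H42Y.LC2
import Pool.Agent.Lib.H42Y.GQ

/-!
# Chunk BA (M)
The base of the chain.

Proof. `J ≥ 1`, `d ≥ J ≥ 1`. `1 ≤ r`: `L 0 ≠ ⊥`, `growth_one` (`rank0`, `low`) gives a primitive `D` with `L 0 = toQ D * degreeLT r`. `X * L i ≤ L (i+1)` for `i < d` (`L i = dn (L (i+1))`, `mem_dn`) and `L i ≤ L (i+1)`, so `X^i * toQ D ∈ L d` for `i < r + d` (`X^i D`, `i ≤ r - 1`, lies in `L 0`), and `toQ D * degreeLT (r+1) ≤ L 1`.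
`L d = up^[J-1] V ≤ degreeLT ℚ (n + J)` (`iter_deg`), so `deg D + r + d - 1 ≤ n + J - 1` and with `r + 1 + 2 d = n + J`: `deg D ≤ d + 1`, `deg D + r ≤ d + 1 + r = n + J - d ≤ n` (`J ≤ d`). `gauss_zb` gives `ℤ`-bases of `L 0` and of `toQ D * degreeLT (r+1)` (dimension `r + 1`); `extend_zb` to `L 1` (dimension
`rank 0`: `r + 2`) by one vector `U` (`Fin (r + 2 - (r + 1)) ≃ Unit`), `U ∈ L 1 ≤ degreeLT ℚ (n + J + 1)`. `cov_eq` for both, all weights (`toR (X^i * D) = X^i * toR D`, `mx_reindex`). `r = 0`: `L 0 = ⊥` (dimension 0), `cov_bot`; `exists_zb` for `L 1` (dimension 2) gives `D, U`, `D ≠ 0`.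
-/

open Polynomial

namespace Pool.Agent.Lib.H42Y

private theorem ba_zb_reindex {ι κ : Type} {V : Submodule ℚ ℚ[X]} {v : ι → ℤ[X]} (hv : ZB V v)
    (e : κ ≃ ι) : ZB V (fun k => v (e k)) where
  ind := hv.ind.comp e e.injective
  span := by
    rw [← hv.span]
    congr 1
    exact e.surjective.range_comp (fun i => toQ (v i))
  int := by
    intro f hf
    have h1 := hv.int f hf
    have h2 : Set.range (fun k => v (e k)) = Set.range v := e.surjective.range_comp v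
    rw [h2]
    exact h1

private theorem ba_toQ_X (D : ℤ[X]) (i : ℕ) : toQ (X ^ i * D) = X ^ i * toQ D := by
  unfold toQ
  rw [Polynomial.map_mul, Polynomial.map_pow, Polynomial.map_X]

private theorem ba_toR_X (D : ℤ[X]) (i : ℕ) : toR (X ^ i * D) = X ^ i * toR D := by
  unfold toR
  rw [Polynomial.map_mul, Polynomial.map_pow, Polynomial.map_X]

private theorem ba_natDegree_toQ (D : ℤ[X]) : (toQ D).natDegree = D.natDegree :=
  Polynomial.natDegree_map_eq_of_injective (Int.cast_injective (α := ℚ)) D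

private theorem ba_deg_le {m : ℕ} {D : ℤ[X]} (h : toQ D ∈ degreeLT ℚ (m + 1)) :
    D.natDegree ≤ m := by
  rw [Polynomial.mem_degreeLT] at h
  rw [← ba_natDegree_toQ]
  by_cases h0 : toQ D = 0
  · rw [h0]
    simp
  · have := (Polynomial.natDegree_lt_iff_degree_lt h0).mpr h
    omega

private theorem ba_mem_of_zb {ι : Type} {V : Submodule ℚ ℚ[X]} {v : ι → ℤ[X]} (hv : ZB V v)
    (i : ι) : toQ (v i) ∈ V := by
  rw [← hv.span]
  exact Submodule.subset_span ⟨i, rfl⟩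

private theorem ba_chain (n J j1 d r : ℕ) (V : Submodule ℚ ℚ[X]) (L : ℕ → Submodule ℚ ℚ[X])
    (h : Chn n J j1 V d r L) (hr : 1 ≤ r) {D : ℤ[X]} (h0 : ∀ i < r, X ^ i * toQ D ∈ L 0) :
    ∀ e ≤ d, ∀ i < r + e, X ^ i * toQ D ∈ L e := by
  intro e
  induction e with
  | zero => exact fun _ i hi => h0 i hi
  | succ e ih =>
    intro he i hi
    have hdn := h.dn_eq e (by omega)
    rcases Nat.eq_zero_or_pos i with rfl | hi0
    · have h1 := ih (by omega) 0 (by omega)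
      rw [← hdn] at h1
      exact dn_le _ h1
    · obtain ⟨i', rfl⟩ : ∃ i', i = i' + 1 := ⟨i - 1, by omega⟩
      have h1 := ih (by omega) i' (by omega)
      rw [← hdn, mem_dn] at h1
      have h2 := h1.2
      rw [← mul_assoc, ← pow_succ'] at h2
      exact h2

theorem base_pos (n J j1 d r : ℕ) (V : Submodule ℚ ℚ[X]) (L : ℕ → Submodule ℚ ℚ[X])
    (hV : V ≤ degreeLT ℚ (n + 1)) (hJ : 1 ≤ J) (h : Chn n J j1 V d r L) (hr : 1 ≤ r) :
    ∃ D U : ℤ[X], D ≠ 0 ∧ D.natDegree + r ≤ n ∧ U.natDegree ≤ n + J ∧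
      (∀ i < r + d, X ^ i * toQ D ∈ L d) ∧ ∀ (M : ℕ) (ζ : ℝ) (t : ℕ → ℝ),
        cov M ζ t (L 0) = wn M ζ t (fun i : Fin r => X ^ (i : ℕ) * toR D) ∧
        cov M ζ t (L 1) = wn M ζ t
          (Sum.elim (fun i : Fin (r + 1) => X ^ (i : ℕ) * toR D) (fun _ : Unit => toR U)) := by
  have hd := h.hJ
  have hdim := h.dim
  have hne : L 0 ≠ ⊥ := by
    intro h0
    have h1 := h.rank0
    rw [h0, finrank_bot] at h1
    omega
  obtain ⟨D, hD, hL0⟩ := growth_one (n + J + 1) (L 0) (h.deg 0 (by omega)) hne (by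
    rw [h.rank0]
    exact h.low)
  rw [h.rank0] at hL0
  have hD0 : D ≠ 0 := hD.ne_zero
  have hQ0 : toQ D ≠ 0 := by
    intro h0
    exact hD0 ((Polynomial.map_eq_zero_iff (Int.cast_injective (α := ℚ))).mp h0)
  have hz0 := gauss_zb D hD r
  rw [← hL0] at hz0
  have hmem0 : ∀ i < r, X ^ i * toQ D ∈ L 0 := by
    intro i hi
    have := ba_mem_of_zb hz0 (⟨i, hi⟩ : Fin r)
    rw [ba_toQ_X] at this
    exact this
  have hch := ba_chain n J j1 d r V L h hr hmem0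
  have hdeg : D.natDegree + r ≤ n := by
    have h1 := hch d le_rfl (r + d - 1) (by omega)
    rw [h.top] at h1
    have h2 := iter_deg (n + 1) (J - 1) V hV h1
    rw [Polynomial.mem_degreeLT] at h2
    have hne' : X ^ (r + d - 1) * toQ D ≠ 0 := mul_ne_zero (pow_ne_zero _ Polynomial.X_ne_zero) hQ0
    have h3 := (Polynomial.natDegree_lt_iff_degree_lt hne').mpr h2
    rw [Polynomial.natDegree_mul (pow_ne_zero _ Polynomial.X_ne_zero) hQ0,
      Polynomial.natDegree_X_pow, ba_natDegree_toQ] at h3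
    omega
  have hz1 := gauss_zb D hD (r + 1)
  set W1 : Submodule ℚ ℚ[X] := (degreeLT ℚ (r + 1)).map (LinearMap.mulLeft ℚ (toQ D)) with hW1
  have hle : W1 ≤ L 1 := by
    rw [← hz1.span, Submodule.span_le]
    rintro _ ⟨i, rfl⟩
    show toQ (X ^ (i : ℕ) * D) ∈ L 1
    rw [ba_toQ_X]
    exact hch 1 (by omega) i i.2
  have hc1 : Module.finrank ℚ W1 = r + 1 := by
    rw [← zb_card W1 _ hz1, Fintype.card_fin]
  have hc2 : Module.finrank ℚ (L 1) = r + 2 := by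
    have := h.rank 0 (by omega)
    simpa using this
  obtain ⟨u, hu⟩ := extend_zb (n + J + 1) W1 (L 1) (h.deg 1 (by omega)) hle _ hz1
  have hcard : Module.finrank ℚ (L 1) - Module.finrank ℚ W1 = 1 := by
    rw [hc1, hc2]
    omega
  let e : Unit ≃ Fin (Module.finrank ℚ (L 1) - Module.finrank ℚ W1) :=
    Fintype.equivOfCardEq (by rw [Fintype.card_fin, hcard]; rfl)
  have hz2 := ba_zb_reindex hu (Equiv.sumCongr (Equiv.refl (Fin (r + 1))) e)
  refine ⟨D, u (e ()), hD0, hdeg, ?_, hch d le_rfl, fun M ζ t => ⟨?_, ?_⟩⟩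
  · exact ba_deg_le (h.deg 1 (by omega) (ba_mem_of_zb hz2 (Sum.inr ())))
  · rw [cov_eq M ζ t (L 0) _ hz0]
    congr 1
    funext i
    exact ba_toR_X D i
  · rw [cov_eq M ζ t (L 1) _ hz2]
    congr 1
    funext i
    rcases i with i | i
    · exact ba_toR_X D i
    · rfl

theorem base_zero (n J j1 d : ℕ) (V : Submodule ℚ ℚ[X]) (L : ℕ → Submodule ℚ ℚ[X])
    (hJ : 1 ≤ J) (h : Chn n J j1 V d 0 L) :
    ∃ D U : ℤ[X], D ≠ 0 ∧ D.natDegree ≤ n + J ∧ U.natDegree ≤ n + J ∧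
      ∀ (M : ℕ) (ζ : ℝ) (t : ℕ → ℝ), cov M ζ t (L 0) = 1 ∧
        cov M ζ t (L 1) = wn M ζ t
          (Sum.elim (fun i : Fin 1 => X ^ (i : ℕ) * toR D) (fun _ : Unit => toR U)) := by
  have hd := h.hJ
  have hbot : L 0 = ⊥ := by
    obtain ⟨v, hv⟩ := exists_zb (n + J + 1) (L 0) (h.deg 0 (by omega))
    rw [← hv.span, Submodule.span_eq_bot]
    rintro _ ⟨i, rfl⟩
    exfalso
    have := i.2
    have h2 := h.rank0
    omega
  have hc2 : Module.finrank ℚ (L 1) = 2 := by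
    have := h.rank 0 (by omega)
    simpa using this
  obtain ⟨v, hv⟩ := exists_zb (n + J + 1) (L 1) (h.deg 1 (by omega))
  let e : (Fin 1 ⊕ Unit) ≃ Fin (Module.finrank ℚ (L 1)) :=
    Fintype.equivOfCardEq (by rw [Fintype.card_fin, hc2]; rfl)
  have hz := ba_zb_reindex hv e
  refine ⟨v (e (Sum.inl 0)), v (e (Sum.inr ())), ?_, ?_, ?_, fun M ζ t => ⟨?_, ?_⟩⟩
  · intro h0
    have h1 := hz.ind.ne_zero (Sum.inl 0)
    apply h1
    show toQ (v (e (Sum.inl 0))) = 0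
    rw [h0]
    exact Polynomial.map_zero _
  · exact ba_deg_le (h.deg 1 (by omega) (ba_mem_of_zb hz (Sum.inl 0)))
  · exact ba_deg_le (h.deg 1 (by omega) (ba_mem_of_zb hz (Sum.inr ())))
  · rw [hbot]
    exact cov_bot M ζ t
  · rw [cov_eq M ζ t (L 1) _ hz]
    congr 1
    funext i
    rcases i with i | i
    · have hi : i = 0 := Subsingleton.elim _ _
      subst hi
      simp
    · rfl

end Pool.Agent.Lib.H42Y
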