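import Pool.Agent.Lib.H42Y.MA5

/-!
# Chunk MA7 (M)
`two_step` when the first family is only contained in the span of the second.

Proof. `K` from `two_step`. If `v` is dependent then so is `(v, w)` and `mx (v, w) = 0` (`mx_dep`). Let `v` be independent. If `u` is dependent, `mx u = 0`.
Let `u` be independent, all `u i ∈ span v`. Extend `u` by vectors `v'` among the `v i` to a basis `(u, v')` of `span v` (a `Fin (b - a)` family: the span of `v` has
dimension `b`; `LinearIndependent.extend` with the set `range v`, or the exchange lemma). `(u, v') = A v` with a `b × b` matrix `A` (after an index equivalence `e : Fin b ≃ Fin a ⊕ Fin (b-a)`), so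
`mx (u, v') = |det A| mx v` (`mx_lin`, `mx_reindex`), `mx (u, v', w) = |det A| mx (v, w)` (`mx_lin` with `Matrix.fromBlocks A 0 0 1`), and `det A ≠ 0` since
`mx (u, v') > 0` (`mx_pos`). `two_step` for `u, v', w`: `|det A| mx (v, w) mx u ≤ K |det A| mx v mx (u, w)`.
-/

open Polynomial

namespace Pool.Agent.Lib.H42Y

private theorem MA7_ext {M a b : ℕ} {u : Fin a → Fin M → ℝ} {v : Fin b → Fin M → ℝ}
    (hu : LinearIndependent ℝ u) (hv : LinearIndependent ℝ v)
    (h : ∀ i, u i ∈ Submodule.span ℝ (Set.range v)) :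
    ∀ m : ℕ, a + m ≤ b → ∃ z : Fin (a + m) → Fin M → ℝ, LinearIndependent ℝ z ∧
      (∀ i, z i ∈ Submodule.span ℝ (Set.range v)) ∧ ∀ i : Fin a, z (Fin.castAdd m i) = u i
  | 0, _ => ⟨u, hu, h, fun _ => rfl⟩
  | m + 1, hm => by
    obtain ⟨z, hz, hzv, hzu⟩ := MA7_ext hu hv h m (by omega)
    obtain ⟨i, hi⟩ : ∃ i, v i ∉ Submodule.span ℝ (Set.range z) := by
      by_contra hcon
      push Not at hcon
      have h1 : Submodule.span ℝ (Set.range v) ≤ Submodule.span ℝ (Set.range z) := by
        rw [Submodule.span_le]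
        rintro _ ⟨i, rfl⟩
        exact hcon i
      have h2 := Submodule.finrank_mono h1
      rw [finrank_span_eq_card hv, finrank_span_eq_card hz, Fintype.card_fin,
        Fintype.card_fin] at h2
      omega
    refine ⟨Fin.snoc z (v i), ?_, ?_, ?_⟩
    · rw [linearIndependent_finSnoc]
      exact ⟨hz, hi⟩
    · intro j
      refine Fin.lastCases ?_ (fun j => ?_) j
      · rw [Fin.snoc_last]
        exact Submodule.subset_span ⟨i, rfl⟩
      · rw [Fin.snoc_castSucc]
        exact hzv j
    · intro j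
      have h3 : Fin.castAdd (m + 1) j = Fin.castSucc (Fin.castAdd m j) := rfl
      rw [h3, Fin.snoc_castSucc]
      exact hzu j

theorem sub_step (M : ℕ) : ∃ K : ℝ, 1 ≤ K ∧ ∀ (a b c : ℕ) (u : Fin a → Fin M → ℝ)
    (v : Fin b → Fin M → ℝ) (w : Fin c → Fin M → ℝ),
    (∀ i, u i ∈ Submodule.span ℝ (Set.range v)) →
      mx (Sum.elim v w) * mx u ≤ K * (mx v * mx (Sum.elim u w)) := by
  obtain ⟨K, hK1, hK⟩ := two_step M
  refine ⟨K, hK1, ?_⟩
  intro a b c u v w h
  have hrhs : 0 ≤ K * (mx v * mx (Sum.elim u w)) :=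
    mul_nonneg (by linarith) (mul_nonneg (mx_nonneg _) (mx_nonneg _))
  by_cases hv : LinearIndependent ℝ v
  swap
  · have h1 : ¬ LinearIndependent ℝ (Sum.elim v w) := fun hcon =>
      hv (hcon.comp Sum.inl Sum.inl_injective)
    rw [mx_dep _ h1, zero_mul]
    exact hrhs
  by_cases hu : LinearIndependent ℝ u
  swap
  · rw [mx_dep _ hu, mul_zero]
    exact hrhs
  have hab : a ≤ b := by
    have h1 : Submodule.span ℝ (Set.range u) ≤ Submodule.span ℝ (Set.range v) := by
      rw [Submodule.span_le]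
      rintro _ ⟨i, rfl⟩
      exact h i
    have h2 := Submodule.finrank_mono h1
    rw [finrank_span_eq_card hv, finrank_span_eq_card hu, Fintype.card_fin,
      Fintype.card_fin] at h2
    exact h2
  obtain ⟨z, hz, hzv, hzu⟩ := MA7_ext hu hv h (b - a) (by omega)
  obtain ⟨v', hv'⟩ : ∃ v' : Fin (b - a) → Fin M → ℝ, v' = fun j => z (Fin.natAdd a j) := ⟨_, rfl⟩
  have hfam : ∀ s, Sum.elim u v' s = z (finSumFinEquiv s) := by
    rintro (i | j)
    · rw [Sum.elim_inl, finSumFinEquiv_apply_left]
      exact (hzu i).symm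
    · rw [Sum.elim_inr, finSumFinEquiv_apply_right, hv']
  have hmem : ∀ s, Sum.elim u v' s ∈ Submodule.span ℝ (Set.range v) := by
    intro s
    rw [hfam]
    exact hzv _
  have hind : LinearIndependent ℝ (Sum.elim u v') := by
    have h1 : Sum.elim u v' = z ∘ finSumFinEquiv := funext hfam
    rw [h1]
    exact hz.comp _ finSumFinEquiv.injective
  obtain ⟨e⟩ : Nonempty (Fin b ≃ Fin a ⊕ Fin (b - a)) :=
    ⟨(finCongr (by omega)).trans finSumFinEquiv.symm⟩
  have hB : ∀ k : Fin b, ∃ c : Fin b → ℝ, ∑ j, c j • v j = Sum.elim u v' (e k) := fun k =>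
    (Submodule.mem_span_range_iff_exists_fun ℝ).1 (hmem (e k))
  choose B hB using hB
  have h1 : mx (Sum.elim u v') = |(Matrix.of B).det| * mx v := by
    rw [← mx_reindex e, ← mx_lin]
    congr 1
    funext k
    exact (hB k).symm
  have h2 : mx (Sum.elim (Sum.elim u v') w) = |(Matrix.of B).det| * mx (Sum.elim v w) := by
    have hdet : (Matrix.fromBlocks (Matrix.of B) 0 0 (1 : Matrix (Fin c) (Fin c) ℝ)).det =
        (Matrix.of B).det := by
      rw [Matrix.det_fromBlocks_zero₂₁, Matrix.det_one, mul_one]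
    rw [← mx_reindex (Equiv.sumCongr e (Equiv.refl (Fin c))), ← hdet, ← mx_lin]
    congr 1
    funext s
    rw [Fintype.sum_sum_type]
    rcases s with k | k
    · simp only [Sum.elim_inl, Sum.elim_inr, Matrix.fromBlocks_apply₁₁, Equiv.sumCongr_apply,
        Sum.map_inl, Matrix.of_apply,
        Matrix.fromBlocks_apply₁₂, Matrix.zero_apply, zero_smul, Finset.sum_const_zero, add_zero]
      exact (hB k).symm
    · simp only [Sum.elim_inl, Sum.elim_inr, Matrix.fromBlocks_apply₂₁, Equiv.sumCongr_apply,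
        Sum.map_inr, Equiv.refl_apply,
        Matrix.fromBlocks_apply₂₂, Matrix.zero_apply, zero_smul, Finset.sum_const_zero, zero_add]
      rw [Finset.sum_eq_single k]
      · rw [Matrix.one_apply_eq, one_smul]
      · intro k' _ hk'
        rw [Matrix.one_apply_ne (Ne.symm hk'), zero_smul]
      · intro h
        exact absurd (Finset.mem_univ k) h
  have hpos : 0 < |(Matrix.of B).det| := by
    have h3 := mx_pos _ hind
    rw [h1] at h3
    rcases (abs_nonneg (Matrix.of B).det).lt_or_eq with h4 | h4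
    · exact h4
    · rw [← h4, zero_mul] at h3
      exact absurd h3 (lt_irrefl _)
  have h5 := hK a (b - a) c u v' w
  rw [h1, h2] at h5
  refine le_of_mul_le_mul_left ?_ hpos
  calc |(Matrix.of B).det| * (mx (Sum.elim v w) * mx u)
      = |(Matrix.of B).det| * mx (Sum.elim v w) * mx u := by ring
    _ ≤ K * (|(Matrix.of B).det| * mx v * mx (Sum.elim u w)) := h5
    _ = |(Matrix.of B).det| * (K * (mx v * mx (Sum.elim u w))) := by ring

end Pool.Agent.Lib.H42Y
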