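import Pool.Agent.Lib.H42Y.MA6
import Pool.Agent.Lib.H42Y.TB1

/-!
# Chunk TB2 (M)
Multiplication by `X` changes the covolume by a bounded factor (decreasing weights, `ζ ≠ 0`).

Proof. `X = T + ζ`, so the `c`-th Taylor coefficient of `X p` is `ζ` times the `c`-th one of `p` plus the `(c-1)`-st one of `p` (`taylor_T_zero`, `taylor_T_succ`). So
`tv (X p) = A (tv p)` (`Matrix.mulVec`) with `A c c = ζ`, `A c (c-1) = t c / t (c-1) ∈ [0, 1]`, other entries 0: entries bounded by `max |ζ| 1`; `mx_col`. Conversely `tv p = A' (tv (X p))`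
with `A' c j = (-1)^(c-j) ζ^(-(c-j)-1) t c / t j` for `j ≤ c` and 0 for `j > c`, entries bounded by `(max 1 |ζ|⁻¹)^M` (induction on `c`, or: `A` is lower triangular with
determinant `ζ^M ≠ 0` and `A' = A⁻¹`). `mx_col` again.
-/

open Polynomial

namespace Pool.Agent.Lib.H42Y

private theorem TB2_coeff_zero (ζ : ℝ) (p : ℝ[X]) :
    (taylor ζ (X * p)).coeff 0 = ζ * (taylor ζ p).coeff 0 := by
  have h : X * p = (X - C ζ) * p + C ζ * p := by ring
  rw [h, map_add, coeff_add, taylor_T_zero, zero_add, taylor_mul, taylor_C, coeff_C_mul]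

private theorem TB2_coeff_succ (ζ : ℝ) (p : ℝ[X]) (c : ℕ) :
    (taylor ζ (X * p)).coeff (c + 1) = ζ * (taylor ζ p).coeff (c + 1) + (taylor ζ p).coeff c := by
  have h : X * p = (X - C ζ) * p + C ζ * p := by ring
  rw [h, map_add, coeff_add, taylor_T_succ, taylor_mul, taylor_C, coeff_C_mul]
  ring

private theorem TB2_anti (t : ℕ → ℝ) (ht : ∀ c, t (c + 1) ≤ t c) {j c : ℕ} (h : j ≤ c) :
    t c ≤ t j := by
  induction c, h using Nat.le_induction with
  | base => exact le_rfl
  | succ n _ ih => exact (ht n).trans ih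

private theorem TB2_inv (ζ : ℝ) (hζ : ζ ≠ 0) (p : ℝ[X]) (c : ℕ) :
    (taylor ζ p).coeff c = ∑ j ∈ Finset.range (c + 1),
      ζ⁻¹ * (-ζ⁻¹) ^ (c - j) * (taylor ζ (X * p)).coeff j := by
  induction c with
  | zero =>
    rw [Finset.sum_range_one, TB2_coeff_zero]
    field_simp
    simp
  | succ c ih =>
    rw [Finset.sum_range_succ]
    have h1 : ∀ j ∈ Finset.range (c + 1),
        ζ⁻¹ * (-ζ⁻¹) ^ (c + 1 - j) * (taylor ζ (X * p)).coeff j =
        (-ζ⁻¹) * (ζ⁻¹ * (-ζ⁻¹) ^ (c - j) * (taylor ζ (X * p)).coeff j) := by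
      intro j hj
      have hj' : j ≤ c := Nat.lt_succ_iff.mp (Finset.mem_range.mp hj)
      have : c + 1 - j = (c - j) + 1 := by omega
      rw [this, pow_succ]
      ring
    rw [Finset.sum_congr rfl h1, ← Finset.mul_sum, ← ih, TB2_coeff_succ, Nat.sub_self, pow_zero]
    field_simp
    ring

private theorem TB2_fwd (M : ℕ) (ζ : ℝ) (t : ℕ → ℝ) (h0 : ∀ c, 0 < t c) (p : ℝ[X]) :
    tv M ζ t (X * p) = (Matrix.of fun c j : Fin M => if j = c then ζ else
      if (j : ℕ) + 1 = c then t c / t j else 0).mulVec (tv M ζ t p) := by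
  funext c
  rw [Matrix.mulVec, dotProduct]
  simp only [Matrix.of_apply]
  rcases c with ⟨c, hc⟩
  cases c with
  | zero =>
    rw [Finset.sum_eq_single (⟨0, hc⟩ : Fin M)]
    · simp only [tv, if_true, TB2_coeff_zero]
      ring
    · intro b _ hb
      rw [if_neg hb, if_neg (by simp), zero_mul]
    · intro h
      exact absurd (Finset.mem_univ _) h
  | succ c =>
    have hc' : c < M := by omega
    have hne : (⟨c, hc'⟩ : Fin M) ≠ ⟨c + 1, hc⟩ := by
      intro h
      have := congrArg Fin.val h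
      simp at this
    rw [← Finset.sum_subset (Finset.subset_univ {(⟨c, hc'⟩ : Fin M), ⟨c + 1, hc⟩})]
    · rw [Finset.sum_pair hne, if_neg hne, if_pos rfl, if_pos rfl]
      simp only [tv, TB2_coeff_succ]
      have := (h0 c).ne'
      field_simp
      ring
    · intro b _ hb
      simp only [Finset.mem_insert, Finset.mem_singleton, not_or] at hb
      rw [if_neg hb.2, if_neg, zero_mul]
      intro h
      apply hb.1
      apply Fin.ext
      simp at h
      exact h

private theorem TB2_bwd (M : ℕ) (ζ : ℝ) (hζ : ζ ≠ 0) (t : ℕ → ℝ) (h0 : ∀ c, 0 < t c) (p : ℝ[X]) :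
    tv M ζ t p = (Matrix.of fun c j : Fin M => if (j : ℕ) ≤ c then
      ζ⁻¹ * (-ζ⁻¹) ^ ((c : ℕ) - j) * (t c / t j) else 0).mulVec (tv M ζ t (X * p)) := by
  funext c
  rw [Matrix.mulVec, dotProduct]
  simp only [Matrix.of_apply, tv]
  rw [Fin.sum_univ_eq_sum_range (fun j : ℕ => (if j ≤ (c : ℕ) then
      ζ⁻¹ * (-ζ⁻¹) ^ ((c : ℕ) - j) * (t c / t j) else 0) *
        (t j * (taylor ζ (X * p)).coeff j)) M]
  rw [TB2_inv ζ hζ p c, Finset.mul_sum]
  rw [← Finset.sum_subset (s₁ := Finset.range ((c : ℕ) + 1)) (s₂ := Finset.range M)]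
  · apply Finset.sum_congr rfl
    intro j hj
    have hj' : j ≤ (c : ℕ) := Nat.lt_succ_iff.mp (Finset.mem_range.mp hj)
    rw [if_pos hj']
    have := (h0 j).ne'
    field_simp
  · intro j hj
    have := c.2
    simp only [Finset.mem_range] at hj ⊢
    omega
  · intro j _ hj
    rw [if_neg, zero_mul]
    simp only [Finset.mem_range] at hj
    omega

theorem wn_mulX (M : ℕ) (ζ : ℝ) (hζ : ζ ≠ 0) : ∃ K : ℝ, 1 ≤ K ∧ ∀ t : ℕ → ℝ, (∀ c, 0 < t c) →
    (∀ c, t (c + 1) ≤ t c) → ∀ (a : ℕ) (v : Fin a → ℝ[X]),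
      wn M ζ t (fun i => X * v i) ≤ K * wn M ζ t v ∧
      wn M ζ t v ≤ K * wn M ζ t (fun i => X * v i) := by
  obtain ⟨K1, hK1, h1⟩ := mx_col M (max |ζ| 1)
  obtain ⟨K2, hK2, h2⟩ := mx_col M ((max 1 |ζ⁻¹|) ^ M)
  refine ⟨max K1 K2, hK1.trans (le_max_left _ _), fun t h0 ht a v => ?_⟩
  have hnn : ∀ {u : Fin a → Fin M → ℝ}, 0 ≤ mx u := fun {u} =>
    Real.iSup_nonneg fun _ => abs_nonneg _
  constructor
  · have h := h1 a (Matrix.of fun c j : Fin M => if j = c then ζ else
      if (j : ℕ) + 1 = c then t c / t j else 0) (fun i => tv M ζ t (v i)) (by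
        intro c j
        rw [Matrix.of_apply]
        split_ifs with e1 e2
        · exact le_max_left _ _
        · rw [abs_of_nonneg (div_nonneg (h0 _).le (h0 _).le)]
          refine le_trans ?_ (le_max_right _ _)
          rw [div_le_one (h0 _)]
          exact TB2_anti t ht (by omega)
        · rw [abs_zero]
          exact le_max_of_le_right zero_le_one)
    have e : wn M ζ t (fun i => X * v i) = mx (fun i => (Matrix.of fun c j : Fin M =>
        if j = c then ζ else if (j : ℕ) + 1 = c then t c / t j else 0).mulVec (tv M ζ t (v i))) := by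
      unfold wn
      congr 1
      funext i
      exact TB2_fwd M ζ t h0 (v i)
    rw [e]
    refine h.trans ?_
    exact mul_le_mul_of_nonneg_right (le_max_left _ _) hnn
  · have h := h2 a (Matrix.of fun c j : Fin M => if (j : ℕ) ≤ c then
      ζ⁻¹ * (-ζ⁻¹) ^ ((c : ℕ) - j) * (t c / t j) else 0) (fun i => tv M ζ t (X * v i)) (by
        intro c j
        rw [Matrix.of_apply]
        split_ifs with e1
        · have ha : |t c / t j| ≤ 1 := by
            rw [abs_of_nonneg (div_nonneg (h0 _).le (h0 _).le), div_le_one (h0 _)]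
            exact TB2_anti t ht e1
          rw [abs_mul, abs_mul, abs_pow, abs_neg]
          have hb : |ζ⁻¹| * |ζ⁻¹| ^ ((c : ℕ) - j) ≤ (max 1 |ζ⁻¹|) ^ M := by
            rw [← pow_succ']
            calc |ζ⁻¹| ^ ((c : ℕ) - j + 1) ≤ (max 1 |ζ⁻¹|) ^ ((c : ℕ) - j + 1) :=
                  pow_le_pow_left₀ (abs_nonneg _) (le_max_right _ _) _
              _ ≤ (max 1 |ζ⁻¹|) ^ M :=
                  pow_le_pow_right₀ (le_max_left _ _) (by have := c.2; omega)
          calc |ζ⁻¹| * |ζ⁻¹| ^ ((c : ℕ) - j) * |t c / t j|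
              ≤ |ζ⁻¹| * |ζ⁻¹| ^ ((c : ℕ) - j) * 1 :=
                mul_le_mul_of_nonneg_left ha (by positivity)
            _ ≤ (max 1 |ζ⁻¹|) ^ M := by rw [mul_one]; exact hb
        · rw [abs_zero]
          positivity)
    have e : wn M ζ t v = mx (fun i => (Matrix.of fun c j : Fin M => if (j : ℕ) ≤ c then
      ζ⁻¹ * (-ζ⁻¹) ^ ((c : ℕ) - j) * (t c / t j) else 0).mulVec (tv M ζ t (X * v i))) := by
      unfold wn
      congr 1
      funext i
      exact TB2_bwd M ζ hζ t h0 (v i)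
    rw [e]
    refine h.trans ?_
    exact mul_le_mul_of_nonneg_right (le_max_right _ _) hnn

end Pool.Agent.Lib.H42Y
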