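import Pool.Agent.Lib.H42Y.UB
import Pool.Agent.Lib.H42Y.MA7
import Pool.Agent.Lib.H42Y.TB2

/-!
# Chunk CC (M)
The second main inequality (concavity along the chain).

Proof. `K1` from `sub_step M`, `K2` from `wn_mulX M ζ`, `K = K1 * K2 * K2`. Data of `up_basis`. `sub_step` for the families `tv (X w)`, `tv (X w, z)`, `tv (X u)`:
`wn (X w, z, X u) * wn (X w) ≤ K1 * wn (X w, z) * wn (X w, X u)`. `wn (X w, z, X u) ≥ cov t (up V)`, `wn (X w, z) = cov t V`, `wn (X w, X u) ≤ K2 * wn (w, u) = K2 * cov t V`,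
`cov t (dn V) = wn w ≤ K2 * wn (X w)` (`wn_mulX`, `cov_eq`; `toR (X * w) = X * toR w`; index types by `mx_reindex`).
-/

open Polynomial

namespace Pool.Agent.Lib.H42Y

theorem cc (M : ℕ) (ζ : ℝ) (hζ : ζ ≠ 0) : ∃ K : ℝ, 1 ≤ K ∧ ∀ t : ℕ → ℝ, (∀ c, 0 < t c) →
    (∀ c, t (c + 1) ≤ t c) → ∀ (m : ℕ) (V : Submodule ℚ ℚ[X]), m + 1 < M → V ≤ degreeLT ℚ m →
      cov M ζ t (up V) * cov M ζ t (dn V) ≤ K * (cov M ζ t V) ^ 2 := by
  obtain ⟨K1, hK1, h1⟩ := sub_step M
  obtain ⟨K2, hK2, h2⟩ := wn_mulX M ζ hζ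
  refine ⟨K1 * K2 * K2, ?_, ?_⟩
  · have := one_le_mul_of_one_le_of_one_le hK1 hK2
    exact one_le_mul_of_one_le_of_one_le this hK2
  intro t ht htm m V _ hV
  obtain ⟨e, g, w, u, z, hw, hu, hz, hup⟩ := up_basis m V hV
  have hX : ∀ f : ℤ[X], toR (X * f) = X * toR f := by
    intro f
    unfold toR
    rw [Polynomial.map_mul, Polynomial.map_X]
  have hK10 : (0 : ℝ) ≤ K1 := by linarith
  have hK20 : (0 : ℝ) ≤ K2 := by linarith
  -- the families
  set a1 : Fin e → Fin M → ℝ := fun i => tv M ζ t (X * toR (w i)) with ha1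
  set z1 : Fin g → Fin M → ℝ := fun i => tv M ζ t (toR (z i)) with hz1
  set u1 : Fin g → Fin M → ℝ := fun i => tv M ζ t (X * toR (u i)) with hu1
  have hspan : ∀ i, a1 i ∈ Submodule.span ℝ
      (Set.range fun k : Fin (e + g) => Sum.elim a1 z1 (finSumFinEquiv.symm k)) := by
    intro i
    apply Submodule.subset_span
    refine ⟨finSumFinEquiv (Sum.inl i), ?_⟩
    simp only [Equiv.symm_apply_apply, Sum.elim_inl]
  have hmain := h1 e (e + g) g a1 (fun k => Sum.elim a1 z1 (finSumFinEquiv.symm k)) u1 hspan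
  have hr1 : mx (Sum.elim (fun k : Fin (e + g) => Sum.elim a1 z1 (finSumFinEquiv.symm k)) u1) =
      mx (Sum.elim (Sum.elim a1 z1) u1) := by
    rw [← mx_reindex (Equiv.sumCongr (finSumFinEquiv (m := e) (n := g)).symm (Equiv.refl (Fin g)))
      (Sum.elim (Sum.elim a1 z1) u1)]
    congr 1
    funext k
    rcases k with k | k
    · simp only [Equiv.sumCongr_apply, Sum.map_inl, Sum.elim_inl]
    · simp only [Equiv.sumCongr_apply, Sum.map_inr, Sum.elim_inr, Equiv.refl_apply]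
  have hr2 : mx (fun k : Fin (e + g) => Sum.elim a1 z1 (finSumFinEquiv.symm k)) =
      mx (Sum.elim a1 z1) :=
    mx_reindex (finSumFinEquiv (m := e) (n := g)).symm (Sum.elim a1 z1)
  rw [hr1, hr2] at hmain
  -- the covolumes
  have hcup : cov M ζ t (up V) ≤ mx (Sum.elim (Sum.elim a1 z1) u1) := by
    refine (hup M ζ t).trans (le_of_eq ?_)
    unfold wn
    congr 1
    funext k
    rcases k with (k | k) | k
    · simp only [Sum.elim_inl, hX, ha1]
    · simp only [Sum.elim_inl, Sum.elim_inr, hz1]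
    · simp only [Sum.elim_inr, hX, hu1]
  have hcV : cov M ζ t V = mx (Sum.elim a1 z1) := by
    rw [cov_eq M ζ t V _ hz]
    unfold wn
    congr 1
    funext k
    rcases k with k | k
    · simp only [Sum.elim_inl, hX, ha1]
    · simp only [Sum.elim_inr, hz1]
  have hcdn : cov M ζ t (dn V) ≤ K2 * mx a1 := by
    rw [cov_eq M ζ t (dn V) _ hw]
    exact (h2 t ht htm e (fun i => toR (w i))).2
  have hcdn0 : 0 ≤ cov M ζ t (dn V) := by
    rw [cov_eq M ζ t (dn V) _ hw]
    exact mx_nonneg _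
  have hcau : mx (Sum.elim a1 u1) ≤ K2 * cov M ζ t V := by
    rw [cov_eq M ζ t V _ hu]
    have h3 := (h2 t ht htm (e + g)
      (fun k => toR (Sum.elim w u (finSumFinEquiv.symm k)))).1
    have e1 : wn M ζ t (fun k : Fin (e + g) => X * toR (Sum.elim w u (finSumFinEquiv.symm k))) =
        mx (Sum.elim a1 u1) := by
      rw [← mx_reindex (finSumFinEquiv (m := e) (n := g)).symm (Sum.elim a1 u1)]
      unfold wn
      congr 1
      funext k
      have hp : ∀ j : Fin e ⊕ Fin g,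
          tv M ζ t (X * toR (Sum.elim w u j)) = Sum.elim a1 u1 j := by
        rintro (j | j)
        · simp only [Sum.elim_inl, ha1]
        · simp only [Sum.elim_inr, hu1]
      exact hp _
    have e2 : wn M ζ t (fun k : Fin (e + g) => toR (Sum.elim w u (finSumFinEquiv.symm k))) =
        wn M ζ t (fun i => toR (Sum.elim w u i)) := by
      unfold wn
      exact mx_reindex (finSumFinEquiv (m := e) (n := g)).symm
        (fun i => tv M ζ t (toR (Sum.elim w u i)))
    rw [e1, e2] at h3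
    exact h3
  have hA : 0 ≤ mx (Sum.elim (Sum.elim a1 z1) u1) := mx_nonneg _
  have hB : 0 ≤ mx (Sum.elim a1 z1) := mx_nonneg _
  calc cov M ζ t (up V) * cov M ζ t (dn V)
      ≤ mx (Sum.elim (Sum.elim a1 z1) u1) * (K2 * mx a1) := mul_le_mul hcup hcdn hcdn0 hA
    _ = K2 * (mx (Sum.elim (Sum.elim a1 z1) u1) * mx a1) := by ring
    _ ≤ K2 * (K1 * (mx (Sum.elim a1 z1) * mx (Sum.elim a1 u1))) :=
        mul_le_mul_of_nonneg_left hmain hK20
    _ ≤ K2 * (K1 * (mx (Sum.elim a1 z1) * (K2 * cov M ζ t V))) := by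
        refine mul_le_mul_of_nonneg_left ?_ hK20
        refine mul_le_mul_of_nonneg_left ?_ hK10
        exact mul_le_mul_of_nonneg_left hcau hB
    _ = K1 * K2 * K2 * (cov M ζ t V) ^ 2 := by
        rw [← hcV]
        ring

end Pool.Agent.Lib.H42Y
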