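import Pool.Agent.Lib.H42Y.GQ

/-!
# Chunk CH1 (M)
The dimensions of `up^[j] V`.

Proof. `D j = finrank (up^[j] V)`, `D 0 = k ≤ n`. `up^[j] V ≤ degreeLT ℚ (n + 1 + j)` (`iter_deg`) contains `p`, `r`, `X^j * r` (degree `n + j`; if `r = 0` then `n = 0` contradicts `2 ≤ k ≤ n`). If `up^[j] V` is not full (`≠ degreeLT ℚ (n+1+j)`) then `D (j+1) ≥ D j + 2` by `grow`.
As `D j ≤ n + 1 + j`, some `up^[J] V` is full; take `J` minimal, `J ≥ 1` since `D 0 = k < n + 1`. `g j = D (j+1) - D j` is nonincreasing (`growth_up`), `2 ≤ g j ≤ g 0 ≤ k` (`up_le_two`) for `j < J`. `ρ = D J - k - 2 J = n + 1 + J - k - 2J`, a natural number, `ρ = ∑_{j<J} (g j - 2) ≤ (k-2) J`. Let `j1` be the least `j` with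
`g j ≤ 2` or `j = J`: `g j ≥ 3` for `j < j1`, so `ρ ≥ j1`; `g j = 2` for `j1 ≤ j < J`, so `D j = D J - 2 (J - j) = k + ρ + 2 j` for `j1 ≤ j ≤ J`.
-/

open Polynomial

namespace Pool.Agent.Lib.H42Y

private theorem ch1_finrank (m : ℕ) :
    Module.finrank ℚ (degreeLT ℚ m : Submodule ℚ ℚ[X]) = m := by
  rw [(degreeLTEquiv ℚ m).finrank_eq]
  simp

private theorem ch1_fd (m : ℕ) : Module.Finite ℚ (degreeLT ℚ m : Submodule ℚ ℚ[X]) :=
  Module.Finite.equiv (degreeLTEquiv ℚ m).symm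

private theorem ch1_comb (n k J : ℕ) (D : ℕ → ℕ) (h0 : D 0 = k) (hk2 : 2 ≤ k)
    (h1 : ∀ j < J, D j + 2 ≤ D (j + 1)) (h2 : ∀ j, D (j + 2) + D j ≤ 2 * D (j + 1))
    (h3 : D 1 ≤ 2 * k) (h4 : D J = n + 1 + J) :
    ∃ ρ j1 : ℕ, k + J + ρ = n + 1 ∧ j1 ≤ J ∧ j1 ≤ ρ ∧ ρ ≤ (k - 2) * J ∧
      ∀ j, j1 ≤ j → j ≤ J → D j = k + ρ + 2 * j := by
  classical
  have hup : ∀ j, D (j + 1) ≤ D j + k := by
    intro j
    induction j with
    | zero => rw [h0]; simpa [two_mul] using h3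
    | succ j ih =>
      have := h2 j
      have e : j + 1 + 1 = j + 2 := by ring
      rw [e]
      omega
  have hub : ∀ j, D j ≤ k + k * j := by
    intro j
    induction j with
    | zero => simp [h0]
    | succ j ih => have := hup j; rw [Nat.mul_succ]; omega
  have hlow : ∀ j, j ≤ J → k + 2 * j ≤ D j := by
    intro j
    induction j with
    | zero => intro _; simp [h0]
    | succ j ih => intro hj; have := h1 j (by omega); have := ih (by omega); omega
  have hex : ∃ j, j = J ∨ D (j + 1) ≤ D j + 2 := ⟨J, Or.inl rfl⟩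
  obtain ⟨j1, hj1, hmin⟩ : ∃ j1, (j1 = J ∨ D (j1 + 1) ≤ D j1 + 2) ∧
      ∀ j < j1, ¬ (j = J ∨ D (j + 1) ≤ D j + 2) :=
    ⟨Nat.find hex, Nat.find_spec hex, fun j hj => Nat.find_min hex hj⟩
  have hj1J : j1 ≤ J := by
    by_contra hc
    exact hmin J (by omega) (Or.inl rfl)
  have h3j : ∀ j, j ≤ j1 → k + 3 * j ≤ D j := by
    intro j
    induction j with
    | zero => intro _; simp [h0]
    | succ j ih =>
      intro hj
      have a := hmin j (by omega)
      push Not at a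
      have := ih (by omega)
      omega
  have hg2 : ∀ i, j1 + i < J → D (j1 + i + 1) = D (j1 + i) + 2 := by
    intro i
    induction i with
    | zero =>
      intro hi
      have := h1 j1 (by omega)
      rcases hj1 with h | h
      · omega
      · simp only [Nat.add_zero]; omega
    | succ i ih =>
      intro hi
      have a := ih (by omega)
      have b := h2 (j1 + i)
      have c := h1 (j1 + (i + 1)) hi
      have e : j1 + (i + 1) = j1 + i + 1 := by ring
      rw [e] at c ⊢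
      have e2 : j1 + i + 1 + 1 = j1 + i + 2 := by ring
      rw [e2] at c ⊢
      omega
  have hD : ∀ i, j1 + i ≤ J → D (j1 + i) = D j1 + 2 * i := by
    intro i
    induction i with
    | zero => intro _; simp
    | succ i ih =>
      intro hi
      have a := ih (by omega)
      have b := hg2 i (by omega)
      have e : j1 + (i + 1) = j1 + i + 1 := by ring
      rw [e, b, a]; ring
  have hDJ := hD (J - j1) (by omega)
  rw [Nat.add_sub_cancel' hj1J] at hDJ
  have hJl := hlow J le_rfl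
  have hj1l := h3j j1 le_rfl
  have hJu := hub J
  have hmul : (k - 2) * J = k * J - 2 * J := Nat.sub_mul _ _ _
  refine ⟨n + 1 - k - J, j1, by omega, hj1J, by omega, by omega, ?_⟩
  intro j hj hjJ
  have := hD (j - j1) (by omega)
  rw [Nat.add_sub_cancel' hj] at this
  omega

theorem exists_top (n k : ℕ) (V : Submodule ℚ ℚ[X]) (hV : V ≤ degreeLT ℚ (n + 1)) (p r : ℚ[X])
    (hp : p ∈ V) (hr : r ∈ V) (hcop : IsCoprime p r) (hrn : r.natDegree = n)
    (hk : Module.finrank ℚ V = k) (hk2 : 2 ≤ k) (hkn : k ≤ n) :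
    ∃ J ρ j1 : ℕ, 1 ≤ J ∧ up^[J] V = degreeLT ℚ (n + J + 1) ∧ k + J + ρ = n + 1 ∧ j1 ≤ J ∧
      j1 ≤ ρ ∧ ρ ≤ (k - 2) * J ∧
      ∀ j, j1 ≤ j → j ≤ J → Module.finrank ℚ (up^[j] V : Submodule ℚ ℚ[X]) = k + ρ + 2 * j := by
  classical
  have hr0 : r ≠ 0 := by
    rintro rfl
    rw [natDegree_zero] at hrn
    omega
  have hdeg : ∀ j, up^[j] V ≤ degreeLT ℚ (n + j + 1) := by
    intro j
    have h := iter_deg (n + 1) j V hV
    have e : n + 1 + j = n + j + 1 := by ring
    rwa [e] at h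
  have hfin : ∀ j, Module.finrank ℚ (up^[j] V : Submodule ℚ ℚ[X]) ≤ n + j + 1 := by
    intro j
    have := ch1_fd (n + j + 1)
    have h := Submodule.finrank_mono (hdeg j)
    rwa [ch1_finrank] at h
  have hgrow : ∀ j, up^[j] V ≠ degreeLT ℚ (n + j + 1) →
      Module.finrank ℚ (up^[j] V : Submodule ℚ ℚ[X]) + 2 ≤
        Module.finrank ℚ (up^[j + 1] V : Submodule ℚ ℚ[X]) := by
    intro j hne
    rw [Function.iterate_succ_apply']
    refine grow (n + j) (up^[j] V) (hdeg j) hne p r (X ^ j * r) ?_ ?_ hcop ?_ ?_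
    · simpa using iter_mem j 0 (Nat.zero_le _) V p hp
    · simpa using iter_mem j 0 (Nat.zero_le _) V r hr
    · exact iter_mem j j le_rfl V r hr
    · rw [natDegree_mul (pow_ne_zero _ X_ne_zero) hr0, natDegree_X_pow, hrn]; ring
  have hex : ∃ j, up^[j] V = degreeLT ℚ (n + j + 1) := by
    by_contra hc
    push Not at hc
    have hlow : ∀ j, k + 2 * j ≤ Module.finrank ℚ (up^[j] V : Submodule ℚ ℚ[X]) := by
      intro j
      induction j with
      | zero => exact hk.ge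
      | succ j ih => have := hgrow j (hc j); omega
    have a := hlow (n + 2)
    have b := hfin (n + 2)
    omega
  obtain ⟨J, hJ, hmin⟩ : ∃ J, up^[J] V = degreeLT ℚ (n + J + 1) ∧
      ∀ j < J, up^[j] V ≠ degreeLT ℚ (n + j + 1) :=
    ⟨Nat.find hex, Nat.find_spec hex, fun j hj => Nat.find_min hex hj⟩
  have hJ1 : 1 ≤ J := by
    by_contra hc
    have h0 : J = 0 := by omega
    subst h0
    have h : Module.finrank ℚ (up^[0] V : Submodule ℚ ℚ[X]) = n + 0 + 1 := by
      rw [hJ, ch1_finrank]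
    have h' : Module.finrank ℚ V = n + 0 + 1 := h
    omega
  have hDJ : Module.finrank ℚ (up^[J] V : Submodule ℚ ℚ[X]) = n + 1 + J := by
    rw [hJ, ch1_finrank]; ring
  have h2 : ∀ j, Module.finrank ℚ (up^[j + 2] V : Submodule ℚ ℚ[X]) +
      Module.finrank ℚ (up^[j] V : Submodule ℚ ℚ[X]) ≤
        2 * Module.finrank ℚ (up^[j + 1] V : Submodule ℚ ℚ[X]) := by
    intro j
    have h := growth_up (n + j + 1) (up^[j] V) (hdeg j)
    rwa [← Function.iterate_succ_apply' up, ← Function.iterate_succ_apply' up] at h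
  have h3 : Module.finrank ℚ (up^[1] V : Submodule ℚ ℚ[X]) ≤ 2 * k := by
    have h := up_le_two (n + 1) V hV
    rw [hk] at h
    exact h
  obtain ⟨ρ, j1, a1, a2, a3, a4, a5⟩ := ch1_comb n k J
    (fun j => Module.finrank ℚ (up^[j] V : Submodule ℚ ℚ[X])) hk hk2
    (fun j hj => hgrow j (hmin j hj)) h2 h3 hDJ
  exact ⟨J, ρ, j1, hJ1, hJ, a1, a2, a3, a4, a5⟩

end Pool.Agent.Lib.H42Y
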