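import Pool.Agent.Lib.H42Y.GQ

/-!
# Chunk CH2 (M)
The chain.

Proof. `H = up^[J-1] V`, `finrank H = k + ρ + 2 (J-1) = n + J - 1` (from `hdim`, `hJρ`), `D i = dn^[i] H`, growth `γ i = finrank (up (D i)) - finrank (D i) = finrank (D i) - finrank (D (i+1))` (`finrank_up_add_dn`), nonincreasing (`growth_dn`), `γ 0 = 2` (`up H = up^[J] V`, dimension `n + J + 1`).
For `i ≤ J - 1`: `up^[J-1-i] V ≤ D i` (`le_dn_up`, `dn_mono`), so `D i` contains `p`, `r` and `X^(J-1-i) * r` of degree `n + J - 1 - i`, `D i ≤ degreeLT ℚ (n + J - i)` (`dn_deg`), and `D i ≠ degreeLT ℚ (n + J - i)`, since otherwise `up^[i] (D i) ≤ H` (`up_dn_le`) would be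
`degreeLT ℚ (n + J)`, of dimension `n + J > finrank H`; `grow`: `γ i ≥ 2`. Let `d` be the least `i` with `γ i ≤ 1` (it exists: the dimensions decrease by 2 otherwise): `d ≥ J`, `γ i = 2` for `i < d`. `r' = finrank (D d)`. `L i = D (d - i)` for `i ≤ d`, `L (i) = degreeLT ℚ (n+J+1)` for `i > d`.
`finrank (D i) = r' + 2 (d - i)`, so `n + J - 1 = r' + 2 d`. `up (L (i+1)) = L (i+2)` for `i + 1 < d`: `up (dn W) ≤ W` with the same dimension `finrank (dn W) + 2 = finrank W`; for `i + 1 = d`: `up H = up^[J] V`. `mid`: `up^[j] V = D (J-1-j)` for `j1 ≤ j ≤ J - 1` by downward induction: `up^[j] V ≤ dn (up^[j+1] V)` and both have dimension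
`k + ρ + 2 j` (`finrank_up_add_dn` for `up^[j+1] V`, whose growth is 2).
-/

open Polynomial

namespace Pool.Agent.Lib.H42Y

private lemma CH2_finrank_degreeLT (m : ℕ) :
    Module.finrank ℚ (degreeLT ℚ m : Submodule ℚ ℚ[X]) = m := by
  rw [(degreeLTEquiv ℚ m).finrank_eq, Module.finrank_fin_fun]

private lemma CH2_fin_degreeLT (m : ℕ) : FiniteDimensional ℚ (degreeLT ℚ m : Submodule ℚ ℚ[X]) :=
  Module.Finite.equiv (degreeLTEquiv ℚ m).symm

private lemma CH2_fin {m : ℕ} {W : Submodule ℚ ℚ[X]} (h : W ≤ degreeLT ℚ m) :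
    FiniteDimensional ℚ W := by
  have := CH2_fin_degreeLT m
  exact Submodule.finiteDimensional_of_le h

private lemma CH2_eq {m : ℕ} {W W' : Submodule ℚ ℚ[X]} (h' : W' ≤ degreeLT ℚ m) (h : W ≤ W')
    (he : Module.finrank ℚ W = Module.finrank ℚ W') : W = W' := by
  have := CH2_fin h'
  exact Submodule.eq_of_le_of_finrank_eq h he

private lemma CH2_degreeLT_mono {m m' : ℕ} (h : m ≤ m') :
    (degreeLT ℚ m : Submodule ℚ ℚ[X]) ≤ degreeLT ℚ m' := by
  intro f hf
  rw [mem_degreeLT] at hf ⊢
  exact lt_of_lt_of_le hf (by exact_mod_cast h)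

private lemma CH2_up_degreeLT (m : ℕ) (hm : 1 ≤ m) :
    (degreeLT ℚ (m + 1) : Submodule ℚ ℚ[X]) ≤ up (degreeLT ℚ m) := by
  rw [degreeLT_eq_span_X_pow, Submodule.span_le]
  intro f hf
  simp only [Finset.coe_image, Finset.coe_range, Set.mem_image, Set.mem_Iio] at hf
  obtain ⟨j, hj, rfl⟩ := hf
  rcases Nat.eq_zero_or_pos j with rfl | hj0
  · apply le_up
    rw [mem_degreeLT, pow_zero]
    refine lt_of_le_of_lt degree_one_le ?_
    exact_mod_cast hm
  · obtain ⟨i, rfl⟩ : ∃ i, j = i + 1 := ⟨j - 1, by omega⟩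
    have h1 : (X ^ i : ℚ[X]) ∈ degreeLT ℚ m := by
      rw [mem_degreeLT]
      refine lt_of_le_of_lt (degree_X_pow_le i) ?_
      exact_mod_cast (by omega : i < m)
    have h2 := X_mul_mem_up _ _ h1
    rw [pow_succ']
    exact h2

private lemma CH2_up_iter_degreeLT (m i : ℕ) (hm : 1 ≤ m) :
    (degreeLT ℚ (m + i) : Submodule ℚ ℚ[X]) ≤ up^[i] (degreeLT ℚ m) := by
  induction i with
  | zero => exact le_refl _
  | succ i ih =>
    rw [Function.iterate_succ_apply']
    exact (CH2_up_degreeLT (m + i) (by omega)).trans (up_mono ih)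

private lemma CH2_up_iter_dn_iter (i : ℕ) (H : Submodule ℚ ℚ[X]) :
    up^[i] (dn^[i] H) ≤ H := by
  induction i with
  | zero => exact le_refl _
  | succ i ih =>
    rw [Function.iterate_succ_apply, Function.iterate_succ_apply']
    have hmono : ∀ (i : ℕ) (A B : Submodule ℚ ℚ[X]), A ≤ B → up^[i] A ≤ up^[i] B := by
      intro i
      induction i with
      | zero => exact fun A B h => h
      | succ i ih =>
        intro A B h
        rw [Function.iterate_succ_apply', Function.iterate_succ_apply']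
        exact up_mono (ih A B h)
    exact (hmono i _ _ (up_dn_le _)).trans ih

private lemma CH2_dn_iter_le (i : ℕ) (H : Submodule ℚ ℚ[X]) : dn^[i] H ≤ H := by
  induction i with
  | zero => exact le_refl _
  | succ i ih =>
    rw [Function.iterate_succ_apply']
    exact (dn_le _).trans ih

private lemma CH2_dn_iter_deg (m i : ℕ) (H : Submodule ℚ ℚ[X]) (hH : H ≤ degreeLT ℚ (m + i)) :
    dn^[i] H ≤ degreeLT ℚ m := by
  induction i generalizing m with
  | zero => exact hH
  | succ i ih =>
    rw [Function.iterate_succ_apply']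
    apply dn_deg
    apply ih (m + 1)
    have e : m + 1 + i = m + (i + 1) := by ring
    rw [e]
    exact hH

private lemma CH2_up_le_dn (J : ℕ) (V : Submodule ℚ ℚ[X]) : ∀ i, i + 1 ≤ J →
    up^[J - 1 - i] V ≤ dn^[i] (up^[J - 1] V) := by
  intro i
  induction i with
  | zero => exact fun _ => le_refl _
  | succ i ih =>
    intro hi
    have h1 := ih (by omega)
    rw [Function.iterate_succ_apply']
    have e : J - 1 - i = (J - 1 - (i + 1)) + 1 := by omega
    rw [e, Function.iterate_succ_apply'] at h1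
    exact (le_dn_up _).trans (dn_mono h1)

theorem exists_chain (n k J ρ j1 : ℕ) (V : Submodule ℚ ℚ[X]) (hV : V ≤ degreeLT ℚ (n + 1))
    (p r : ℚ[X]) (hp : p ∈ V) (hr : r ∈ V) (hcop : IsCoprime p r) (hrn : r.natDegree = n)
    (hn : 1 ≤ n) (hfull : up^[J] V = degreeLT ℚ (n + J + 1)) (hJρ : k + J + ρ = n + 1) (hj : j1 < J)
    (hdim : ∀ j, j1 ≤ j → j ≤ J →
      Module.finrank ℚ (up^[j] V : Submodule ℚ ℚ[X]) = k + ρ + 2 * j) :
    ∃ (d r' : ℕ) (L : ℕ → Submodule ℚ ℚ[X]), Chn n J j1 V d r' L := by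
  classical
  have hJ1 : 1 ≤ J := by omega
  -- the hyperplane
  obtain ⟨H, hH⟩ : ∃ H : Submodule ℚ ℚ[X], H = up^[J - 1] V := ⟨_, rfl⟩
  have hHdim : Module.finrank ℚ H = n + J - 1 := by
    rw [hH, hdim (J - 1) (by omega) (by omega)]
    omega
  have hHdeg : H ≤ degreeLT ℚ (n + J) := by
    rw [hH]
    have h1 := iter_deg (n + 1) (J - 1) V hV
    have e : n + 1 + (J - 1) = n + J := by omega
    rwa [e] at h1
  have hupH : up H = degreeLT ℚ (n + J + 1) := by
    rw [hH, ← hfull, ← Function.iterate_succ_apply' up (J - 1) V]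
    have e : (J - 1).succ = J := by omega
    rw [e]
  have hupHdim : Module.finrank ℚ (up H) = n + J + 1 := by
    rw [hupH, CH2_finrank_degreeLT]
  -- the descending chain
  obtain ⟨D, hD⟩ : ∃ D : ℕ → Submodule ℚ ℚ[X], ∀ i, D i = dn^[i] H := ⟨_, fun _ => rfl⟩
  have hD0 : D 0 = H := hD 0
  have hDs : ∀ i, D (i + 1) = dn (D i) := by
    intro i
    rw [hD, hD, Function.iterate_succ_apply']
  have hDdeg : ∀ i, D i ≤ degreeLT ℚ (n + J) := by
    intro i
    rw [hD]
    exact (CH2_dn_iter_le i H).trans hHdeg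
  have hgrow_eq : ∀ i, Module.finrank ℚ (up (D i)) + Module.finrank ℚ (D (i + 1)) =
      2 * Module.finrank ℚ (D i) := by
    intro i
    rw [hDs]
    exact finrank_up_add_dn (n + J) (D i) (hDdeg i)
  have hgrow_dn : ∀ i, Module.finrank ℚ (up (D (i + 1))) + Module.finrank ℚ (D i) ≤
      Module.finrank ℚ (up (D i)) + Module.finrank ℚ (D (i + 1)) := by
    intro i
    rw [hDs]
    exact growth_dn (n + J) (D i) (hDdeg i)
  -- growth at most two
  have hle2 : ∀ i, Module.finrank ℚ (up (D i)) ≤ Module.finrank ℚ (D i) + 2 := by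
    intro i
    induction i with
    | zero =>
      rw [hD0, hupHdim, hHdim]
      omega
    | succ i ih =>
      have h1 := hgrow_dn i
      omega
  have hr0 : r ≠ 0 := by
    intro h
    rw [h, natDegree_zero] at hrn
    omega
  -- growth at least two
  have hge2 : ∀ i, i + 1 ≤ J → Module.finrank ℚ (D i) + 2 ≤ Module.finrank ℚ (up (D i)) := by
    intro i hi
    have h1 : up^[J - 1 - i] V ≤ D i := by
      rw [hD, hH]
      exact CH2_up_le_dn J V i hi
    have hdeg : D i ≤ degreeLT ℚ ((n + J - 1 - i) + 1) := by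
      rw [hD]
      apply CH2_dn_iter_deg
      have e : n + J - 1 - i + 1 + i = n + J := by omega
      rw [e]
      exact hHdeg
    have hne : D i ≠ degreeLT ℚ ((n + J - 1 - i) + 1) := by
      intro he
      have h2 := CH2_up_iter_degreeLT ((n + J - 1 - i) + 1) i (by omega)
      rw [← he] at h2
      have h3 : up^[i] (D i) ≤ H := by
        rw [hD]
        exact CH2_up_iter_dn_iter i H
      have h4 := h2.trans h3
      have := CH2_fin hHdeg
      have h5 := Submodule.finrank_mono h4
      rw [CH2_finrank_degreeLT, hHdim] at h5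
      omega
    have hVD : V ≤ D i := (iter_mono 0 (J - 1 - i) (Nat.zero_le _) V).trans h1
    refine grow (n + J - 1 - i) (D i) hdeg hne p r (X ^ (J - 1 - i) * r) (hVD hp) (hVD hr) hcop
      (h1 (iter_mem (J - 1 - i) (J - 1 - i) le_rfl V r hr)) ?_
    rw [natDegree_X_pow_mul _ hr0, hrn]
    omega
  -- the least index with growth at most one
  have hex : ∃ i, Module.finrank ℚ (up (D i)) ≤ Module.finrank ℚ (D i) + 1 := by
    by_contra hcon
    push Not at hcon
    have h1 : ∀ i, Module.finrank ℚ (D i) + 2 * i ≤ n + J - 1 := by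
      intro i
      induction i with
      | zero =>
        rw [hD0, hHdim]
        omega
      | succ i ih =>
        have h2 := hgrow_eq i
        have h3 := hcon i
        omega
    have h4 := h1 (n + J)
    omega
  obtain ⟨d, hd⟩ : ∃ d, d = Nat.find hex := ⟨_, rfl⟩
  have hdspec : Module.finrank ℚ (up (D d)) ≤ Module.finrank ℚ (D d) + 1 := by
    rw [hd]
    exact Nat.find_spec hex
  have hdmin : ∀ i, i < d → Module.finrank ℚ (up (D i)) = Module.finrank ℚ (D i) + 2 := by
    intro i hi
    rw [hd] at hi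
    have h1 := Nat.find_min hex hi
    have h2 := hle2 i
    omega
  have hJd : J ≤ d := by
    by_contra hcon
    have h1 := hge2 d (by omega)
    omega
  have hstep : ∀ i, i < d → Module.finrank ℚ (D i) = Module.finrank ℚ (D (i + 1)) + 2 := by
    intro i hi
    have h1 := hgrow_eq i
    have h2 := hdmin i hi
    omega
  have hrank : ∀ j, j ≤ d → Module.finrank ℚ (D (d - j)) = Module.finrank ℚ (D d) + 2 * j := by
    intro j
    induction j with
    | zero => intro _; rfl
    | succ j ih =>
      intro hj'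
      have h1 := ih (by omega)
      have h2 := hstep (d - (j + 1)) (by omega)
      have e : d - (j + 1) + 1 = d - j := by omega
      rw [e] at h2
      omega
  have hdimeq : Module.finrank ℚ (D d) + 1 + 2 * d = n + J := by
    have h1 := hrank d le_rfl
    rw [Nat.sub_self, hD0, hHdim] at h1
    omega
  -- up of the chain
  have hupD : ∀ i, i + 1 < d → up (D (i + 1)) = D i := by
    intro i hi
    refine CH2_eq (hDdeg i) ?_ ?_
    · rw [hDs]
      exact up_dn_le _
    · have h1 := hdmin (i + 1) hi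
      have h2 := hstep i (by omega)
      omega
  -- the middle
  have hmid : ∀ i, i + 1 ≤ J → j1 + i ≤ J - 1 → D i = up^[J - 1 - i] V := by
    intro i
    induction i with
    | zero => intro _ _; rw [hD0, hH]; rfl
    | succ i ih =>
      intro hi1 hi2
      have h1 := ih (by omega) (by omega)
      rw [hDs, h1]
      symm
      have e : J - 1 - i = (J - 1 - (i + 1)) + 1 := by omega
      have hdeg1 : up^[J - 1 - i] V ≤ degreeLT ℚ (n + J) := by
        rw [← h1]
        exact hDdeg i
      refine CH2_eq ((dn_le _).trans hdeg1) ?_ ?_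
      · rw [e, Function.iterate_succ_apply']
        exact le_dn_up _
      · have h2 := finrank_up_add_dn (n + J) _ hdeg1
        rw [← Function.iterate_succ_apply' up (J - 1 - i) V] at h2
        have h3 := hdim (J - 1 - i).succ (by omega) (by omega)
        have h4 := hdim (J - 1 - i) (by omega) (by omega)
        have h5 := hdim (J - 1 - (i + 1)) (by omega) (by omega)
        rw [h3, h4] at h2
        rw [h5]
        simp only [Nat.succ_eq_add_one] at h2
        omega
  refine ⟨d, Module.finrank ℚ (D d),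
    fun i => if i ≤ d then D (d - i) else degreeLT ℚ (n + J + 1), ?_⟩
  refine ⟨hJd, hdimeq, ?_, ?_, ?_, ?_, ?_, ?_, ?_, ?_, ?_⟩
  · exact if_neg (by omega)
  · change (if d ≤ d then D (d - d) else _) = _
    rw [if_pos le_rfl, Nat.sub_self, hD0, hH]
  · change (if d + 1 + j1 - J ≤ d then D (d - (d + 1 + j1 - J)) else _) = _
    rw [if_pos (by omega)]
    have e : d - (d + 1 + j1 - J) = J - 1 - j1 := by omega
    rw [e, hmid (J - 1 - j1) (by omega) (by omega)]
    have e2 : J - 1 - (J - 1 - j1) = j1 := by omega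
    rw [e2]
  · intro i hi
    change up (if i + 1 ≤ d then D (d - (i + 1)) else _) =
      (if i + 2 ≤ d then D (d - (i + 2)) else _)
    rw [if_pos (by omega)]
    by_cases h : i + 2 ≤ d
    · rw [if_pos h]
      have e : d - (i + 1) = (d - (i + 2)) + 1 := by omega
      rw [e]
      exact hupD _ (by omega)
    · rw [if_neg h]
      have e : d - (i + 1) = 0 := by omega
      rw [e, hD0, hupH]
  · intro i hi
    change dn (if i + 1 ≤ d then D (d - (i + 1)) else _) = (if i ≤ d then D (d - i) else _)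
    rw [if_pos (by omega), if_pos (by omega)]
    have e : d - i = (d - (i + 1)) + 1 := by omega
    rw [e, hDs]
  · intro i hi
    change Module.finrank ℚ
      ((if i + 1 ≤ d then D (d - (i + 1)) else degreeLT ℚ (n + J + 1) : Submodule ℚ ℚ[X])) = _
    by_cases h : i + 1 ≤ d
    · rw [if_pos h, hrank (i + 1) h]
      omega
    · rw [if_neg h, CH2_finrank_degreeLT]
      omega
  · change Module.finrank ℚ
      ((if 0 ≤ d then D (d - 0) else degreeLT ℚ (n + J + 1) : Submodule ℚ ℚ[X])) = _
    rw [if_pos (Nat.zero_le _), Nat.sub_zero]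
  · change Module.finrank ℚ
      (up (if 0 ≤ d then D (d - 0) else degreeLT ℚ (n + J + 1)) : Submodule ℚ ℚ[X]) ≤ _
    rw [if_pos (Nat.zero_le _), Nat.sub_zero]
    exact hdspec
  · intro i _
    change (if i ≤ d then D (d - i) else degreeLT ℚ (n + J + 1)) ≤ degreeLT ℚ (n + J + 1)
    by_cases h : i ≤ d
    · rw [if_pos h]
      exact (hDdeg _).trans (CH2_degreeLT_mono (by omega))
    · rw [if_neg h]

end Pool.Agent.Lib.H42Y
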