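import Pool.Agent.Lib.H42Y.Defs3

/-!
# Chunk CS1 (S/M)
One alternative of one step of the certificate (real numbers only).

Proof. `U = 10^8`. `upd s κ L W a ≤ a + 100 s (W - κ a) / L - 1000` (integer division rounds down, `Int.ediv_mul_le` or `Int.floor_div`, `L > 0`). With `A = (1-θ) a + θ b ≤ U m` and `E = (1-θ) Wa + θ Wb`: the left side of the claim is at most `A + (100 s / L) (E - κ A) - 1000 = (1 - 100 s κ / L) A + (100 s / L) E - 1000 ≤ (1 - 100 s κ/L) U m + (100 s/L) E - 1000`.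
By `halt`, `E ≤ U (L/10^4 w + κ m) + Er`, so this is at most `U m + U (s/100) w + 100 s Er / L - 1000 ≤ U m + U (s/100) w - 400 ≤ U (m + (s/100 - h) w)`.
-/

namespace Pool.Agent.Lib.H42Y

theorem CS1_div (x L : ℤ) (hL : 0 < L) : (L : ℝ) * ((x / L : ℤ) : ℝ) ≤ x := by
  have h : L * (x / L) ≤ x := Int.mul_ediv_self_le hL.ne'
  exact_mod_cast h

theorem upd_sound (s κ L Wa Wb a b : ℤ) (θ h m m' w Er : ℝ) (hs : 1 ≤ s) (hL : 0 < L) (hκ : 0 ≤ κ)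
    (hκ2 : 100 * s * κ ≤ L) (hθ0 : 0 ≤ θ) (hθ1 : θ ≤ 1) (hhw : h * w ≤ 4 / 10 ^ 6)
    (hE : 100 * (s : ℝ) * Er ≤ 600 * (L : ℝ))
    (hinv : (1 - θ) * (a : ℝ) + θ * (b : ℝ) ≤ 10 ^ 8 * m)
    (halt : (1 - θ) * (Wa : ℝ) + θ * (Wb : ℝ) ≤ 10 ^ 8 * ((L : ℝ) / 10 ^ 4 * w + κ * m) + Er)
    (hstep : m + ((s : ℝ) / 100 - h) * w ≤ m') :
    (1 - θ) * (upd s κ L Wa a : ℝ) + θ * (upd s κ L Wb b : ℝ) ≤ 10 ^ 8 * m' := by
  have hLr : (0 : ℝ) < L := by exact_mod_cast hL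
  have hsr : (1 : ℝ) ≤ s := by exact_mod_cast hs
  have hk2 : 100 * (s : ℝ) * κ ≤ L := by exact_mod_cast hκ2
  have ha := CS1_div (100 * s * (Wa - κ * a)) L hL
  have hb := CS1_div (100 * s * (Wb - κ * b)) L hL
  have ea : (upd s κ L Wa a : ℝ) = a + ((100 * s * (Wa - κ * a) / L : ℤ) : ℝ) - 1000 := by
    unfold upd
    push_cast
    ring
  have eb : (upd s κ L Wb b : ℝ) = b + ((100 * s * (Wb - κ * b) / L : ℤ) : ℝ) - 1000 := by
    unfold upd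
    push_cast
    ring
  rw [ea, eb]
  generalize ((100 * s * (Wa - κ * a) / L : ℤ) : ℝ) = qa at *
  generalize ((100 * s * (Wb - κ * b) / L : ℤ) : ℝ) = qb at *
  push_cast at ha hb
  refine le_of_mul_le_mul_left ?_ hLr
  have h1 : (1 - θ) * ((L : ℝ) * qa) ≤ (1 - θ) * (100 * s * (Wa - κ * a)) :=
    mul_le_mul_of_nonneg_left ha (by linarith)
  have h2 : θ * ((L : ℝ) * qb) ≤ θ * (100 * s * (Wb - κ * b)) := mul_le_mul_of_nonneg_left hb hθ0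
  have h3 : ((L : ℝ) - 100 * s * κ) * ((1 - θ) * (a : ℝ) + θ * (b : ℝ)) ≤
      ((L : ℝ) - 100 * s * κ) * (10 ^ 8 * m) := mul_le_mul_of_nonneg_left hinv (by linarith)
  have h4 : 100 * (s : ℝ) * ((1 - θ) * (Wa : ℝ) + θ * (Wb : ℝ)) ≤
      100 * (s : ℝ) * (10 ^ 8 * ((L : ℝ) / 10 ^ 4 * w + κ * m) + Er) :=
    mul_le_mul_of_nonneg_left halt (by linarith)
  have h5 : (L : ℝ) * (m + ((s : ℝ) / 100 - h) * w) ≤ L * m' := mul_le_mul_of_nonneg_left hstep hLr.le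
  have h6 : (L : ℝ) * (h * w) ≤ L * (4 / 10 ^ 6) := mul_le_mul_of_nonneg_left hhw hLr.le
  nlinarith [h1, h2, h3, h4, h5, h6]

end Pool.Agent.Lib.H42Y
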