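import Pool.Agent.Lib.H42Y.CS1
import Pool.Agent.Lib.H42Y.ALT

/-!
# Chunk CS2 (M)
The step with the new inequality is correct.

Proof. `N = n + 1`, `h N = 1`, `k = kj n j`, `x = h k`: `j / 100 - h ≤ x ≤ j / 100` (natural division), `2 ≤ k ≤ n` (`j ≥ 5`, `N ≥ 10^7`). `m = M k`, `w = w k`, `m' = M (kj n (j+s))`; `S.step`: `m + h (k' - k) w ≤ m'` and `h (k' - k) ≥ s/100 - h`, so `m + (s/100 - h) w ≤ m'`. `w ≤ 1` by `S.f2` (`x ≤ 11/20`, `t ≤ 1/5`), so `h w ≤ 4/10^6`.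
`t = ((1-θ) T0 + θ T1)/1000`, `t0 = T0/1000 ≤ t`. The value of `stE` is at most each of the four `upd`. If `w ≥ V/1000`: use the fourth (`κ = 0`, `L = 10000`, `Er = 0`). Otherwise `alt`:
(1) `x + 3t - 61/100 - h ≤ 2 m + 8/5 w`: the first (`κ = 2`, `L = 16000`, `Er = 20`: `10^8 * 2 h ≤ 20`).
(2) `x + 4t - 3/5 - 251 h ≤ 2 m + (8/5 + (1-x)) w + (x/2 + t - 53/50 w)^2`: expand the square; `(x/2+t)^2 ≤ (j/200+t)^2`, `-(53/25) (x/2+t) w ≤ -(53/25)(j/200 + t0) w + 53/50 h w`, `(53/50)^2 w^2 ≤ 1.1236 (V/1000) w`, `(1-x) w ≤ (1 - j/100) w + h w`. So `j/100 + 4 t - 3/5 - (j/200+t)^2 ≤ 2 m + s0 w + 255 h` with `s0 = 8/5 + 1 - j/100 - 53/25 (j/200 + t0) + 1.1236 V/1000`. `L := 26002 - 100 j - (212 (5j+T0))/10 + (11236 V)/1000` (integer divisions) satisfies `10^4 s0 ≤ L`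
and `13000 ≤ L`. `(1-θ) Wa + θ Wb ≤ 10^8 (j/100 + 4t - 3/5 - (j/200+t)^2)` since `t ↦ (j/200+t)^2` is convex. The second alternative with `κ = 2`, `Er = 3000`.
(3) `1/5 + t - 2 h ≤ 4/5 w`: the third (`κ = 0`, `L = 8000`, `Er = 20`).
-/

namespace Pool.Agent.Lib.H42Y

private theorem cs2_lo (n j : ℕ) (h : ℝ) (hN : h * ((n : ℝ) + 1) = 1) :
    (j : ℝ) / 100 - h ≤ h * (kj n j : ℝ) := by
  have hn : (0 : ℝ) < (n : ℝ) + 1 := by positivity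
  have hh : 0 < h := by
    by_contra hc
    push Not at hc
    have := mul_nonpos_of_nonpos_of_nonneg hc hn.le
    linarith
  have h1 : j * (n + 1) < 100 * kj n j + 100 := by
    unfold kj
    omega
  have h2 : (j : ℝ) * ((n : ℝ) + 1) < 100 * (kj n j : ℝ) + 100 := by exact_mod_cast h1
  have h3 : (j : ℝ) = h * ((j : ℝ) * ((n : ℝ) + 1)) := by linear_combination (-(j : ℝ)) * hN
  have h4 := mul_le_mul_of_nonneg_left h2.le hh.le
  linarith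

private theorem cs2_hi (n j : ℕ) (h : ℝ) (hN : h * ((n : ℝ) + 1) = 1) :
    h * (kj n j : ℝ) ≤ (j : ℝ) / 100 := by
  have hn : (0 : ℝ) < (n : ℝ) + 1 := by positivity
  have hh : 0 < h := by
    by_contra hc
    push Not at hc
    have := mul_nonpos_of_nonpos_of_nonneg hc hn.le
    linarith
  have h1 : 100 * kj n j ≤ j * (n + 1) := by
    unfold kj
    omega
  have h2 : 100 * (kj n j : ℝ) ≤ (j : ℝ) * ((n : ℝ) + 1) := by exact_mod_cast h1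
  have h3 : (j : ℝ) = h * ((j : ℝ) * ((n : ℝ) + 1)) := by linear_combination (-(j : ℝ)) * hN
  have h4 := mul_le_mul_of_nonneg_left h2 hh.le
  linarith

private theorem cs2_comb (θ A B A' B' c : ℝ) (hθ0 : 0 ≤ θ) (hθ1 : θ ≤ 1) (hA : A ≤ A')
    (hB : B ≤ B') (h : (1 - θ) * A' + θ * B' ≤ c) : (1 - θ) * A + θ * B ≤ c := by
  have h1 := mul_le_mul_of_nonneg_left hA (sub_nonneg.mpr hθ1)
  have h2 := mul_le_mul_of_nonneg_left hB hθ0
  linarith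

private theorem cs2_st1 (T T0 V j s a : ℤ) : (stE T T0 V j s a : ℝ) ≤
    (upd s 2 16000 (j * 10 ^ 6 + 3 * T * 10 ^ 5 - 61 * 10 ^ 6) a : ℝ) := by
  have h : stE T T0 V j s a ≤ upd s 2 16000 (j * 10 ^ 6 + 3 * T * 10 ^ 5 - 61 * 10 ^ 6) a := by
    unfold stE
    exact (min_le_left _ _).trans (min_le_left _ _)
  exact Int.cast_le.mpr h

private theorem cs2_st2 (T T0 V j s a : ℤ) : (stE T T0 V j s a : ℝ) ≤
    (upd s 2 (26002 - 100 * j - (212 * (5 * j + T0)) / 10 + (11236 * V) / 1000)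
      (j * 10 ^ 6 + 4 * T * 10 ^ 5 - 60 * 10 ^ 6 - 100 * (5 * j + T) ^ 2) a : ℝ) := by
  have h : stE T T0 V j s a ≤
      upd s 2 (26002 - 100 * j - (212 * (5 * j + T0)) / 10 + (11236 * V) / 1000)
      (j * 10 ^ 6 + 4 * T * 10 ^ 5 - 60 * 10 ^ 6 - 100 * (5 * j + T) ^ 2) a := by
    unfold stE
    exact (min_le_left _ _).trans (min_le_right _ _)
  exact Int.cast_le.mpr h

private theorem cs2_st3 (T T0 V j s a : ℤ) : (stE T T0 V j s a : ℝ) ≤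
    (upd s 0 8000 (20 * 10 ^ 6 + T * 10 ^ 5) a : ℝ) := by
  have h : stE T T0 V j s a ≤ upd s 0 8000 (20 * 10 ^ 6 + T * 10 ^ 5) a := by
    unfold stE
    exact (min_le_right _ _).trans (min_le_left _ _)
  exact Int.cast_le.mpr h

private theorem cs2_st4 (T T0 V j s a : ℤ) : (stE T T0 V j s a : ℝ) ≤
    (upd s 0 10000 (V * 10 ^ 5) a : ℝ) := by
  have h : stE T T0 V j s a ≤ upd s 0 10000 (V * 10 ^ 5) a := by
    unfold stE
    exact (min_le_right _ _).trans (min_le_right _ _)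
  exact Int.cast_le.mpr h

/-- The estimate of the second alternative. -/
private theorem cs2_e2 (θ t J T0 T1 : ℝ) (hθ0 : 0 ≤ θ) (hθ1 : θ ≤ 1)
    (htT : (1 - θ) * T0 + θ * T1 = 1000 * t) :
    (1 - θ) * (J * 10 ^ 6 + 4 * T0 * 10 ^ 5 - 60 * 10 ^ 6 - 100 * (5 * J + T0) ^ 2) +
      θ * (J * 10 ^ 6 + 4 * T1 * 10 ^ 5 - 60 * 10 ^ 6 - 100 * (5 * J + T1) ^ 2) ≤
      10 ^ 8 * (J / 100 + 4 * t - 3 / 5 - (J / 200 + t) ^ 2) := by
  have e1 : 0 ≤ θ * (1 - θ) * (T0 - T1) ^ 2 :=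
    mul_nonneg (mul_nonneg hθ0 (sub_nonneg.mpr hθ1)) (sq_nonneg _)
  have e3 : t = ((1 - θ) * T0 + θ * T1) / 1000 := by rw [htT]; ring
  have e4 : 10 ^ 8 * (J / 100 + 4 * t - 3 / 5 - (J / 200 + t) ^ 2) -
      ((1 - θ) * (J * 10 ^ 6 + 4 * T0 * 10 ^ 5 - 60 * 10 ^ 6 - 100 * (5 * J + T0) ^ 2) +
      θ * (J * 10 ^ 6 + 4 * T1 * 10 ^ 5 - 60 * 10 ^ 6 - 100 * (5 * J + T1) ^ 2)) =
      100 * (θ * (1 - θ) * (T0 - T1) ^ 2) := by
    rw [e3]
    ring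
  linarith

private theorem cs2_e3 (h t J x m w V T0 q1 q2 : ℝ) (hh0 : 0 < h) (hh1 : h ≤ 1 / 10 ^ 7)
    (hxlo : J / 100 - h ≤ x) (hxhi : x ≤ J / 100) (hw0 : 0 ≤ w) (hhw1 : h * w ≤ h)
    (ht0 : T0 / 1000 ≤ t) (hwV : w ≤ V / 1000) (h2 : 0 ≤ x / 2 + t - 53 / 50 * w)
    (h3 : x + 4 * t - 3 / 5 - 251 * h ≤ 2 * m + (8 / 5 + (1 - x)) * w +
      (x / 2 + t - 53 / 50 * w) ^ 2)
    (hq1r : 10 * q1 ≤ 212 * (5 * J + T0)) (hq2r : 11236 * V ≤ 1000 * q2 + 1000) :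
    10 ^ 8 * (J / 100 + 4 * t - 3 / 5 - (J / 200 + t) ^ 2) ≤
      10 ^ 8 * ((26002 - 100 * J - q1 + q2) / 10 ^ 4 * w + 2 * m) + 3000 := by
  have f1 : (x / 2 + t - 53 / 50 * w) ^ 2 ≤ (J / 200 + t - 53 / 50 * w) ^ 2 := by
    apply pow_le_pow_left₀ h2
    linarith
  have f2 : (8 / 5 + (1 - x)) * w ≤ 13 / 5 * w - J / 100 * w + h := by
    have : (8 / 5 + (1 - x)) * w ≤ (13 / 5 - J / 100 + h) * w :=
      mul_le_mul_of_nonneg_right (by linarith) hw0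
    have e : (13 / 5 - J / 100 + h) * w = 13 / 5 * w - J / 100 * w + h * w := by ring
    rw [e] at this
    linarith
  have f3 : T0 / 1000 * w ≤ t * w := mul_le_mul_of_nonneg_right ht0 hw0
  have f4 : w * w ≤ V / 1000 * w := mul_le_mul_of_nonneg_right hwV hw0
  have f5 : (26000 - 100 * J - 212 * (5 * J + T0) / 10 + 11236 * V / 1000) * w ≤
      (26002 - 100 * J - q1 + q2) * w :=
    mul_le_mul_of_nonneg_right (by linarith) hw0
  have f6 : (J / 200 + t - 53 / 50 * w) ^ 2 = (J / 200 + t) ^ 2 -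
      53 / 200 * (J / 25 * w) - 53 / 25 * (t * w) + 11236 / 10000 * (w * w) := by
    ring
  have f8 : (26000 - 100 * J - 212 * (5 * J + T0) / 10 + 11236 * V / 1000) * w =
      26000 * w - 10000 * (J / 100 * w) - 106 * (25 * (J / 25 * w)) - 21200 * (T0 / 1000 * w) +
        11236 * (V / 1000 * w) := by
    ring
  have f9 : 10 ^ 8 * ((26002 - 100 * J - q1 + q2) / 10 ^ 4 * w + 2 * m) =
      10 ^ 4 * ((26002 - 100 * J - q1 + q2) * w) + 2 * 10 ^ 8 * m := by ring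
  rw [f6] at f1
  rw [f8] at f5
  rw [f9]
  norm_num at hh1
  have g1 : J / 100 + 4 * t - 3 / 5 - (J / 200 + t) ^ 2 ≤ 2 * m + 13 / 5 * w - J / 100 * w +
      253 * h - 53 / 200 * (J / 25 * w) - 53 / 25 * (T0 / 1000 * w) +
        11236 / 10000 * (V / 1000 * w) := by
    linarith
  linarith

theorem stE_sound (n : ℕ) (h t : ℝ) (M w : ℕ → ℝ) (S : Sq n h t M w) (T0 T1 V : ℤ) (θ : ℝ)
    (hθ0 : 0 ≤ θ) (hθ1 : θ ≤ 1) (ht : t = ((1 - θ) * T0 + θ * T1) / 1000) (hT0 : 40 ≤ T0)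
    (hT01 : T0 ≤ T1) (hT1 : T1 ≤ 200) (hV0 : 80 ≤ V) (hV1 : V ≤ 250) (j : ℕ) (hj : 5 ≤ j)
    (hreg : (T1 ≤ 120 ∧ T0 ≤ 100 ∧ j ≤ 55) ∨ (T0 ≤ 160 ∧ j ≤ 50)) (s : ℕ) (hs : 1 ≤ s)
    (hs2 : s ≤ 25) (a b : ℤ) (hI : Inv n M θ j a b) :
    Inv n M θ (j + s) (stE T0 T0 V j s a) (stE T1 T0 V j s b) := by
  have hn : (0 : ℝ) < (n : ℝ) + 1 := by positivity
  have hN := S.h0
  have hh0 : 0 < h := by
    by_contra hc
    push Not at hc
    have := mul_nonpos_of_nonpos_of_nonneg hc hn.le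
    linarith
  have hh1 := S.h1
  have hn7 : 10 ^ 7 ≤ n + 1 := by
    have h1 : (1 : ℝ) ≤ 1 / 10 ^ 7 * ((n : ℝ) + 1) := by
      calc (1 : ℝ) = h * ((n : ℝ) + 1) := hN.symm
        _ ≤ 1 / 10 ^ 7 * ((n : ℝ) + 1) := mul_le_mul_of_nonneg_right hh1 hn.le
    have h2 : (10 : ℝ) ^ 7 ≤ (n : ℝ) + 1 := by
      rw [div_mul_eq_mul_div, one_mul, le_div_iff₀ (by norm_num)] at h1
      linarith
    exact_mod_cast h2
  have hj55 : j ≤ 55 := by
    rcases hreg with ⟨_, _, h⟩ | ⟨_, h⟩ <;> omega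
  set k := kj n j with hkdef
  set k' := kj n (j + s) with hk'def
  have hk2 : 2 ≤ k := by
    rw [hkdef]
    unfold kj
    have : 5 * 10 ^ 7 ≤ j * (n + 1) := Nat.mul_le_mul hj hn7
    omega
  have hkn : k ≤ n := by
    rw [hkdef]
    unfold kj
    have : j * (n + 1) ≤ 55 * (n + 1) := Nat.mul_le_mul_right _ hj55
    omega
  have hkk' : k ≤ k' := by
    rw [hkdef, hk'def]
    unfold kj
    exact Nat.div_le_div_right (Nat.mul_le_mul_right _ (Nat.le_add_right _ _))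
  have hxlo : (j : ℝ) / 100 - h ≤ h * (k : ℝ) := cs2_lo n j h hN
  have hxhi : h * (k : ℝ) ≤ (j : ℝ) / 100 := cs2_hi n j h hN
  have hk'lo : ((j + s : ℕ) : ℝ) / 100 - h ≤ h * (k' : ℝ) := cs2_lo n (j + s) h hN
  have hj55r : (j : ℝ) ≤ 55 := by exact_mod_cast hj55
  have hw0 : 0 ≤ w k := S.w0 k
  have hM0 : 0 ≤ M k := S.M0 k
  have hf2 := S.f2 k (by omega) (by omega)
  have ht1 := S.t1
  have hw1 : w k ≤ 1 := by
    have h2 : 9 / 20 * w k ≤ (1 - h * (k : ℝ)) * w k :=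
      mul_le_mul_of_nonneg_right (by linarith) hw0
    have h3 : h ≤ 1 / 20 := hh1.trans (by norm_num)
    linarith
  have hhw1 : h * w k ≤ h := mul_le_of_le_one_right hh0.le hw1
  have hhw : h * w k ≤ 4 / 10 ^ 6 := hhw1.trans (hh1.trans (by norm_num))
  have hstep : M k + ((s : ℝ) / 100 - h) * w k ≤ M k' := by
    have h1 := S.step k k' (by omega) hkk'
    have h2 : (s : ℝ) / 100 - h ≤ h * ((k' : ℝ) - k) := by
      push_cast at hk'lo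
      linarith
    have h3 := mul_le_mul_of_nonneg_right h2 hw0
    linarith
  have hT0r : (40 : ℝ) ≤ (T0 : ℝ) := by exact_mod_cast hT0
  have hT01r : (T0 : ℝ) ≤ (T1 : ℝ) := by exact_mod_cast hT01
  have htT : (1 - θ) * (T0 : ℝ) + θ * (T1 : ℝ) = 1000 * t := by rw [ht]; ring
  have ht0 : (T0 : ℝ) / 1000 ≤ t := by
    have := mul_le_mul_of_nonneg_left hT01r hθ0
    linarith
  have htT1 : t ≤ (T1 : ℝ) / 1000 := by
    have := mul_le_mul_of_nonneg_left hT01r (sub_nonneg.mpr hθ1)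
    linarith
  have ht25 : 1 / 25 ≤ t := by linarith
  have hx1120 : h * (k : ℝ) ≤ 11 / 20 := by linarith
  have hreg' : t ≤ 3 / 25 ∨ h * (k : ℝ) ≤ 1 / 2 := by
    rcases hreg with ⟨h1, _, _⟩ | ⟨_, h2⟩
    · left
      have : (T1 : ℝ) ≤ 120 := by exact_mod_cast h1
      linarith
    · right
      have : (j : ℝ) ≤ 50 := by exact_mod_cast h2
      linarith
  have hsZ : (1 : ℤ) ≤ (s : ℤ) := by exact_mod_cast hs
  have hs2Z : (s : ℤ) ≤ 25 := by exact_mod_cast hs2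
  have hs2r : (s : ℝ) ≤ 25 := by exact_mod_cast hs2
  have hscast : ((s : ℤ) : ℝ) = (s : ℝ) := by norm_cast
  unfold Inv at hI ⊢
  rw [← hkdef] at hI
  rw [← hk'def]
  by_cases hwV : (V : ℝ) / 1000 ≤ w k
  · -- fourth alternative
    have key := upd_sound (s : ℤ) 0 10000 (V * 10 ^ 5) (V * 10 ^ 5) a b θ h (M k) (M k') (w k) 0
      hsZ (by norm_num) le_rfl (by norm_num) hθ0 hθ1 hhw (by norm_num) hI
      (by push_cast; linarith) (by rw [hscast]; exact hstep)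
    exact cs2_comb _ _ _ _ _ _ hθ0 hθ1 (cs2_st4 _ _ _ _ _ _) (cs2_st4 _ _ _ _ _ _) key
  push Not at hwV
  rcases alt n h t M w S ht25 k hk2 hkn hx1120 hreg' with h1 | ⟨h2, h3⟩ | h4
  · -- first alternative
    have key := upd_sound (s : ℤ) 2 16000 (j * 10 ^ 6 + 3 * T0 * 10 ^ 5 - 61 * 10 ^ 6)
      (j * 10 ^ 6 + 3 * T1 * 10 ^ 5 - 61 * 10 ^ 6) a b θ h (M k) (M k') (w k) 20
      hsZ (by norm_num) (by norm_num) (by omega) hθ0 hθ1 hhw
      (by rw [hscast]; push_cast; linarith) hI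
      (by
        have e : (1 - θ) * ((j : ℝ) * 10 ^ 6 + 3 * (T0 : ℝ) * 10 ^ 5 - 61 * 10 ^ 6) +
            θ * ((j : ℝ) * 10 ^ 6 + 3 * (T1 : ℝ) * 10 ^ 5 - 61 * 10 ^ 6) =
            10 ^ 8 * ((j : ℝ) / 100 + 3 * t - 61 / 100) := by
          linear_combination (3 * 10 ^ 5) * htT
        push_cast
        norm_num at e hh1 ⊢
        rw [e]
        linarith)
      (by rw [hscast]; exact hstep)
    exact cs2_comb _ _ _ _ _ _ hθ0 hθ1 (cs2_st1 _ _ _ _ _ _) (cs2_st1 _ _ _ _ _ _) key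
  · -- second alternative
    obtain ⟨q1, hq1⟩ : ∃ q1 : ℤ, q1 = (212 * (5 * (j : ℤ) + T0)) / 10 := ⟨_, rfl⟩
    obtain ⟨q2, hq2⟩ : ∃ q2 : ℤ, q2 = (11236 * V) / 1000 := ⟨_, rfl⟩
    have hq1a : 10 * q1 ≤ 212 * (5 * (j : ℤ) + T0) := by omega
    have hq2a : 11236 * V < 1000 * q2 + 1000 := by omega
    have hq2b : 898 ≤ q2 := by omega
    have hL : 13000 ≤ 26002 - 100 * (j : ℤ) - q1 + q2 := by
      rcases hreg with ⟨_, r2, r3⟩ | ⟨r2, r3⟩ <;> omega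
    have hq1r : 10 * (q1 : ℝ) ≤ 212 * (5 * (j : ℝ) + (T0 : ℝ)) := by exact_mod_cast hq1a
    have hq2r : 11236 * (V : ℝ) ≤ 1000 * (q2 : ℝ) + 1000 := by exact_mod_cast hq2a.le
    have hLr : (13000 : ℝ) ≤ 26002 - 100 * (j : ℝ) - (q1 : ℝ) + (q2 : ℝ) := by
      have := (Int.cast_le (R := ℝ)).mpr hL
      push_cast at this
      exact this
    have key := upd_sound (s : ℤ) 2 (26002 - 100 * (j : ℤ) - q1 + q2)
      ((j : ℤ) * 10 ^ 6 + 4 * T0 * 10 ^ 5 - 60 * 10 ^ 6 - 100 * (5 * (j : ℤ) + T0) ^ 2)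
      ((j : ℤ) * 10 ^ 6 + 4 * T1 * 10 ^ 5 - 60 * 10 ^ 6 - 100 * (5 * (j : ℤ) + T1) ^ 2)
      a b θ h (M k) (M k') (w k) 3000
      hsZ (by omega) (by norm_num) (by omega) hθ0 hθ1 hhw
      (by rw [hscast]; push_cast; linarith) hI
      (by
        have e := cs2_e2 θ t (j : ℝ) (T0 : ℝ) (T1 : ℝ) hθ0 hθ1 htT
        have e' := cs2_e3 h t (j : ℝ) (h * (k : ℝ)) (M k) (w k) (V : ℝ) (T0 : ℝ) (q1 : ℝ) (q2 : ℝ)
          hh0 hh1 hxlo hxhi hw0 hhw1 ht0 hwV.le h2 h3 hq1r hq2r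
        have e3 := e.trans e'
        push_cast
        norm_num at e3 ⊢
        exact e3)
      (by rw [hscast]; exact hstep)
    rw [hq1, hq2] at key
    exact cs2_comb _ _ _ _ _ _ hθ0 hθ1 (cs2_st2 _ _ _ _ _ _) (cs2_st2 _ _ _ _ _ _) key
  · -- third alternative
    have key := upd_sound (s : ℤ) 0 8000 (20 * 10 ^ 6 + T0 * 10 ^ 5)
      (20 * 10 ^ 6 + T1 * 10 ^ 5) a b θ h (M k) (M k') (w k) 20
      hsZ (by norm_num) (by norm_num) (by norm_num) hθ0 hθ1 hhw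
      (by rw [hscast]; push_cast; linarith) hI
      (by
        have e : (1 - θ) * (20 * 10 ^ 6 + (T0 : ℝ) * 10 ^ 5) + θ * (20 * 10 ^ 6 + (T1 : ℝ) * 10 ^ 5) =
            10 ^ 8 * (1 / 5 + t) := by
          linear_combination (10 ^ 5) * htT
        push_cast
        norm_num at e hh1 ⊢
        rw [e]
        linarith)
      (by rw [hscast]; exact hstep)
    exact cs2_comb _ _ _ _ _ _ hθ0 hθ1 (cs2_st3 _ _ _ _ _ _) (cs2_st3 _ _ _ _ _ _) key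

end Pool.Agent.Lib.H42Y
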