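import Pool.Agent.Lib.H42Y.CS1

/-!
# Chunk CS3 (M)
The step with the old inequality is correct.

Proof. `N = n + 1`, `h N = 1`, `k = kj n j`, `x = h k`: `j / 100 - h ≤ x ≤ j / 100` (natural division), `2 ≤ k ≤ n` (`5 ≤ j ≤ 99`, `N ≥ 10^7`). `m = M k`, `w = w k`, `m' = M (kj n (j+1))`; `S.step` and `h (k' - k) ≥ 1/100 - h` give `m + (1/100 - h) w ≤ m'`. `(1/100) w ≤ (1 - x) w ≤ t + h` by `S.f2`, so `w ≤ 21` and `h w ≤ 4/10^6`. The value of `stD` is at most each of the two `upd`. `S.dd`: either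
`x + 2 t - 4/5 - 2 h ≤ m + 4/5 w`: the first (`κ = 1`, `L = 8000`, `Er = 40`); or `1/5 + t - 2 h ≤ 4/5 w`: the second (`κ = 0`, `L = 8000`, `Er = 40`).
-/

namespace Pool.Agent.Lib.H42Y

private theorem CS3_kj (n j : ℕ) : (kj n j : ℝ) ≤ (j : ℝ) * ((n : ℝ) + 1) / 100 ∧
    (j : ℝ) * ((n : ℝ) + 1) / 100 < (kj n j : ℝ) + 1 := by
  have h1 : kj n j * 100 ≤ j * (n + 1) := Nat.div_mul_le_self _ _
  have h2 : j * (n + 1) < (kj n j + 1) * 100 := by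
    unfold kj
    omega
  have h1' : (kj n j : ℝ) * 100 ≤ (j : ℝ) * ((n : ℝ) + 1) := by exact_mod_cast h1
  have h2' : (j : ℝ) * ((n : ℝ) + 1) < ((kj n j : ℝ) + 1) * 100 := by exact_mod_cast h2
  constructor
  · linarith
  · linarith

theorem stD_sound (n : ℕ) (h t : ℝ) (M w : ℕ → ℝ) (S : Sq n h t M w) (T0 T1 : ℤ) (θ : ℝ)
    (hθ0 : 0 ≤ θ) (hθ1 : θ ≤ 1) (ht : t = ((1 - θ) * T0 + θ * T1) / 1000) (j : ℕ) (hj : 5 ≤ j)
    (hj2 : j ≤ 99) (a b : ℤ) (hI : Inv n M θ j a b) :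
    Inv n M θ (j + 1) (stD T0 j 1 a) (stD T1 j 1 b) := by
  have hN := S.h0
  have hh1 := S.h1
  have hNn : (0 : ℝ) ≤ (n : ℝ) := Nat.cast_nonneg n
  have hpos : 0 < h := by
    by_contra hc
    push Not at hc
    nlinarith
  have hN7 : (10 : ℝ) ^ 7 ≤ (n : ℝ) + 1 := by
    by_contra hc
    push Not at hc
    nlinarith
  have hN7' : 10 ^ 7 ≤ n + 1 := by exact_mod_cast hN7
  have hk2 : 2 ≤ kj n j := by
    unfold kj
    have : 5 * 10 ^ 7 ≤ j * (n + 1) := Nat.mul_le_mul hj hN7'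
    omega
  have hkn : kj n j ≤ n := by
    unfold kj
    have : j * (n + 1) ≤ 99 * (n + 1) := Nat.mul_le_mul_right _ hj2
    omega
  have hkk : kj n j ≤ kj n (j + 1) := by
    unfold kj
    exact Nat.div_le_div_right (Nat.mul_le_mul_right _ (Nat.le_succ j))
  obtain ⟨a1, a2⟩ := CS3_kj n j
  obtain ⟨b1, b2⟩ := CS3_kj n (j + 1)
  push_cast at b1 b2
  have hj99 : (j : ℝ) ≤ 99 := by exact_mod_cast hj2
  have hx1 : h * (kj n j : ℝ) ≤ (j : ℝ) / 100 := by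
    have := mul_le_mul_of_nonneg_left a1 hpos.le
    have e : h * ((j : ℝ) * ((n : ℝ) + 1) / 100) = (j : ℝ) / 100 * (h * ((n : ℝ) + 1)) := by ring
    rw [e, hN] at this
    linarith
  have hx0 : (j : ℝ) / 100 - h ≤ h * (kj n j : ℝ) := by
    have := mul_lt_mul_of_pos_left a2 hpos
    have e : h * ((j : ℝ) * ((n : ℝ) + 1) / 100) = (j : ℝ) / 100 * (h * ((n : ℝ) + 1)) := by ring
    rw [e, hN] at this
    linarith
  have hx0' : ((j : ℝ) + 1) / 100 - h ≤ h * (kj n (j + 1) : ℝ) := by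
    have := mul_lt_mul_of_pos_left b2 hpos
    have e : h * (((j : ℝ) + 1) * ((n : ℝ) + 1) / 100) =
      ((j : ℝ) + 1) / 100 * (h * ((n : ℝ) + 1)) := by ring
    rw [e, hN] at this
    linarith
  have hM0 := S.M0 (kj n j)
  have hw0 := S.w0 (kj n j)
  have hf2 := S.f2 (kj n j) (by omega) (by omega)
  have hst := S.step (kj n j) (kj n (j + 1)) (by omega) hkk
  have ht1 := S.t1
  have hw21 : w (kj n j) ≤ 21 := by
    have h3 : (1 / 100 : ℝ) ≤ 1 - h * (kj n j : ℝ) := by linarith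
    have h4 : (1 / 100 : ℝ) * w (kj n j) ≤ (1 - h * (kj n j : ℝ)) * w (kj n j) :=
      mul_le_mul_of_nonneg_right h3 hw0
    have h5 : (h : ℝ) ≤ 1 / 10 ^ 7 := hh1
    norm_num at h5
    linarith
  have hhw : h * w (kj n j) ≤ 4 / 10 ^ 6 := by
    have h6 : h * w (kj n j) ≤ 1 / 10 ^ 7 * 21 := mul_le_mul hh1 hw21 hw0 (by norm_num)
    norm_num at h6 ⊢
    linarith
  have hstep : M (kj n j) + (((1 : ℤ) : ℝ) / 100 - h) * w (kj n j) ≤ M (kj n (j + 1)) := by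
    have h7 : ((1 : ℤ) : ℝ) / 100 - h ≤ h * ((kj n (j + 1) : ℝ) - (kj n j : ℝ)) := by
      push_cast
      rw [mul_sub]
      linarith
    have h8 := mul_le_mul_of_nonneg_right h7 hw0
    linarith
  have hh7 : (10 : ℝ) ^ 8 * h ≤ 10 := by
    have := mul_le_mul_of_nonneg_left hh1 (by norm_num : (0 : ℝ) ≤ 10 ^ 8)
    norm_num at this ⊢
    linarith
  have hθ1' : 0 ≤ 1 - θ := by linarith
  have htt : (1 - θ) * (T0 : ℝ) + θ * (T1 : ℝ) = 1000 * t := by rw [ht]; ring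
  unfold Inv at hI ⊢
  rcases S.dd (kj n j) hk2 hkn with hd | hd
  · have hu := upd_sound 1 1 8000 (j * 10 ^ 6 + 2 * T0 * 10 ^ 5 - 80 * 10 ^ 6)
      (j * 10 ^ 6 + 2 * T1 * 10 ^ 5 - 80 * 10 ^ 6) a b θ h (M (kj n j)) (M (kj n (j + 1)))
      (w (kj n j)) 40 (by norm_num) (by norm_num) (by norm_num) (by norm_num) hθ0 hθ1 hhw
      (by norm_num) hI (by
        push_cast
        have e : (1 - θ) * ((j : ℝ) * 1000000 + 2 * (T0 : ℝ) * 100000 - 80000000) +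
            θ * ((j : ℝ) * 1000000 + 2 * (T1 : ℝ) * 100000 - 80000000) =
            (j : ℝ) * 10 ^ 6 + 2 * 10 ^ 5 * ((1 - θ) * (T0 : ℝ) + θ * (T1 : ℝ)) - 80 * 10 ^ 6 := by
          ring
        rw [e, htt]
        norm_num at hh7 ⊢
        linarith) hstep
    have l1 : ((stD T0 j 1 a : ℤ) : ℝ) ≤
        ((upd 1 1 8000 (j * 10 ^ 6 + 2 * T0 * 10 ^ 5 - 80 * 10 ^ 6) a : ℤ) : ℝ) := by
      exact_mod_cast min_le_left _ _
    have l2 : ((stD T1 j 1 b : ℤ) : ℝ) ≤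
        ((upd 1 1 8000 (j * 10 ^ 6 + 2 * T1 * 10 ^ 5 - 80 * 10 ^ 6) b : ℤ) : ℝ) := by
      exact_mod_cast min_le_left _ _
    exact (add_le_add (mul_le_mul_of_nonneg_left l1 hθ1') (mul_le_mul_of_nonneg_left l2 hθ0)).trans
      hu
  · have hu := upd_sound 1 0 8000 (20 * 10 ^ 6 + T0 * 10 ^ 5)
      (20 * 10 ^ 6 + T1 * 10 ^ 5) a b θ h (M (kj n j)) (M (kj n (j + 1)))
      (w (kj n j)) 40 (by norm_num) (by norm_num) (by norm_num) (by norm_num) hθ0 hθ1 hhw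
      (by norm_num) hI (by
        push_cast
        have e : (1 - θ) * (20000000 + (T0 : ℝ) * 100000) +
            θ * (20000000 + (T1 : ℝ) * 100000) =
            20 * 10 ^ 6 + 10 ^ 5 * ((1 - θ) * (T0 : ℝ) + θ * (T1 : ℝ)) := by
          ring
        rw [e, htt]
        norm_num at hh7 ⊢
        linarith) hstep
    have l1 : ((stD T0 j 1 a : ℤ) : ℝ) ≤
        ((upd 1 0 8000 (20 * 10 ^ 6 + T0 * 10 ^ 5) a : ℤ) : ℝ) := by
      exact_mod_cast min_le_right _ _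
    have l2 : ((stD T1 j 1 b : ℤ) : ℝ) ≤
        ((upd 1 0 8000 (20 * 10 ^ 6 + T1 * 10 ^ 5) b : ℤ) : ℝ) := by
      exact_mod_cast min_le_right _ _
    exact (add_le_add (mul_le_mul_of_nonneg_left l1 hθ1') (mul_le_mul_of_nonneg_left l2 hθ0)).trans
      hu

end Pool.Agent.Lib.H42Y
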