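import Pool.Agent.Lib.H42Y.Defs3

/-!
# Chunk CV
The values of the certificate (evaluation of integers).
-/

namespace Pool.Agent.Lib.H42Y

/-- The end point condition of a certificate. -/
def okE (T0 T1 V : ℤ) (js m1 s m2 : ℕ) : Prop :=
  T0 * 10 ^ 5 + 1000 < finE T0 T0 V js m1 s m2 ∧ T1 * 10 ^ 5 + 1000 < finE T1 T0 V js m1 s m2

/-- The end point condition of a certificate with old inequalities only. -/
def okD (T0 T1 : ℤ) (js m2 : ℕ) : Prop :=
  T0 * 10 ^ 5 + 1000 < itD T0 js m2 0 ∧ T1 * 10 ^ 5 + 1000 < itD T1 js m2 0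

theorem d1 : okD (-1) 20 77 23 := by unfold okD; decide +kernel
theorem d2 : okD 20 40 73 27 := by unfold okD; decide +kernel
theorem e1 : okE 40 50 80 49 6 19 26 := by unfold okE; decide +kernel
theorem e2 : okE 50 60 80 45 10 19 26 := by unfold okE; decide +kernel
theorem e3 : okE 60 80 90 43 12 19 26 := by unfold okE; decide +kernel
theorem e4 : okE 80 100 125 38 17 19 26 := by unfold okE; decide +kernel
theorem e5 : okE 100 120 150 32 23 20 25 := by unfold okE; decide +kernel
theorem e6 : okE 120 160 175 26 24 22 28 := by unfold okE; decide +kernel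
theorem e7 : okE 160 200 220 14 36 21 29 := by unfold okE; decide +kernel

end Pool.Agent.Lib.H42Y
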