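import Pool.Agent.Lib.H42Y.CS2
import Pool.Agent.Lib.H42Y.CS3
import Pool.Agent.Lib.H42Y.CV

/-!
# Chunk CS4 (M)
The certificates give a contradiction.

Proof. Iterate `stE_sound`, `stD_sound` (induction on the number of steps) from `Inv n M θ js 0 0` (`M ≥ 0`): `Inv n M θ 100 (finE T0 ..) (finE T1 ..)`. `kj n 100 = n + 1`, `M (n+1) ≤ t + h` (`S.f2` at `k = n + 1`, `1 - h (n+1) = 0`), `10^8 (t + h) ≤ (1-θ) T0 10^5 + θ T1 10^5 + 10`, against `okE`. `θ = (1000 t - T0)/(T1 - T0)`.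
`no_sq`: `t ∈ [-1/1000, 1/5]`; the nine intervals `[-1,20]`, `[20,40]` (`d1`, `d2`), `[40,50]`, `[50,60]`, `[60,80]`, `[80,100]`, `[100,120]`, `[120,160]`, `[160,200]` (`e1`, ..., `e7`), in thousandths.
-/

namespace Pool.Agent.Lib.H42Y

private theorem CS4_itE (n : ℕ) (h t : ℝ) (M w : ℕ → ℝ) (S : Sq n h t M w) (T0 T1 V : ℤ) (θ : ℝ)
    (hθ0 : 0 ≤ θ) (hθ1 : θ ≤ 1) (ht : t = ((1 - θ) * T0 + θ * T1) / 1000) (hT0 : 40 ≤ T0)
    (hT01 : T0 ≤ T1) (hT1 : T1 ≤ 200) (hV0 : 80 ≤ V) (hV1 : V ≤ 250) (m : ℕ) :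
    ∀ (j : ℕ) (a b : ℤ), 5 ≤ j →
      ((T1 ≤ 120 ∧ T0 ≤ 100 ∧ j + m ≤ 55) ∨ (T0 ≤ 160 ∧ j + m ≤ 50)) → Inv n M θ j a b →
      Inv n M θ (j + m) (itE T0 T0 V j m a) (itE T1 T0 V j m b) := by
  induction m with
  | zero => exact fun j a b _ _ hI => hI
  | succ m ih =>
    intro j a b hj hreg hI
    have h1 := stE_sound n h t M w S T0 T1 V θ hθ0 hθ1 ht hT0 hT01 hT1 hV0 hV1 j hj
      (by omega) 1 le_rfl (by norm_num) a b hI
    have h2 := ih (j + 1) _ _ (by omega) (by omega) h1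
    rw [Nat.cast_one] at h2
    have e : j + 1 + m = j + (m + 1) := by omega
    rw [e] at h2
    exact h2

private theorem CS4_itD (n : ℕ) (h t : ℝ) (M w : ℕ → ℝ) (S : Sq n h t M w) (T0 T1 : ℤ) (θ : ℝ)
    (hθ0 : 0 ≤ θ) (hθ1 : θ ≤ 1) (ht : t = ((1 - θ) * T0 + θ * T1) / 1000) (m : ℕ) :
    ∀ (j : ℕ) (a b : ℤ), 5 ≤ j → j + m ≤ 100 → Inv n M θ j a b →
      Inv n M θ (j + m) (itD T0 j m a) (itD T1 j m b) := by
  induction m with
  | zero => exact fun j a b _ _ hI => hI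
  | succ m ih =>
    intro j a b hj hreg hI
    have h1 := stD_sound n h t M w S T0 T1 θ hθ0 hθ1 ht j hj (by omega) a b hI
    have h2 := ih (j + 1) _ _ (by omega) (by omega) h1
    have e : j + 1 + m = j + (m + 1) := by omega
    rw [e] at h2
    exact h2

private theorem CS4_end (n : ℕ) (h t : ℝ) (M w : ℕ → ℝ) (S : Sq n h t M w) (T0 T1 F0 F1 : ℤ)
    (θ : ℝ) (hθ0 : 0 ≤ θ) (hθ1 : θ ≤ 1) (ht : t = ((1 - θ) * T0 + θ * T1) / 1000)
    (h0 : T0 * 10 ^ 5 + 1000 < F0) (h1 : T1 * 10 ^ 5 + 1000 < F1) (hI : Inv n M θ 100 F0 F1) :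
    False := by
  have hk : kj n 100 = n + 1 := by
    unfold kj
    omega
  unfold Inv at hI
  rw [hk] at hI
  have hf := S.f2 (n + 1) (by omega) le_rfl
  have hN := S.h0
  have hh1 := S.h1
  push_cast at hf
  rw [hN, sub_self, zero_mul, add_zero] at hf
  have h0' : (T0 : ℝ) * 10 ^ 5 + 1000 < F0 := by exact_mod_cast h0
  have h1' : (T1 : ℝ) * 10 ^ 5 + 1000 < F1 := by exact_mod_cast h1
  have e0 : (1 - θ) * ((T0 : ℝ) * 10 ^ 5 + 1000) ≤ (1 - θ) * (F0 : ℝ) :=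
    mul_le_mul_of_nonneg_left h0'.le (by linarith)
  have e1 : θ * ((T1 : ℝ) * 10 ^ 5 + 1000) ≤ θ * (F1 : ℝ) :=
    mul_le_mul_of_nonneg_left h1'.le hθ0
  have e2 : (10 : ℝ) ^ 8 * M (n + 1) ≤ 10 ^ 8 * (t + h) :=
    mul_le_mul_of_nonneg_left hf (by norm_num)
  have e3 : (1 - θ) * ((T0 : ℝ) * 10 ^ 5 + 1000) + θ * ((T1 : ℝ) * 10 ^ 5 + 1000) =
      10 ^ 8 * t + 1000 := by
    rw [ht]
    ring
  have e4 : (10 : ℝ) ^ 8 * h ≤ 10 := by
    have := mul_le_mul_of_nonneg_left hh1 (by norm_num : (0 : ℝ) ≤ 10 ^ 8)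
    norm_num at this ⊢
    linarith
  rw [mul_add] at e2
  linarith

private theorem CS4_theta (t : ℝ) (T0 T1 : ℤ) (hT01 : T0 < T1) (h0 : (T0 : ℝ) / 1000 ≤ t)
    (h1 : t ≤ (T1 : ℝ) / 1000) :
    ∃ θ : ℝ, 0 ≤ θ ∧ θ ≤ 1 ∧ t = ((1 - θ) * T0 + θ * T1) / 1000 := by
  have hT : (0 : ℝ) < (T1 : ℝ) - T0 := by
    have : (T0 : ℝ) < T1 := by exact_mod_cast hT01
    linarith
  refine ⟨(1000 * t - T0) / (T1 - T0), ?_, ?_, ?_⟩
  · exact div_nonneg (by linarith) hT.le
  · rw [div_le_one hT]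
    linarith
  · have h2 : (1000 * t - T0) / ((T1 : ℝ) - T0) * ((T1 : ℝ) - T0) = 1000 * t - T0 :=
      div_mul_cancel₀ _ hT.ne'
    generalize (1000 * t - T0) / ((T1 : ℝ) - T0) = θ at h2
    linarith

theorem cert_E (n : ℕ) (h t : ℝ) (M w : ℕ → ℝ) (S : Sq n h t M w) (T0 T1 V : ℤ)
    (hT0 : 40 ≤ T0) (hT01 : T0 < T1) (hT1 : T1 ≤ 200) (hV0 : 80 ≤ V) (hV1 : V ≤ 250)
    (h0 : (T0 : ℝ) / 1000 ≤ t) (h1 : t ≤ (T1 : ℝ) / 1000) (js m1 s m2 : ℕ) (hj : 5 ≤ js)
    (hreg : (T1 ≤ 120 ∧ T0 ≤ 100 ∧ js + m1 ≤ 55) ∨ (T0 ≤ 160 ∧ js + m1 ≤ 50)) (hs : 1 ≤ s)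
    (hs2 : s ≤ 25) (hsum : js + m1 + s + m2 = 100) (hok : okE T0 T1 V js m1 s m2) : False := by
  obtain ⟨θ, hθ0, hθ1, ht⟩ := CS4_theta t T0 T1 hT01 h0 h1
  have hI0 : Inv n M θ js 0 0 := by
    unfold Inv
    have := S.M0 (kj n js)
    simp only [Int.cast_zero, mul_zero, add_zero]
    positivity
  have hI1 := CS4_itE n h t M w S T0 T1 V θ hθ0 hθ1 ht hT0 hT01.le hT1 hV0 hV1 m1 js 0 0 hj
    hreg hI0
  have hI2 := stE_sound n h t M w S T0 T1 V θ hθ0 hθ1 ht hT0 hT01.le hT1 hV0 hV1 (js + m1)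
    (by omega) hreg s hs hs2 _ _ hI1
  have hI3 := CS4_itD n h t M w S T0 T1 θ hθ0 hθ1 ht m2 (js + m1 + s) _ _ (by omega)
    (by omega) hI2
  rw [hsum] at hI3
  exact CS4_end n h t M w S T0 T1 _ _ θ hθ0 hθ1 ht hok.1 hok.2 hI3

theorem cert_D (n : ℕ) (h t : ℝ) (M w : ℕ → ℝ) (S : Sq n h t M w) (T0 T1 : ℤ)
    (hT01 : T0 < T1) (h0 : (T0 : ℝ) / 1000 ≤ t) (h1 : t ≤ (T1 : ℝ) / 1000) (js m2 : ℕ)
    (hj : 5 ≤ js) (hsum : js + m2 = 100) (hok : okD T0 T1 js m2) : False := by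
  obtain ⟨θ, hθ0, hθ1, ht⟩ := CS4_theta t T0 T1 hT01 h0 h1
  have hI0 : Inv n M θ js 0 0 := by
    unfold Inv
    have := S.M0 (kj n js)
    simp only [Int.cast_zero, mul_zero, add_zero]
    positivity
  have hI3 := CS4_itD n h t M w S T0 T1 θ hθ0 hθ1 ht m2 js 0 0 hj (by omega) hI0
  rw [hsum] at hI3
  exact CS4_end n h t M w S T0 T1 _ _ θ hθ0 hθ1 ht hok.1 hok.2 hI3

theorem no_sq (n : ℕ) (h t : ℝ) (M w : ℕ → ℝ) (S : Sq n h t M w) : False := by
  have ht0 : -(1 / 1000 : ℝ) ≤ t := by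
    have h1 := S.t0
    have h2 := S.h1
    norm_num at h2 ⊢
    linarith
  have ht1 := S.t1
  rcases le_total t (20 / 1000) with a | a
  · exact cert_D n h t M w S (-1) 20 (by norm_num) (by push_cast; linarith)
      (by push_cast; linarith) 77 23 (by norm_num) (by norm_num) d1
  rcases le_total t (40 / 1000) with b | b
  · exact cert_D n h t M w S 20 40 (by norm_num) (by push_cast; linarith)
      (by push_cast; linarith) 73 27 (by norm_num) (by norm_num) d2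
  rcases le_total t (50 / 1000) with c | c
  · exact cert_E n h t M w S 40 50 80 (by norm_num) (by norm_num) (by norm_num) (by norm_num)
      (by norm_num) (by push_cast; linarith) (by push_cast; linarith) 49 6 19 26 (by norm_num)
      (by norm_num) (by norm_num) (by norm_num) (by norm_num) e1
  rcases le_total t (60 / 1000) with d | d
  · exact cert_E n h t M w S 50 60 80 (by norm_num) (by norm_num) (by norm_num) (by norm_num)
      (by norm_num) (by push_cast; linarith) (by push_cast; linarith) 45 10 19 26 (by norm_num)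
      (by norm_num) (by norm_num) (by norm_num) (by norm_num) e2
  rcases le_total t (80 / 1000) with e | e
  · exact cert_E n h t M w S 60 80 90 (by norm_num) (by norm_num) (by norm_num) (by norm_num)
      (by norm_num) (by push_cast; linarith) (by push_cast; linarith) 43 12 19 26 (by norm_num)
      (by norm_num) (by norm_num) (by norm_num) (by norm_num) e3
  rcases le_total t (100 / 1000) with f | f
  · exact cert_E n h t M w S 80 100 125 (by norm_num) (by norm_num) (by norm_num) (by norm_num)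
      (by norm_num) (by push_cast; linarith) (by push_cast; linarith) 38 17 19 26 (by norm_num)
      (by norm_num) (by norm_num) (by norm_num) (by norm_num) e4
  rcases le_total t (120 / 1000) with g | g
  · exact cert_E n h t M w S 100 120 150 (by norm_num) (by norm_num) (by norm_num) (by norm_num)
      (by norm_num) (by push_cast; linarith) (by push_cast; linarith) 32 23 20 25 (by norm_num)
      (by norm_num) (by norm_num) (by norm_num) (by norm_num) e5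
  rcases le_total t (160 / 1000) with k | k
  · exact cert_E n h t M w S 120 160 175 (by norm_num) (by norm_num) (by norm_num) (by norm_num)
      (by norm_num) (by push_cast; linarith) (by push_cast; linarith) 26 24 22 28 (by norm_num)
      (by norm_num) (by norm_num) (by norm_num) (by norm_num) e6
  · exact cert_E n h t M w S 160 200 220 (by norm_num) (by norm_num) (by norm_num) (by norm_num)
      (by norm_num) (by push_cast; linarith) (by push_cast; linarith) 14 36 21 29 (by norm_num)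
      (by norm_num) (by norm_num) (by norm_num) (by norm_num) e7

end Pool.Agent.Lib.H42Y
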