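import Mathlib

/-!
# H42Y: `w*_{=n}(ζ) ≥ 4n/5` for large `n` (MP_5a602a_nt)

Definitions (see `PROOF.md`).
-/

open Polynomial

namespace Pool.Agent.Lib.H42Y

/-- The image in `ℝ[X]`. -/
noncomputable def toR (f : ℤ[X]) : ℝ[X] := f.map (Int.castRingHom ℝ)

/-- The image in `ℚ[X]`. -/
noncomputable def toQ (f : ℤ[X]) : ℚ[X] := f.map (Int.castRingHom ℚ)

/-- The largest absolute value of a minor of full size of the family `u` (rows). -/
noncomputable def mx {M : ℕ} {ι : Type} [Fintype ι] [DecidableEq ι] (u : ι → Fin M → ℝ) : ℝ :=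
  ⨆ s : ι → Fin M, |(Matrix.of fun i j : ι => u i (s j)).det|

/-- The Taylor coefficients at `ζ` (the first `M`), the `c`-th multiplied by `t c`. -/
noncomputable def tv (M : ℕ) (ζ : ℝ) (t : ℕ → ℝ) (p : ℝ[X]) : Fin M → ℝ :=
  fun c => t c * (taylor ζ p).coeff c

/-- The largest minor of the weighted Taylor coefficients. -/
noncomputable def wn (M : ℕ) (ζ : ℝ) (t : ℕ → ℝ) {ι : Type} [Fintype ι] [DecidableEq ι]
    (v : ι → ℝ[X]) : ℝ :=
  mx fun i => tv M ζ t (v i)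

/-- The largest Taylor coefficient. -/
noncomputable def nm (M : ℕ) (ζ : ℝ) (p : ℝ[X]) : ℝ := ‖tv M ζ (fun _ => 1) p‖

/-- The weights `Y, Δ, 1, 1, ...`. -/
def w2 (Y Δ : ℝ) : ℕ → ℝ
  | 0 => Y
  | 1 => Δ
  | _ + 2 => 1

/-- The weights `Λ, Y, Δ, 1, 1, ...`. -/
def w3 (Λ Y Δ : ℝ) : ℕ → ℝ
  | 0 => Λ
  | c + 1 => w2 Y Δ c

/-- Multiplication by `X`. -/
noncomputable def mulX : ℚ[X] →ₗ[ℚ] ℚ[X] := LinearMap.mulLeft ℚ (X : ℚ[X])

/-- `V + X V`. -/
noncomputable def up (V : Submodule ℚ ℚ[X]) : Submodule ℚ ℚ[X] := V ⊔ V.map mulX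

/-- The `v ∈ V` with `X v ∈ V`. -/
noncomputable def dn (V : Submodule ℚ ℚ[X]) : Submodule ℚ ℚ[X] := V ⊓ V.comap mulX

/-- The family `v` is a `ℤ`-basis of the integer polynomials in `V`. -/
structure ZB {ι : Type} (V : Submodule ℚ ℚ[X]) (v : ι → ℤ[X]) : Prop where
  ind : LinearIndependent ℚ fun i => toQ (v i)
  span : Submodule.span ℚ (Set.range fun i => toQ (v i)) = V
  int : ∀ f : ℤ[X], toQ f ∈ V → f ∈ Submodule.span ℤ (Set.range v)

open Classical in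
/-- The covolume of the integer points of `V` for the weights `t` at `ζ`. -/
noncomputable def cov (M : ℕ) (ζ : ℝ) (t : ℕ → ℝ) (V : Submodule ℚ ℚ[X]) : ℝ :=
  if h : ∃ v : Fin (Module.finrank ℚ V) → ℤ[X], ZB V v then
    wn M ζ t (fun i => toR (h.choose i)) else 0

/-- The chain of subspaces below `up^[J-1] V` and the space of all polynomials of degree at most `n + J`. -/
structure Chn (n J j1 : ℕ) (V : Submodule ℚ ℚ[X]) (d r : ℕ) (L : ℕ → Submodule ℚ ℚ[X]) :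
    Prop where
  hJ : J ≤ d
  dim : r + 1 + 2 * d = n + J
  full : L (d + 1) = degreeLT ℚ (n + J + 1)
  top : L d = up^[J - 1] V
  mid : L (d + 1 + j1 - J) = up^[j1] V
  up_eq : ∀ i < d, up (L (i + 1)) = L (i + 2)
  dn_eq : ∀ i < d, dn (L (i + 1)) = L i
  rank : ∀ i ≤ d, Module.finrank ℚ (L (i + 1)) = r + 2 + 2 * i
  rank0 : Module.finrank ℚ (L 0) = r
  low : Module.finrank ℚ (up (L 0)) ≤ r + 1
  deg : ∀ i ≤ d + 1, L i ≤ degreeLT ℚ (n + J + 1)

/-- The span of `y 0, ..., y (k-1)`. -/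
noncomputable def Vk (y : ℕ → ℤ[X]) (k : ℕ) : Submodule ℚ ℚ[X] :=
  Submodule.span ℚ ((fun a => toQ (y a)) '' Set.Iio k)

/-- A basis `y 0, ..., y n` whose first two vectors are coprime, `y 1` of degree `n`. -/
structure Frm (n : ℕ) (y : ℕ → ℤ[X]) : Prop where
  deg : ∀ a, (y a).natDegree ≤ n
  ind : LinearIndependent ℚ fun a : Fin (n + 1) => toQ (y a)
  co : IsCoprime (toQ (y 0)) (toQ (y 1))
  top : (y 1).natDegree = n

end Pool.Agent.Lib.H42Y
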