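import Pool.Agent.Lib.H42W.Defs
import Pool.Agent.Lib.H42Y.Defs

/-!
# H42Y: the data at a corner and the inequalities obtained from them

`H70W.height` is the height, `H42W.Sys` the system of `Lib/H42W/Defs.lean`.
-/

open Polynomial

namespace Pool.Agent.Lib.H42Y

/-- The lower bound at a corner. -/
def Low (n : ℕ) (ζ Z B e : ℝ) : Prop :=
  ∀ G : ℤ[X], G ≠ 0 → G.natDegree ≤ n → (H70W.height G : ℝ) ≤ Z ^ (1 - e) →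
    Z ^ (1 - B - e) ≤ |aeval ζ G|

/-- The frame `y` with the exponents `μ`; the vectors `y a`, `a < k`, have small derivatives. -/
structure Dat (n k : ℕ) (ζ Z B δ e : ℝ) (y : ℕ → ℤ[X]) (μ : ℕ → ℝ) : Prop where
  frm : Frm n y
  mono : Monotone μ
  mu0 : μ 0 = 1
  mu1 : μ 1 = 1
  nb : ∀ a < k, ∀ i ≤ n,
    ‖tv (2 * n + 4) ζ (w2 (Z ^ B) (Z ^ δ)) (X ^ i * toR (y a))‖ ≤ Z ^ (μ a + e)

/-- What is known about integer polynomials `D` of height smaller than `Z`. -/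
structure DP (n : ℕ) (ζ Z B Ω e : ℝ) : Prop where
  e2 : ∀ (D : ℤ[X]) (r : ℕ), D ≠ 0 → 1 ≤ r → D.natDegree + r ≤ n + 1 →
    (H70W.height D : ℝ) ≤ Z ^ (1 - e) →
      Z ^ ((r : ℝ) - e) * (H70W.height D : ℝ) ≤
        Z ^ B * |aeval ζ D| * (H70W.height D : ℝ) ^ r
  dd : ∀ D : ℤ[X], D ≠ 0 → D.natDegree ≤ n → (H70W.height D : ℝ) ≤ Z ^ (1 - e) →
    ∀ δ : ℝ, 0 ≤ δ → δ ≤ B - Ω → Z ^ δ * |aeval ζ (derivative D)| ≤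
      Z ^ e * max (H70W.height D : ℝ) (Z ^ (δ + Ω) * |aeval ζ D|)

/-- The key inequalities at the index `k`: `S = μ 0 + ... + μ (k-1)`, `ν = μ (k-1)`, `B - Ω ν = δ`. -/
def KI (n k : ℕ) (B Ω S ν e : ℝ) : Prop :=
  ∃ ρ j1 J : ℕ, k + J + ρ = n + 1 ∧ 1 ≤ J ∧ j1 ≤ J ∧ j1 ≤ ρ ∧ ρ ≤ (k - 2) * J ∧
    B + (B - Ω * ν) ≤ S + 2 * J + ρ * ν + e ∧
    (j1 = J ∨ ∃ (d r : ℕ) (f1 fd : ℝ), J ≤ d ∧ r + 1 + 2 * d = n + J ∧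
      fd ≤ S + 2 * ((J : ℝ) - 1) + ρ * ν + e ∧
      B + (B - Ω * ν) ≤ fd + 2 * ν + e ∧
      ((J : ℝ) - j1 - 1) * f1 + ((d : ℝ) - J + j1) * fd ≤
        ((d : ℝ) - 1) * (S + ρ * ν + 2 * j1) + e ∧
      (B + 2 * (B - Ω * ν) ≤ f1 + fd - r + e ∨
        ∃ η q : ℝ, 1 ≤ r ∧ 0 ≤ η ∧ η ≤ 1 ∧ r * η ≤ q + e ∧ q ≤ B + e ∧
          B + 2 * (B - Ω * ν) + q ≤ f1 + fd - r * (1 - η) + max 0 (q - Ω * (ν - 1)) + e ∧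
          d * (q + r * (1 - η)) + (B + (B - Ω * ν)) ≤ ((d : ℝ) + 1) * f1 + e ∧
          fd ≤ q + ((r : ℝ) + d) * (1 - η) + max 0 (q - Ω * ν) + J + ((d : ℝ) - J) * ν + e))

end Pool.Agent.Lib.H42Y
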