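import Pool.Agent.Lib.H42W.RW
import Pool.Agent.Lib.H42Y.Defs2

/-!
# Chunk DA2 (M)
The frame.

Proof. `H42W.rows n (n+1) 0` (`P, R, b` from the system) gives `y : Fin (n + 1) → ℤ[X]`, independent over `ℝ` (so over `ℚ`), each `y m = X^0 * g` with `g = P`, `g = R` or (`2 ≤ m` and `g = b k`, `k ≤ m`). So `{y 0, y 1} = {P, R}` (independence: `y 0 ≠ y 1`). If `y 1 = P` exchange `y 0` and `y 1`. Extend by `y a = y n` for `a > n`.
`co`: coprime over `ℂ` gives coprime over `ℚ` (`Polynomial.isCoprime_map`, `Int.castRingHom ℂ = (algebraMap ℚ ℂ).comp (Int.castRingHom ℚ)`).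
-/

open Polynomial

namespace Pool.Agent.Lib.H42Y

private theorem DA2_ind (n : ℕ) (y : Fin (n + 1) → ℤ[X])
    (h : LinearIndependent ℝ fun m => (y m).map (Int.castRingHom ℝ)) :
    LinearIndependent ℚ fun m => toQ (y m) := by
  have h1 : LinearIndependent ℚ fun m => (y m).map (Int.castRingHom ℝ) := h.restrict_scalars' ℚ
  refine LinearIndependent.of_comp (Polynomial.mapAlgHom (Algebra.ofId ℚ ℝ)).toLinearMap ?_
  have e : ((Polynomial.mapAlgHom (Algebra.ofId ℚ ℝ)).toLinearMap ∘ fun m => toQ (y m)) =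
      fun m => (y m).map (Int.castRingHom ℝ) := by
    funext m
    simp only [Function.comp_apply, AlgHom.toLinearMap_apply, Polynomial.coe_mapAlgHom, toQ]
    rw [Polynomial.map_map]
    congr 1
  rw [e]
  exact h1

private theorem DA2_main (n : ℕ) (hn : 1 ≤ n) (ζ Z B : ℝ) (P R : ℤ[X]) (b : ℕ → ℤ[X]) (ν : ℕ → ℝ)
    (S : H42W.Sys n ζ Z B P R b ν) (y : Fin (n + 1) → ℤ[X])
    (hli : LinearIndependent ℝ fun m => (y m).map (Int.castRingHom ℝ))
    (hy : ∀ m : Fin (n + 1), y m = P ∨ y m = R ∨ (2 ≤ (m : ℕ) ∧ ∃ k ≤ (m : ℕ), y m = b k))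
    (h0 : y ⟨0, by omega⟩ = P) (h1 : y ⟨1, by omega⟩ = R) :
    ∃ y : ℕ → ℤ[X], Frm n y ∧
      ∀ a, y a = P ∨ y a = R ∨ (2 ≤ a ∧ ∃ j ≤ a, y a = b j) := by
  refine ⟨fun a => y ⟨min a n, by omega⟩, ⟨?_, ?_, ?_, ?_⟩, ?_⟩
  · intro a
    rcases hy ⟨min a n, by omega⟩ with h | h | ⟨_, k, _, h⟩
    · change (y ⟨min a n, by omega⟩).natDegree ≤ n
      rw [h]; exact S.Pd
    · change (y ⟨min a n, by omega⟩).natDegree ≤ n
      rw [h]; exact S.Rd.le
    · change (y ⟨min a n, by omega⟩).natDegree ≤ n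
      rw [h]; exact S.bd k
  · have h2 := DA2_ind n y hli
    have e : (fun a : Fin (n + 1) => toQ (y ⟨min (a : ℕ) n, by omega⟩)) = fun m => toQ (y m) := by
      funext a
      congr 2
      apply Fin.ext
      have := a.isLt
      simp only
      omega
    exact e ▸ h2
  · have e0 : (⟨min 0 n, by omega⟩ : Fin (n + 1)) = ⟨0, by omega⟩ := by
      apply Fin.ext; simp
    have e1 : (⟨min 1 n, by omega⟩ : Fin (n + 1)) = ⟨1, by omega⟩ := by
      apply Fin.ext; simp only; omega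
    change IsCoprime (toQ (y ⟨min 0 n, by omega⟩)) (toQ (y ⟨min 1 n, by omega⟩))
    rw [e0, e1, h0, h1]
    have e : ∀ Q : ℤ[X], Q.map (Int.castRingHom ℂ) = (toQ Q).map (algebraMap ℚ ℂ) := by
      intro Q
      rw [toQ, Polynomial.map_map]
      congr 1
    have hco := S.co
    rw [e P, e R] at hco
    exact (isCoprime_map (algebraMap ℚ ℂ)).1 hco
  · have e1 : (⟨min 1 n, by omega⟩ : Fin (n + 1)) = ⟨1, by omega⟩ := by
      apply Fin.ext; simp only; omega
    change (y ⟨min 1 n, by omega⟩).natDegree = n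
    rw [e1, h1]
    exact S.Rd
  · intro a
    rcases hy ⟨min a n, by omega⟩ with h | h | ⟨h2, k, hk, h⟩
    · exact Or.inl h
    · exact Or.inr (Or.inl h)
    · refine Or.inr (Or.inr ⟨?_, k, ?_, h⟩)
      · simp only at h2
        omega
      · simp only at hk
        omega

theorem exists_frame (n : ℕ) (hn : 1 ≤ n) (ζ Z B : ℝ) (P R : ℤ[X]) (b : ℕ → ℤ[X]) (ν : ℕ → ℝ)
    (S : H42W.Sys n ζ Z B P R b ν) :
    ∃ y : ℕ → ℤ[X], Frm n y ∧
      ∀ a, y a = P ∨ y a = R ∨ (2 ≤ a ∧ ∃ j ≤ a, y a = b j) := by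
  obtain ⟨y, hli, hy⟩ := H42W.rows n (n + 1) 0 hn (by omega) (by omega) P R b S.Pd S.Rd S.co S.bd S.bdet
  have hy' : ∀ m : Fin (n + 1), y m = P ∨ y m = R ∨ (2 ≤ (m : ℕ) ∧ ∃ k ≤ (m : ℕ), y m = b k) := by
    intro m
    obtain ⟨j, hj, g, hyg, hg⟩ := hy m
    have hj0 : j = 0 := by omega
    subst hj0
    rw [pow_zero, one_mul] at hyg
    rw [hyg]
    rcases hg with h | h | ⟨h2, k, hk, h⟩
    · exact Or.inl h
    · exact Or.inr (Or.inl h)
    · exact Or.inr (Or.inr ⟨by omega, k, by omega, h⟩)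
  have hne : y ⟨0, by omega⟩ ≠ y ⟨1, by omega⟩ := by
    intro h
    have h3 : (⟨0, by omega⟩ : Fin (n + 1)) = ⟨1, by omega⟩ := by
      apply hli.injective
      change (y ⟨0, by omega⟩).map _ = (y ⟨1, by omega⟩).map _
      rw [h]
    have := congrArg Fin.val h3
    simp at this
  have h01 : y ⟨0, by omega⟩ = P ∨ y ⟨0, by omega⟩ = R := by
    rcases hy' ⟨0, by omega⟩ with h | h | ⟨h2, _⟩
    · exact Or.inl h
    · exact Or.inr h
    · simp at h2
  have h11 : y ⟨1, by omega⟩ = P ∨ y ⟨1, by omega⟩ = R := by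
    rcases hy' ⟨1, by omega⟩ with h | h | ⟨h2, _⟩
    · exact Or.inl h
    · exact Or.inr h
    · simp at h2
  rcases h01 with h0 | h0 <;> rcases h11 with h1 | h1
  · exact absurd (h0.trans h1.symm) hne
  · exact DA2_main n hn ζ Z B P R b ν S y hli hy' h0 h1
  · have hs0 : Equiv.swap (⟨0, by omega⟩ : Fin (n + 1)) ⟨1, by omega⟩ ⟨0, by omega⟩ = ⟨1, by omega⟩ :=
      Equiv.swap_apply_left _ _
    have hs1 : Equiv.swap (⟨0, by omega⟩ : Fin (n + 1)) ⟨1, by omega⟩ ⟨1, by omega⟩ = ⟨0, by omega⟩ :=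
      Equiv.swap_apply_right _ _
    refine DA2_main n hn ζ Z B P R b ν S (fun m => y (Equiv.swap (⟨0, by omega⟩ : Fin (n + 1)) ⟨1, by omega⟩ m))
      (hli.comp _ (Equiv.injective _)) ?_ ?_ ?_
    · intro m
      by_cases hm0 : m = ⟨0, by omega⟩
      · rw [hm0, hs0]
        exact Or.inl h1
      by_cases hm1 : m = ⟨1, by omega⟩
      · rw [hm1, hs1]
        exact Or.inr (Or.inl h0)
      rw [Equiv.swap_apply_of_ne_of_ne hm0 hm1]
      exact hy' m
    · simp only [hs0]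
      exact h1
    · simp only [hs1]
      exact h0
  · exact absurd (h0.trans h1.symm) hne

end Pool.Agent.Lib.H42Y
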