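import Pool.Agent.Lib.H42Y.TB1

/-!
# Chunk TB4 (S/M)
Norms of the weighted Taylor vectors.

Proof. `taylor_coeff_zero`, `taylor_coeff_one`: the first two coefficients are `p(ζ)` and `p'(ζ)`. The other weights are 1. Taylor coefficients are bounded by the
coefficients and vice versa: `(taylor ζ p).coeff c = ∑_{j ≥ c} binom(j, c) ζ^(j-c) p.coeff j` (`taylor_coeff`, `hasseDeriv`, `eval`), sum over `j < M` when `natDegree p < M`; and
`p = taylor (-ζ) (taylor ζ p)` (`taylor_taylor`) gives the converse; `K = M * 2^M * (max 1 |ζ|)^M`. `pi_norm_le_iff_of_nonneg`, `norm_le_pi_norm`.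
-/

open Polynomial

namespace Pool.Agent.Lib.H42Y

private theorem TB4_bound (M : ℕ) (ζ : ℝ) : ∃ K : ℝ, 1 ≤ K ∧ ∀ (H : ℝ) (p : ℝ[X]), 0 ≤ H →
    p.natDegree < M → (∀ i, |p.coeff i| ≤ H) → ∀ c, |(taylor ζ p).coeff c| ≤ K * H := by
  have hm : (1 : ℝ) ≤ max 1 |ζ| := le_max_left _ _
  have hpow : (1 : ℝ) ≤ (max 1 |ζ|) ^ M := one_le_pow₀ hm
  have h2 : (1 : ℝ) ≤ 2 ^ M := one_le_pow₀ (by norm_num)
  have hM1 : (1 : ℝ) ≤ (M : ℝ) + 1 := by
    have : (0 : ℝ) ≤ (M : ℝ) := Nat.cast_nonneg M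
    linarith
  refine ⟨((M : ℝ) + 1) * (2 ^ M * (max 1 |ζ|) ^ M), ?_, ?_⟩
  · have h3 : (1 : ℝ) ≤ 2 ^ M * (max 1 |ζ|) ^ M := one_le_mul_of_one_le_of_one_le h2 hpow
    exact one_le_mul_of_one_le_of_one_le hM1 h3
  · intro H p hH hd hc c
    rw [taylor_coeff, hasseDeriv_apply, Polynomial.sum_def, eval_finset_sum]
    have hterm : ∀ i ∈ p.support,
        |(monomial (i - c) ((i.choose c : ℝ) * p.coeff i)).eval ζ| ≤
          2 ^ M * (max 1 |ζ|) ^ M * H := by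
      intro i hi
      have hiM : i ≤ M := ((le_natDegree_of_mem_supp i hi).trans_lt hd).le
      rw [eval_monomial, abs_mul, abs_mul, abs_pow]
      have e1 : |(i.choose c : ℝ)| ≤ 2 ^ M := by
        rw [abs_of_nonneg (Nat.cast_nonneg _)]
        have h4 : i.choose c ≤ 2 ^ i := Nat.choose_le_two_pow i c
        have h5 : (i.choose c : ℝ) ≤ 2 ^ i := by exact_mod_cast h4
        exact h5.trans (pow_le_pow_right₀ (by norm_num) hiM)
      have e2 : |ζ| ^ (i - c) ≤ (max 1 |ζ|) ^ M :=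
        (pow_le_pow_left₀ (abs_nonneg ζ) (le_max_right _ _) _).trans
          (pow_le_pow_right₀ hm ((Nat.sub_le _ _).trans hiM))
      calc |(i.choose c : ℝ)| * |p.coeff i| * |ζ| ^ (i - c)
          ≤ 2 ^ M * H * (max 1 |ζ|) ^ M := by
            refine mul_le_mul (mul_le_mul e1 (hc i) (abs_nonneg _) (by positivity)) e2
              (by positivity) (by positivity)
        _ = 2 ^ M * (max 1 |ζ|) ^ M * H := by ring
    have hcard : (p.support.card : ℝ) ≤ (M : ℝ) + 1 := by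
      have h6 : p.support.card ≤ p.natDegree + 1 := card_supp_le_succ_natDegree p
      have h7 : p.support.card ≤ M + 1 := by omega
      exact_mod_cast h7
    calc |∑ i ∈ p.support, (monomial (i - c) ((i.choose c : ℝ) * p.coeff i)).eval ζ|
        ≤ ∑ i ∈ p.support, |(monomial (i - c) ((i.choose c : ℝ) * p.coeff i)).eval ζ| :=
          Finset.abs_sum_le_sum_abs _ _
      _ ≤ ∑ _i ∈ p.support, 2 ^ M * (max 1 |ζ|) ^ M * H := Finset.sum_le_sum hterm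
      _ = (p.support.card : ℝ) * (2 ^ M * (max 1 |ζ|) ^ M * H) := by
          rw [Finset.sum_const, nsmul_eq_mul]
      _ ≤ ((M : ℝ) + 1) * (2 ^ M * (max 1 |ζ|) ^ M * H) :=
          mul_le_mul_of_nonneg_right hcard (by positivity)
      _ = ((M : ℝ) + 1) * (2 ^ M * (max 1 |ζ|) ^ M) * H := by ring

private theorem TB4_apply (M : ℕ) (ζ : ℝ) (t : ℕ → ℝ) (p : ℝ[X]) (c : Fin M) :
    ‖tv M ζ t p c‖ = |t c| * |(taylor ζ p).coeff c| := by
  unfold tv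
  rw [Real.norm_eq_abs, abs_mul]

private theorem TB4_nm_apply (M : ℕ) (ζ : ℝ) (p : ℝ[X]) (c : Fin M) :
    |(taylor ζ p).coeff c| ≤ nm M ζ p := by
  have h := norm_le_pi_norm (tv M ζ (fun _ => 1) p) c
  rw [TB4_apply, abs_one, one_mul] at h
  exact h

private theorem TB4_zero (ζ : ℝ) (p : ℝ[X]) : (taylor ζ p).coeff 0 = p.eval ζ :=
  taylor_coeff_zero ζ p

private theorem TB4_one (ζ : ℝ) (p : ℝ[X]) :
    (taylor ζ p).coeff 1 = (derivative p).eval ζ :=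
  taylor_coeff_one ζ p

private theorem TB4_w2 (M : ℕ) (ζ Y Δ : ℝ) (p : ℝ[X]) (hY : 0 ≤ Y) (hΔ : 0 ≤ Δ) (R : ℝ)
    (hR : ∀ c : Fin M, |(taylor ζ p).coeff c| ≤ R) (hR0 : 0 ≤ R) :
    ‖tv M ζ (w2 Y Δ) p‖ ≤ max (Y * |p.eval ζ|) (max (Δ * |(derivative p).eval ζ|) R) := by
  rw [pi_norm_le_iff_of_nonneg (le_max_of_le_right (le_max_of_le_right hR0))]
  intro c
  rw [TB4_apply]
  rcases c with ⟨c, hc⟩
  rcases c with _ | _ | c
  · refine le_max_of_le_left ?_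
    show |Y| * |(taylor ζ p).coeff 0| ≤ _
    rw [abs_of_nonneg hY, TB4_zero]
  · refine le_max_of_le_right (le_max_of_le_left ?_)
    show |Δ| * |(taylor ζ p).coeff 1| ≤ _
    rw [abs_of_nonneg hΔ, TB4_one]
  · refine le_max_of_le_right (le_max_of_le_right ?_)
    have h := hR ⟨c + 2, hc⟩
    show |(1 : ℝ)| * |(taylor ζ p).coeff (c + 2)| ≤ _
    rw [abs_one, one_mul]
    exact h

theorem tv_le (M : ℕ) (ζ : ℝ) : ∃ K : ℝ, 1 ≤ K ∧ ∀ (Y Δ H : ℝ) (p : ℝ[X]), 0 ≤ Y → 0 ≤ Δ →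
    0 ≤ H → p.natDegree < M → (∀ i, |p.coeff i| ≤ H) →
      ‖tv M ζ (w2 Y Δ) p‖ ≤ max (Y * |p.eval ζ|) (max (Δ * |(derivative p).eval ζ|) (K * H)) ∧
      nm M ζ p ≤ K * H := by
  obtain ⟨K, hK, h⟩ := TB4_bound M ζ
  refine ⟨K, hK, ?_⟩
  intro Y Δ H p hY hΔ hH hd hc
  have hKH : 0 ≤ K * H := mul_nonneg (zero_le_one.trans hK) hH
  have hb := h H p hH hd hc
  refine ⟨TB4_w2 M ζ Y Δ p hY hΔ (K * H) (fun c => hb c) hKH, ?_⟩
  unfold nm
  rw [pi_norm_le_iff_of_nonneg hKH]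
  intro c
  rw [TB4_apply, abs_one, one_mul]
  exact hb c

theorem le_tv (M : ℕ) (hM : 2 ≤ M) (ζ Y Δ : ℝ) (p : ℝ[X]) (hY : 1 ≤ Y) (hΔ : 1 ≤ Δ) :
    Y * |p.eval ζ| ≤ ‖tv M ζ (w2 Y Δ) p‖ ∧ Δ * |(derivative p).eval ζ| ≤ ‖tv M ζ (w2 Y Δ) p‖ ∧
      nm M ζ p ≤ ‖tv M ζ (w2 Y Δ) p‖ ∧ |p.eval ζ| ≤ nm M ζ p ∧
      |(derivative p).eval ζ| ≤ nm M ζ p := by
  have h0 := norm_le_pi_norm (tv M ζ (w2 Y Δ) p) (⟨0, by omega⟩ : Fin M)
  have h1 := norm_le_pi_norm (tv M ζ (w2 Y Δ) p) (⟨1, by omega⟩ : Fin M)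
  rw [TB4_apply] at h0 h1
  have h0' : |Y| * |(taylor ζ p).coeff 0| ≤ ‖tv M ζ (w2 Y Δ) p‖ := h0
  have h1' : |Δ| * |(taylor ζ p).coeff 1| ≤ ‖tv M ζ (w2 Y Δ) p‖ := h1
  rw [abs_of_nonneg (zero_le_one.trans hY), TB4_zero] at h0'
  rw [abs_of_nonneg (zero_le_one.trans hΔ), TB4_one] at h1'
  have g0 := TB4_nm_apply M ζ p (⟨0, by omega⟩ : Fin M)
  have g1 := TB4_nm_apply M ζ p (⟨1, by omega⟩ : Fin M)
  have g0' : |(taylor ζ p).coeff 0| ≤ nm M ζ p := g0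
  have g1' : |(taylor ζ p).coeff 1| ≤ nm M ζ p := g1
  rw [TB4_zero] at g0'
  rw [TB4_one] at g1'
  refine ⟨h0', h1', ?_, g0', g1'⟩
  unfold nm
  rw [pi_norm_le_iff_of_nonneg (norm_nonneg _)]
  intro c
  rw [TB4_apply, abs_one, one_mul]
  have h2 := norm_le_pi_norm (tv M ζ (w2 Y Δ) p) c
  rw [TB4_apply] at h2
  refine le_trans ?_ h2
  have hw : (1 : ℝ) ≤ |w2 Y Δ c| := by
    rcases c with ⟨c, hc⟩
    rcases c with _ | _ | c
    · exact hY.trans (le_abs_self Y)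
    · exact hΔ.trans (le_abs_self Δ)
    · show (1 : ℝ) ≤ |(1 : ℝ)|
      rw [abs_one]
  exact le_mul_of_one_le_left (abs_nonneg _) hw

theorem tv_le_nm (M : ℕ) (ζ Y Δ : ℝ) (p : ℝ[X]) (hY : 0 ≤ Y) (hΔ : 0 ≤ Δ) :
    ‖tv M ζ (w2 Y Δ) p‖ ≤ max (Y * |p.eval ζ|) (max (Δ * |(derivative p).eval ζ|) (nm M ζ p)) := by
  exact TB4_w2 M ζ Y Δ p hY hΔ (nm M ζ p) (TB4_nm_apply M ζ p) (norm_nonneg _)

theorem coeff_le_nm (M : ℕ) (ζ : ℝ) : ∃ K : ℝ, 1 ≤ K ∧ ∀ p : ℝ[X], p.natDegree < M →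
    ∀ i, |p.coeff i| ≤ K * nm M ζ p := by
  obtain ⟨K, hK, h⟩ := TB4_bound M (-ζ)
  refine ⟨K, hK, ?_⟩
  intro p hd i
  have h1 : ∀ c, |(taylor ζ p).coeff c| ≤ nm M ζ p := by
    intro c
    by_cases hc : c < M
    · exact TB4_nm_apply M ζ p ⟨c, hc⟩
    · have h2 : (taylor ζ p).coeff c = 0 := by
        refine coeff_eq_zero_of_natDegree_lt ?_
        rw [natDegree_taylor]
        omega
      rw [h2, abs_zero]
      exact norm_nonneg _
  have h3 := h (nm M ζ p) (taylor ζ p) (norm_nonneg _) (by rw [natDegree_taylor]; exact hd) h1 i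
  have h4 : taylor (-ζ) (taylor ζ p) = p := by
    rw [taylor_taylor, neg_add_cancel, taylor_zero]
  rwa [h4] at h3

theorem nm_pos (M : ℕ) (ζ : ℝ) (p : ℝ[X]) (hp : p ≠ 0) (hd : p.natDegree < M) :
    0 < nm M ζ p := by
  refine lt_of_le_of_ne (norm_nonneg _) fun h => hp ?_
  have h1 : taylor ζ p = 0 := by
    ext c
    rw [coeff_zero]
    by_cases hc : c < M
    · have h2 := TB4_nm_apply M ζ p ⟨c, hc⟩
      rw [← h] at h2
      exact abs_nonpos_iff.1 h2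
    · refine coeff_eq_zero_of_natDegree_lt ?_
      rw [natDegree_taylor]
      omega
  exact taylor_injective ζ (by rw [h1, map_zero])

end Pool.Agent.Lib.H42Y
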