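import Pool.Agent.Lib.H42W.IQ
import Pool.Agent.Lib.H42Y.TB4
import Pool.Agent.Lib.H42Y.Defs2

/-!
# Chunk DA3 (M)
The norms of the vectors `X^i y a` (compare `Lib/H42W/IQ.lean`).

Proof. `e' = e / 4`, `x = mu ν (k-1) ≥ 1`, `δ = B - (1+ω) x ≤ B / 2` (`hB2`). Let `b'` be one of `P, R, b j` (`j ≤ a < k`, so `ν j ≤ mu ν a ≤ x`; for `a ≥ 2`) with exponent `ν' = 1` or `ν j`, `ν' ≤ mu ν a` and `ν' ≤ x`. Height `≤ Z^ν'`, value `≤ Z^(ν'-B)`, and by `H42W.deriv_pair`, `H42W.deriv_all` (with `e'`, `Bmax = 2n+1`; hypotheses `1 + ω ≤ B - e'`,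
`ν' (1+ω) ≤ B - e'` follow from `x (1+ω) ≤ B - e`) `|b'^'(ζ)| ≤ Z^(ν'+e') (Z^(ν'(1+ω)-B) + Z^(-B/2)) ≤ 2 Z^(ν' + e' - δ)`. For `X^i b'`, `i ≤ n`: coefficients at most `Z^ν'`, value `≤ C Z^(ν' - B)`, derivative `|i ζ^(i-1) b'(ζ) + ζ^i b'^'(ζ)| ≤ C Z^(ν' + e' - δ)` (`Z^(-B) ≤ Z^(-δ)`). `tv_le (2n+4)` with `Y = Z^B`, `Δ = Z^δ`, `H = Z^ν'`
(`natDegree ≤ 2 n < 2n+4`): the norm is at most `C' Z^(ν' + e') ≤ Z^(mu ν a + e)` for large `Z`. `eval ζ (toR f) = aeval ζ f`, `derivative (toR f) = toR (derivative f)`.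
-/

open Polynomial

namespace Pool.Agent.Lib.H42Y

private theorem DA3_row (n : ℕ) (ζ : ℝ) (g : ℤ[X]) (j : ℕ) (hj : j ≤ n) (M : ℝ) (hM1 : 1 ≤ M)
    (hM : ∀ k ≤ n, |ζ| ^ k ≤ M) (H v d : ℝ) (hH : 0 ≤ H) (hv0 : 0 ≤ v) (hvd : v ≤ d)
    (hh : (H70W.height g : ℝ) ≤ H) (hv : |aeval ζ g| ≤ H * v)
    (hd : |aeval ζ (derivative g)| ≤ H * (2 * d)) :
    (∀ l, |(((X ^ j * g : ℤ[X]).coeff l : ℤ) : ℝ)| ≤ H) ∧
      |aeval ζ (X ^ j * g : ℤ[X])| ≤ H * (((n : ℝ) + 2) * M * v) ∧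
      |aeval ζ (derivative (X ^ j * g : ℤ[X]))| ≤ H * (((n : ℝ) + 2) * M * d) := by
  have hd0 : 0 ≤ d := le_trans hv0 hvd
  have hn0 : (0 : ℝ) ≤ n := Nat.cast_nonneg n
  refine ⟨?_, ?_, ?_⟩
  · intro l
    rw [Polynomial.coeff_X_pow_mul']
    split_ifs with h
    · exact le_trans (H70W.abs_coeff_le_height g (l - j)) hh
    · simpa using hH
  · have h1 : aeval ζ (X ^ j * g : ℤ[X]) = ζ ^ j * aeval ζ g := by simp
    rw [h1, abs_mul, abs_pow]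
    have h2 : |ζ| ^ j * |aeval ζ g| ≤ M * (H * v) :=
      mul_le_mul (hM j hj) hv (abs_nonneg _) (by linarith)
    have h3 : M * (H * v) ≤ H * (((n : ℝ) + 2) * M * v) := by
      have : 0 ≤ H * v * M := by positivity
      nlinarith
    linarith
  · have h1 : aeval ζ (derivative (X ^ j * g : ℤ[X])) =
        (j : ℝ) * ζ ^ (j - 1) * aeval ζ g + ζ ^ j * aeval ζ (derivative g) := by
      rw [derivative_mul, derivative_X_pow]
      simp
    rw [h1]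
    have hj0 : (0 : ℝ) ≤ j := Nat.cast_nonneg j
    have hjn : (j : ℝ) ≤ n := by exact_mod_cast hj
    have h2 : |(j : ℝ) * ζ ^ (j - 1) * aeval ζ g| ≤ n * M * (H * d) := by
      rw [abs_mul, abs_mul, abs_pow, abs_of_nonneg hj0]
      have h3 : (j : ℝ) * |ζ| ^ (j - 1) ≤ n * M :=
        mul_le_mul hjn (hM (j - 1) (by omega)) (by positivity) hn0
      exact mul_le_mul h3 (le_trans hv (mul_le_mul_of_nonneg_left hvd hH)) (abs_nonneg _)
        (by positivity)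
    have h4 : |ζ ^ j * aeval ζ (derivative g)| ≤ M * (H * (2 * d)) := by
      rw [abs_mul, abs_pow]
      exact mul_le_mul (hM j hj) hd (abs_nonneg _) (by linarith)
    refine le_trans (abs_add_le _ _) ?_
    have h5 : n * M * (H * d) + M * (H * (2 * d)) = H * (((n : ℝ) + 2) * M * d) := by ring
    linarith

private theorem DA3_toR (j : ℕ) (g : ℤ[X]) : (X ^ j * toR g : ℝ[X]) = toR (X ^ j * g) := by
  simp [toR]

private theorem DA3_eval (ζ : ℝ) (f : ℤ[X]) : (toR f).eval ζ = aeval ζ f := by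
  rw [toR, eval_map, aeval_def]
  rfl

private theorem DA3_der (f : ℤ[X]) : derivative (toR f) = toR (derivative f) := by
  rw [toR, toR, derivative_map]

theorem norm_bd (n : ℕ) (hn : 1 ≤ n) (ζ : ℝ) (hζ : Transcendental ℤ ζ) (ω X0 : ℝ) (hω : 0 ≤ ω)
    (hno : H42W.NoStar n ζ ω X0) (e : ℝ) (he : 0 < e) :
    ∃ Z0 : ℝ, ∀ (Z B : ℝ) (P R : ℤ[X]) (b : ℕ → ℤ[X]) (ν : ℕ → ℝ) (k : ℕ), Z0 ≤ Z →
      B ≤ 2 * n + 1 → H42W.Sys n ζ Z B P R b ν → 2 ≤ k → (1 + ω) * H42W.mu ν (k - 1) ≤ B - e →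
      B ≤ 2 * ((1 + ω) * H42W.mu ν (k - 1)) →
      ∀ (a : ℕ) (y : ℤ[X]), a < k → (y = P ∨ y = R ∨ (2 ≤ a ∧ ∃ j ≤ a, y = b j)) →
      ∀ i ≤ n, ‖tv (2 * n + 4) ζ (w2 (Z ^ B) (Z ^ (B - (1 + ω) * H42W.mu ν (k - 1))))
        (X ^ i * toR y)‖ ≤ Z ^ (H42W.mu ν a + e) := by
  have he4 : 0 < e / 4 := by linarith
  obtain ⟨Z1, hZ1⟩ := H42W.deriv_all n hn ζ hζ ω X0 hω hno (e / 4) (2 * n + 1) he4
  obtain ⟨Z2, hZ2⟩ := H42W.deriv_pair n hn ζ hζ ω X0 hω hno (e / 4) (2 * n + 1) he4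
  obtain ⟨K, hK1, hK⟩ := tv_le (2 * n + 4) ζ
  obtain ⟨M, hM⟩ : ∃ M : ℝ, M = (max 1 |ζ|) ^ n := ⟨_, rfl⟩
  have hm1 : 1 ≤ max 1 |ζ| := le_max_left _ _
  have hM1 : 1 ≤ M := by rw [hM]; exact one_le_pow₀ hm1
  have hMk : ∀ k ≤ n, |ζ| ^ k ≤ M := by
    intro k hk
    rw [hM]
    exact le_trans (pow_le_pow_left₀ (abs_nonneg _) (le_max_right _ _) k)
      (pow_le_pow_right₀ hm1 hk)
  obtain ⟨C, hC⟩ : ∃ C : ℝ, C = ((n : ℝ) + 2) * M := ⟨_, rfl⟩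
  have hC0 : 0 < C := by rw [hC]; positivity
  have hlarge := (tendsto_rpow_atTop he4).eventually_ge_atTop (max C K)
  obtain ⟨Z3, hZ3⟩ := Filter.eventually_atTop.mp hlarge
  refine ⟨max (max Z1 Z2) (max Z3 2), ?_⟩
  intro Z B P R b ν k hZ hB S hk hx hB2 a y hak hy i hi
  have hZ1' : Z1 ≤ Z := le_trans (le_trans (le_max_left _ _) (le_max_left _ _)) hZ
  have hZ2' : Z2 ≤ Z := le_trans (le_trans (le_max_right _ _) (le_max_left _ _)) hZ
  have hZ3' : Z3 ≤ Z := le_trans (le_trans (le_max_left _ _) (le_max_right _ _)) hZ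
  have hZ22 : 2 ≤ Z := le_trans (le_trans (le_max_right _ _) (le_max_right _ _)) hZ
  have hZge : 1 ≤ Z := by linarith
  have hZpos : 0 < Z := by linarith
  have hCK := hZ3 Z hZ3'
  have hCZ : C ≤ Z ^ (e / 4) := le_trans (le_max_left _ _) hCK
  have hKZ : K ≤ Z ^ (e / 4) := le_trans (le_max_right _ _) hCK
  obtain ⟨x, hxdef⟩ : ∃ x : ℝ, x = H42W.mu ν (k - 1) := ⟨_, rfl⟩
  have hmu1 : ∀ k, 1 ≤ H42W.mu ν k := by
    intro k
    unfold H42W.mu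
    split_ifs
    · exact le_rfl
    · exact S.one_le k
  have hx1 : 1 ≤ x := by rw [hxdef]; exact hmu1 _
  rw [← hxdef] at hx hB2 ⊢
  have hxω : 0 ≤ ω * x := mul_nonneg hω (by linarith)
  have hBpos : 0 < B := by nlinarith
  obtain ⟨δ, hδ⟩ : ∃ δ : ℝ, δ = B - (1 + ω) * x := ⟨_, rfl⟩
  rw [← hδ]
  have hδ2 : δ ≤ B / 2 := by rw [hδ]; linarith
  obtain ⟨h, hh⟩ : ∃ h : ℝ, h = H42W.mu ν a := ⟨_, rfl⟩
  have hh1 : 1 ≤ h := by rw [hh]; exact hmu1 a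
  rw [← hh]
  have hmono : ∀ {a c : ℝ}, a ≤ c → Z ^ a ≤ Z ^ c :=
    fun hac => Real.rpow_le_rpow_of_exponent_le hZge hac
  have hpair := hZ2 Z B P R hZ2' hB (by nlinarith) S.Pd S.Rd S.sq S.co S.Ph S.Rh S.Pv S.Rv
  have hg : (H70W.height y : ℝ) ≤ Z ^ h ∧ |aeval ζ y| ≤ Z ^ h * Z ^ (-B) ∧
        |aeval ζ (derivative y)| ≤ Z ^ h * (2 * Z ^ (e / 4 - δ)) := by
    have key : ∀ t : ℝ, 1 ≤ t → t ≤ h → t * (1 + ω) ≤ x * (1 + ω) →
        Z ^ (t + e / 4) * (Z ^ (t * (1 + ω) - B) + Z ^ (-B / 2)) ≤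
          Z ^ h * (2 * Z ^ (e / 4 - δ)) := by
      intro t ht1 hth htx
      have e1 : Z ^ (t * (1 + ω) - B) ≤ Z ^ (-δ) := hmono (by rw [hδ]; linarith)
      have e2 : Z ^ (-B / 2) ≤ Z ^ (-δ) := hmono (by linarith)
      have e3 : Z ^ (t + e / 4) ≤ Z ^ (h + e / 4) := hmono (by linarith)
      calc Z ^ (t + e / 4) * (Z ^ (t * (1 + ω) - B) + Z ^ (-B / 2))
          ≤ Z ^ (h + e / 4) * (Z ^ (-δ) + Z ^ (-δ)) :=
            mul_le_mul e3 (add_le_add e1 e2) (by positivity) (by positivity)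
        _ = Z ^ h * (2 * Z ^ (e / 4 - δ)) := by
            rw [Real.rpow_add hZpos, sub_eq_add_neg, Real.rpow_add hZpos]
            ring
    have key2 : ∀ t : ℝ, t ≤ h → Z ^ (t - B) ≤ Z ^ h * Z ^ (-B) := by
      intro t ht
      rw [← Real.rpow_add hZpos]
      exact hmono (by linarith)
    have h1x : (1 : ℝ) * (1 + ω) ≤ x * (1 + ω) :=
      mul_le_mul_of_nonneg_right hx1 (by linarith)
    have hZh : Z ≤ Z ^ h := by
      calc Z = Z ^ (1 : ℝ) := (Real.rpow_one Z).symm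
        _ ≤ Z ^ h := hmono hh1
    have key1 := key 1 le_rfl hh1 h1x
    rw [one_mul] at key1
    rcases hy with rfl | rfl | ⟨ha2, j, hj, rfl⟩
    · exact ⟨le_trans S.Ph hZh, le_trans S.Pv (key2 1 hh1), le_trans hpair.1 key1⟩
    · exact ⟨le_trans S.Rh hZh, le_trans S.Rv (key2 1 hh1), le_trans hpair.2 key1⟩
    · have hhm : h = ν a := by
        rw [hh]
        unfold H42W.mu
        rw [if_neg (by omega)]
      have hkh : ν j ≤ h := by rw [hhm]; exact S.mono hj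
      have hkx : ν j ≤ x := by
        rw [hxdef]
        unfold H42W.mu
        rw [if_neg (by omega)]
        exact S.mono (by omega)
      have hkω : ν j * (1 + ω) ≤ x * (1 + ω) := mul_le_mul_of_nonneg_right hkx (by linarith)
      refine ⟨le_trans (S.bh j) (hmono hkh), le_trans (S.bv j) (key2 _ hkh), ?_⟩
      refine le_trans ?_ (key (ν j) (S.one_le j) hkh hkω)
      exact hZ1 Z B (ν j) P R (b j) hZ1' hB (S.one_le j) (by linarith) S.Pd S.Rd S.sq S.co S.Ph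
        S.Rh S.Pv S.Rv (S.bd j) (S.bh j) (S.bv j)
  have hydeg : y.natDegree ≤ n := by
    rcases hy with rfl | rfl | ⟨_, j, _, rfl⟩
    · exact S.Pd
    · exact S.Rd.le
    · exact S.bd j
  have hvd : Z ^ (-B) ≤ Z ^ (e / 4 - δ) := hmono (by linarith)
  obtain ⟨r1, r2, r3⟩ := DA3_row n ζ y i hi M hM1 hMk (Z ^ h) (Z ^ (-B)) (Z ^ (e / 4 - δ))
    (by positivity) (by positivity) hvd hg.1 hg.2.1 hg.2.2
  rw [← hC] at r2 r3
  rw [DA3_toR]
  have hdeg : (toR (X ^ i * y)).natDegree < 2 * n + 4 := by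
    have h1 : (toR (X ^ i * y)).natDegree ≤ (X ^ i * y).natDegree := natDegree_map_le
    have h2 : (X ^ i * y).natDegree ≤ i + n := by
      refine natDegree_mul_le.trans ?_
      rw [natDegree_X_pow]
      omega
    omega
  have hcoef : ∀ l, |(toR (X ^ i * y)).coeff l| ≤ Z ^ h := by
    intro l
    rw [toR, coeff_map]
    exact r1 l
  refine (hK (Z ^ B) (Z ^ δ) (Z ^ h) (toR (X ^ i * y)) (by positivity) (by positivity)
    (by positivity) hdeg hcoef).1.trans ?_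
  rw [DA3_der, DA3_eval, DA3_eval]
  refine max_le ?_ (max_le ?_ ?_)
  · calc Z ^ B * |aeval ζ (X ^ i * y)| ≤ Z ^ B * (Z ^ h * (C * Z ^ (-B))) :=
          mul_le_mul_of_nonneg_left r2 (by positivity)
      _ = C * Z ^ h * (Z ^ B * Z ^ (-B)) := by ring
      _ = C * Z ^ h := by rw [← Real.rpow_add hZpos, add_neg_cancel, Real.rpow_zero, mul_one]
      _ ≤ Z ^ (e / 4) * Z ^ h := mul_le_mul_of_nonneg_right hCZ (by positivity)
      _ = Z ^ (e / 4 + h) := by rw [← Real.rpow_add hZpos]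
      _ ≤ Z ^ (h + e) := hmono (by linarith)
  · calc Z ^ δ * |aeval ζ (derivative (X ^ i * y))| ≤ Z ^ δ * (Z ^ h * (C * Z ^ (e / 4 - δ))) :=
          mul_le_mul_of_nonneg_left r3 (by positivity)
      _ = C * Z ^ h * (Z ^ δ * Z ^ (e / 4 - δ)) := by ring
      _ = C * Z ^ h * Z ^ (e / 4) := by
          rw [← Real.rpow_add hZpos]
          congr 2
          ring
      _ ≤ Z ^ (e / 4) * Z ^ h * Z ^ (e / 4) := by
          apply mul_le_mul_of_nonneg_right _ (by positivity)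
          exact mul_le_mul_of_nonneg_right hCZ (by positivity)
      _ = Z ^ (e / 4 + h + e / 4) := by rw [← Real.rpow_add hZpos, ← Real.rpow_add hZpos]
      _ ≤ Z ^ (h + e) := hmono (by linarith)
  · calc K * Z ^ h ≤ Z ^ (e / 4) * Z ^ h := mul_le_mul_of_nonneg_right hKZ (by positivity)
      _ = Z ^ (e / 4 + h) := by rw [← Real.rpow_add hZpos]
      _ ≤ Z ^ (h + e) := hmono (by linarith)

end Pool.Agent.Lib.H42Y
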