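import Pool.Agent.Lib.H42W.DV
import Pool.Agent.Lib.H42Y.Defs2

/-!
# Chunk DA4 (M)
Integer polynomials of small height: the value.

Proof. `ε0 = e / (4 (n + 2))`. `H = height D ≥ 1`, `h = log H / log Z ≤ 1 - e`, `α = (1 - h) - 2 ε0 > 0`. If `r = 1` let `a = 1`; if `r ≥ 2`, `H70W.dirichlet (r - 1) ζ` gives `a ∈ ℤ[X]`, `a ≠ 0`, degree `≤ r - 1`, height `≤ Z^α`, `|a(ζ)| ≤ K (Z^α)^(-(r-1))` (`K` the maximum over `r ≤ n + 1`). `a * D ≠ 0` has degree `≤ n`, height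
`≤ (n+1) Z^α H = (n + 1) Z^(1 - 2 ε0) ≤ Z^(1 - ε0)` for large `Z`. `Low` at `ε0`: `Z^(1-B-ε0) ≤ |a(ζ)| |D(ζ)|`, so `Z^B |D(ζ)| ≥ Z^(1 - ε0 + (r-1) α) / K ≥ Z^(1 + (r-1)(1-h) - e)` for large `Z` (`2 r ε0 + small ≤ e`), which is `Z^(r - e) H^(1 - r)`.
-/

open Polynomial Filter

namespace Pool.Agent.Lib.H42Y

private theorem DA4_height_mul (n : ℕ) (a D : ℤ[X]) (ha : a.natDegree < n + 1) :
    (H70W.height (a * D) : ℝ) ≤ (n + 1) * ((H70W.height a : ℝ) * (H70W.height D : ℝ)) := by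
  refine H70W.height_le_of (by positivity) fun i => ?_
  have h1 : (a * D).coeff i =
      ∑ j ∈ Finset.range (n + 1), a.coeff j * ((X : ℤ[X]) ^ j * D).coeff i := by
    conv_lhs => rw [a.as_sum_range_C_mul_X_pow' ha, Finset.sum_mul, finset_sum_coeff]
    refine Finset.sum_congr rfl fun j _ => ?_
    rw [mul_assoc, coeff_C_mul]
  have h2 : ∀ j, |((((X : ℤ[X]) ^ j * D).coeff i : ℤ) : ℝ)| ≤ (H70W.height D : ℝ) := by
    intro j
    rw [coeff_X_pow_mul']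
    split_ifs
    · exact H70W.abs_coeff_le_height D _
    · simp
  rw [h1]
  push_cast
  refine (Finset.abs_sum_le_sum_abs _ _).trans ?_
  have h3 : ∀ j ∈ Finset.range (n + 1),
      |((a.coeff j : ℤ) : ℝ) * ((((X : ℤ[X]) ^ j * D).coeff i : ℤ) : ℝ)| ≤
        (H70W.height a : ℝ) * (H70W.height D : ℝ) := by
    intro j _
    rw [abs_mul]
    exact mul_le_mul (H70W.abs_coeff_le_height a j) (h2 j) (abs_nonneg _) (Nat.cast_nonneg _)
  refine (Finset.sum_le_sum h3).trans (le_of_eq ?_)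
  rw [Finset.sum_const, Finset.card_range, nsmul_eq_mul]
  push_cast
  rfl

private theorem DA4_height_pos {D : ℤ[X]} (hD : D ≠ 0) : (1 : ℝ) ≤ (H70W.height D : ℝ) := by
  have h1 : 1 ≤ H70W.height D := by
    have h2 := H70W.A1_natAbs D D.natDegree
    have h3 : (D.coeff D.natDegree).natAbs ≠ 0 := by
      rw [Int.natAbs_ne_zero]
      exact leadingCoeff_ne_zero.2 hD
    omega
  exact_mod_cast h1

theorem val_low (n : ℕ) (hn : 1 ≤ n) (ζ : ℝ) (e : ℝ) (he : 0 < e) (he1 : e ≤ 1) :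
    ∃ Z0 : ℝ, ∀ Z B : ℝ, Z0 ≤ Z → Low n ζ Z B (e / (4 * (n + 2))) →
      ∀ (D : ℤ[X]) (r : ℕ), D ≠ 0 → 1 ≤ r → D.natDegree + r ≤ n + 1 →
      (H70W.height D : ℝ) ≤ Z ^ (1 - e) →
        Z ^ ((r : ℝ) - e) * (H70W.height D : ℝ) ≤
          Z ^ B * |aeval ζ D| * (H70W.height D : ℝ) ^ r := by
  choose K hK0 hK using fun m : ℕ => H70W.dirichlet m ζ
  obtain ⟨ε, hε⟩ : ∃ ε : ℝ, ε = e / (4 * (n + 2)) := ⟨_, rfl⟩
  have hn0 : (1 : ℝ) ≤ n := by exact_mod_cast hn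
  have hε0 : 0 < ε := by
    rw [hε]
    positivity
  have hε1 : ε * (4 * (n + 2)) = e := by
    rw [hε]
    field_simp
  obtain ⟨Km, hKm⟩ : ∃ Km : ℝ, Km = ∑ m ∈ Finset.range (n + 1), K m := ⟨_, rfl⟩
  have hKle : ∀ m < n + 1, K m ≤ Km := by
    intro m hm
    rw [hKm]
    exact Finset.single_le_sum (f := K) (fun i _ => (hK0 i).le) (Finset.mem_range.2 hm)
  obtain ⟨Z1, hZ1⟩ := eventually_atTop.1
    ((tendsto_rpow_atTop hε0).eventually_ge_atTop ((n : ℝ) + 1))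
  obtain ⟨Z2, hZ2⟩ := eventually_atTop.1
    ((tendsto_rpow_atTop (half_pos he)).eventually_ge_atTop Km)
  refine ⟨max 1 (max Z1 Z2), ?_⟩
  intro Z B hZ hlow D r hD hr hDr hDh
  rw [← hε] at hlow
  have hZge1 : 1 ≤ Z := (le_max_left _ _).trans hZ
  have hZpos : 0 < Z := by linarith
  have hZa : (n : ℝ) + 1 ≤ Z ^ ε :=
    hZ1 Z ((le_max_left _ _).trans ((le_max_right _ _).trans hZ))
  have hZb : Km ≤ Z ^ (e / 2) :=
    hZ2 Z ((le_max_right _ _).trans ((le_max_right _ _).trans hZ))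
  obtain ⟨H, hH⟩ : ∃ H : ℝ, H = (H70W.height D : ℝ) := ⟨_, rfl⟩
  have hH1 : 1 ≤ H := by
    rw [hH]
    exact DA4_height_pos hD
  have hH0 : 0 < H := by linarith
  obtain ⟨m, rfl⟩ : ∃ m, r = m + 1 := ⟨r - 1, by omega⟩
  obtain ⟨x, hx⟩ : ∃ x : ℝ, x = Z ^ (1 - 2 * ε) / H := ⟨_, rfl⟩
  rw [← hH] at hDh ⊢
  have hx1 : 1 ≤ x := by
    rw [hx, le_div_iff₀ hH0, one_mul]
    refine hDh.trans (Real.rpow_le_rpow_of_exponent_le hZge1 ?_)
    nlinarith
  have hx0 : 0 < x := by linarith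
  obtain ⟨a, ha0, had, hah, haζ⟩ := hK m x hx1
  have hG0 : a * D ≠ 0 := mul_ne_zero ha0 hD
  have hGd : (a * D).natDegree ≤ n := by
    refine natDegree_mul_le.trans ?_
    omega
  have hGh : (H70W.height (a * D) : ℝ) ≤ Z ^ (1 - ε) := by
    refine (DA4_height_mul n a D (by omega)).trans ?_
    rw [← hH]
    have h1 : (H70W.height a : ℝ) * H ≤ Z ^ (1 - 2 * ε) := by
      calc (H70W.height a : ℝ) * H ≤ x * H := mul_le_mul_of_nonneg_right hah hH0.le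
        _ = Z ^ (1 - 2 * ε) := by
          rw [hx]
          field_simp
    calc ((n : ℝ) + 1) * ((H70W.height a : ℝ) * H) ≤ Z ^ ε * Z ^ (1 - 2 * ε) :=
          mul_le_mul hZa h1 (by positivity) (by positivity)
      _ = Z ^ (1 - ε) := by
          rw [← Real.rpow_add hZpos]
          congr 1
          ring
  have h2 := hlow (a * D) hG0 hGd hGh
  rw [map_mul, abs_mul] at h2
  have h3 : Z ^ (1 - B - ε) ≤ K m * x ^ (-(m : ℝ)) * |aeval ζ D| :=
    h2.trans (mul_le_mul_of_nonneg_right haζ (abs_nonneg _))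
  have h4 : Z ^ (1 - ε) * x ^ m ≤ K m * (Z ^ B * |aeval ζ D|) := by
    have h5 : Z ^ (1 - ε) = Z ^ B * Z ^ (1 - B - ε) := by
      rw [← Real.rpow_add hZpos]
      congr 1
      ring
    have h6 : x ^ (-(m : ℝ)) * x ^ m = 1 := by
      rw [← Real.rpow_natCast, ← Real.rpow_add hx0, neg_add_cancel, Real.rpow_zero]
    calc Z ^ (1 - ε) * x ^ m = Z ^ B * Z ^ (1 - B - ε) * x ^ m := by rw [h5]
      _ ≤ Z ^ B * (K m * x ^ (-(m : ℝ)) * |aeval ζ D|) * x ^ m := by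
          refine mul_le_mul_of_nonneg_right ?_ (by positivity)
          exact mul_le_mul_of_nonneg_left h3 (by positivity)
      _ = K m * (Z ^ B * |aeval ζ D|) * (x ^ (-(m : ℝ)) * x ^ m) := by ring
      _ = K m * (Z ^ B * |aeval ζ D|) := by rw [h6, mul_one]
  have hxm : x ^ m * H ^ m = Z ^ ((1 - 2 * ε) * m) := by
    rw [← mul_pow, hx, div_mul_cancel₀ _ hH0.ne', ← Real.rpow_natCast, ← Real.rpow_mul hZpos.le]
  have hm1 : m < n + 1 := by omega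
  have hm2 : (m : ℝ) ≤ n := by
    have h7 : m ≤ n := by omega
    exact_mod_cast h7
  have h8 : Z ^ (1 - ε + (1 - 2 * ε) * m) ≤ Z ^ (e / 2) * (Z ^ B * |aeval ζ D| * H ^ m) := by
    calc Z ^ (1 - ε + (1 - 2 * ε) * m) = Z ^ (1 - ε) * x ^ m * H ^ m := by
          rw [Real.rpow_add hZpos, ← hxm]
          ring
      _ ≤ K m * (Z ^ B * |aeval ζ D|) * H ^ m :=
          mul_le_mul_of_nonneg_right h4 (by positivity)
      _ = K m * (Z ^ B * |aeval ζ D| * H ^ m) := by ring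
      _ ≤ Z ^ (e / 2) * (Z ^ B * |aeval ζ D| * H ^ m) :=
          mul_le_mul_of_nonneg_right ((hKle m hm1).trans hZb) (by positivity)
  have h9 : Z ^ (((m + 1 : ℕ) : ℝ) - e) ≤ Z ^ B * |aeval ζ D| * H ^ m := by
    have h10 : 0 < Z ^ (e / 2) := by positivity
    refine le_of_mul_le_mul_left ?_ h10
    refine le_trans ?_ h8
    rw [← Real.rpow_add hZpos]
    refine Real.rpow_le_rpow_of_exponent_le hZge1 ?_
    push_cast
    nlinarith
  calc Z ^ (((m + 1 : ℕ) : ℝ) - e) * H ≤ Z ^ B * |aeval ζ D| * H ^ m * H :=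
        mul_le_mul_of_nonneg_right h9 hH0.le
    _ = Z ^ B * |aeval ζ D| * H ^ (m + 1) := by ring

end Pool.Agent.Lib.H42Y
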