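import Pool.Agent.Lib.H42W.DV
import Pool.Agent.Lib.H42Y.Defs2

/-!
# Chunk DA5 (M)
Integer polynomials of small height: the derivative.

Proof. `ε0 = e / 8`, `H = height D ≥ 1`, `H ≤ Z^(1-e)`, `v = |D(ζ)| ≥ Z^(1-B-ε0)` (`Low` at `e / (4 (n+2)) ≤ ε0`). (a) `v ≥ Z^(-ω - 4 ε0)`: with `C` depending on `n, ζ` only, `|D'(ζ)| ≤ C H`, and `Z^(δ + 1 + ω) v ≥ Z^(δ + 1 - 4 ε0) ≥ Z^(δ - 4ε0) H`, so `Z^δ |D'(ζ)| ≤ C Z^(4 ε0) Z^(δ + Ω) v ≤ Z^e ...`. (b) `v < Z^(-ω - 4 ε0)`: `H42W.dv_good` (with `b = D`) gives `c ≤ n + 1` with `D + c P` coprime to `R`. `m = n + 2`.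
`H42W.pair_deriv` (from `Lib/H42W/DB2.lean`; see its use in `H42W.deriv_all`) with `A = ω + ε1` (`ε1 > 0` small, e.g. `ε1 = ε0`), for the pair `D + c P, R` with height bound `m Z` and value bound `v' = v + (n+1) Z^(1-B) ≤ m Z^(ε0) v`; the hypothesis `v' ≤ (m Z)^(-(ω + ε1))` holds for large `Z` since `v < Z^(-ω-4ε0)`. So
`|(D + cP)'(ζ)| ≤ K ((m Z)^(1+ω) v' + √(m Z v'))`, and `|P'(ζ)|` is bounded in the same way (the pair `P, R` with value bound `v'`). Hence `|D'(ζ)| ≤ Z^(2 ε0) (Z^(1+ω) v + √(Z v))` for large `Z`. With `Ω = 1 + ω`: `Z^δ Z^Ω v` is the second term of the maximum. If `√(Z v) > Z^Ω v` then `v < Z^(1 - 2Ω)`, so `Z^δ √(Z v) < Z^(δ + 1 - Ω) ≤ Z^(B + 1 - 2Ω) ≤ 1 ≤ H`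
(`δ ≤ B - Ω`, `B ≤ 2 Ω - 1`). So `Z^δ |D'(ζ)| ≤ 2 Z^(2ε0) max H (Z^(δ+Ω) v) ≤ Z^e max ..`.
-/

open Polynomial Filter

namespace Pool.Agent.Lib.H42Y

private theorem da5_a {Z ω δ v H Dp e C : ℝ} (hZ : 1 ≤ Z) (he : 0 < e)
    (hC : C ≤ Z ^ e) (hH0 : 0 ≤ H) (hD : Dp ≤ C * H) (hH : H ≤ Z ^ (1 - e))
    (hv : Z ^ (-ω - e / 2) ≤ v) : Z ^ δ * Dp ≤ Z ^ e * max H (Z ^ (δ + (1 + ω)) * v) := by
  have hZ0 : 0 < Z := by linarith
  have h1 : Z ^ δ * Dp ≤ Z ^ (δ + 1) := by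
    have h2 : Dp ≤ Z ^ e * Z ^ (1 - e) := by
      refine hD.trans ?_
      exact mul_le_mul hC hH hH0 (by positivity)
    have h3 : Z ^ (δ + 1) = Z ^ δ * (Z ^ e * Z ^ (1 - e)) := by
      rw [← Real.rpow_add hZ0, ← Real.rpow_add hZ0]
      congr 1
      ring
    rw [h3]
    exact mul_le_mul_of_nonneg_left h2 (by positivity)
  have h4 : Z ^ (δ + 1) ≤ Z ^ e * (Z ^ (δ + (1 + ω)) * Z ^ (-ω - e / 2)) := by
    rw [← Real.rpow_add hZ0, ← Real.rpow_add hZ0]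
    exact Real.rpow_le_rpow_of_exponent_le hZ (by linarith)
  refine h1.trans (h4.trans ?_)
  refine mul_le_mul_of_nonneg_left ?_ (by positivity)
  refine le_max_of_le_right ?_
  exact mul_le_mul_of_nonneg_left hv (by positivity)

private theorem da5_b {Z B ω δ v H Dp e : ℝ} (hZ : 1 ≤ Z)
    (h2 : 2 ≤ Z ^ (e / 2)) (hH : 1 ≤ H) (hv : 0 < v)
    (hD : Dp ≤ Z ^ (e / 2) * (Z ^ (1 + ω) * v + √(Z * v)))
    (hδ : δ ≤ B - (1 + ω)) (hB : B ≤ 2 * (1 + ω) - 1) :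
    Z ^ δ * Dp ≤ Z ^ e * max H (Z ^ (δ + (1 + ω)) * v) := by
  have hZ0 : 0 < Z := by linarith
  set M : ℝ := max H (Z ^ (δ + (1 + ω)) * v) with hM
  have hM0 : 0 ≤ M := le_max_of_le_left (by linarith)
  have h3 : Z ^ δ * (Z ^ (1 + ω) * v) ≤ M := by
    rw [← mul_assoc, ← Real.rpow_add hZ0]
    exact le_max_right _ _
  have h4 : Z ^ δ * √(Z * v) ≤ M := by
    rcases le_total (√(Z * v)) (Z ^ (1 + ω) * v) with h | h
    · exact (mul_le_mul_of_nonneg_left h (by positivity)).trans h3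
    · refine le_max_of_le_left (le_trans ?_ hH)
      have hs : √(Z * v) * √(Z * v) = Z * v := Real.mul_self_sqrt (by positivity)
      have hs0 : 0 < √(Z * v) := Real.sqrt_pos.2 (by positivity)
      have h5 : Z ^ ω * √(Z * v) ≤ 1 := by
        have h6 : Z ^ (1 + ω) * v = Z ^ ω * (Z * v) := by
          rw [Real.rpow_add hZ0, Real.rpow_one]
          ring
        have h7 : Z ^ ω * √(Z * v) * √(Z * v) ≤ √(Z * v) := by
          calc Z ^ ω * √(Z * v) * √(Z * v) = Z ^ ω * (√(Z * v) * √(Z * v)) := by ring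
            _ = Z ^ (1 + ω) * v := by rw [hs, h6]
            _ ≤ √(Z * v) := h
        by_contra hcon
        push Not at hcon
        have h10 : 1 * √(Z * v) < Z ^ ω * √(Z * v) * √(Z * v) :=
          mul_lt_mul_of_pos_right hcon hs0
        linarith
      have h8 : Z ^ δ ≤ Z ^ ω := Real.rpow_le_rpow_of_exponent_le hZ (by linarith)
      exact (mul_le_mul_of_nonneg_right h8 hs0.le).trans h5
  have h9 : Z ^ e = Z ^ (e / 2) * Z ^ (e / 2) := by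
    rw [← Real.rpow_add hZ0]
    congr 1
    ring
  calc Z ^ δ * Dp ≤ Z ^ δ * (Z ^ (e / 2) * (Z ^ (1 + ω) * v + √(Z * v))) :=
        mul_le_mul_of_nonneg_left hD (by positivity)
    _ = Z ^ (e / 2) * (Z ^ δ * (Z ^ (1 + ω) * v) + Z ^ δ * √(Z * v)) := by ring
    _ ≤ Z ^ (e / 2) * (2 * M) := mul_le_mul_of_nonneg_left (by linarith) (by positivity)
    _ ≤ Z ^ (e / 2) * (Z ^ (e / 2) * M) :=
        mul_le_mul_of_nonneg_left (mul_le_mul_of_nonneg_right h2 hM0) (by positivity)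
    _ = Z ^ e * M := by rw [h9]; ring

private theorem da5_v {m Z ω v v' e : ℝ} (hm : 1 ≤ m) (hZ : 1 ≤ Z)
    (hbig : m ^ (1 + (ω + e / 8)) ≤ Z ^ (e / 4)) (hv' : v' ≤ m * (Z ^ (e / 8) * v))
    (hv : v ≤ Z ^ (-ω - e / 2)) : v' ≤ (m * Z) ^ (-(ω + e / 8)) := by
  have hm0 : 0 < m := by linarith
  have hZ0 : 0 < Z := by linarith
  have h1 : (m * Z) ^ (-(ω + e / 8)) = m ^ (-(ω + e / 8)) * Z ^ (-(ω + e / 8)) :=
    Real.mul_rpow hm0.le hZ0.le
  have h2 : m = m ^ (-(ω + e / 8)) * m ^ (1 + (ω + e / 8)) := by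
    rw [← Real.rpow_add hm0]
    have h3 : -(ω + e / 8) + (1 + (ω + e / 8)) = 1 := by ring
    rw [h3, Real.rpow_one]
  have h4 : m * (Z ^ (e / 8) * v) ≤
      (m ^ (-(ω + e / 8)) * Z ^ (e / 4)) * (Z ^ (e / 8) * Z ^ (-ω - e / 2)) := by
    have h5 : m ≤ m ^ (-(ω + e / 8)) * Z ^ (e / 4) := by
      calc m = m ^ (-(ω + e / 8)) * m ^ (1 + (ω + e / 8)) := h2
        _ ≤ _ := mul_le_mul_of_nonneg_left hbig (by positivity)
    have h6 : Z ^ (e / 8) * v ≤ Z ^ (e / 8) * Z ^ (-ω - e / 2) :=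
      mul_le_mul_of_nonneg_left hv (by positivity)
    calc m * (Z ^ (e / 8) * v) ≤ m * (Z ^ (e / 8) * Z ^ (-ω - e / 2)) :=
          mul_le_mul_of_nonneg_left h6 hm0.le
      _ ≤ _ := mul_le_mul_of_nonneg_right h5 (by positivity)
  refine hv'.trans (h4.trans (le_of_eq ?_))
  rw [h1, mul_assoc, ← Real.rpow_add hZ0, ← Real.rpow_add hZ0]
  congr 2
  ring

private theorem da5_E {K m Z ω v v' e : ℝ} (hK : 1 ≤ K) (hm : 1 ≤ m) (hZ : 1 ≤ Z) (hω : 0 ≤ ω)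
    (he : 0 < e) (hv0 : 0 ≤ v)
    (hbig : m * K * (m * m ^ (1 + ω)) ≤ Z ^ (e / 4)) (hv' : v' ≤ m * (Z ^ (e / 8) * v)) :
    m * (K * ((m * Z) ^ (1 + ω) * v' + √(m * Z * v'))) ≤
      Z ^ (e / 2) * (Z ^ (1 + ω) * v + √(Z * v)) := by
  have hm0 : 0 < m := by linarith
  have hZ0 : 0 < Z := by linarith
  have hmω : 1 ≤ m ^ (1 + ω) := Real.one_le_rpow hm (by linarith)
  set u : ℝ := m * m ^ (1 + ω) with hu
  have hu0 : 0 ≤ u := by positivity
  have h1 : (m * Z) ^ (1 + ω) * v' ≤ u * (Z ^ (e / 4) * (Z ^ (1 + ω) * v)) := by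
    have h2 : (m * Z) ^ (1 + ω) = m ^ (1 + ω) * Z ^ (1 + ω) := Real.mul_rpow hm0.le hZ0.le
    have h3 : Z ^ (e / 8) ≤ Z ^ (e / 4) := Real.rpow_le_rpow_of_exponent_le hZ (by linarith)
    calc (m * Z) ^ (1 + ω) * v' ≤ (m * Z) ^ (1 + ω) * (m * (Z ^ (e / 4) * v)) := by
          refine mul_le_mul_of_nonneg_left (hv'.trans ?_) (by positivity)
          exact mul_le_mul_of_nonneg_left (mul_le_mul_of_nonneg_right h3 hv0) hm0.le
      _ = u * (Z ^ (e / 4) * (Z ^ (1 + ω) * v)) := by rw [h2, hu]; ring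
  have h4 : √(m * Z * v') ≤ u * (Z ^ (e / 4) * √(Z * v)) := by
    have h5 : m * Z * v' ≤ (m * Z ^ (e / 4)) ^ 2 * (Z * v) := by
      have h6 : Z ^ (e / 8) ≤ Z ^ (e / 4) * Z ^ (e / 4) := by
        rw [← Real.rpow_add hZ0]
        exact Real.rpow_le_rpow_of_exponent_le hZ (by linarith)
      calc m * Z * v' ≤ m * Z * (m * (Z ^ (e / 4) * Z ^ (e / 4) * v)) := by
            refine mul_le_mul_of_nonneg_left (hv'.trans ?_) (by positivity)
            exact mul_le_mul_of_nonneg_left (mul_le_mul_of_nonneg_right h6 hv0) hm0.le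
        _ = _ := by ring
    have h7 : √(m * Z * v') ≤ m * Z ^ (e / 4) * √(Z * v) := by
      refine (Real.sqrt_le_sqrt h5).trans (le_of_eq ?_)
      rw [Real.sqrt_mul (sq_nonneg _), Real.sqrt_sq (by positivity)]
    refine h7.trans ?_
    rw [mul_assoc]
    refine mul_le_mul_of_nonneg_right ?_ (by positivity)
    exact le_mul_of_one_le_right hm0.le hmω
  have h8 : Z ^ (e / 2) = Z ^ (e / 4) * Z ^ (e / 4) := by
    rw [← Real.rpow_add hZ0]
    congr 1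
    ring
  calc m * (K * ((m * Z) ^ (1 + ω) * v' + √(m * Z * v')))
      ≤ m * (K * (u * (Z ^ (e / 4) * (Z ^ (1 + ω) * v)) + u * (Z ^ (e / 4) * √(Z * v)))) := by
        refine mul_le_mul_of_nonneg_left ?_ hm0.le
        exact mul_le_mul_of_nonneg_left (add_le_add h1 h4) (by linarith)
    _ = (m * K * u) * (Z ^ (e / 4) * (Z ^ (1 + ω) * v + √(Z * v))) := by ring
    _ ≤ Z ^ (e / 4) * (Z ^ (e / 4) * (Z ^ (1 + ω) * v + √(Z * v))) :=
        mul_le_mul_of_nonneg_right hbig (by positivity)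
    _ = _ := by rw [h8]; ring

theorem der_low (n : ℕ) (hn : 1 ≤ n) (ζ : ℝ) (hζ : Transcendental ℤ ζ) (ω X0 : ℝ) (hω : 0 ≤ ω)
    (hno : H42W.NoStar n ζ ω X0) (e : ℝ) (he : 0 < e) (he1 : e ≤ 1) :
    ∃ Z0 : ℝ, ∀ (Z B : ℝ) (P R : ℤ[X]) (b : ℕ → ℤ[X]) (ν : ℕ → ℝ), Z0 ≤ Z →
      B ≤ 2 * (1 + ω) - 1 → 1 + ω ≤ B → H42W.Sys n ζ Z B P R b ν →
      Low n ζ Z B (e / (4 * (n + 2))) →
      ∀ D : ℤ[X], D ≠ 0 → D.natDegree ≤ n → (H70W.height D : ℝ) ≤ Z ^ (1 - e) →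
      ∀ δ : ℝ, 0 ≤ δ → δ ≤ B - (1 + ω) → Z ^ δ * |aeval ζ (derivative D)| ≤
        Z ^ e * max (H70W.height D : ℝ) (Z ^ (δ + (1 + ω)) * |aeval ζ D|) := by
  have hn0 : (0 : ℝ) ≤ n := Nat.cast_nonneg n
  obtain ⟨K, Y0, hK, hY0, hpair⟩ := H42W.pair_deriv n hn ζ hζ ω X0 (ω + e / 8) hω
    (by linarith) hno
  set m : ℝ := (n : ℝ) + 2 with hm
  have hm1 : 1 ≤ m := by
    rw [hm]
    linarith
  obtain ⟨c0, hc0⟩ : ∃ c0 : ℝ, c0 = ((n : ℝ) + 1) ^ 2 * (max 1 |ζ|) ^ n := ⟨_, rfl⟩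
  obtain ⟨Z1, hZ1⟩ := eventually_atTop.1
    ((tendsto_rpow_atTop he).eventually_ge_atTop c0)
  obtain ⟨Z2, hZ2⟩ := eventually_atTop.1
    ((tendsto_rpow_atTop (half_pos he)).eventually_ge_atTop 2)
  have he4 : 0 < e / 4 := by linarith
  obtain ⟨Z3, hZ3⟩ := eventually_atTop.1
    ((tendsto_rpow_atTop he4).eventually_ge_atTop (m ^ (1 + (ω + e / 8))))
  obtain ⟨Z4, hZ4⟩ := eventually_atTop.1
    ((tendsto_rpow_atTop he4).eventually_ge_atTop (m * K * (m * m ^ (1 + ω))))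
  refine ⟨max (max (max Z1 Z2) (max Z3 Z4)) (max Y0 1), ?_⟩
  intro Z B P R b ν hZ hB hB1 hsys hlow D hD0 hDd hDh δ hδ0 hδ
  have hZZ1 : Z1 ≤ Z := (le_max_left _ _).trans ((le_max_left _ _).trans
    ((le_max_left _ _).trans hZ))
  have hZZ2 : Z2 ≤ Z := (le_max_right _ _).trans ((le_max_left _ _).trans
    ((le_max_left _ _).trans hZ))
  have hZZ3 : Z3 ≤ Z := (le_max_left _ _).trans ((le_max_right _ _).trans
    ((le_max_left _ _).trans hZ))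
  have hZZ4 : Z4 ≤ Z := (le_max_right _ _).trans ((le_max_right _ _).trans
    ((le_max_left _ _).trans hZ))
  have hZY : Y0 ≤ Z := (le_max_left _ _).trans ((le_max_right _ _).trans hZ)
  have hZ1' : 1 ≤ Z := (le_max_right _ _).trans ((le_max_right _ _).trans hZ)
  have hZ0 : 0 < Z := by linarith
  have hc1 := hZ1 Z hZZ1
  have hc2 := hZ2 Z hZZ2
  have hc3 := hZ3 Z hZZ3
  have hc4 := hZ4 Z hZZ4
  have hH1 : (1 : ℝ) ≤ (H70W.height D : ℝ) := by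
    obtain ⟨i, hi⟩ : ∃ i, D.coeff i ≠ 0 := by
      by_contra hcon
      push Not at hcon
      exact hD0 (Polynomial.ext fun i => by rw [hcon i, coeff_zero])
    refine le_trans ?_ (H70W.abs_coeff_le_height D i)
    have h1 : (1 : ℤ) ≤ |D.coeff i| := Int.one_le_abs hi
    have h2 : ((1 : ℤ) : ℝ) ≤ ((|D.coeff i| : ℤ) : ℝ) := Int.cast_le.2 h1
    rwa [Int.cast_one, Int.cast_abs] at h2
  set e' : ℝ := e / (4 * ((n : ℝ) + 2)) with he'
  have he'0 : 0 < e' := by positivity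
  have he'1 : e' ≤ e / 8 := by
    rw [he']
    refine div_le_div_of_nonneg_left he.le (by norm_num) ?_
    linarith
  have hv1 : Z ^ (1 - B - e') ≤ |aeval ζ D| := by
    refine hlow D hD0 hDd (hDh.trans ?_)
    exact Real.rpow_le_rpow_of_exponent_le hZ1' (by linarith)
  set v : ℝ := |aeval ζ D| with hv
  have hv0 : 0 < v := lt_of_lt_of_le (by positivity) hv1
  rcases le_total (Z ^ (-ω - e / 2)) v with hcase | hcase
  · refine da5_a hZ1' he hc1 (by linarith) ?_ hDh hcase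
    rw [hc0]
    exact H42W.sp2_deriv_le n ζ hDd (by linarith) (H70W.abs_coeff_le_height D)
  · refine da5_b hZ1' hc2 hH1 hv0 ?_ hδ hB
    obtain ⟨c, hc, hcop⟩ := H42W.dv_good n P R D hn hsys.Rd hsys.co
    have hcR : (c : ℝ) ≤ n + 1 := by exact_mod_cast hc
    have hcR0 : (0 : ℝ) ≤ c := Nat.cast_nonneg c
    have hZB : Z ^ (1 - B) ≤ Z ^ (e / 8) * v := by
      calc Z ^ (1 - B) ≤ Z ^ (e / 8) * Z ^ (1 - B - e') := by
            rw [← Real.rpow_add hZ0]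
            exact Real.rpow_le_rpow_of_exponent_le hZ1' (by linarith)
        _ ≤ _ := mul_le_mul_of_nonneg_left hv1 (by positivity)
    have hvv : v ≤ Z ^ (e / 8) * v :=
      le_mul_of_one_le_left hv0.le (Real.one_le_rpow hZ1' (by linarith))
    have hZB0 : 0 < Z ^ (1 - B) := by positivity
    obtain ⟨v', hv'⟩ : ∃ v' : ℝ, v' = v + (n + 1) * Z ^ (1 - B) := ⟨_, rfl⟩
    have hv'm : v' ≤ m * (Z ^ (e / 8) * v) := by
      have h1 : ((n : ℝ) + 1) * Z ^ (1 - B) ≤ (n + 1) * (Z ^ (e / 8) * v) :=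
        mul_le_mul_of_nonneg_left hZB (by linarith)
      rw [hv', hm]
      linarith
    have hv'A : v' ≤ (m * Z) ^ (-(ω + e / 8)) := da5_v hm1 hZ1' hc3 hv'm hcase
    have hmZ : ∀ {u : ℝ}, 0 ≤ u → u ≤ m * u := fun hu => le_mul_of_one_le_left hu hm1
    have hY : Y0 ≤ m * Z := hZY.trans (hmZ hZ0.le)
    have hDZ : (H70W.height D : ℝ) ≤ Z := by
      refine hDh.trans ?_
      calc Z ^ (1 - e) ≤ Z ^ (1 : ℝ) := Real.rpow_le_rpow_of_exponent_le hZ1' (by linarith)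
        _ = Z := Real.rpow_one Z
    have hZBv : Z ^ (1 - B) ≤ v' := by
      have h1 : 0 ≤ (n : ℝ) * Z ^ (1 - B) := by positivity
      rw [hv']
      linarith
    have hQd : (D + C (c : ℤ) * P).natDegree ≤ n := by
      refine (natDegree_add_le _ _).trans (max_le hDd ?_)
      exact (natDegree_C_mul_le _ _).trans hsys.Pd
    have hQh : (H70W.height (D + C (c : ℤ) * P) : ℝ) ≤ m * Z := by
      refine (H42W.dv_height D P c hDZ hsys.Ph).trans ?_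
      have h1 : (c : ℝ) * Z ≤ (n + 1) * Z := mul_le_mul_of_nonneg_right hcR hZ0.le
      rw [hm]
      linarith
    have hQv : |aeval ζ (D + C (c : ℤ) * P)| ≤ v' := by
      rw [H42W.dv_aeval]
      refine (abs_add_le _ _).trans ?_
      rw [abs_mul, Nat.abs_cast, hv']
      refine add_le_add le_rfl ?_
      exact mul_le_mul hcR hsys.Pv (abs_nonneg _) (by linarith)
    have hRh : (H70W.height R : ℝ) ≤ m * Z := hsys.Rh.trans (hmZ hZ0.le)
    have hRv : |aeval ζ R| ≤ v' := hsys.Rv.trans hZBv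
    have hPh : (H70W.height P : ℝ) ≤ m * Z := hsys.Ph.trans (hmZ hZ0.le)
    have hPv : |aeval ζ P| ≤ v' := hsys.Pv.trans hZBv
    have h1 := (hpair (m * Z) v' _ R hY hv'A hQd hsys.Rd hsys.sq hcop hQh hRh hQv hRv).1
    have h2 := (hpair (m * Z) v' P R hY hv'A hsys.Pd hsys.Rd hsys.sq hsys.co hPh hRh hPv hRv).1
    have hD' : aeval ζ (derivative D) = aeval ζ (derivative (D + C (c : ℤ) * P)) -
        c * aeval ζ (derivative P) := by
      simp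
    set E : ℝ := K * ((m * Z) ^ (1 + ω) * v' + √(m * Z * v')) with hE
    have hE0 : 0 ≤ E := (abs_nonneg _).trans h2
    have h3 : |aeval ζ (derivative D)| ≤ m * E := by
      rw [hD']
      refine (abs_sub _ _).trans ?_
      rw [abs_mul, Nat.abs_cast]
      have h4 : (c : ℝ) * |aeval ζ (derivative P)| ≤ (n + 1) * E :=
        mul_le_mul hcR h2 (abs_nonneg _) (by linarith)
      rw [hm]
      linarith
    refine h3.trans ?_
    rw [hE]
    exact da5_E hK hm1 hZ1' hω he hv0.le hc4 hv'm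

end Pool.Agent.Lib.H42Y
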