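import Pool.Agent.Lib.H42Y.TB4
import Pool.Agent.Lib.H42Y.MA3

/-!
# Chunk XE (S/M)
An upper bound for the covolume of `D, T D, ..., T^a D`.

Proof. `K = M!`. `mx_prod`: `(a+1)! ∏ ‖tv (T^i D)‖` (if `a + 1 > M` the left side is 0, `mx_card`). `‖tv (w2 Y Δ) (T D)‖ ≤ max (Δ |D(ζ)|) (nm D)` and `‖tv (w2 Y Δ) (T^i D)‖ ≤ nm D` for `i ≥ 2`: the `c`-th Taylor coefficient of `T^i D` is the `(c - i)`-th of `D` (0 for `c < i`), and the weights are `Y, Δ, 1, ...`.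
The factor `i = 1` gives `nm D * max 1 (Δ |D(ζ)| / nm D)` (`nm D > 0` as `D ≠ 0`, `D.natDegree < M`).
-/

open Polynomial

namespace Pool.Agent.Lib.H42Y

private theorem xe_coeff (ζ : ℝ) (D : ℝ[X]) (i c : ℕ) :
    (taylor ζ ((X - C ζ) ^ i * D)).coeff c = if i ≤ c then (taylor ζ D).coeff (c - i) else 0 := by
  rw [taylor_mul, taylor_pow, map_sub, taylor_X, taylor_C, add_sub_cancel_right, coeff_X_pow_mul']

private theorem xe_coeff_le (M : ℕ) (ζ : ℝ) (D : ℝ[X]) {c : ℕ} (hc : c < M) :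
    |(taylor ζ D).coeff c| ≤ nm M ζ D := by
  have h := norm_le_pi_norm (tv M ζ (fun _ => 1) D) ⟨c, hc⟩
  have h2 : tv M ζ (fun _ => 1) D ⟨c, hc⟩ = (taylor ζ D).coeff c := one_mul _
  rw [h2, Real.norm_eq_abs] at h
  exact h

private theorem xe_one (M : ℕ) (ζ Y Δ : ℝ) (hΔ : 1 ≤ Δ) (D : ℝ[X]) (hn : 0 < nm M ζ D) :
    ‖tv M ζ (w2 Y Δ) ((X - C ζ) ^ 1 * D)‖ ≤
      nm M ζ D * max 1 (Δ * |D.eval ζ| / nm M ζ D) := by
  have hR : nm M ζ D * max 1 (Δ * |D.eval ζ| / nm M ζ D) = max (nm M ζ D) (Δ * |D.eval ζ|) := by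
    rw [mul_max_of_nonneg _ _ hn.le, mul_one, mul_div_cancel₀ _ hn.ne']
  rw [hR]
  refine (pi_norm_le_iff_of_nonneg (le_trans hn.le (le_max_left _ _))).2 fun c => ?_
  show ‖w2 Y Δ (c : ℕ) * (taylor ζ ((X - C ζ) ^ 1 * D)).coeff (c : ℕ)‖ ≤ _
  rw [xe_coeff, Real.norm_eq_abs]
  rcases hc : (c : ℕ) with _ | _ | k
  · simp only [Nat.le_zero_eq, one_ne_zero, if_false, mul_zero, abs_zero]
    exact le_trans hn.le (le_max_left _ _)
  · simp only [zero_add, le_refl, if_true, Nat.sub_self, taylor_coeff_zero, w2, abs_mul]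
    rw [abs_of_nonneg (zero_le_one.trans hΔ)]
    exact le_max_right _ _
  · have hck : k + 1 < M := by
      have := c.2
      omega
    rw [if_pos (by omega)]
    simp only [w2, one_mul]
    refine le_trans ?_ (le_max_left _ _)
    have e : k + 1 + 1 - 1 = k + 1 := by omega
    rw [e]
    exact xe_coeff_le M ζ D hck

private theorem xe_two (M : ℕ) (ζ Y Δ : ℝ) (D : ℝ[X]) (hn : 0 < nm M ζ D) (i : ℕ) :
    ‖tv M ζ (w2 Y Δ) ((X - C ζ) ^ (i + 2) * D)‖ ≤ nm M ζ D := by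
  refine (pi_norm_le_iff_of_nonneg hn.le).2 fun c => ?_
  show ‖w2 Y Δ (c : ℕ) * (taylor ζ ((X - C ζ) ^ (i + 2) * D)).coeff (c : ℕ)‖ ≤ _
  rw [xe_coeff, Real.norm_eq_abs]
  by_cases h : i + 2 ≤ (c : ℕ)
  · rw [if_pos h]
    obtain ⟨k, hk⟩ : ∃ k, (c : ℕ) = k + 2 := ⟨(c : ℕ) - 2, by omega⟩
    have h2 : w2 Y Δ (c : ℕ) = 1 := by rw [hk]; rfl
    rw [h2, one_mul]
    exact xe_coeff_le M ζ D (lt_of_le_of_lt (Nat.sub_le _ _) c.2)
  · rw [if_neg h, mul_zero, abs_zero]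
    exact hn.le

theorem shifts_upper (M : ℕ) (ζ : ℝ) : ∃ K : ℝ, 1 ≤ K ∧ ∀ (Y Δ : ℝ) (a : ℕ) (D : ℝ[X]), 1 ≤ Y →
    1 ≤ Δ → D ≠ 0 → D.natDegree < M →
      wn M ζ (w2 Y Δ) (fun i : Fin (a + 1) => (X - C ζ) ^ (i : ℕ) * D) ≤
        K * (‖tv M ζ (w2 Y Δ) D‖ * nm M ζ D ^ a * max 1 (Δ * |D.eval ζ| / nm M ζ D)) := by
  refine ⟨(M.factorial : ℝ), by exact_mod_cast Nat.one_le_iff_ne_zero.2 (Nat.factorial_ne_zero M),
    fun Y Δ a D hY hΔ hD hdeg => ?_⟩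
  have hn := nm_pos M ζ D hD hdeg
  obtain ⟨R, hR⟩ : ∃ R : ℝ, R = max 1 (Δ * |D.eval ζ| / nm M ζ D) := ⟨_, rfl⟩
  have hR1 : 1 ≤ R := hR ▸ le_max_left _ _
  rw [← hR]
  have hR0 : 0 ≤ R := zero_le_one.trans hR1
  have hrhs : 0 ≤ ‖tv M ζ (w2 Y Δ) D‖ * nm M ζ D ^ a * R :=
    mul_nonneg (mul_nonneg (norm_nonneg _) (pow_nonneg hn.le _)) hR0
  by_cases haM : M < a + 1
  · rw [wn, mx_card _ (by rw [Fintype.card_fin]; exact haM)]
    exact mul_nonneg (Nat.cast_nonneg _) hrhs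
  · push Not at haM
    obtain ⟨b, hb⟩ : ∃ b : ℕ → ℝ, b = fun i => if i = 0 then ‖tv M ζ (w2 Y Δ) D‖ else
      if i = 1 then nm M ζ D * R else nm M ζ D := ⟨_, rfl⟩
    have hbi : ∀ i : Fin (a + 1), ‖tv M ζ (w2 Y Δ) ((X - C ζ) ^ (i : ℕ) * D)‖ ≤ b (i : ℕ) := by
      intro i
      rcases hi : (i : ℕ) with _ | _ | k
      · rw [pow_zero, one_mul, hb]
        simp
      · rw [hb]
        simp only [zero_add, one_ne_zero, if_false, if_true]
        rw [hR]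
        exact xe_one M ζ Y Δ hΔ D hn
      · rw [hb]
        have e1 : ¬ (k + 1 + 1 = 0) := by omega
        have e2 : ¬ (k + 1 + 1 = 1) := by omega
        simp only [e1, e2, if_false]
        exact xe_two M ζ Y Δ D hn k
    have h1 := mx_prod (fun i : Fin (a + 1) => tv M ζ (w2 Y Δ) ((X - C ζ) ^ (i : ℕ) * D))
      (fun i => b (i : ℕ)) hbi
    rw [Fintype.card_fin] at h1
    have h2 : ∏ i : Fin (a + 1), b (i : ℕ) ≤ ‖tv M ζ (w2 Y Δ) D‖ * nm M ζ D ^ a * R := by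
      rw [Fin.prod_univ_succ, mul_assoc]
      have hb0 : b ((0 : Fin (a + 1)) : ℕ) = ‖tv M ζ (w2 Y Δ) D‖ := by
        rw [hb]
        simp
      rw [hb0]
      refine mul_le_mul_of_nonneg_left ?_ (norm_nonneg _)
      rcases a with _ | a
      · simpa using hR1
      · rw [Fin.prod_univ_succ]
        have e1 : b (((0 : Fin (a + 1)).succ : Fin (a + 2)) : ℕ) = nm M ζ D * R := by
          rw [hb]
          simp
        have e2 : ∀ i : Fin a, b ((i.succ.succ : Fin (a + 2)) : ℕ) = nm M ζ D := by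
          intro i
          rw [hb]
          simp
        rw [e1, Finset.prod_congr rfl fun i _ => e2 i, Finset.prod_const, Finset.card_univ,
          Fintype.card_fin, pow_succ]
        exact le_of_eq (by ring)
    refine h1.trans ?_
    refine mul_le_mul ?_ h2 (Finset.prod_nonneg fun i _ => (norm_nonneg _).trans (hbi i))
      (Nat.cast_nonneg _)
    exact_mod_cast Nat.factorial_le haM

end Pool.Agent.Lib.H42Y
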