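import Pool.Agent.Lib.H42Y.TB1

/-!
# Chunk XS (S/M)
`X^i D` and `(X - ζ)^i D` have the same covolume.

Proof. `X^i = ∑_{j ≤ i} binom(i, j) ζ^(i-j) (X - ζ)^j` (binomial theorem with `X = (X - C ζ) + C ζ`), a lower triangular change with ones on the diagonal; `mx_lin` on `Fin r ⊕ κ` with `Matrix.fromBlocks A 0 0 1`, `det A = 1` (`Matrix.det_of_lowerTriangular`), `tv_sum`.
-/

open Polynomial

namespace Pool.Agent.Lib.H42Y

private theorem XS_binom (ζ : ℝ) (r : ℕ) (D : ℝ[X]) (i : Fin r) :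
    X ^ (i : ℕ) * D = ∑ j : Fin r, C (((i : ℕ).choose (j : ℕ) : ℝ) * ζ ^ ((i : ℕ) - j)) *
      ((X - C ζ) ^ (j : ℕ) * D) := by
  have h1 : (X : ℝ[X]) ^ (i : ℕ) = ∑ m ∈ Finset.range ((i : ℕ) + 1),
      (X - C ζ) ^ m * (C ζ) ^ ((i : ℕ) - m) * ((i : ℕ).choose m : ℝ[X]) := by
    rw [← add_pow, sub_add_cancel]
  have h2 : ∑ j : Fin r, C (((i : ℕ).choose (j : ℕ) : ℝ) * ζ ^ ((i : ℕ) - j)) *
      ((X - C ζ) ^ (j : ℕ) * D) = ∑ m ∈ Finset.range r,
        C (((i : ℕ).choose m : ℝ) * ζ ^ ((i : ℕ) - m)) * ((X - C ζ) ^ m * D) := by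
    rw [Finset.sum_range]
  have h3 : ∑ m ∈ Finset.range r,
        C (((i : ℕ).choose m : ℝ) * ζ ^ ((i : ℕ) - m)) * ((X - C ζ) ^ m * D) =
      ∑ m ∈ Finset.range ((i : ℕ) + 1),
        C (((i : ℕ).choose m : ℝ) * ζ ^ ((i : ℕ) - m)) * ((X - C ζ) ^ m * D) := by
    symm
    refine Finset.sum_subset (Finset.range_subset_range.2 i.2) fun m _ hm => ?_
    rw [Finset.mem_range, not_lt] at hm
    rw [Nat.choose_eq_zero_of_lt (by omega), Nat.cast_zero, zero_mul, C_0, zero_mul]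
  rw [h2, h3, h1, Finset.sum_mul]
  refine Finset.sum_congr rfl fun m _ => ?_
  rw [C_mul, C_pow]
  have h4 : (C (((i : ℕ).choose m : ℕ) : ℝ) : ℝ[X]) = ((i : ℕ).choose m : ℝ[X]) := by
    rw [← C_eq_natCast]
  rw [h4]
  ring

theorem wn_shifts (M : ℕ) (ζ : ℝ) (t : ℕ → ℝ) (r : ℕ) (D : ℝ[X]) {κ : Type} [Fintype κ]
    [DecidableEq κ] (w : κ → ℝ[X]) :
    wn M ζ t (Sum.elim (fun i : Fin r => X ^ (i : ℕ) * D) w) =
      wn M ζ t (Sum.elim (fun i : Fin r => (X - C ζ) ^ (i : ℕ) * D) w) := by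
  classical
  obtain ⟨A, hA⟩ : ∃ A : Matrix (Fin r) (Fin r) ℝ,
      ∀ i j, A i j = ((i : ℕ).choose (j : ℕ) : ℝ) * ζ ^ ((i : ℕ) - j) :=
    ⟨fun i j => ((i : ℕ).choose (j : ℕ) : ℝ) * ζ ^ ((i : ℕ) - j), fun i j => rfl⟩
  have hdet : A.det = 1 := by
    rw [Matrix.det_of_lowerTriangular A (by
      intro i j hij
      have h1 : (i : ℕ) < j := hij
      rw [hA, Nat.choose_eq_zero_of_lt h1, Nat.cast_zero, zero_mul])]
    refine Finset.prod_eq_one fun i _ => ?_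
    rw [hA, Nat.choose_self, Nat.sub_self, pow_zero, Nat.cast_one, mul_one]
  have hdet2 : (Matrix.fromBlocks A 0 0 (1 : Matrix κ κ ℝ)).det = 1 := by
    rw [Matrix.det_fromBlocks_zero₂₁, hdet, Matrix.det_one, mul_one]
  have hfun : (fun s => tv M ζ t (Sum.elim (fun i : Fin r => X ^ (i : ℕ) * D) w s)) =
      fun s => ∑ s', (Matrix.fromBlocks A 0 0 (1 : Matrix κ κ ℝ)) s s' •
        tv M ζ t (Sum.elim (fun i : Fin r => (X - C ζ) ^ (i : ℕ) * D) w s') := by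
    funext s
    rw [Fintype.sum_sum_type]
    rcases s with i | k
    · simp only [Sum.elim_inl, Sum.elim_inr, Matrix.fromBlocks_apply₁₁,
        Matrix.fromBlocks_apply₁₂, Matrix.zero_apply, zero_smul, Finset.sum_const_zero, add_zero]
      rw [XS_binom ζ r D i, tv_sum]
      refine Finset.sum_congr rfl fun j _ => ?_
      rw [hA]
    · simp only [Sum.elim_inl, Sum.elim_inr, Matrix.fromBlocks_apply₂₁,
        Matrix.fromBlocks_apply₂₂, Matrix.zero_apply, zero_smul, Finset.sum_const_zero, zero_add]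
      rw [Finset.sum_eq_single k]
      · rw [Matrix.one_apply_eq, one_smul]
      · intro k' _ hk'
        rw [Matrix.one_apply_ne (Ne.symm hk'), zero_smul]
      · intro h
        exact absurd (Finset.mem_univ k) h
  unfold wn
  rw [hfun, mx_lin, hdet2, abs_one, one_mul]

end Pool.Agent.Lib.H42Y
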