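import Pool.Agent.Lib.H42Y.AS1
import Pool.Agent.Lib.H42Y.XS
import Pool.Agent.Lib.H42Y.XE

/-!
# Chunk FE (M)
The cost of `L d` when `D` is small.

Proof. `a = r + d`. (1) There is `c : ℕ`, `c ≤ n + 1`, with `G = y 0 + c * y 1` of degree exactly `n` and `IsCoprime (toQ G) (toQ D)`: for `c ≠ c'` the polynomials `y 0 + c y 1`, `y 0 + c' y 1` are coprime, so the nonconstant gcds of `D` with them are pairwise coprime divisors of `D`, at most `deg D ≤ n - r ≤ n - 1` values of `c` are bad; and at most one `c` gives degree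
`< n` (`y 1` has degree `n`); there are `n + 2` values of `c` in `[0, n+1]`. (See `H42W.dv_good` in `Lib/H42W/DV.lean`.) (2) The integer family `(X^i D)_{i < a}, (X^i G)_{i < J}` is independent over `ℚ`: `u D + v G = 0` with `deg u < a`, `deg v < J` gives `G ∣ u` (coprime), `deg u ≤ a - 1 = r + d - 1 < n = deg G` (`r + 1 + 2 d = n + J`, `J ≤ d` give
`r + d ≤ n - 1`), so `u = 0 = v`. It lies in `L d = up^[J-1] (Vk y k)` (`iter_mem` for `G ∈ Vk y k`). `finrank (L d) = r + 2 d` (`Chn.rank`: index `d = (d-1) + 1`, `r + 2 + 2 (d-1)`), so `extend_rows` gives `d - J` further elements `X^e * y b`, `b < k`, `e ≤ J - 1 ≤ n`. (3) `cov_le`, `wn_shifts`, `mx_append_le`, `shifts_upper` (with `a - 1`):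
`cov (L d) ≤ K * ‖tv D‖ nm D^(a-1) max 1 (..) * ∏ ‖tv (X^i G)‖ * ∏ ‖tv (X^e y b)‖`, with `‖tv (X^i G)‖ ≤ Z^(1+e) + (n+1) Z^(1+e) = (n + 2) Z^(1 + e)` (`Dat.nb`, `μ 0 = μ 1 = 1`, `tv` additive) and `‖tv (X^e y b)‖ ≤ Z^(μ (k-1) + e)`.
-/

open Polynomial

namespace Pool.Agent.Lib.H42Y

private theorem fe_toQ_mul (p q : ℤ[X]) : toQ (p * q) = toQ p * toQ q := Polynomial.map_mul _

private theorem fe_toR_mul (p q : ℤ[X]) : toR (p * q) = toR p * toR q := Polynomial.map_mul _

private theorem fe_toQ_add (p q : ℤ[X]) : toQ (p + q) = toQ p + toQ q := Polynomial.map_add _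

private theorem fe_toR_add (p q : ℤ[X]) : toR (p + q) = toR p + toR q := Polynomial.map_add _

private theorem fe_toQ_X_pow (i : ℕ) : toQ (X ^ i) = X ^ i := by
  simp [toQ]

private theorem fe_toR_X_pow (i : ℕ) : toR (X ^ i) = X ^ i := by
  simp [toR]

private theorem fe_toQ_C (c : ℕ) : toQ (C (c : ℤ)) = C (c : ℚ) := by
  simp [toQ]

private theorem fe_toR_C (c : ℕ) : toR (C (c : ℤ)) = C (c : ℝ) := by
  simp [toR]

private theorem fe_toQ_ne (D : ℤ[X]) (hD : D ≠ 0) : toQ D ≠ 0 := by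
  rw [toQ, Ne, Polynomial.map_eq_zero_iff (RingHom.injective_int _)]
  exact hD

private theorem fe_toR_ne (D : ℤ[X]) (hD : D ≠ 0) : toR D ≠ 0 := by
  rw [toR, Ne, Polynomial.map_eq_zero_iff (RingHom.injective_int _)]
  exact hD

private theorem fe_toQ_deg (D : ℤ[X]) : (toQ D).natDegree = D.natDegree :=
  natDegree_map_eq_of_injective (RingHom.injective_int _) _

private theorem fe_toR_deg (D : ℤ[X]) : (toR D).natDegree = D.natDegree :=
  natDegree_map_eq_of_injective (RingHom.injective_int _) _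

private theorem fe_good (n : ℕ) (hn : 1 ≤ n) (P R D : ℤ[X]) (hP : P.natDegree ≤ n)
    (hR : R.natDegree = n) (hco : IsCoprime (toQ P) (toQ R)) (hD0 : D ≠ 0)
    (hD : D.natDegree < n) :
    ∃ c : ℕ, c ≤ n + 1 ∧ (P + C (c : ℤ) * R).natDegree = n ∧
      IsCoprime (toQ (P + C (c : ℤ) * R)) (toQ D) := by
  classical
  have hmap : ∀ f : ℤ[X], f.map (Int.castRingHom ℂ) = (toQ f).map (algebraMap ℚ ℂ) := by
    intro f
    rw [toQ, Polynomial.map_map]
    congr 1
  set δ := D.map (Int.castRingHom ℂ) with hδ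
  have hδ0 : δ ≠ 0 := by
    rw [hδ, Ne, Polynomial.map_eq_zero_iff (RingHom.injective_int _)]
    exact hD0
  have hcard : δ.roots.toFinset.card ≤ D.natDegree := by
    refine (Multiset.toFinset_card_le _).trans ((card_roots' δ).trans ?_)
    exact natDegree_map_le
  have hcoC : IsCoprime (P.map (Int.castRingHom ℂ)) (R.map (Int.castRingHom ℂ)) := by
    rw [hmap, hmap]
    exact (isCoprime_map (algebraMap ℚ ℂ)).2 hco
  have hRn0 : R.coeff n ≠ 0 := by
    have h1 : R ≠ 0 := by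
      rintro rfl
      rw [natDegree_zero] at hR
      omega
    rw [← hR]
    exact leadingCoeff_ne_zero.2 h1
  have hdeg : ∀ c : ℕ, (P + C (c : ℤ) * R).natDegree ≤ n := by
    intro c
    refine (natDegree_add_le _ _).trans (max_le hP ?_)
    exact (natDegree_C_mul_le _ _).trans hR.le
  by_contra hcon
  push Not at hcon
  have hex : ∀ c : ℕ, c ≤ n + 1 → (P + C (c : ℤ) * R).natDegree = n → ∃ t : ℂ,
      aeval t ((P + C (c : ℤ) * R).map (Int.castRingHom ℂ)) = 0 ∧ aeval t δ = 0 := by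
    intro c hc hd
    by_contra h
    push Not at h
    apply hcon c hc hd
    rw [← isCoprime_map (algebraMap ℚ ℂ), ← hmap, ← hmap]
    rw [isCoprime_iff_aeval_ne_zero_of_isAlgClosed ℂ ℂ]
    intro t
    by_cases h1 : aeval t ((P + C (c : ℤ) * R).map (Int.castRingHom ℂ)) = 0
    · exact Or.inr (h t h1)
    · exact Or.inl h1
  choose! t ht using hex
  obtain ⟨c, hc, c', hc', hne, heq⟩ := Finset.exists_ne_map_eq_of_card_lt_of_maps_to
    (s := Finset.range (n + 2)) (t := Finset.insertNone δ.roots.toFinset)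
    (f := fun c => if (P + C (c : ℤ) * R).natDegree = n then some (t c) else none) (by
      rw [Finset.card_range, Finset.card_insertNone]
      omega) (by
      intro c hc
      have hc1 : c ≤ n + 1 := by
        have := Finset.mem_range.1 (Finset.mem_coe.1 hc)
        omega
      by_cases hd : (P + C (c : ℤ) * R).natDegree = n
      · simp only [if_pos hd]
        rw [Finset.mem_coe, Finset.some_mem_insertNone, Multiset.mem_toFinset, mem_roots hδ0,
          IsRoot.def, ← coe_aeval_eq_eval]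
        exact (ht c hc1 hd).2
      · simp only [if_neg hd]
        rw [Finset.mem_coe]
        exact Finset.none_mem_insertNone)
  have hc1 : c ≤ n + 1 := by
    have := Finset.mem_range.1 hc
    omega
  have hc1' : c' ≤ n + 1 := by
    have := Finset.mem_range.1 hc'
    omega
  have hcc : ((c : ℤ) - c') ≠ 0 := by
    intro h
    apply hne
    have : (c : ℤ) = c' := by linarith
    exact_mod_cast this
  by_cases hd : (P + C (c : ℤ) * R).natDegree = n
  · by_cases hd' : (P + C (c' : ℤ) * R).natDegree = n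
    · simp only [if_pos hd, if_pos hd', Option.some.injEq] at heq
      have h1 := (ht c hc1 hd).1
      have h2 := (ht c' hc1' hd').1
      rw [← heq] at h2
      have hcast : ∀ k : ℕ, aeval (t c) ((C (k : ℤ)).map (Int.castRingHom ℂ)) = (k : ℂ) := by
        intro k
        rw [Polynomial.map_C, aeval_C]
        simp
      rw [Polynomial.map_add, Polynomial.map_mul, map_add, map_mul, hcast] at h1 h2
      have h3 : ((c : ℂ) - c') * aeval (t c) (R.map (Int.castRingHom ℂ)) = 0 := by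
        linear_combination h1 - h2
      have h4 : ((c : ℂ) - c') ≠ 0 := by
        intro h
        apply hne
        have : (c : ℂ) = c' := sub_eq_zero.1 h
        exact_mod_cast this
      have h5 : aeval (t c) (R.map (Int.castRingHom ℂ)) = 0 := (mul_eq_zero.1 h3).resolve_left h4
      have h6 : aeval (t c) (P.map (Int.castRingHom ℂ)) = 0 := by
        rw [h5, mul_zero, add_zero] at h1
        exact h1
      rcases (isCoprime_iff_aeval_ne_zero_of_isAlgClosed ℂ ℂ _ _).1 hcoC (t c) with h | h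
      · exact h h6
      · exact h h5
    · simp only [if_pos hd, if_neg hd'] at heq
      exact absurd heq (by simp)
  · by_cases hd' : (P + C (c' : ℤ) * R).natDegree = n
    · simp only [if_neg hd, if_pos hd'] at heq
      exact absurd heq (by simp)
    · have hz : ∀ k : ℕ, (P + C (k : ℤ) * R).natDegree ≠ n → P.coeff n + k * R.coeff n = 0 := by
        intro k hk
        by_contra h
        apply hk
        refine le_antisymm (hdeg k) (le_natDegree_of_ne_zero ?_)
        rw [coeff_add, coeff_C_mul]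
        exact h
      have h1 := hz c hd
      have h2 := hz c' hd'
      have h3 : ((c : ℤ) - c') * R.coeff n = 0 := by
        linear_combination h1 - h2
      rcases mul_eq_zero.1 h3 with h | h
      · exact hcc h
      · exact hRn0 h

private theorem fe_range (r : ℕ) (D : ℤ[X]) :
    Submodule.span ℚ (Set.range (fun i : Fin r => toQ (X ^ (i : ℕ) * D))) =
      (degreeLT ℚ r).map (LinearMap.mulLeft ℚ (toQ D)) := by
  classical
  have hset : Set.range (fun i : Fin r => toQ (X ^ (i : ℕ) * D)) =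
      (LinearMap.mulLeft ℚ (toQ D)) '' (((Finset.range r).image fun n => (X : ℚ[X]) ^ n :
        Finset ℚ[X]) : Set ℚ[X]) := by
    ext f
    constructor
    · rintro ⟨i, rfl⟩
      refine ⟨X ^ (i : ℕ), ?_, ?_⟩
      · rw [Finset.mem_coe, Finset.mem_image]
        exact ⟨i, Finset.mem_range.2 i.2, rfl⟩
      · simp only
        rw [LinearMap.mulLeft_apply, fe_toQ_mul, fe_toQ_X_pow]
        exact mul_comm _ _
    · rintro ⟨g, hg, rfl⟩
      rw [Finset.mem_coe, Finset.mem_image] at hg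
      obtain ⟨i, hi, rfl⟩ := hg
      refine ⟨⟨i, Finset.mem_range.1 hi⟩, ?_⟩
      simp only
      rw [LinearMap.mulLeft_apply, fe_toQ_mul, fe_toQ_X_pow]
      exact mul_comm _ _
  rw [hset, ← Submodule.map_span, ← degreeLT_eq_span_X_pow]

private theorem fe_ind (r : ℕ) (D : ℤ[X]) (hD0 : D ≠ 0) :
    LinearIndependent ℚ (fun i : Fin r => toQ (X ^ (i : ℕ) * D)) := by
  have hQ0 := fe_toQ_ne D hD0
  have h1 : LinearIndependent ℚ (fun i : Fin r => (X : ℚ[X]) ^ (i : ℕ)) := by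
    have h2 := (Polynomial.basisMonomials ℚ).linearIndependent.comp (Fin.val : Fin r → ℕ)
      Fin.val_injective
    have h3 : (fun i : Fin r => (X : ℚ[X]) ^ (i : ℕ)) =
        (Polynomial.basisMonomials ℚ) ∘ (Fin.val : Fin r → ℕ) := by
      funext i
      simp [X_pow_eq_monomial]
    rw [h3]
    exact h2
  have h4 := h1.map' (LinearMap.mulLeft ℚ (toQ D)) (by
    rw [LinearMap.ker_eq_bot]
    intro a b hab
    exact mul_left_cancel₀ hQ0 hab)
  have h5 : (fun i : Fin r => toQ (X ^ (i : ℕ) * D)) =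
      (LinearMap.mulLeft ℚ (toQ D)) ∘ (fun i : Fin r => (X : ℚ[X]) ^ (i : ℕ)) := by
    funext i
    rw [Function.comp_apply, LinearMap.mulLeft_apply, fe_toQ_mul, fe_toQ_X_pow]
    exact mul_comm _ _
  rw [h5]
  exact h4

private theorem fe_ind2 (n a J : ℕ) (D G : ℤ[X]) (hD0 : D ≠ 0) (hG0 : G ≠ 0)
    (hG : G.natDegree = n) (ha : a ≤ n) (hco : IsCoprime (toQ G) (toQ D)) :
    LinearIndependent ℚ (Sum.elim (fun i : Fin a => toQ (X ^ (i : ℕ) * D))
      (fun i : Fin J => toQ (X ^ (i : ℕ) * G))) := by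
  refine LinearIndependent.sum_type (fe_ind a D hD0) (fe_ind J G hG0) ?_
  rw [fe_range, fe_range, Submodule.disjoint_def]
  intro f hf hf'
  obtain ⟨u, hu, rfl⟩ := hf
  obtain ⟨v, hv, huv⟩ := hf'
  rw [LinearMap.mulLeft_apply] at huv
  rw [LinearMap.mulLeft_apply] at huv ⊢
  have h1 : toQ G ∣ u := hco.dvd_of_dvd_mul_left ⟨v, huv.symm⟩
  have h2 : u = 0 := by
    by_contra h0
    have h3 := natDegree_le_of_dvd h1 h0
    rw [fe_toQ_deg, hG] at h3
    rw [SetLike.mem_coe, mem_degreeLT] at hu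
    have h4 := (natDegree_lt_iff_degree_lt h0).2 hu
    omega
  rw [h2, mul_zero]

private theorem fe_tv_add (M : ℕ) (ζ : ℝ) (t : ℕ → ℝ) (p q : ℝ[X]) (c : ℝ) :
    tv M ζ t (p + C c * q) = tv M ζ t p + c • tv M ζ t q := by
  funext i
  simp only [tv, map_add, taylor_mul, taylor_C, coeff_add, coeff_C_mul, Pi.add_apply,
    Pi.smul_apply, smul_eq_mul]
  ring

theorem fe (n : ℕ) (hn : 1 ≤ n) (ζ : ℝ) : ∃ K : ℝ, 1 ≤ K ∧ ∀ (k J j1 d r : ℕ) (Z B δ e : ℝ)
    (y : ℕ → ℤ[X]) (μ : ℕ → ℝ) (L : ℕ → Submodule ℚ ℚ[X]) (D : ℤ[X]), 1 ≤ Z → 0 ≤ e → 0 ≤ B →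
    0 ≤ δ → Dat n k ζ Z B δ e y μ → 2 ≤ k → k ≤ n + 1 → 1 ≤ J → J ≤ n → 1 ≤ r →
    Chn n J j1 (Vk y k) d r L → D ≠ 0 → D.natDegree + r ≤ n →
    (∀ i < r + d, X ^ i * toQ D ∈ L d) →
      cov (2 * n + 4) ζ (w2 (Z ^ B) (Z ^ δ)) (L d) ≤
        K * (‖tv (2 * n + 4) ζ (w2 (Z ^ B) (Z ^ δ)) (toR D)‖ *
          nm (2 * n + 4) ζ (toR D) ^ (r + d - 1) *
          max 1 (Z ^ δ * |(toR D).eval ζ| / nm (2 * n + 4) ζ (toR D)) *
          (Z ^ ((1 + e) * J) * Z ^ ((μ (k - 1) + e) * ((d : ℝ) - J)))) := by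
  obtain ⟨Ka, hKa, hap⟩ := mx_append_le (2 * n + 4)
  obtain ⟨Ks, hKs, hsh⟩ := shifts_upper (2 * n + 4) ζ
  have hn2 : (1 : ℝ) ≤ (n : ℝ) + 2 := by
    have : (0 : ℝ) ≤ n := Nat.cast_nonneg n
    linarith
  refine ⟨Ka * Ka * Ks * ((n : ℝ) + 2) ^ n, ?_, ?_⟩
  · have h1 : 1 ≤ ((n : ℝ) + 2) ^ n := one_le_pow₀ hn2
    have h2 : 1 ≤ Ka * Ka := one_le_mul_of_one_le_of_one_le hKa hKa
    have h3 : 1 ≤ Ka * Ka * Ks := one_le_mul_of_one_le_of_one_le h2 hKs
    exact one_le_mul_of_one_le_of_one_le h3 h1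
  intro k J j1 d r Z B δ e y μ L D hZ he hB hδ hdat hk hkn hJ hJn hr hchn hD0 hDr hDL
  have hZ0 : 0 < Z := by linarith
  have hdim := hchn.dim
  have hJd := hchn.hJ
  have hDn : D.natDegree < n := by omega
  obtain ⟨c, hc, hGd, hGco⟩ := fe_good n hn (y 0) (y 1) D (hdat.frm.deg 0) hdat.frm.top
    hdat.frm.co hD0 hDn
  set G := y 0 + C (c : ℤ) * y 1 with hG
  have hG0 : G ≠ 0 := by
    intro h
    rw [h, natDegree_zero] at hGd
    omega
  set M := 2 * n + 4 with hM
  set t := w2 (Z ^ B) (Z ^ δ) with ht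
  -- the family
  obtain ⟨a', ha'⟩ : ∃ a', r + d = a' + 1 := ⟨r + d - 1, by omega⟩
  set V := (up^[J - 1] (Vk y k) : Submodule ℚ ℚ[X]) with hV
  have hLV : L d = V := hchn.top
  have hfin : Module.finrank ℚ V = r + 2 * d := by
    have h1 := hchn.rank (d - 1) (by omega)
    have h2 : d - 1 + 1 = d := by omega
    rw [h2, hLV] at h1
    omega
  have hGV : toQ G ∈ Vk y k := by
    rw [hG, fe_toQ_add, fe_toQ_mul, fe_toQ_C]
    refine Submodule.add_mem _ (Submodule.subset_span ⟨0, ?_, rfl⟩) ?_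
    · rw [Set.mem_Iio]
      omega
    · rw [← smul_eq_C_mul]
      refine Submodule.smul_mem _ _ (Submodule.subset_span ⟨1, ?_, rfl⟩)
      rw [Set.mem_Iio]
      omega
  let X0 : Fin (a' + 1) ⊕ Fin J → ℤ[X] :=
    Sum.elim (fun i : Fin (a' + 1) => X ^ (i : ℕ) * D) (fun i : Fin J => X ^ (i : ℕ) * G)
  let x0 : Fin (a' + 1 + J) → ℤ[X] := fun i => X0 (finSumFinEquiv.symm i)
  have hX0i : LinearIndependent ℚ fun i => toQ (X0 i) := by
    have h1 := fe_ind2 n (a' + 1) J D G hD0 hG0 hGd (by omega) hGco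
    have h2 : (fun i => toQ (X0 i)) = Sum.elim (fun i : Fin (a' + 1) => toQ (X ^ (i : ℕ) * D))
        (fun i : Fin J => toQ (X ^ (i : ℕ) * G)) := by
      funext i
      rcases i with i | i <;> rfl
    rw [h2]
    exact h1
  have hx0i : LinearIndependent ℚ fun i => toQ (x0 i) :=
    hX0i.comp finSumFinEquiv.symm finSumFinEquiv.symm.injective
  have hX0V : ∀ i, toQ (X0 i) ∈ V := by
    intro i
    rcases i with i | i
    · have h1 := hDL i (by omega)
      rw [hLV] at h1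
      have h2 : toQ (X0 (Sum.inl i)) = X ^ (i : ℕ) * toQ D := by
        change toQ (X ^ (i : ℕ) * D) = _
        rw [fe_toQ_mul, fe_toQ_X_pow]
      rw [h2]
      exact h1
    · have h2 : toQ (X0 (Sum.inr i)) = X ^ (i : ℕ) * toQ G := by
        change toQ (X ^ (i : ℕ) * G) = _
        rw [fe_toQ_mul, fe_toQ_X_pow]
      rw [h2]
      exact iter_mem (J - 1) i (by omega) (Vk y k) (toQ G) hGV
  have hx0V : ∀ i, toQ (x0 i) ∈ V := fun i => hX0V _
  obtain ⟨x1, hx1i, hx1⟩ := extend_rows n k (J - 1) y hdat.frm (a' + 1 + J) x0 hx0i hx0V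
  have hVdeg : V ≤ degreeLT ℚ (n + J + 1) := by
    rw [← hLV]
    exact hchn.deg d (by omega)
  have hm1 : Module.finrank ℚ V - (a' + 1 + J) = d - J := by omega
  have hcov : cov M ζ t V ≤ wn M ζ t (fun i => toR (Sum.elim x0 x1 i)) := by
    refine cov_le M ζ t (n + J + 1) V hVdeg (Sum.elim x0 x1) ?_ hx1i ?_
    · intro i
      rcases i with i | i
      · exact hx0V i
      · obtain ⟨e', he', a, ha, hxa⟩ := hx1 i
        rw [Sum.elim_inr, hxa, fe_toQ_mul, fe_toQ_X_pow]
        exact iter_mem (J - 1) e' he' (Vk y k) _ (Submodule.subset_span ⟨a, ha, rfl⟩)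
    · rw [Fintype.card_sum, Fintype.card_fin, Fintype.card_fin]
      have h1 : a' + 1 + J + (Module.finrank ℚ V - (a' + 1 + J)) = Module.finrank ℚ V := by
        omega
      exact h1
  -- first step
  have hβ1 : ∀ i, ‖tv M ζ t (toR (x1 i))‖ ≤ Z ^ (μ (k - 1) + e) := by
    intro i
    obtain ⟨e', he', a, ha, hxa⟩ := hx1 i
    rw [hxa, fe_toR_mul, fe_toR_X_pow]
    refine (hdat.nb a ha e' (by omega)).trans ?_
    refine Real.rpow_le_rpow_of_exponent_le hZ ?_
    have := hdat.mono (show a ≤ k - 1 by omega)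
    linarith
  have hs1 : wn M ζ t (fun i => toR (Sum.elim x0 x1 i)) ≤
      Ka * (mx (fun i => tv M ζ t (toR (x0 i))) *
        Z ^ ((μ (k - 1) + e) * ((d : ℝ) - J))) := by
    have h1 := hap (a' + 1 + J) _ (fun i => tv M ζ t (toR (x0 i)))
      (fun i => tv M ζ t (toR (x1 i))) (fun _ => Z ^ (μ (k - 1) + e)) hβ1
    rw [Finset.prod_const, Finset.card_univ, Fintype.card_fin] at h1
    have h2 : (Z ^ (μ (k - 1) + e)) ^ (Module.finrank ℚ V - (a' + 1 + J)) =
        Z ^ ((μ (k - 1) + e) * ((d : ℝ) - J)) := by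
      rw [hm1, ← Real.rpow_mul_natCast hZ0.le, Nat.cast_sub hJd]
    rw [h2] at h1
    have h3 : wn M ζ t (fun i => toR (Sum.elim x0 x1 i)) =
        mx (Sum.elim (fun i => tv M ζ t (toR (x0 i))) (fun i => tv M ζ t (toR (x1 i)))) := by
      unfold wn
      congr 1
      funext i
      rcases i with i | i <;> rfl
    rw [h3]
    exact h1
  -- second step
  have hβ0 : ∀ i : Fin J, ‖tv M ζ t (toR (X ^ (i : ℕ) * G))‖ ≤ ((n : ℝ) + 2) * Z ^ (1 + e) := by
    intro i
    have h0 := hdat.nb 0 (by omega) i (by omega)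
    have h1 := hdat.nb 1 (by omega) i (by omega)
    rw [hdat.mu0] at h0
    rw [hdat.mu1] at h1
    have h2 : toR (X ^ (i : ℕ) * G) = X ^ (i : ℕ) * toR (y 0) + C (c : ℝ) *
        (X ^ (i : ℕ) * toR (y 1)) := by
      rw [hG, fe_toR_mul, fe_toR_add, fe_toR_mul, fe_toR_X_pow, fe_toR_C]
      ring
    rw [h2, fe_tv_add]
    refine (norm_add_le _ _).trans ?_
    rw [norm_smul, Real.norm_natCast]
    have hcR : (c : ℝ) ≤ n + 1 := by exact_mod_cast hc
    have h3 : (c : ℝ) * ‖tv M ζ t (X ^ (i : ℕ) * toR (y 1))‖ ≤ ((n : ℝ) + 1) * Z ^ (1 + e) :=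
      mul_le_mul hcR h1 (norm_nonneg _) (by positivity)
    linarith
  have hs2 : mx (fun i => tv M ζ t (toR (x0 i))) ≤
      Ka * (wn M ζ t (fun i : Fin (a' + 1) => X ^ (i : ℕ) * toR D) *
        (((n : ℝ) + 2) ^ J * Z ^ ((1 + e) * J))) := by
    have h1 := hap (a' + 1) J (fun i : Fin (a' + 1) => tv M ζ t (X ^ (i : ℕ) * toR D))
      (fun i : Fin J => tv M ζ t (toR (X ^ (i : ℕ) * G)))
      (fun _ => ((n : ℝ) + 2) * Z ^ (1 + e)) hβ0
    rw [Finset.prod_const, Finset.card_univ, Fintype.card_fin, mul_pow] at h1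
    have h2 : (Z ^ (1 + e)) ^ J = Z ^ ((1 + e) * J) := by
      rw [← Real.rpow_mul_natCast hZ0.le]
    rw [h2] at h1
    have h3 : mx (fun i => tv M ζ t (toR (x0 i))) =
        mx (Sum.elim (fun i : Fin (a' + 1) => tv M ζ t (X ^ (i : ℕ) * toR D))
          (fun i : Fin J => tv M ζ t (toR (X ^ (i : ℕ) * G)))) := by
      rw [← mx_reindex (finSumFinEquiv (m := a' + 1) (n := J)).symm]
      congr 1
      funext i
      change tv M ζ t (toR (X0 (finSumFinEquiv.symm i))) = _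
      rcases finSumFinEquiv.symm i with i | i
      · change tv M ζ t (toR (X ^ (i : ℕ) * D)) = tv M ζ t (X ^ (i : ℕ) * toR D)
        rw [fe_toR_mul, fe_toR_X_pow]
      · rfl
    rw [h3]
    exact h1
  -- third step
  have hDR0 := fe_toR_ne D hD0
  have hs3 : wn M ζ t (fun i : Fin (a' + 1) => X ^ (i : ℕ) * toR D) ≤
      Ks * (‖tv M ζ t (toR D)‖ * nm M ζ (toR D) ^ a' *
        max 1 (Z ^ δ * |(toR D).eval ζ| / nm M ζ (toR D))) := by
    have h1 := hsh (Z ^ B) (Z ^ δ) a' (toR D) (Real.one_le_rpow hZ hB) (Real.one_le_rpow hZ hδ)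
      hDR0 (by
        rw [fe_toR_deg]
        omega)
    have h2 : wn M ζ t (fun i : Fin (a' + 1) => X ^ (i : ℕ) * toR D) =
        wn M ζ t (fun i : Fin (a' + 1) => (X - C ζ) ^ (i : ℕ) * toR D) := by
      have h3 := wn_shifts M ζ t (a' + 1) (toR D) (κ := Empty) (fun i => i.elim)
      have h4 : ∀ f : Fin (a' + 1) → ℝ[X], wn M ζ t (Sum.elim f (fun i : Empty => i.elim)) =
          wn M ζ t f := by
        intro f
        unfold wn
        rw [← mx_reindex (Equiv.sumEmpty (Fin (a' + 1)) Empty).symm]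
        rfl
      rw [h4, h4] at h3
      exact h3
    rw [h2]
    exact h1
  rw [hLV]
  refine hcov.trans (hs1.trans ?_)
  have ha'' : r + d - 1 = a' := by omega
  rw [ha'']
  set A := ‖tv M ζ t (toR D)‖ * nm M ζ (toR D) ^ a' *
        max 1 (Z ^ δ * |(toR D).eval ζ| / nm M ζ (toR D)) with hA
  have hnm0 : 0 ≤ nm M ζ (toR D) := norm_nonneg _
  have hA0 : 0 ≤ A := by positivity
  set P1 := Z ^ ((μ (k - 1) + e) * ((d : ℝ) - J)) with hP1
  set P0 := Z ^ ((1 + e) * (J : ℝ)) with hP0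
  have hP1' : 0 ≤ P1 := by positivity
  have hP0' : 0 ≤ P0 := by positivity
  have hKa0 : 0 ≤ Ka := by linarith
  have hKs0 : 0 ≤ Ks := by linarith
  have hpow : ((n : ℝ) + 2) ^ J ≤ ((n : ℝ) + 2) ^ n := pow_le_pow_right₀ hn2 hJn
  calc Ka * (mx (fun i => tv M ζ t (toR (x0 i))) * P1)
      ≤ Ka * ((Ka * ((Ks * A) * (((n : ℝ) + 2) ^ J * P0))) * P1) := by
        refine mul_le_mul_of_nonneg_left (mul_le_mul_of_nonneg_right (hs2.trans ?_) hP1') hKa0
        exact mul_le_mul_of_nonneg_left (mul_le_mul_of_nonneg_right hs3 (by positivity)) hKa0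
    _ = (Ka * Ka * Ks * ((n : ℝ) + 2) ^ J) * (A * (P0 * P1)) := by ring
    _ ≤ (Ka * Ka * Ks * ((n : ℝ) + 2) ^ n) * (A * (P0 * P1)) := by
        refine mul_le_mul_of_nonneg_right ?_ (by positivity)
        exact mul_le_mul_of_nonneg_left hpow (by positivity)

end Pool.Agent.Lib.H42Y
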