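import Pool.Agent.Lib.H42Y.TM2
import Pool.Agent.Lib.H42Y.FE

/-!
# Chunk KY2 (M/L)
The alternatives for the base of the chain.

Proof. `K` is the maximum of the constants of `tm2_zero`, `tm2_pos`, `fe`, `tv_le (2n+4) ζ`, `coeff_le_nm (2n+4) ζ` and their products needed. `Y = Z^B`, `Δ = Z^δ`, `Δ^2 ≤ Y` as `2 δ ≤ B`. All in logarithms to the base `Z`: `lg x = log x / log Z`. `r = 0`: `tm2_zero`.
`r ≥ 1`: `D` from `tm2_pos`; `H = height D ≥ 1` (`D ≠ 0`), `N1 = nm (toR D)`, `H / K ≤ N1 ≤ K H` (`H70W.abs_coeff_le_height`, `tv_le`; `coeff_le_nm`, `H70W.height_le_of`), `h = lg H`, so `|lg N1 - h| ≤ e`; `v = |D(ζ)| > 0` (`ζ` transcendental).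
(A) `H > Z^(1-e)`: `S = ‖tv D‖ / N1` (`≥ 1`, `le_tv`; `Δ |D'(ζ)| ≤ ‖tv D‖`, `Δ^2 v ≤ Y v ≤ ‖tv D‖`): `Y Δ^2 N1^r ≤ K cov (L 1) cov (L d)`: the first alternative: `B + 2δ + r (1 - 2e) ≤ f 1 + f d + e`.
(B) `H ≤ Z^(1-e)`: `η = 1 - h ∈ [e, 1]`, `q = B + lg v - h`. `DP.e2`: `r η ≤ q + e` (`D.natDegree + r ≤ n`). `v ≤ N1 ≤ K H`: `q ≤ B + e`. `DP.dd` (`δ ≤ B - Ω` since `ν ≥ 1`): `Z^δ |D'(ζ)| ≤ Z^e max H (Z^(δ+Ω) v)`. `S = K Z^e max 1 (Z^(δ+Ω) v / H) ≥ 1` satisfies the two hypotheses (`H ≤ K N1`; `Z^(2δ) v ≤ Z^(δ+Ω) v` because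
`δ ≤ Ω`, from `2 δ ≤ B ≤ 2 Ω`), `lg S ≤ 2 e + max 0 (q - Ω (ν - 1))` (`δ + Ω + lg v - h = q - (B - δ - Ω)`, `B - δ = Ω ν`). `tm2_pos`: `B + 2δ + lg ‖tv D‖ + (r-1) lg N1 ≤ e + lg S + f 1 + f d` and `lg ‖tv D‖ ≥ B + lg v = q + h`.
First part of `tm2_pos`: `q + r h - r e ≤ f 0 + e`. `fe`: `f d ≤ e + lg ‖tv D‖ + (r+d-1) lg N1 + max 0 (δ + lg v - lg N1) + (1+e) J + (ν+e)(d - J)`, with `lg ‖tv D‖ ≤ max (q + h) (max (e + h + max 0 (q - Ω(ν-1))) (h + e)) ≤ q + h + 3 e` (`tv_le_nm`, `q ≥ - e`, `ν ≥ 1`) and `δ + lg v - lg N1 ≤ q - Ω ν + e`.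
All error terms are at most `20 (n+2) e` (`r, d, J ≤ n`).
-/

open Polynomial

namespace Pool.Agent.Lib.H42Y

private theorem KY2_cov_nonneg (M : ℕ) (ζ : ℝ) (t : ℕ → ℝ) (V : Submodule ℚ ℚ[X]) : 0 ≤ cov M ζ t V := by
  unfold cov
  split_ifs with h
  · unfold wn mx
    exact Real.iSup_nonneg fun s => abs_nonneg _
  · exact le_rfl

private theorem KY2_eval (D : ℤ[X]) (ζ : ℝ) : (toR D).eval ζ = aeval ζ D := by
  unfold toR
  rw [Polynomial.eval_map, Polynomial.aeval_def]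
  rfl

private theorem KY2_deriv (D : ℤ[X]) (ζ : ℝ) : (derivative (toR D)).eval ζ = aeval ζ (derivative D) := by
  rw [← KY2_eval]
  unfold toR
  rw [Polynomial.derivative_map]

private theorem KY2_Vk {n k : ℕ} {y : ℕ → ℤ[X]} (hy : ∀ a, (y a).natDegree ≤ n) :
    Vk y k ≤ degreeLT ℚ (n + 1) := by
  unfold Vk
  rw [Submodule.span_le]
  rintro p ⟨a, _, rfl⟩
  show toQ (y a) ∈ degreeLT ℚ (n + 1)
  rw [Polynomial.mem_degreeLT]
  refine lt_of_le_of_lt Polynomial.degree_le_natDegree ?_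
  have h1 : (toQ (y a)).natDegree ≤ n := Polynomial.natDegree_map_le.trans (hy a)
  exact_mod_cast Nat.lt_succ_of_le h1

/-- Logarithms to the base `Z`. -/
private theorem KY2_log {Z x : ℝ} (hZ : 1 < Z) (hx : 0 < x) : Z ^ (Real.log x / Real.log Z) = x :=
  Real.rpow_logb (zero_lt_one.trans hZ) hZ.ne' hx

private theorem KY2_pow {Z : ℝ} (hZ : 1 < Z) (a : ℝ) (m : ℕ) : (Z ^ a) ^ m = Z ^ (a * m) :=
  (Real.rpow_mul_natCast (zero_lt_one.trans hZ).le a m).symm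

private theorem KY2_max {Z : ℝ} (hZ : 1 < Z) (a b : ℝ) : max (Z ^ a) (Z ^ b) = Z ^ max a b := by
  rcases le_total a b with h | h
  · rw [max_eq_right h, max_eq_right (Real.rpow_le_rpow_of_exponent_le hZ.le h)]
  · rw [max_eq_left h, max_eq_left (Real.rpow_le_rpow_of_exponent_le hZ.le h)]

/-- The real part of the argument, with all positive quantities written as powers of `Z`. -/
private theorem KY2_real {Z B Ω ν e δ h N w T f0 f1 fd v' K1 K2 K4 : ℝ} {n d r J : ℕ} (hZ : 1 < Z) (he : 0 < e)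
    (hΩ : 0 ≤ Ω) (hν : 1 ≤ ν) (hδ : δ = B - Ω * ν) (hδ0 : 0 ≤ δ) (h2δ : 2 * δ ≤ B)
    (hBΩ : B ≤ 2 * Ω) (hr : 1 ≤ r) (hJd : J ≤ d) (hdim : r + 1 + 2 * d = n + J) (hJn : J ≤ n)
    (hK1 : K1 ≤ Z ^ e) (hK2 : K2 ≤ Z ^ e) (hK4 : K4 ≤ Z ^ e) (hK10 : 1 ≤ K1) (hK20 : 1 ≤ K2) (hK40 : 1 ≤ K4)
    (hh0 : 0 ≤ h) (hNh : N ≤ h + e) (hhN : h ≤ N + e) (hHN : Z ^ h ≤ K4 * Z ^ N)
    (hYv : B + w ≤ T) (hΔv' : Z ^ δ * v' ≤ Z ^ T) (hNT : N ≤ T) (hwN : w ≤ N)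
    (hTup : Z ^ T ≤ max (Z ^ B * Z ^ w) (max (Z ^ δ * v') (Z ^ N)))
    (t1 : Z ^ T * (Z ^ N) ^ (r - 1) ≤ K1 * Z ^ f0)
    (t2 : ∀ S : ℝ, 1 ≤ S → Z ^ δ * v' ≤ S * Z ^ N → (Z ^ δ) ^ 2 * Z ^ w ≤ S * Z ^ N →
        Z ^ B * (Z ^ δ) ^ 2 * (Z ^ T * (Z ^ N) ^ (r - 1)) ≤ K1 * (S * (Z ^ f1 * Z ^ fd)))
    (t3 : Z ^ fd ≤ K2 * (Z ^ T * (Z ^ N) ^ (r + d - 1) * max 1 (Z ^ δ * Z ^ w / Z ^ N) *
      (Z ^ ((1 + e) * J) * Z ^ ((ν + e) * ((d : ℝ) - J)))))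
    (e2 : h ≤ 1 - e → (r : ℝ) - e + h ≤ B + w + h * r)
    (dd : h ≤ 1 - e → Z ^ δ * v' ≤ Z ^ e * max (Z ^ h) (Z ^ (δ + Ω) * Z ^ w)) :
    (B + 2 * δ ≤ f1 + fd - r + 20 * (n + 2) * e ∨
      ∃ η q : ℝ, 1 ≤ r ∧ 0 ≤ η ∧ η ≤ 1 ∧ r * η ≤ q + e ∧ q ≤ B + e ∧
        B + 2 * δ + q ≤
          f1 + fd - r * (1 - η) + max 0 (q - Ω * (ν - 1)) + 20 * (n + 2) * e ∧
        q + r * (1 - η) ≤ f0 + 20 * (n + 2) * e ∧
        fd ≤ q + ((r : ℝ) + d) * (1 - η) + max 0 (q - Ω * ν) + J +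
          ((d : ℝ) - J) * ν + 20 * (n + 2) * e) := by
  have hZ0 : 0 < Z := zero_lt_one.trans hZ
  have P : ∀ a : ℝ, 0 < Z ^ a := fun a => Real.rpow_pos_of_pos hZ0 a
  have A : ∀ a b : ℝ, Z ^ a * Z ^ b = Z ^ (a + b) := fun a b => (Real.rpow_add hZ0 a b).symm
  have I : ∀ a b : ℝ, Z ^ a ≤ Z ^ b ↔ a ≤ b := fun a b => Real.rpow_le_rpow_left_iff hZ
  have hr1 : (1 : ℝ) ≤ r := by exact_mod_cast hr
  have hrc : ((r - 1 : ℕ) : ℝ) = (r : ℝ) - 1 := by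
    rw [Nat.cast_sub hr, Nat.cast_one]
  have hrd : ((r + d - 1 : ℕ) : ℝ) = (r : ℝ) + d - 1 := by
    rw [Nat.cast_sub (by omega), Nat.cast_add, Nat.cast_one]
  have hdimR : (r : ℝ) + 1 + 2 * d = n + J := by exact_mod_cast hdim
  have hJnR : (J : ℝ) ≤ n := by exact_mod_cast hJn
  have hJdR : (J : ℝ) ≤ d := by exact_mod_cast hJd
  have hJ0 : (0 : ℝ) ≤ J := Nat.cast_nonneg J
  have hn0 : (0 : ℝ) ≤ n := Nat.cast_nonneg n
  have hrn : (r : ℝ) ≤ n := by linarith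
  have hd0 : (0 : ℝ) ≤ d := Nat.cast_nonneg d
  have hre : (r : ℝ) * e ≤ n * e := mul_le_mul_of_nonneg_right hrn he.le
  have hne0 : 0 ≤ (n : ℝ) * e := mul_nonneg hn0 he.le
  by_cases hcase : h ≤ 1 - e
  · -- small height
    refine Or.inr ⟨1 - h, B + w - h, hr, by linarith, by linarith, ?_, by linarith, ?_, ?_, ?_⟩
    · have := e2 hcase
      nlinarith
    · -- the main inequality
      have hdd := dd hcase
      rw [A, KY2_max hZ, A] at hdd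
      set s := max h (δ + Ω + w) with hs
      have hsh : h ≤ s := le_max_left _ _
      have hK4' : K4 * Z ^ (e + s - h) ≤ Z ^ (e + (e + s - h)) := by
        rw [← A]
        exact mul_le_mul_of_nonneg_right hK4 (P _).le
      have q1 : (1 : ℝ) ≤ K4 * Z ^ (e + s - h) := by
        have h1 : (1 : ℝ) ≤ Z ^ (e + s - h) := Real.one_le_rpow hZ.le (by linarith)
        calc (1 : ℝ) = 1 * 1 := (one_mul 1).symm
          _ ≤ K4 * Z ^ (e + s - h) := mul_le_mul hK40 h1 zero_le_one (zero_le_one.trans hK40)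
      have q2 : Z ^ (e + s) ≤ K4 * Z ^ (e + s - h) * Z ^ N := by
        calc Z ^ (e + s) = Z ^ (e + s - h) * Z ^ h := by rw [A]; congr 1; ring
          _ ≤ Z ^ (e + s - h) * (K4 * Z ^ N) := mul_le_mul_of_nonneg_left hHN (P _).le
          _ = K4 * Z ^ (e + s - h) * Z ^ N := by ring
      have q3 : (Z ^ δ) ^ 2 * Z ^ w ≤ Z ^ (e + s) := by
        rw [KY2_pow hZ, A, I]
        have h1 : δ + Ω + w ≤ s := le_max_right _ _
        push_cast
        linarith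
      have h2 := t2 (K4 * Z ^ (e + s - h)) q1 (hdd.trans q2) (q3.trans q2)
      have h3 : K1 * (K4 * Z ^ (e + s - h) * (Z ^ f1 * Z ^ fd)) ≤
          Z ^ e * (Z ^ (e + (e + s - h)) * (Z ^ f1 * Z ^ fd)) := by
        have p1 : 0 ≤ Z ^ f1 * Z ^ fd := (mul_pos (P _) (P _)).le
        have p2 : K4 * Z ^ (e + s - h) * (Z ^ f1 * Z ^ fd) ≤ Z ^ (e + (e + s - h)) * (Z ^ f1 * Z ^ fd) :=
          mul_le_mul_of_nonneg_right hK4' p1
        refine mul_le_mul hK1 p2 ?_ (P _).le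
        exact mul_nonneg (zero_le_one.trans q1) p1
      have h4 := h2.trans h3
      rw [KY2_pow hZ, KY2_pow hZ, A, A, A, A, A, A, I, hrc] at h4
      push_cast at h4
      have h5 : s - h ≤ max 0 (B + w - h - Ω * (ν - 1)) := by
        rw [hs]
        rcases le_total h (δ + Ω + w) with h6 | h6
        · rw [max_eq_right h6]
          refine le_trans (le_of_eq ?_) (le_max_right _ _)
          rw [hδ]
          ring
        · rw [max_eq_left h6, sub_self]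
          exact le_max_left _ _
      have h6 : (h - e) * ((r : ℝ) - 1) ≤ N * ((r : ℝ) - 1) :=
        mul_le_mul_of_nonneg_right (by linarith) (by linarith)
      nlinarith
    · -- the second inequality
      have h3 : K1 * Z ^ f0 ≤ Z ^ e * Z ^ f0 := mul_le_mul_of_nonneg_right hK1 (P _).le
      have h4 := t1.trans h3
      rw [KY2_pow hZ, A, A, I, hrc] at h4
      have h6 : (h - e) * ((r : ℝ) - 1) ≤ N * ((r : ℝ) - 1) :=
        mul_le_mul_of_nonneg_right (by linarith) (by linarith)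
      nlinarith
    · -- the cost
      have hq : -e ≤ B + w - h := by
        have := e2 hcase
        have h1 : 0 ≤ (r : ℝ) * (1 - h) := mul_nonneg (by linarith) (by linarith)
        nlinarith
      have hT : T ≤ B + w + 2 * e := by
        have hdd := dd hcase
        rw [A, KY2_max hZ, A] at hdd
        have h1 : Z ^ T ≤ max (Z ^ B * Z ^ w) (max (Z ^ (e + max h (δ + Ω + w))) (Z ^ N)) :=
          hTup.trans (max_le_max le_rfl (max_le_max hdd le_rfl))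
        rw [A, KY2_max hZ, KY2_max hZ, I] at h1
        refine h1.trans (max_le (by linarith) (max_le ?_ (by linarith)))
        have h2 : max h (δ + Ω + w) ≤ B + w + e := by
          refine max_le (by linarith) ?_
          have h3 : Ω * 1 ≤ Ω * ν := mul_le_mul_of_nonneg_left hν hΩ
          rw [hδ]
          linarith
        linarith
      have h1 : max 1 (Z ^ δ * Z ^ w / Z ^ N) = Z ^ max 0 (δ + w - N) := by
        rw [← KY2_max hZ, Real.rpow_zero, A, Real.rpow_sub hZ0]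
      rw [h1] at t3
      have h3 : K2 * (Z ^ T * (Z ^ N) ^ (r + d - 1) * Z ^ max 0 (δ + w - N) *
          (Z ^ ((1 + e) * J) * Z ^ ((ν + e) * ((d : ℝ) - J)))) ≤
          Z ^ e * (Z ^ T * (Z ^ N) ^ (r + d - 1) * Z ^ max 0 (δ + w - N) *
          (Z ^ ((1 + e) * J) * Z ^ ((ν + e) * ((d : ℝ) - J)))) := by
        refine mul_le_mul_of_nonneg_right hK2 ?_
        have := P T
        have := P N
        have := P (max 0 (δ + w - N))
        have := P ((1 + e) * J)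
        have := P ((ν + e) * ((d : ℝ) - J))
        positivity
      have h4 := t3.trans h3
      rw [KY2_pow hZ, A, A, A, A, A, I, hrd] at h4
      have h5 : max 0 (δ + w - N) ≤ max 0 (B + w - h - Ω * ν) + e := by
        refine max_le ?_ ?_
        · have := le_max_left (0 : ℝ) (B + w - h - Ω * ν)
          linarith
        · have := le_max_right (0 : ℝ) (B + w - h - Ω * ν)
          rw [hδ]
          linarith
      have h6 : N * ((r : ℝ) + d - 1) ≤ (h + e) * ((r : ℝ) + d - 1) :=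
        mul_le_mul_of_nonneg_right hNh (by linarith)
      have h7 : (2 * (n : ℝ) + 2) * e ≤ 20 * (n + 2) * e := by
        refine mul_le_mul_of_nonneg_right (by linarith) he.le
      have h8 : ((r : ℝ) + 2 * d + 3) * e ≤ (2 * (n : ℝ) + 2) * e := by
        refine mul_le_mul_of_nonneg_right (by linarith) he.le
      nlinarith
  · -- large height
    rw [not_le] at hcase
    refine Or.inl ?_
    have q1 : (1 : ℝ) ≤ Z ^ (T - N) := Real.one_le_rpow hZ.le (by linarith)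
    have q2 : Z ^ δ * v' ≤ Z ^ (T - N) * Z ^ N := by
      rw [A, sub_add_cancel]
      exact hΔv'
    have q3 : (Z ^ δ) ^ 2 * Z ^ w ≤ Z ^ (T - N) * Z ^ N := by
      rw [A, sub_add_cancel, KY2_pow hZ, A, I]
      push_cast
      linarith
    have h2 := t2 (Z ^ (T - N)) q1 q2 q3
    have h3 : K1 * (Z ^ (T - N) * (Z ^ f1 * Z ^ fd)) ≤ Z ^ e * (Z ^ (T - N) * (Z ^ f1 * Z ^ fd)) :=
      mul_le_mul_of_nonneg_right hK1 (mul_pos (P _) (mul_pos (P _) (P _))).le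
    have h4 := h2.trans h3
    rw [KY2_pow hZ, KY2_pow hZ, A, A, A, A, A, A, I, hrc] at h4
    push_cast at h4
    have h6 : (1 - 2 * e) * (r : ℝ) ≤ N * (r : ℝ) :=
      mul_le_mul_of_nonneg_right (by linarith) (by linarith)
    nlinarith

theorem ky2 (n : ℕ) (hn : 2 ≤ n) (ζ : ℝ) (hζ : Transcendental ℤ ζ) : ∃ K : ℝ, 1 ≤ K ∧
    ∀ (k J j1 d r : ℕ) (Z B Ω e : ℝ) (y : ℕ → ℤ[X]) (μ : ℕ → ℝ)
    (L : ℕ → Submodule ℚ ℚ[X]), 1 < Z → 0 < e → e ≤ 1 → K ≤ Z ^ e → 0 ≤ Ω → 0 ≤ B →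
    Ω * μ (k - 1) ≤ B → B ≤ 2 * (Ω * μ (k - 1)) → B ≤ 2 * Ω → 1 ≤ μ (k - 1) →
    Dat n k ζ Z B (B - Ω * μ (k - 1)) e y μ → DP n ζ Z B Ω e → 2 ≤ k → k ≤ n → 1 ≤ J →
    J ≤ n → Chn n J j1 (Vk y k) d r L → ∀ f : ℕ → ℝ,
    (∀ i, f i = Real.log (cov (2 * n + 4) ζ (w2 (Z ^ B) (Z ^ (B - Ω * μ (k - 1)))) (L i)) /
      Real.log Z) →
      (B + 2 * (B - Ω * μ (k - 1)) ≤ f 1 + f d - r + 20 * (n + 2) * e ∨
        ∃ η q : ℝ, 1 ≤ r ∧ 0 ≤ η ∧ η ≤ 1 ∧ r * η ≤ q + e ∧ q ≤ B + e ∧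
          B + 2 * (B - Ω * μ (k - 1)) + q ≤
            f 1 + f d - r * (1 - η) + max 0 (q - Ω * (μ (k - 1) - 1)) + 20 * (n + 2) * e ∧
          q + r * (1 - η) ≤ f 0 + 20 * (n + 2) * e ∧
          f d ≤ q + ((r : ℝ) + d) * (1 - η) + max 0 (q - Ω * μ (k - 1)) + J +
            ((d : ℝ) - J) * μ (k - 1) + 20 * (n + 2) * e) := by
  obtain ⟨K0, hK0, t0⟩ := tm2_zero n (by omega) ζ hζ
  obtain ⟨K1, hK1, t1⟩ := tm2_pos n (by omega) ζ hζ
  obtain ⟨K2, hK2, t2⟩ := fe n (by omega) ζ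
  obtain ⟨K3, hK3, t3⟩ := tv_le (2 * n + 4) ζ
  obtain ⟨K4, hK4, t4⟩ := coeff_le_nm (2 * n + 4) ζ
  refine ⟨max K0 (max K1 (max K2 (max K3 K4))), hK0.trans (le_max_left _ _), ?_⟩
  intro k J j1 d r Z B Ω e y μ L hZ he he1 hKZ hΩ hB hΩB hB2 hBΩ hμ hDat hDP hk hkn hJ hJn hC f hf
  have hK0Z : K0 ≤ Z ^ e := (le_max_left _ _).trans hKZ
  have hK1Z : K1 ≤ Z ^ e := (le_max_left _ _).trans ((le_max_right _ _).trans hKZ)
  have hK2Z : K2 ≤ Z ^ e :=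
    (le_max_left _ _).trans ((le_max_right _ _).trans ((le_max_right _ _).trans hKZ))
  have hK3Z : K3 ≤ Z ^ e := (le_max_left _ _).trans ((le_max_right _ _).trans
    ((le_max_right _ _).trans ((le_max_right _ _).trans hKZ)))
  have hK4Z : K4 ≤ Z ^ e := (le_max_right _ _).trans ((le_max_right _ _).trans
    ((le_max_right _ _).trans ((le_max_right _ _).trans hKZ)))
  set ν := μ (k - 1) with hν
  obtain ⟨δ, hδ⟩ : ∃ δ, δ = B - Ω * ν := ⟨_, rfl⟩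
  rw [← hδ] at hDat hf ⊢
  have hδ0 : 0 ≤ δ := by
    rw [hδ]
    linarith
  have h2δ : 2 * δ ≤ B := by
    rw [hδ]
    linarith
  have hZ0 : 0 < Z := zero_lt_one.trans hZ
  have P : ∀ a : ℝ, 0 < Z ^ a := fun a => Real.rpow_pos_of_pos hZ0 a
  have A : ∀ a b : ℝ, Z ^ a * Z ^ b = Z ^ (a + b) := fun a b => (Real.rpow_add hZ0 a b).symm
  have I : ∀ a b : ℝ, Z ^ a ≤ Z ^ b ↔ a ≤ b := fun a b => Real.rpow_le_rpow_left_iff hZ
  have hΔ1 : (1 : ℝ) ≤ Z ^ δ := Real.one_le_rpow hZ.le hδ0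
  have hY1 : (1 : ℝ) ≤ Z ^ B := Real.one_le_rpow hZ.le hB
  have hΔY : (Z ^ δ) ^ 2 ≤ Z ^ B := by
    rw [KY2_pow hZ, I]
    push_cast
    linarith
  have hcov : ∀ i, 0 ≤ cov (2 * n + 4) ζ (w2 (Z ^ B) (Z ^ δ)) (L i) := fun i => KY2_cov_nonneg _ _ _ _
  have hcovf : ∀ i, 0 < cov (2 * n + 4) ζ (w2 (Z ^ B) (Z ^ δ)) (L i) →
      cov (2 * n + 4) ζ (w2 (Z ^ B) (Z ^ δ)) (L i) = Z ^ f i := by
    intro i hi
    rw [hf i, KY2_log hZ hi]
  have hne : 0 ≤ (n : ℝ) * e := mul_nonneg (Nat.cast_nonneg n) he.le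
  rcases Nat.eq_zero_or_pos r with hr | hr
  · -- `r = 0`
    subst hr
    have h1 := t0 (Z ^ B) (Z ^ δ) J j1 d (Vk y k) L hΔ1 hΔY hJ hJn hC
    have h0 : 0 < Z ^ B * (Z ^ δ) ^ 2 := by
      have := P B
      have := P δ
      positivity
    have h2 : 0 < cov (2 * n + 4) ζ (w2 (Z ^ B) (Z ^ δ)) (L 1) *
        cov (2 * n + 4) ζ (w2 (Z ^ B) (Z ^ δ)) (L d) := by
      by_contra h3
      rw [not_lt] at h3
      have h4 := mul_nonpos_of_nonneg_of_nonpos (zero_le_one.trans hK0) h3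
      linarith
    have h3 : 0 < cov (2 * n + 4) ζ (w2 (Z ^ B) (Z ^ δ)) (L 1) :=
      lt_of_le_of_ne (hcov 1) fun h => by rw [← h, zero_mul] at h2; exact lt_irrefl _ h2
    have h4 : 0 < cov (2 * n + 4) ζ (w2 (Z ^ B) (Z ^ δ)) (L d) :=
      lt_of_le_of_ne (hcov d) fun h => by rw [← h, mul_zero] at h2; exact lt_irrefl _ h2
    rw [hcovf 1 h3, hcovf d h4] at h1
    have h5 : K0 * (Z ^ f 1 * Z ^ f d) ≤ Z ^ e * (Z ^ f 1 * Z ^ f d) :=
      mul_le_mul_of_nonneg_right hK0Z (mul_pos (P _) (P _)).le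
    have h6 := h1.trans h5
    rw [KY2_pow hZ, A, A, A, I] at h6
    push_cast at h6
    refine Or.inl ?_
    push_cast
    nlinarith
  · -- `r ≥ 1`
    obtain ⟨D, hD0, hDdeg, hDL, T1, T2⟩ := t1 (Z ^ B) (Z ^ δ) J j1 d r (Vk y k) L hΔ1 hΔY hJ hJn
      (KY2_Vk hDat.frm.deg) hC hr
    have T3 := t2 k J j1 d r Z B δ e y μ L D hZ.le he.le hB hδ0 hDat hk (by omega) hJ hJn hr hC hD0 hDdeg hDL
    have hDR0 : toR D ≠ 0 := by
      intro h
      apply hD0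
      unfold toR at h
      exact (Polynomial.map_eq_zero_iff (RingHom.injective_int _)).1 h
    have hDM : (toR D).natDegree < 2 * n + 4 := by
      have : (toR D).natDegree ≤ D.natDegree := Polynomial.natDegree_map_le
      omega
    have hN1 := nm_pos (2 * n + 4) ζ (toR D) hDR0 hDM
    obtain ⟨l1, l2, l3, l4, l5⟩ := le_tv (2 * n + 4) (by omega) ζ (Z ^ B) (Z ^ δ) (toR D) hY1 hΔ1
    have l6 := tv_le_nm (2 * n + 4) ζ (Z ^ B) (Z ^ δ) (toR D) (P _).le (P _).le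
    -- the height
    have hH1 : (1 : ℝ) ≤ (H70W.height D : ℝ) := by
      have h1 : 0 < (H70W.height D : ℝ) := by
        by_contra h2
        rw [not_lt] at h2
        apply hD0
        ext i
        have h3 := (H70W.abs_coeff_le_height D i).trans h2
        have h4 : ((D.coeff i : ℤ) : ℝ) = 0 := abs_nonpos_iff.1 h3
        rw [Polynomial.coeff_zero]
        exact_mod_cast h4
      have h2 : 0 < H70W.height D := by exact_mod_cast h1
      exact_mod_cast h2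
    have hcoeff : ∀ i, (toR D).coeff i = (D.coeff i : ℝ) := by
      intro i
      unfold toR
      rw [Polynomial.coeff_map]
      rfl
    have hNH : nm (2 * n + 4) ζ (toR D) ≤ K3 * (H70W.height D : ℝ) := by
      refine (t3 (Z ^ B) (Z ^ δ) (H70W.height D : ℝ) (toR D) (P _).le (P _).le (zero_le_one.trans hH1) hDM ?_).2
      intro i
      rw [hcoeff]
      exact H70W.abs_coeff_le_height D i
    have hHN : (H70W.height D : ℝ) ≤ K4 * nm (2 * n + 4) ζ (toR D) := by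
      refine H70W.height_le_of (mul_nonneg (zero_le_one.trans hK4) hN1.le) ?_
      intro i
      rw [← hcoeff]
      exact t4 (toR D) hDM i
    have hv0 : 0 < |(toR D).eval ζ| := by
      rw [abs_pos, KY2_eval]
      intro h
      exact hζ ⟨D, hD0, h⟩
    have htv0 : 0 < ‖tv (2 * n + 4) ζ (w2 (Z ^ B) (Z ^ δ)) (toR D)‖ := hN1.trans_le l3
    -- exponents
    obtain ⟨h, hh⟩ : ∃ h, (H70W.height D : ℝ) = Z ^ h := ⟨_, (KY2_log hZ (zero_lt_one.trans_le hH1)).symm⟩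
    obtain ⟨N, hN⟩ : ∃ N, nm (2 * n + 4) ζ (toR D) = Z ^ N := ⟨_, (KY2_log hZ hN1).symm⟩
    obtain ⟨w, hw⟩ : ∃ w, |(toR D).eval ζ| = Z ^ w := ⟨_, (KY2_log hZ hv0).symm⟩
    obtain ⟨T, hT⟩ : ∃ T, ‖tv (2 * n + 4) ζ (w2 (Z ^ B) (Z ^ δ)) (toR D)‖ = Z ^ T :=
      ⟨_, (KY2_log hZ htv0).symm⟩
    obtain ⟨v', hv'⟩ : ∃ v', v' = |(derivative (toR D)).eval ζ| := ⟨_, rfl⟩
    rw [← hv'] at l2 l6 T2 l5
    rw [hT, hw] at l1
    rw [hT] at l2 l3 l6 T1 T2 T3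
    rw [hN] at l3 l4 l6 T1 T2 T3 hNH hHN
    rw [hw] at l4 l6 T3 T2
    rw [hh] at hNH hHN hH1
    have hh0 : 0 ≤ h := by
      have h1 : Z ^ (0 : ℝ) ≤ Z ^ h := by rwa [Real.rpow_zero]
      exact (I _ _).1 h1
    have hNh : N ≤ h + e := by
      have h1 : Z ^ N ≤ Z ^ e * Z ^ h := hNH.trans (mul_le_mul_of_nonneg_right hK3Z (P _).le)
      rw [A, I] at h1
      linarith
    have hhN : h ≤ N + e := by
      have h1 : Z ^ h ≤ Z ^ e * Z ^ N := hHN.trans (mul_le_mul_of_nonneg_right hK4Z (P _).le)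
      rw [A, I] at h1
      linarith
    -- positivity of the covolumes
    have hc0 : 0 < cov (2 * n + 4) ζ (w2 (Z ^ B) (Z ^ δ)) (L 0) := by
      refine lt_of_le_of_ne (hcov 0) fun h1 => ?_
      rw [← h1, mul_zero] at T1
      have : 0 < Z ^ T * (Z ^ N) ^ (r - 1) := mul_pos (P _) (pow_pos (P _) _)
      linarith
    have hc1d : 0 < cov (2 * n + 4) ζ (w2 (Z ^ B) (Z ^ δ)) (L 1) *
        cov (2 * n + 4) ζ (w2 (Z ^ B) (Z ^ δ)) (L d) := by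
      have h1 := T2 (max 1 (max (Z ^ δ * v' / Z ^ N) ((Z ^ δ) ^ 2 * Z ^ w / Z ^ N))) (le_max_left _ _)
        (by
          rw [← div_le_iff₀ (P N)]
          exact (le_max_left _ _).trans (le_max_right _ _))
        (by
          rw [← div_le_iff₀ (P N)]
          exact (le_max_right _ _).trans (le_max_right _ _))
      by_contra h2
      rw [not_lt] at h2
      have h3 : 0 < Z ^ B * (Z ^ δ) ^ 2 * (Z ^ T * (Z ^ N) ^ (r - 1)) :=
        mul_pos (mul_pos (P _) (pow_pos (P _) _)) (mul_pos (P _) (pow_pos (P _) _))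
      have h4 : (0 : ℝ) ≤ max 1 (max (Z ^ δ * v' / Z ^ N) ((Z ^ δ) ^ 2 * Z ^ w / Z ^ N)) :=
        zero_le_one.trans (le_max_left _ _)
      have h5 := mul_nonpos_of_nonneg_of_nonpos (zero_le_one.trans hK1) (mul_nonpos_of_nonneg_of_nonpos h4 h2)
      linarith
    have hc1 : 0 < cov (2 * n + 4) ζ (w2 (Z ^ B) (Z ^ δ)) (L 1) :=
      lt_of_le_of_ne (hcov 1) fun h => by rw [← h, zero_mul] at hc1d; exact lt_irrefl _ hc1d
    have hcd : 0 < cov (2 * n + 4) ζ (w2 (Z ^ B) (Z ^ δ)) (L d) :=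
      lt_of_le_of_ne (hcov d) fun h => by rw [← h, mul_zero] at hc1d; exact lt_irrefl _ hc1d
    rw [hcovf 0 hc0] at T1
    rw [hcovf d hcd] at T3
    rw [hcovf 1 hc1, hcovf d hcd] at T2
    refine KY2_real (v' := v') (K1 := K1) (K2 := K2) (K4 := K4) (h := h) (N := N) (w := w) (T := T) hZ he hΩ hμ hδ
      hδ0 h2δ hBΩ hr hC.hJ hC.dim hJn hK1Z hK2Z hK4Z hK1 hK2 hK4 hh0 hNh hhN hHN ?_ l2 ?_ ?_ l6 T1 T2 T3 ?_ ?_
    · rw [A, I] at l1
      exact l1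
    · exact (I _ _).1 l3
    · exact (I _ _).1 l4
    · intro hle
      have h1 : (H70W.height D : ℝ) ≤ Z ^ (1 - e) := by
        rw [hh, I]
        exact hle
      have h2 := hDP.e2 D r hD0 hr (by omega) h1
      rw [← KY2_eval, hw, hh, KY2_pow hZ, A, A, A, I] at h2
      exact h2
    · intro hle
      have h1 : (H70W.height D : ℝ) ≤ Z ^ (1 - e) := by
        rw [hh, I]
        exact hle
      have h3 : Ω * 1 ≤ Ω * ν := mul_le_mul_of_nonneg_left hμ hΩ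
      have h2 := hDP.dd D hD0 (by omega) h1 δ hδ0 (by rw [hδ]; linarith)
      rw [← KY2_deriv, ← KY2_eval, hw, hh, ← hv'] at h2
      exact h2

end Pool.Agent.Lib.H42Y
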