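import Pool.Agent.Lib.H42Y.KY1
import Pool.Agent.Lib.H42Y.KY2

/-!
# Chunk KY3 (M)
The key inequalities.

Proof. `K` the maximum of the constants of `ky1`, `ky1_top`, `ky2`. `δ = B - Ω μ (k-1)`, `0 ≤ δ ≤ B`. `exists_top` for `V = Vk y k` (`Vk_deg`, `finrank_Vk`, `p = toQ (y 0)`, `r = toQ (y 1)`, `Frm.co`, `Frm.top`) gives `J, ρ, j1`. `J ≤ n - 1` as `k ≥ 2`. `ky1_top` is the first inequality (`hdim` for `j = J`). If `j1 = J` done. Otherwise `exists_chain` gives the chain; `f i` as in `ky1`; `f1 = f 1`, `fd = f d`.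
`ky1` and `ky2`; `concave3` (with error `(d+1)^3 e`) for `(a, b, c) = (1, d+1+j1-J, d)`: `(J - 1 - j1) f 1 + (d + j1 - J) f d ≤ (d - 1) f (d+1+j1-J) + (d+1)^3 e` (`1 ≤ d + 1 + j1 - J ≤ d` because `J ≤ d`, `j1 < J`), and for `(0, 1, d+1)`: `d * f 0 + f (d+1) ≤ (d+1) f 1 + (d+1)^3 e`, with `B + δ ≤ f (d+1)` and `q + r (1-η) ≤ f 0 + 20 (n+2) e`.
`d ≤ n` (`Chn.dim`). All errors are at most `100 (n+2)^4 e`.
-/

open Polynomial

namespace Pool.Agent.Lib.H42Y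

theorem key (n : ℕ) (hn : 2 ≤ n) (ζ : ℝ) (hζ : Transcendental ℤ ζ) : ∃ K : ℝ, 1 ≤ K ∧
    ∀ (k : ℕ) (Z B Ω e : ℝ) (y : ℕ → ℤ[X]) (μ : ℕ → ℝ), 1 < Z → 0 < e → e ≤ 1 → K ≤ Z ^ e →
    0 ≤ Ω → 0 ≤ B → Ω * μ (k - 1) ≤ B → B ≤ 2 * Ω → 1 ≤ μ (k - 1) →
    Dat n k ζ Z B (B - Ω * μ (k - 1)) e y μ → DP n ζ Z B Ω e → 2 ≤ k → k ≤ n →
      KI n k B Ω (∑ a ∈ Finset.range k, μ a) (μ (k - 1)) (100 * ((n : ℝ) + 2) ^ 4 * e) := by
  have hζ0 : ζ ≠ 0 := by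
    rintro rfl
    exact hζ (isAlgebraic_zero)
  obtain ⟨K1, hK1, H1⟩ := ky1 n hn ζ hζ0
  obtain ⟨K2, hK2, H2⟩ := ky1_top n hn ζ
  obtain ⟨K3, hK3, H3⟩ := ky2 n hn ζ hζ
  refine ⟨max K1 (max K2 K3), hK1.trans (le_max_left _ _), ?_⟩
  intro k Z B Ω e y μ hZ he he1 hK hΩ hB hΩB hB2 hμ hdat hdp hk2 hkn
  have hKa : K1 ≤ Z ^ e := (le_max_left _ _).trans hK
  have hKb : K2 ≤ Z ^ e := ((le_max_left _ _).trans (le_max_right _ _)).trans hK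
  have hKc : K3 ≤ Z ^ e := ((le_max_right _ _).trans (le_max_right _ _)).trans hK
  have hδ0 : 0 ≤ B - Ω * μ (k - 1) := by linarith
  have hδB : B - Ω * μ (k - 1) ≤ B := by
    have : 0 ≤ Ω * μ (k - 1) := mul_nonneg hΩ (by linarith)
    linarith
  have hB3 : B ≤ 2 * (Ω * μ (k - 1)) := by nlinarith
  have hfrm := hdat.frm
  have hp : toQ (y 0) ∈ Vk y k :=
    Submodule.subset_span ⟨0, by rw [Set.mem_Iio]; omega, rfl⟩
  have hr : toQ (y 1) ∈ Vk y k :=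
    Submodule.subset_span ⟨1, by rw [Set.mem_Iio]; omega, rfl⟩
  have hrn : (toQ (y 1)).natDegree = n := by
    unfold toQ
    rw [natDegree_map_eq_of_injective Int.cast_injective]
    exact hfrm.top
  have hfr : Module.finrank ℚ (Vk y k) = k := finrank_Vk n k y hfrm (by omega)
  obtain ⟨J, ρ, j1, hJ1, hfull, hsum, hj1J, hj1ρ, hρ, hdim⟩ :=
    exists_top n k (Vk y k) (Vk_deg n k y hfrm) (toQ (y 0)) (toQ (y 1)) hp hr hfrm.co hrn hfr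
      hk2 hkn
  have hJn : J + 1 ≤ n := by omega
  have hn2 : (2 : ℝ) ≤ n := by exact_mod_cast hn
  have hpow : ((n : ℝ) + 2) ^ 1 ≤ ((n : ℝ) + 2) ^ 4 :=
    pow_le_pow_right₀ (by linarith) (by norm_num)
  have hpow2 : ((n : ℝ) + 2) ^ 2 ≤ ((n : ℝ) + 2) ^ 4 :=
    pow_le_pow_right₀ (by linarith) (by norm_num)
  have hpow3 : ((n : ℝ) + 2) ^ 3 ≤ ((n : ℝ) + 2) ^ 4 :=
    pow_le_pow_right₀ (by linarith) (by norm_num)
  have E1 : (3 * (n : ℝ) + 2) * e ≤ 100 * ((n : ℝ) + 2) ^ 4 * e := by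
    apply mul_le_mul_of_nonneg_right _ he.le
    linarith
  have E2 : 20 * ((n : ℝ) + 2) * e ≤ 100 * ((n : ℝ) + 2) ^ 4 * e := by
    apply mul_le_mul_of_nonneg_right _ he.le
    linarith
  have E3 : 3 * e ≤ 100 * ((n : ℝ) + 2) ^ 4 * e := by
    apply mul_le_mul_of_nonneg_right _ he.le
    linarith
  have E4 : e ≤ 100 * ((n : ℝ) + 2) ^ 4 * e := by linarith
  have hTop := H2 k J ρ Z B (B - Ω * μ (k - 1)) e y μ hZ he hKb hδ0 hδB hdat hk2 hkn hJ1 hsum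
    hfull (hdim J hj1J le_rfl)
  refine ⟨ρ, j1, J, hsum, hJ1, hj1J, hj1ρ, hρ, by linarith, ?_⟩
  by_cases hjJ : j1 = J
  · exact Or.inl hjJ
  right
  have hlt : j1 < J := lt_of_le_of_ne hj1J hjJ
  obtain ⟨d, r, L, hch⟩ := exists_chain n k J ρ j1 (Vk y k) (Vk_deg n k y hfrm) (toQ (y 0))
    (toQ (y 1)) hp hr hfrm.co hrn (by omega) hfull hsum hlt hdim
  have hJd := hch.hJ
  have hdm := hch.dim
  have hdn : d ≤ n := by omega
  have hdn' : (d : ℝ) ≤ n := by exact_mod_cast hdn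
  have hd1 : 1 ≤ d := le_trans hJ1 hJd
  have hd1' : (1 : ℝ) ≤ d := by exact_mod_cast hd1
  set f : ℕ → ℝ := fun i => Real.log (cov (2 * n + 4) ζ (w2 (Z ^ B)
    (Z ^ (B - Ω * μ (k - 1)))) (L i)) / Real.log Z with hf
  obtain ⟨c1, c2, c3, c4, c5⟩ := H1 k J ρ j1 d r Z B (B - Ω * μ (k - 1)) e y μ L hZ he hKa hδ0
    hδB hdat hk2 hkn hJ1 hsum hlt hfull hdim hch f (fun i => rfl)
  have hJn2 : J ≤ n := by omega
  have hAlt := H3 k J j1 d r Z B Ω e y μ L hZ he he1 hKc hΩ hB hΩB hB3 hB2 hμ hdat hdp hk2 hkn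
    hJ1 hJn2 hch f (fun i => rfl)
  have hb : d + 1 + j1 - J ≤ d := by omega
  have hb1 : 1 ≤ d + 1 + j1 - J := by omega
  have hbc : ((d + 1 + j1 - J : ℕ) : ℝ) = (d : ℝ) + 1 + j1 - J := by
    rw [Nat.cast_sub (by omega)]
    push_cast
    ring
  have q1 := concave3 d e he.le f c1 1 (d + 1 + j1 - J) d hb1 hb (by omega)
  have q2 := concave3 d e he.le f c1 0 1 (d + 1) (by omega) (by omega) le_rfl
  rw [hbc] at q1
  push_cast at q1 q2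
  have hcube : ((d : ℝ) + 1) ^ 3 ≤ ((n : ℝ) + 2) ^ 3 := by
    apply pow_le_pow_left₀ (by linarith)
    linarith
  have E5 : ((d : ℝ) - 1) * ((3 * n + 2) * e) + ((d : ℝ) + 1) ^ 3 * e ≤
      100 * ((n : ℝ) + 2) ^ 4 * e := by
    have h1 : ((d : ℝ) - 1) * (3 * n + 2) ≤ 3 * ((n : ℝ) + 2) ^ 2 := by
      have h2 : ((d : ℝ) - 1) * (3 * n + 2) ≤ (n : ℝ) * (3 * n + 2) :=
        mul_le_mul_of_nonneg_right (by linarith) (by linarith)
      nlinarith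
    have h3 : (((d : ℝ) - 1) * (3 * n + 2) + ((d : ℝ) + 1) ^ 3) * e ≤
        100 * ((n : ℝ) + 2) ^ 4 * e := by
      apply mul_le_mul_of_nonneg_right _ he.le
      linarith
    linarith
  have E6 : (d : ℝ) * (20 * ((n : ℝ) + 2) * e) + ((d : ℝ) + 1) ^ 3 * e ≤
      100 * ((n : ℝ) + 2) ^ 4 * e := by
    have h1 : (d : ℝ) * (20 * ((n : ℝ) + 2)) ≤ 20 * ((n : ℝ) + 2) ^ 2 := by
      have h2 : (d : ℝ) * (20 * ((n : ℝ) + 2)) ≤ ((n : ℝ) + 2) * (20 * ((n : ℝ) + 2)) :=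
        mul_le_mul_of_nonneg_right (by linarith) (by linarith)
      nlinarith
    have h3 : ((d : ℝ) * (20 * ((n : ℝ) + 2)) + ((d : ℝ) + 1) ^ 3) * e ≤
        100 * ((n : ℝ) + 2) ^ 4 * e := by
      apply mul_le_mul_of_nonneg_right _ he.le
      linarith
    linarith
  refine ⟨d, r, f 1, f d, hJd, hdm, by linarith, by linarith, ?_, ?_⟩
  · have h1 : ((d : ℝ) - 1) * f (d + 1 + j1 - J) ≤ ((d : ℝ) - 1) *
        (∑ a ∈ Finset.range k, μ a + 2 * j1 + ρ * μ (k - 1) + (3 * n + 2) * e) :=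
      mul_le_mul_of_nonneg_left c4 (by linarith)
    have h2 : ((d : ℝ) - 1) *
        (∑ a ∈ Finset.range k, μ a + 2 * j1 + ρ * μ (k - 1) + (3 * n + 2) * e) =
        ((d : ℝ) - 1) * (∑ a ∈ Finset.range k, μ a + ρ * μ (k - 1) + 2 * j1) +
          ((d : ℝ) - 1) * ((3 * n + 2) * e) := by ring
    have h3 : ((d : ℝ) - (d + 1 + j1 - J)) * f 1 + ((d : ℝ) + 1 + j1 - J - 1) * f d =
        ((J : ℝ) - j1 - 1) * f 1 + ((d : ℝ) - J + j1) * f d := by ring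
    linarith
  · rcases hAlt with h | ⟨η, q, hr1, hη0, hη1, a1, a2, a3, a4, a5⟩
    · left
      linarith
    · right
      refine ⟨η, q, hr1, hη0, hη1, by linarith, by linarith, by linarith, ?_, by linarith⟩
      have h1 : (d : ℝ) * (q + r * (1 - η)) ≤ d * (f 0 + 20 * (n + 2) * e) :=
        mul_le_mul_of_nonneg_left a4 (by linarith)
      have h2 : (d : ℝ) * (f 0 + 20 * (n + 2) * e) = d * f 0 + d * (20 * (n + 2) * e) := by ring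
      have h3 : ((d : ℝ) + 1 - 1) * f 0 + (1 - 0) * f (d + 1) = d * f 0 + f (d + 1) := by ring
      have h4 : ((d : ℝ) + 1 - 0) * f 1 = (d + 1) * f 1 := by ring
      linarith

end Pool.Agent.Lib.H42Y
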