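import Pool.Agent.Lib.H42Y.DA1
import Pool.Agent.Lib.H42Y.DA2
import Pool.Agent.Lib.H42Y.DA3
import Pool.Agent.Lib.H42Y.DA4
import Pool.Agent.Lib.H42Y.DA5
import Pool.Agent.Lib.H42Y.KY3
import Pool.Agent.Lib.H42W.BL

/-!
# Chunk DA6 (M)
The system of inequalities: everything the numerical part needs.

Proof. `ε' = min ε 1`, `e = ε' / (200 (n+2)^4)`. `K` from `key`. Take `Z0` larger than the `Z0` of `H42W.B_le`, `H42W.ineq` (`ε`, `Bmax = 2n+1`), `norm_bd` (`e`), `val_low` (`e`), `der_low` (`e`), and such that `K ≤ Z^e`, `Z > 1`; apply `exists_data` with `ε0 = e / (4 (n+2))` and `Z0`: `Z, B, P, R, b, ν`. `μ = mu ν` (monotone, `≥ 1`, `μ 0 = μ 1 = 1`; `μ ≤ ν`, so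
`∑_{a ≤ n} μ a ≤ B + ε0`). `B ≤ 2 n + 1` from `B_le`. (D) is `H42W.ineq`. (K): let `2 ≤ k ≤ n`, `(1+ω) μ (k-1) ≤ B - ε`. `exists_frame` gives `y`; `Dat n k ζ Z B (B - (1+ω) μ (k-1)) e y μ` by `norm_bd` (`e ≤ ε`; `B ≤ 2 (1+ω) - 1 ≤ 2 ((1+ω) μ (k-1))`, since `B ≤ 2 (1 + ω) - 1` is a hypothesis of (K)), `DP n ζ Z B (1+ω) e` by `val_low`, `der_low` (`1 + ω ≤ B` from `(1+ω) μ (k-1) ≤ B`); `key` gives `KI` with error
`100 (n+2)^4 e ≤ ε`, and `KI` is monotone in the error.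
-/

open Polynomial Filter

namespace Pool.Agent.Lib.H42Y

theorem KI_mono (n k : ℕ) (B Ω S ν e e' : ℝ) (he : e ≤ e') (h : KI n k B Ω S ν e) :
    KI n k B Ω S ν e' := by
  obtain ⟨ρ, j1, J, h1, h2, h3, h4, h5, h6, h7⟩ := h
  refine ⟨ρ, j1, J, h1, h2, h3, h4, h5, by linarith, ?_⟩
  rcases h7 with h7 | ⟨d, r, f1, fd, a1, a2, a3, a4, a5, a6⟩
  · exact Or.inl h7
  · refine Or.inr ⟨d, r, f1, fd, a1, a2, by linarith, by linarith, by linarith, ?_⟩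
    rcases a6 with a6 | ⟨η, q, b1, b2, b3, b4, b5, b6, b7, b8⟩
    · exact Or.inl (by linarith)
    · exact Or.inr ⟨η, q, b1, b2, b3, by linarith, by linarith, by linarith, by linarith,
        by linarith⟩

theorem system (n : ℕ) (hn : 2 ≤ n) (ζ : ℝ) (hζ : Transcendental ℤ ζ) (ω X0 : ℝ) (hω : 0 ≤ ω)
    (hno : H42W.NoStar n ζ ω X0) (ε : ℝ) (hε : 0 < ε) :
    ∃ (B : ℝ) (μ : ℕ → ℝ), (n : ℝ) + 1 - ε ≤ B ∧ μ 0 = 1 ∧ μ 1 = 1 ∧ (∀ k, 1 ≤ μ k) ∧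
      Monotone μ ∧ ∑ k ∈ Finset.range (n + 1), μ k ≤ B + ε ∧
      (∀ i : ℕ, 2 ≤ i → i ≤ n → μ (i - 1) * (1 + ω) ≤ B - ε →
        B + min (B - μ (i - 1) * (1 + ω)) (B / 2) ≤
          2 * ((n : ℝ) + 1 - i) + ∑ k ∈ Finset.range i, μ k + ε) ∧
      (B ≤ 2 * (1 + ω) - 1 → ∀ k : ℕ, 2 ≤ k → k ≤ n → (1 + ω) * μ (k - 1) ≤ B - ε →
        KI n k B (1 + ω) (∑ a ∈ Finset.range k, μ a) (μ (k - 1)) ε) := by
  have hn1 : 1 ≤ n := by omega
  have hn2 : (2 : ℝ) ≤ (n : ℝ) := by exact_mod_cast hn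
  set N : ℝ := (n : ℝ) + 2 with hN
  have hN4 : 4 ≤ N := by linarith
  have hN1 : 1 ≤ N ^ 4 := one_le_pow₀ (by linarith)
  set ε' : ℝ := min ε 1 with hε'
  have hε'0 : 0 < ε' := lt_min hε one_pos
  have hε'1 : ε' ≤ 1 := min_le_right _ _
  have hε'e : ε' ≤ ε := min_le_left _ _
  set e : ℝ := ε' / (200 * N ^ 4) with he
  have hden : 0 < 200 * N ^ 4 := by positivity
  have he0 : 0 < e := div_pos hε'0 hden
  have hee : e * (200 * N ^ 4) = ε' := div_mul_cancel₀ _ hden.ne'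
  have heε' : e ≤ ε' := by
    rw [he]
    exact div_le_self hε'0.le (by linarith)
  have he1 : e ≤ 1 := heε'.trans hε'1
  have heε : e ≤ ε := heε'.trans hε'e
  set ε0 : ℝ := e / (4 * ((n : ℝ) + 2)) with hε0
  have hε00 : 0 < ε0 := by positivity
  have hε0e : ε0 ≤ e := by
    rw [hε0]
    exact div_le_self he0.le (by linarith)
  have hε0ε : ε0 ≤ ε := hε0e.trans heε
  obtain ⟨K, hK1, hK⟩ := key n hn ζ hζ
  obtain ⟨Z1, hZ1⟩ := H42W.B_le n hn1 ζ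
  obtain ⟨Z2, hZ2⟩ := H42W.ineq n hn ζ hζ ω X0 hω hno ε (2 * n + 1) hε
  obtain ⟨Z3, hZ3⟩ := norm_bd n hn1 ζ hζ ω X0 hω hno e he0
  obtain ⟨Z4, hZ4⟩ := val_low n hn1 ζ e he0 he1
  obtain ⟨Z5, hZ5⟩ := der_low n hn1 ζ hζ ω X0 hω hno e he0 he1
  have hev : ∀ᶠ Z : ℝ in atTop, Z1 ≤ Z ∧ Z2 ≤ Z ∧ Z3 ≤ Z ∧ Z4 ≤ Z ∧ Z5 ≤ Z ∧ 1 < Z ∧
      K ≤ Z ^ e := by
    filter_upwards [eventually_ge_atTop Z1, eventually_ge_atTop Z2, eventually_ge_atTop Z3,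
      eventually_ge_atTop Z4, eventually_ge_atTop Z5, eventually_gt_atTop 1,
      (tendsto_rpow_atTop he0).eventually_ge_atTop K] with Z a1 a2 a3 a4 a5 a6 a7
    exact ⟨a1, a2, a3, a4, a5, a6, a7⟩
  obtain ⟨Z0, hZ0⟩ := Filter.eventually_atTop.1 hev
  obtain ⟨Z, B, P, R, b, ν, hZ, hB, S, hsum, hlow⟩ := exists_data n hn1 ζ hζ ε0 hε00 Z0
  obtain ⟨a1, a2, a3, a4, a5, a6, a7⟩ := hZ0 Z hZ
  have hB2 : B ≤ 2 * n + 1 := hZ1 Z B P R b ν a1 S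
  have hB0 : 0 ≤ B := by linarith
  have hmu1 : ∀ k, 1 ≤ H42W.mu ν k := by
    intro k
    unfold H42W.mu
    split_ifs
    · exact le_rfl
    · exact S.one_le k
  have hmule : ∀ k, H42W.mu ν k ≤ ν k := by
    intro k
    unfold H42W.mu
    split_ifs
    · exact S.one_le k
    · exact le_rfl
  have hmono : Monotone (H42W.mu ν) := by
    intro k l hkl
    by_cases hk : k ≤ 1
    · have h0 : H42W.mu ν k = 1 := by
        unfold H42W.mu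
        rw [if_pos hk]
      rw [h0]
      exact hmu1 l
    · have hl : ¬ l ≤ 1 := by omega
      unfold H42W.mu
      rw [if_neg hk, if_neg hl]
      exact S.mono hkl
  refine ⟨B, H42W.mu ν, by linarith, by simp [H42W.mu], by simp [H42W.mu], hmu1, hmono, ?_, ?_, ?_⟩
  · exact (Finset.sum_le_sum fun k _ => hmule k).trans (by linarith)
  · intro i hi hin h
    exact hZ2 Z B P R b ν a2 hB2 S i hi hin h
  · intro hBω k hk hkn h
    obtain ⟨y, hy, hyb⟩ := exists_frame n hn1 ζ Z B P R b ν S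
    have hΩ0 : 0 ≤ 1 + ω := by linarith
    have hm1 : 1 ≤ H42W.mu ν (k - 1) := hmu1 (k - 1)
    have hΩm : 1 + ω ≤ (1 + ω) * H42W.mu ν (k - 1) := le_mul_of_one_le_right hΩ0 hm1
    have hdat : Dat n k ζ Z B (B - (1 + ω) * H42W.mu ν (k - 1)) e y (H42W.mu ν) :=
      { frm := hy
        mono := hmono
        mu0 := by simp [H42W.mu]
        mu1 := by simp [H42W.mu]
        nb := by
          intro a ha i hi
          exact hZ3 Z B P R b ν k a3 hB2 S hk (by linarith) (by linarith) a (y a) ha (hyb a) i hi }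
    have hdp : DP n ζ Z B (1 + ω) e :=
      { e2 := hZ4 Z B a4 hlow
        dd := hZ5 Z B P R b ν a5 hBω (by linarith) S hlow }
    have hki := hK k Z B (1 + ω) e y (H42W.mu ν) a6 he0 he1 a7 hΩ0 hB0 (by linarith)
      (by linarith) hm1 hdat hdp hk hkn
    refine KI_mono _ _ _ _ _ _ _ _ ?_ hki
    rw [← hN]
    nlinarith [hee, hε'e, hε'0]

end Pool.Agent.Lib.H42Y
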