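import Mathlib

/-!
# H42Y: definitions of the numerical part

Everything is divided by `N = n + 1`: `h = 1/N`, `x = k/N`, `B = (1 + t) N`, `M = (S - k)/N`,
`w = ν - 1`, `Ω/N = cN h`.
-/

namespace Pool.Agent.Lib.H42Y

/-- `(1 + 4n/5)/(n+1)` for `h = 1/(n+1)`. -/
noncomputable def cN (h : ℝ) : ℝ := 4 / 5 + h / 5

/-- The key inequalities `KI`, normalised. -/
def KQ (h t x M w : ℝ) : Prop :=
  ∃ p y J : ℝ, 0 ≤ p ∧ 0 ≤ y ∧ x + J + p = 1 ∧ y ≤ J ∧ y ≤ p ∧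
    (1 + t) + (1 + t - cN h * (1 + w)) ≤ M + x + 2 * J + p * (1 + w) + h ∧
    (y = J ∨ ∃ d r f1 fd : ℝ, y + h ≤ J ∧ J ≤ d ∧ 0 ≤ r ∧ r + 2 * d = 1 + J - 2 * h ∧
      fd ≤ M + x + 2 * (J - h) + p * (1 + w) + h ∧
      (1 + t) + (1 + t - cN h * (1 + w)) ≤ fd + 2 * h * (1 + w) + h ∧
      (J - y - h) * f1 + (d - J + y) * fd ≤ (d - h) * (M + x + p * (1 + w) + 2 * y) + h ^ 2 ∧
      ((1 + t) + 2 * (1 + t - cN h * (1 + w)) ≤ f1 + fd - r + h ∨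
        ∃ η q : ℝ, 0 ≤ η ∧ η ≤ 1 ∧ r * η ≤ q + h ∧
          (1 + t) + 2 * (1 + t - cN h * (1 + w)) + q ≤
            f1 + fd - r * (1 - η) + max 0 (q - cN h * w) + h ∧
          d * (q + r * (1 - η)) + h * ((1 + t) + (1 + t - cN h * (1 + w))) ≤
            (d + h) * f1 + h ^ 2 ∧
          fd ≤ q + (r + d) * (1 - η) + max 0 (q - cN h * (1 + w)) + J + (d - J) * (1 + w) + h))

/-- The normalised sequences: `M k = (μ 0 + ... + μ (k-1) - k)/N`, `w k = μ (k-1) - 1`. -/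
structure Sq (n : ℕ) (h t : ℝ) (M w : ℕ → ℝ) : Prop where
  h0 : h * ((n : ℝ) + 1) = 1
  h1 : h ≤ 1 / 10 ^ 7
  t0 : -h ≤ t
  t1 : t ≤ 1 / 5
  M0 : ∀ k, 0 ≤ M k
  w0 : ∀ k, 0 ≤ w k
  step : ∀ k k', 1 ≤ k → k ≤ k' → M k + h * ((k' : ℝ) - k) * w k ≤ M k'
  f1 : ∀ k, 1 ≤ k → M k ≤ h * k * w k
  f2 : ∀ k, 1 ≤ k → k ≤ n + 1 → M k + (1 - h * k) * w k ≤ t + h
  dd : ∀ k, 2 ≤ k → k ≤ n →
    h * k + 2 * t - 4 / 5 - 2 * h ≤ M k + 4 / 5 * w k ∨ 1 / 5 + t - 2 * h ≤ 4 / 5 * w k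
  kk : ∀ k, 2 ≤ k → k ≤ n → 4 / 5 * w k < 1 / 5 + t - 2 * h → KQ h t (h * k) (M k) (w k)

/-- `δ - M - Δ`. -/
noncomputable def vv (h t x M w : ℝ) : ℝ :=
  x + 3 * t + 1 - 2 * (cN h * (1 + w)) - 2 * M

/-- A point where the elimination is done. -/
structure Pt (h t x M w : ℝ) : Prop where
  h0 : 0 < h
  h1 : h ≤ 1 / 10 ^ 7
  t0 : 1 / 25 ≤ t
  t1 : t ≤ 1 / 5
  x0 : 0 ≤ x
  x1 : x ≤ 11 / 20
  M0 : 0 ≤ M
  w0 : 0 ≤ w
  f1 : M ≤ x * w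
  f2 : M + (1 - x) * w ≤ t + h
  v0 : 1 / 100 ≤ vv h t x M w

/-- The reduced data. -/
structure RD (h t x M w p y J d r g j : ℝ) : Prop where
  p0 : 0 ≤ p
  y0 : 0 ≤ y
  sum : x + J + p = 1
  yp : y ≤ p
  pR : p ≤ (1 - x) / 2
  jd : j = J - y - h
  j0 : 1 / 250 ≤ j
  Jd : J ≤ d
  r0 : 0 ≤ r
  rd : r + 2 * d = 1 + J - 2 * h
  g0 : -h ≤ g
  g1 : g ≤ (1 - x - t - vv h t x M w) / 2 - p * (1 - w) + 3 * h

/-- The inequality of type (A). -/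
def CA (h t x M w p d g j : ℝ) : Prop :=
  j * (vv h t x M w + p * (1 - 2 * w)) ≤ (d - h - 2 * j) * g + 3 * h

/-- The inequalities of type (B). -/
structure CB (h t x M w p J d r g j η q : ℝ) : Prop where
  e0 : 0 ≤ η
  e1 : η ≤ 1
  rq : r * η ≤ q + h
  b1 : j * (vv h t x M w + p * (1 - 2 * w) + q - max 0 (q - cN h * w) - r * η) ≤
    (d - h - 2 * j) * g + 2 * h
  b2 : j * (q - r * η - (M + p * w)) ≤ (d - h - j) * g + 30 * h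
  b3 : (r + d) * η ≤ q + max 0 (q - cN h * (1 + w)) + (d - J) * w - (M + p * w) + g + h

/-- The quadratic expression in case (A). -/
noncomputable def QA (t x w v j : ℝ) : ℝ :=
  (3 / 8 + w / 8) * j ^ 2 -
    j * ((3 / 4 - x / 4) * (1 - w) / 2 + 7 / 8 * (t + v - w * (1 - x)) - v -
      (1 - 2 * w) * (1 - x) / 2) + (3 / 4 - x / 4) * ((t + v - w * (1 - x)) / 2)

/-- One step of the certificate for one end point of the `t`-interval (unit `1/10^8`). -/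
def upd (s κ L W a : ℤ) : ℤ := a + (100 * s * (W - κ * a)) / L - 1000

/-- The step with the new inequality at `x = j/100`; `t = T/1000`. -/
def stE (T T0 V j s a : ℤ) : ℤ :=
  min (min (upd s 2 16000 (j * 10 ^ 6 + 3 * T * 10 ^ 5 - 61 * 10 ^ 6) a)
      (upd s 2 (26002 - 100 * j - (212 * (5 * j + T0)) / 10 + (11236 * V) / 1000)
        (j * 10 ^ 6 + 4 * T * 10 ^ 5 - 60 * 10 ^ 6 - 100 * (5 * j + T) ^ 2) a))
    (min (upd s 0 8000 (20 * 10 ^ 6 + T * 10 ^ 5) a) (upd s 0 10000 (V * 10 ^ 5) a))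

/-- The step with the old inequality. -/
def stD (T j s a : ℤ) : ℤ :=
  min (upd s 1 8000 (j * 10 ^ 6 + 2 * T * 10 ^ 5 - 80 * 10 ^ 6) a)
    (upd s 0 8000 (20 * 10 ^ 6 + T * 10 ^ 5) a)

/-- `m` steps of the first kind from `j/100`. -/
def itE (T T0 V : ℤ) (j : ℕ) : ℕ → ℤ → ℤ
  | 0, a => a
  | m + 1, a => itE T T0 V (j + 1) m (stE T T0 V j 1 a)

/-- `m` steps of the second kind from `j/100`. -/
def itD (T : ℤ) (j : ℕ) : ℕ → ℤ → ℤ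
  | 0, a => a
  | m + 1, a => itD T (j + 1) m (stD T j 1 a)

/-- The whole certificate: `m1` steps from `js`, one step of length `s`, `m2` steps. -/
def finE (T T0 V : ℤ) (js m1 s m2 : ℕ) : ℤ :=
  itD T (js + m1 + s) m2 (stE T T0 V ((js + m1 : ℕ) : ℤ) s (itE T T0 V js m1 0))

/-- The index of `j/100`. -/
def kj (n j : ℕ) : ℕ := j * (n + 1) / 100

/-- The state: a lower bound for `M` at `j/100`, affine in `t`. -/
def Inv (n : ℕ) (M : ℕ → ℝ) (θ : ℝ) (j : ℕ) (a b : ℤ) : Prop :=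
  (1 - θ) * (a : ℝ) + θ * (b : ℝ) ≤ 10 ^ 8 * M (kj n j)

end Pool.Agent.Lib.H42Y
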