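import Pool.Agent.Lib.H42Y.Defs2
import Pool.Agent.Lib.H42Y.Defs3

/-!
# Chunk NF (S/M)
The first bounds for `B`.

Proof. `N = n + 1`, `Ω = 1 + 4n/5 = (4N+1)/5`. `B_le_two`: if `Ω > B - ε` then `B < Ω + 1 ≤ 2Ω - 1`. Otherwise `hD`: either `2 B - Ω ≤ 2 N - 2 + ε`, so `B ≤ 7/5 N`, or `3/2 B ≤ 2 N - 2 + ε`; both give `B ≤ 2 Ω - 1 = 8/5 N - 3/5`.
`B_le_six`: if `Ω > B - ε` clear. Otherwise `K`: `ρ ≤ (2-2) J = 0`, `j1 = 0`, `J = n - 1 ≥ 1`, so `j1 ≠ J`; `J ≤ d`, `r + 1 + 2 d = 2n - 1` give `d = n - 1`, `r = 0`. `fd ≤ 2 + 2 (n - 2) + ε`, `(n-2) f1 ≤ (n - 2) 2 + ε` so `f1 ≤ 2 + ε`; the second alternative needs `1 ≤ r`. So `3 B - 2 Ω ≤ f1 + fd + ε ≤ 2 n + 3 ε`, `B ≤ 6/5 N - 8/15 + ε`.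
-/

namespace Pool.Agent.Lib.H42Y

theorem B_le_two (n : ℕ) (hn : 100 ≤ n) (B ε : ℝ) (hε0 : 0 ≤ ε) (hε1 : ε ≤ 1 / 4)
    (hD : 1 * (1 + 4 * (n : ℝ) / 5) ≤ B - ε →
      B + min (B - 1 * (1 + 4 * (n : ℝ) / 5)) (B / 2) ≤ 2 * ((n : ℝ) + 1 - 2) + 2 + ε) :
    B ≤ 2 * (1 + 4 * (n : ℝ) / 5) - 1 := by
  have hnR : (100 : ℝ) ≤ n := by exact_mod_cast hn
  by_cases hc : 1 * (1 + 4 * (n : ℝ) / 5) ≤ B - ε
  · have h := hD hc
    rcases le_total (B - 1 * (1 + 4 * (n : ℝ) / 5)) (B / 2) with h1 | h1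
    · rw [min_eq_left h1] at h
      linarith
    · rw [min_eq_right h1] at h
      linarith
  · rw [not_le] at hc
    linarith

theorem B_le_six (n : ℕ) (hn : 100 ≤ n) (B ε : ℝ) (hε0 : 0 ≤ ε) (hε1 : ε ≤ 1 / 4)
    (K : (1 + 4 * (n : ℝ) / 5) * 1 ≤ B - ε → KI n 2 B (1 + 4 * (n : ℝ) / 5) 2 1 ε) :
    B ≤ 6 / 5 * ((n : ℝ) + 1) := by
  have hnR : (100 : ℝ) ≤ n := by exact_mod_cast hn
  by_cases hc : (1 + 4 * (n : ℝ) / 5) * 1 ≤ B - ε
  · obtain ⟨ρ, j1, J, h1, h2, h3, h4, h5, h6, h7⟩ := K hc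
    have hρ : ρ = 0 := by
      have h8 : (2 - 2) * J = 0 := by simp
      omega
    subst hρ
    have hj : j1 = 0 := by omega
    subst hj
    have hJ : J + 1 = n := by omega
    rcases h7 with h7 | ⟨d, r, f1, fd, a1, a2, a3, a4, a5, a6⟩
    · omega
    · have hd : d = J := by omega
      have hr : r = 0 := by omega
      subst hd
      subst hr
      have hdR : (d : ℝ) + 1 = n := by exact_mod_cast hJ
      push_cast at a3 a4 a5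
      rcases a6 with a6 | ⟨η, q, b1, -⟩
      · push_cast at a6
        have h9 : f1 ≤ 2 + ε := by
          by_contra hcon
          push Not at hcon
          have h10 : ((d : ℝ) - 1) * (2 + ε) < ((d : ℝ) - 1) * f1 :=
            mul_lt_mul_of_pos_left hcon (by linarith)
          have h11 : ε ≤ ((d : ℝ) - 1) * ε := le_mul_of_one_le_left hε0 (by linarith)
          nlinarith
        linarith
      · omega
  · rw [not_le] at hc
    linarith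

end Pool.Agent.Lib.H42Y
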