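import Pool.Agent.Lib.H42Y.NK
import Pool.Agent.Lib.H42Y.NF

/-!
# Chunk NS (M)
The normalised sequences.

Proof. `ε = 1/4`, `N = n + 1`, `h = 1/N`, `Ω = 1 + 4n/5`, `h Ω = cN h`, `t = h B - 1`, `M k = h (Σ_{a<k} μ a - k)`, `w k = μ (k-1) - 1`. `t0`, `t1` from `N - ε ≤ B` and `B_le_six` (its hypothesis: `hK` at `k = 2`, `Σ_{a<2} μ a = 2`, after `B_le_two`, whose hypothesis is `hD` at `i = 2`). `M0`, `w0`: `μ ≥ 1`. `step`: `M k' - M k = h Σ_{k ≤ a < k'} (μ a - 1)` and `μ a ≥ μ (k-1)`. `f1`: `μ a ≤ μ (k-1)` for `a < k`. `f2`: the same and `Σ_{a ≤ n} μ a ≤ B + ε`.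
`dd`: if `μ (k-1) Ω ≤ B - ε`: `B - μ Ω ≤ B/2` (`B ≤ 2Ω`), so `hD` gives `2 B - Ω μ ≤ 2 (N - k) + Σ_{a<k} μ a + ε`, times `h`: `M + cN h (1+w) ≥ x + 2t - h/4`, `cN h (1 + w) = 4/5 + 4/5 w + h/5 (1+w)` and `1 + w ≤ 3/2` (`cN h (1+w) ≤ 1 + t ≤ 6/5`). Otherwise `cN h (1+w) > 1 + t - h/4`: if `w ≤ 4` then `4/5 w ≥ 1/5 + t - 2h`; if `w > 4` clear. `kk`: if `4/5 w < 1/5 + t - 2h` then `w < 1/2`, `cN h (1+w) ≤ 1 + t - h/4`, i.e. `Ω μ (k-1) ≤ B - ε`, so `hK` and `KI_norm`.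
-/

namespace Pool.Agent.Lib.H42Y

private theorem ns_ge (μ : ℕ → ℝ) (hone : ∀ k, 1 ≤ μ k) (k : ℕ) :
    (k : ℝ) ≤ ∑ a ∈ Finset.range k, μ a := by
  induction k with
  | zero => simp
  | succ k ih =>
    rw [Finset.sum_range_succ]
    push_cast
    linarith [hone k]

private theorem ns_step (μ : ℕ → ℝ) (hmono : Monotone μ) (k k' : ℕ) (hk : 1 ≤ k) (h : k ≤ k') :
    ∑ a ∈ Finset.range k, μ a + ((k' : ℝ) - k) * μ (k - 1) ≤ ∑ a ∈ Finset.range k', μ a := by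
  induction k', h using Nat.le_induction with
  | base => simp
  | succ m hm ih =>
    rw [Finset.sum_range_succ]
    have h1 : μ (k - 1) ≤ μ m := hmono (by omega)
    push_cast
    nlinarith

private theorem ns_le (μ : ℕ → ℝ) (hmono : Monotone μ) (k : ℕ) :
    ∑ a ∈ Finset.range k, μ a ≤ k * μ (k - 1) := by
  have h1 : ∀ a ∈ Finset.range k, μ a ≤ μ (k - 1) := by
    intro a ha
    have h2 := Finset.mem_range.1 ha
    exact hmono (by omega)
  have h3 := Finset.sum_le_card_nsmul _ _ _ h1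
  rwa [Finset.card_range, nsmul_eq_mul] at h3

theorem mk_sq (n : ℕ) (hn : 10 ^ 7 ≤ n) (B : ℝ) (μ : ℕ → ℝ) (hB : (n : ℝ) + 1 - 1 / 4 ≤ B)
    (h0 : μ 0 = 1) (h1 : μ 1 = 1) (hone : ∀ k, 1 ≤ μ k) (hmono : Monotone μ)
    (hsum : ∑ k ∈ Finset.range (n + 1), μ k ≤ B + 1 / 4)
    (hD : ∀ i : ℕ, 2 ≤ i → i ≤ n → μ (i - 1) * (1 + 4 * (n : ℝ) / 5) ≤ B - 1 / 4 →
      B + min (B - μ (i - 1) * (1 + 4 * (n : ℝ) / 5)) (B / 2) ≤
        2 * ((n : ℝ) + 1 - i) + ∑ k ∈ Finset.range i, μ k + 1 / 4)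
    (hK : B ≤ 2 * (1 + 4 * (n : ℝ) / 5) - 1 → ∀ k : ℕ, 2 ≤ k → k ≤ n →
      (1 + 4 * (n : ℝ) / 5) * μ (k - 1) ≤ B - 1 / 4 →
        KI n k B (1 + 4 * (n : ℝ) / 5) (∑ a ∈ Finset.range k, μ a) (μ (k - 1)) (1 / 4)) :
    ∃ (h t : ℝ) (M w : ℕ → ℝ), Sq n h t M w := by
  have hnR : (10 : ℝ) ^ 7 ≤ n := by exact_mod_cast hn
  have hN0 : (0 : ℝ) < (n : ℝ) + 1 := by positivity
  obtain ⟨h, hh⟩ : ∃ h : ℝ, h * ((n : ℝ) + 1) = 1 := ⟨1 / ((n : ℝ) + 1), by field_simp⟩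
  have hpos : 0 < h := by
    by_contra h1
    push Not at h1
    nlinarith
  have hh7 : h ≤ 1 / 10 ^ 7 := by
    rw [le_div_iff₀ (by positivity)]
    nlinarith
  have hΩ : h * (1 + 4 * (n : ℝ) / 5) = cN h := by
    unfold cN
    linarith
  have hΩ1 : 1 ≤ 1 + 4 * (n : ℝ) / 5 := by linarith
  have hs2 : ∑ k ∈ Finset.range 2, μ k = 2 := by
    rw [Finset.sum_range_succ, Finset.sum_range_one, h0, h1]
    norm_num
  have hB2 : B ≤ 2 * (1 + 4 * (n : ℝ) / 5) - 1 := by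
    refine B_le_two n (by omega) B (1 / 4) (by norm_num) le_rfl fun h2 => ?_
    have h3 := hD 2 le_rfl (by omega)
    have h4 : μ (2 - 1) = 1 := h1
    rw [h4, hs2] at h3
    exact_mod_cast h3 h2
  have hB6 : B ≤ 6 / 5 * ((n : ℝ) + 1) := by
    refine B_le_six n (by omega) B (1 / 4) (by norm_num) le_rfl fun h2 => ?_
    have h3 := hK hB2 2 le_rfl (by omega)
    have h4 : μ (2 - 1) = 1 := h1
    rw [h4, hs2] at h3
    exact h3 h2
  have ht0 : 1 - h / 4 ≤ h * B := by nlinarith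
  have ht1 : h * B ≤ 6 / 5 := by nlinarith
  have hc : 4 / 5 ≤ cN h := by
    unfold cN
    linarith
  refine ⟨h, h * B - 1, fun k => h * (∑ a ∈ Finset.range k, μ a - k), fun k => μ (k - 1) - 1,
    ⟨hh, hh7, by linarith, by linarith, fun k => mul_nonneg hpos.le (sub_nonneg.2 (ns_ge μ hone k)),
      fun k => sub_nonneg.2 (hone _), ?_, ?_, ?_, ?_, ?_⟩⟩
  · intro k k' hk hkk
    have h2 := mul_le_mul_of_nonneg_left (ns_step μ hmono k k' hk hkk) hpos.le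
    nlinarith
  · intro k hk
    have h2 := mul_le_mul_of_nonneg_left (ns_le μ hmono k) hpos.le
    nlinarith
  · intro k hk hkn
    have h2 := mul_le_mul_of_nonneg_left (ns_step μ hmono k (n + 1) hk hkn) hpos.le
    have h3 := mul_le_mul_of_nonneg_left hsum hpos.le
    push_cast at h2
    have e1 : h * (∑ a ∈ Finset.range k, μ a - k) + (1 - h * k) * (μ (k - 1) - 1) =
        h * (∑ a ∈ Finset.range k, μ a + ((n : ℝ) + 1 - k) * μ (k - 1)) - 1 +
          (1 - h * ((n : ℝ) + 1)) * μ (k - 1) := by ring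
    rw [e1, hh]
    linarith
  · intro k hk hkn
    by_cases hA : μ (k - 1) * (1 + 4 * (n : ℝ) / 5) ≤ B - 1 / 4
    · left
      have h2 := hD k hk hkn hA
      have h3 : B - μ (k - 1) * (1 + 4 * (n : ℝ) / 5) ≤ B / 2 := by
        nlinarith [hone (k - 1)]
      rw [min_eq_left h3] at h2
      have h4 := mul_le_mul_of_nonneg_left h2 hpos.le
      have h5 := mul_le_mul_of_nonneg_left hA hpos.le
      have h6 : h * (μ (k - 1) * (1 + 4 * (n : ℝ) / 5)) = cN h * μ (k - 1) := by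
        rw [← hΩ]
        ring
      rw [h6] at h5
      have h7 : μ (k - 1) ≤ 3 / 2 := by nlinarith [hone (k - 1)]
      have h8 : cN h * μ (k - 1) = 4 / 5 * μ (k - 1) + h / 5 * μ (k - 1) := by
        unfold cN
        ring
      have h9 : h / 5 * μ (k - 1) ≤ h / 5 * (3 / 2) :=
        mul_le_mul_of_nonneg_left h7 (by positivity)
      have e1 : h * (B + (B - μ (k - 1) * (1 + 4 * (n : ℝ) / 5))) =
          2 * (h * B) - h * (μ (k - 1) * (1 + 4 * (n : ℝ) / 5)) := by ring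
      have e2 : h * (2 * ((n : ℝ) + 1 - k) + ∑ a ∈ Finset.range k, μ a + 1 / 4) =
          2 * (h * ((n : ℝ) + 1)) - 2 * (h * k) + h * ∑ a ∈ Finset.range k, μ a + h / 4 := by ring
      rw [e1, e2, h6, hh, h8] at h4
      have e3 : h * (∑ a ∈ Finset.range k, μ a - k) =
          h * ∑ a ∈ Finset.range k, μ a - h * k := by ring
      rw [e3]
      linarith
    · right
      push Not at hA
      have h5 := mul_lt_mul_of_pos_left hA hpos
      have h6 : h * (μ (k - 1) * (1 + 4 * (n : ℝ) / 5)) = cN h * μ (k - 1) := by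
        rw [← hΩ]
        ring
      have h8 : cN h * μ (k - 1) = 4 / 5 * μ (k - 1) + h / 5 * μ (k - 1) := by
        unfold cN
        ring
      rw [h6, h8] at h5
      by_cases hw : μ (k - 1) ≤ 5
      · have h9 : h / 5 * μ (k - 1) ≤ h / 5 * 5 := mul_le_mul_of_nonneg_left hw (by positivity)
        linarith
      · push Not at hw
        linarith
  · intro k hk hkn hw

    refine KI_norm n k B (1 + 4 * (n : ℝ) / 5) (∑ a ∈ Finset.range k, μ a) (μ (k - 1)) (1 / 4) h hh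
      rfl (by norm_num) (by norm_num) (hK hB2 k hk hkn ?_)
    have h7 : μ (k - 1) ≤ 3 / 2 := by linarith
    have h8 : cN h * μ (k - 1) = 4 / 5 * μ (k - 1) + h / 5 * μ (k - 1) := by
      unfold cN
      ring
    have h9 : h / 5 * μ (k - 1) ≤ h / 5 * (3 / 2) :=
      mul_le_mul_of_nonneg_left h7 (by positivity)
    have h10 : h * ((1 + 4 * (n : ℝ) / 5) * μ (k - 1)) ≤ h * (B - 1 / 4) := by
      have e1 : h * ((1 + 4 * (n : ℝ) / 5) * μ (k - 1)) = cN h * μ (k - 1) := by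
        rw [← hΩ]
        ring
      rw [e1, h8]
      linarith
    exact le_of_mul_le_mul_left h10 hpos

end Pool.Agent.Lib.H42Y
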