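import Pool.Agent.Lib.H42W.FN
import Pool.Agent.Lib.H42Y.DA6
import Pool.Agent.Lib.H42Y.NS
import Pool.Agent.Lib.H42Y.CS4

/-!
# Chunk FIN (S/M)
The theorem.

Proof. `not_noStar`: `system` with `ω = 4n/5`, `ε = 1/4`, then `mk_sq`, `no_sq`. `four_fifths`: as the proof of `H42W.star_lower` (`Lib/H42W/FN.lean`): `4n/5 ∈ StarSet n ζ`, otherwise `NoStar n ζ (4n/5) X0` for some `X0`; then `le_sSup`.
-/

open Polynomial Filter

namespace Pool.Agent.Lib.H42Y

theorem not_noStar (n : ℕ) (hn : 10 ^ 7 ≤ n) (ζ : ℝ) (hζ : Transcendental ℤ ζ) (X0 : ℝ) :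
    ¬ H42W.NoStar n ζ (4 * (n : ℝ) / 5) X0 := by
  intro hno
  have hn2 : 2 ≤ n := le_trans (by norm_num) hn
  have hω : (0 : ℝ) ≤ 4 * (n : ℝ) / 5 := by positivity
  obtain ⟨B, μ, hB, h0, h1, hone, hmono, hsum, hD, hK⟩ :=
    system n hn2 ζ hζ (4 * (n : ℝ) / 5) X0 hω hno (1 / 4) (by norm_num)
  obtain ⟨h, t, M, w, S⟩ := mk_sq n hn B μ hB h0 h1 hone hmono hsum hD hK
  exact no_sq n h t M w S

theorem four_fifths (n : ℕ) (hn : 10 ^ 7 ≤ n) (ζ : ℝ) (hζ : Transcendental ℤ ζ) :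
    ((4 * (n : ℝ) / 5 : ℝ) : EReal) ≤ H42W.starExp n ζ := by
  have hn2 : 2 ≤ n := le_trans (by norm_num) hn
  have key : 4 * (n : ℝ) / 5 ∈ H42W.StarSet n ζ := by
    by_contra hcon
    unfold H42W.StarSet at hcon
    rw [Set.mem_ofPred_eq, Filter.not_frequently] at hcon
    obtain ⟨X1, hX1⟩ := Filter.eventually_atTop.1 hcon
    refine not_noStar n hn ζ hζ X1 ?_
    intro X α P hX hP hd hα hh
    by_contra hlt
    rw [not_lt] at hlt
    refine hX1 X hX ⟨α, P, ?_, hP, hd, hα, hh, ?_, hlt⟩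
    · rintro rfl
      have e0 : P.coeff 0 = 0 := by
        have e1 := Polynomial.coeff_zero_eq_aeval_zero' (A := ℝ) P
        rw [hα, eq_intCast] at e1
        exact_mod_cast e1
      obtain ⟨Q, hQ⟩ := Polynomial.X_dvd_iff.2 e0
      rcases hP.isUnit_or_isUnit hQ with hu | hu
      · exact Polynomial.not_isUnit_X hu
      · have e2 := Polynomial.natDegree_eq_zero_of_isUnit hu
        have e3 := Polynomial.natDegree_mul_le (p := (Polynomial.X : ℤ[X])) (q := Q)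
        rw [← hQ, hd, e2] at e3
        have e4 := Polynomial.natDegree_X_le (R := ℤ)
        omega
    · rw [abs_pos, sub_ne_zero]
      rintro rfl
      exact hζ ⟨P, hP.ne_zero, hα⟩
  exact le_sSup ⟨_, key, rfl⟩

end Pool.Agent.Lib.H42Y
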