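import Pool.Agent.Lib.H42Y.TB4

/-!
# Chunk GF (M)
Gelfond's inequality for Taylor coefficients.

Proof. Put `P = taylor ζ p`, `Q = taylor ζ q` (`taylor_mul`: `taylor ζ (p q) = P Q`; degrees are kept). If `p * q = 0` one factor is 0 and the left side is 0. Otherwise all
degrees are `< M`. Let `m` denote the Mahler measure of the image in `ℂ[X]` (`Polynomial.mahlerMeasure`, multiplicative: `mahlerMeasure_mul`). With `H(F)` the largest absolute value of a coefficient of `F`:
`H(F) ≤ 2^(deg F) m(F)` and `m(F) ≤ (deg F + 1) H(F)` (see how `Lib/H70W/Main.lean` does it for integer polynomials: `H70W.mm`, `mm_le_height`, and the Mathlib lemmas used there: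
`Polynomial.norm_coeff_le_choose_mul_mahlerMeasure`, `mahlerMeasure_le_sum_norm_coeff`). So `H(P) H(Q) ≤ 2^M m(P) 2^M m(Q) = 4^M m(P Q) ≤ 4^M M H(PQ)`. And `nm M ζ p = H(P)` when `natDegree p < M`.
-/

open Polynomial

namespace Pool.Agent.Lib.H42Y

/-- The Mahler measure of the image in `ℂ[X]`. -/
private noncomputable def gf_m (F : ℝ[X]) : ℝ := (F.map (algebraMap ℝ ℂ)).mahlerMeasure

private lemma gf_coeff_le (M : ℕ) (ζ : ℝ) (p : ℝ[X]) (hp : p.natDegree < M) (i : ℕ) :
    |(taylor ζ p).coeff i| ≤ nm M ζ p := by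
  by_cases hi : i < M
  · have h := norm_le_pi_norm (tv M ζ (fun _ => 1) p) ⟨i, hi⟩
    simpa [tv, nm] using h
  · have h0 : (taylor ζ p).coeff i = 0 := by
      apply coeff_eq_zero_of_natDegree_lt
      rw [natDegree_taylor]
      omega
    rw [h0, abs_zero]
    exact norm_nonneg _

private lemma gf_nm_le (M : ℕ) (ζ : ℝ) (p : ℝ[X]) (K : ℝ) (hK : 0 ≤ K)
    (h : ∀ i, |(taylor ζ p).coeff i| ≤ K) : nm M ζ p ≤ K := by
  unfold nm
  rw [pi_norm_le_iff_of_nonneg hK]
  intro i
  simpa [tv] using h i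

private lemma gf_nm_le_m (M : ℕ) (ζ : ℝ) (p : ℝ[X]) (hp : p.natDegree < M) :
    nm M ζ p ≤ 2 ^ M * gf_m (taylor ζ p) := by
  have hm0 : 0 ≤ gf_m (taylor ζ p) := mahlerMeasure_nonneg _
  apply gf_nm_le M ζ p _ (by positivity)
  intro i
  have h := norm_coeff_le_choose_mul_mahlerMeasure i ((taylor ζ p).map (algebraMap ℝ ℂ))
  rw [coeff_map] at h
  have h1 : ‖(algebraMap ℝ ℂ) ((taylor ζ p).coeff i)‖ = |(taylor ζ p).coeff i| := by
    simp
  rw [h1, natDegree_map_eq_of_injective (algebraMap ℝ ℂ).injective, natDegree_taylor] at h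
  refine h.trans ?_
  have h2 : (p.natDegree.choose i : ℝ) ≤ 2 ^ p.natDegree := by
    have := Nat.choose_le_two_pow p.natDegree i
    exact_mod_cast this
  have h3 : (2 : ℝ) ^ p.natDegree ≤ 2 ^ M := pow_le_pow_right₀ (by norm_num) hp.le
  exact mul_le_mul_of_nonneg_right (h2.trans h3) hm0

private lemma gf_m_le (M : ℕ) (ζ : ℝ) (p : ℝ[X]) (hp : p.natDegree < M) :
    gf_m (taylor ζ p) ≤ M * nm M ζ p := by
  have h := mahlerMeasure_le_sum_norm_coeff ((taylor ζ p).map (algebraMap ℝ ℂ))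
  unfold gf_m
  refine h.trans ?_
  rw [Polynomial.sum_over_range' _ (by simp) M]
  · have h1 : ∀ i ∈ Finset.range M, ‖((taylor ζ p).map (algebraMap ℝ ℂ)).coeff i‖ ≤ nm M ζ p := by
      intro i _
      rw [coeff_map]
      have h1 : ‖(algebraMap ℝ ℂ) ((taylor ζ p).coeff i)‖ = |(taylor ζ p).coeff i| := by
        simp
      rw [h1]
      exact gf_coeff_le M ζ p hp i
    refine (Finset.sum_le_sum h1).trans ?_
    simp
  · rw [natDegree_map_eq_of_injective (algebraMap ℝ ℂ).injective, natDegree_taylor]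
    exact hp

theorem gelfond (M : ℕ) (ζ : ℝ) : ∃ K : ℝ, 1 ≤ K ∧ ∀ p q : ℝ[X], (p * q).natDegree < M →
    nm M ζ p * nm M ζ q ≤ K * nm M ζ (p * q) := by
  refine ⟨4 ^ M * (M + 1), ?_, ?_⟩
  · have h1 : (1 : ℝ) ≤ 4 ^ M := one_le_pow₀ (by norm_num)
    have h2 : (0 : ℝ) ≤ M := by positivity
    nlinarith
  · intro p q hpq
    have hz : nm M ζ (0 : ℝ[X]) = 0 := by
      apply le_antisymm
      · apply gf_nm_le M ζ 0 0 le_rfl
        intro i
        simp
      · exact norm_nonneg _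
    have hn : ∀ p : ℝ[X], 0 ≤ nm M ζ p := fun p => norm_nonneg _
    by_cases hp : p = 0
    · rw [hp, hz, zero_mul, zero_mul, hz, mul_zero]
    by_cases hq : q = 0
    · rw [hq, hz, mul_zero, mul_zero, hz, mul_zero]
    have hd : (p * q).natDegree = p.natDegree + q.natDegree := natDegree_mul hp hq
    have hp1 : p.natDegree < M := by omega
    have hq1 : q.natDegree < M := by omega
    have a1 := gf_nm_le_m M ζ p hp1
    have a2 := gf_nm_le_m M ζ q hq1
    have a3 := gf_m_le M ζ (p * q) hpq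
    have a4 : gf_m (taylor ζ (p * q)) = gf_m (taylor ζ p) * gf_m (taylor ζ q) := by
      unfold gf_m
      rw [taylor_mul, Polynomial.map_mul, mahlerMeasure_mul]
    have b1 : 0 ≤ gf_m (taylor ζ p) := mahlerMeasure_nonneg _
    have b2 : 0 ≤ gf_m (taylor ζ q) := mahlerMeasure_nonneg _
    calc nm M ζ p * nm M ζ q ≤ (2 ^ M * gf_m (taylor ζ p)) * (2 ^ M * gf_m (taylor ζ q)) :=
          mul_le_mul a1 a2 (hn q) (by positivity)
      _ = 4 ^ M * gf_m (taylor ζ (p * q)) := by
          rw [a4]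
          have : (4 : ℝ) ^ M = 2 ^ M * 2 ^ M := by rw [← mul_pow]; norm_num
          rw [this]; ring
      _ ≤ 4 ^ M * (M * nm M ζ (p * q)) := by gcongr
      _ ≤ 4 ^ M * (M + 1) * nm M ζ (p * q) := by
          have := hn (p * q)
          have h4 : (0 : ℝ) < 4 ^ M := by positivity
          nlinarith [mul_nonneg h4.le this]

end Pool.Agent.Lib.H42Y
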