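import Pool.Agent.Lib.H42Y.AS1
import Pool.Agent.Lib.H42Y.AS2
import Pool.Agent.Lib.H42Y.CC
import Pool.Agent.Lib.H42Y.CH1
import Pool.Agent.Lib.H42Y.CH2

/-!
# Chunk KY1 (M)
The exponents `f i = log (cov (L i)) / log Z` along the chain.

Proof. `K` is the maximum of the constants of `cost`, `cost_step`, `cc (2n+4) ζ`. `w2 (Z^B) (Z^δ)` is positive and nonincreasing (`Z ≥ 1`, `0 ≤ δ ≤ B`). All covolumes are positive (`cov_pos`), so take logarithms and divide by `log Z > 0`; `log K ≤ e * log Z`. (1) `cc` for `V = L (i+1)` (`Chn.up_eq`, `dn_eq`, `deg`; `n + J + 2 < 2n + 4`). (2) `full2` and `Chn.full`.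
(3) `cost_step`: `L (d+1) = degreeLT ℚ (n+J+1) = up^[J] (Vk y k)` (`hfull`), `L d = up^[J-1] (Vk y k)`, dimensions `k + ρ + 2 J` and `k + ρ + 2 (J-1)` (`hdim`; `j1 ≤ J - 1`). (4) `cost` for `j = j1, J - 1` (`Chn.mid`, `Chn.top`). (5) `cost` for `j = J` and `full2`.
-/

open Polynomial

namespace Pool.Agent.Lib.H42Y

private theorem KY1_log {x K Z a e : ℝ} (hx : 0 < x) (hZ : 1 < Z) (hKe : K ≤ Z ^ e)
    (h : x ≤ K * Z ^ a) : Real.log x / Real.log Z ≤ a + e := by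
  have hZ0 : 0 < Z := by linarith
  have hl : 0 < Real.log Z := Real.log_pos hZ
  rw [div_le_iff₀ hl]
  have h1 : x ≤ Z ^ (a + e) := by
    rw [Real.rpow_add hZ0, mul_comm]
    exact h.trans (mul_le_mul_of_nonneg_right hKe (Real.rpow_nonneg hZ0.le a))
  have h2 := Real.log_le_log hx h1
  rwa [Real.log_rpow hZ0] at h2

private theorem KY1_pos {Y D : ℝ} (hY : 0 < Y) (hD : 0 < D) : ∀ c, 0 < w2 Y D c
  | 0 => hY
  | 1 => hD
  | _ + 2 => one_pos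

private theorem KY1_anti {Y D : ℝ} (hYD : D ≤ Y) (hD : 1 ≤ D) : ∀ c, w2 Y D (c + 1) ≤ w2 Y D c
  | 0 => hYD
  | 1 => hD
  | _ + 2 => le_refl _

private theorem KY1_full {M m : ℕ} (hm : m ≤ M) (h2 : 2 ≤ m) (ζ : ℝ) {Z B δ : ℝ} (hZ : 1 < Z) :
    B + δ ≤ Real.log (cov M ζ (w2 (Z ^ B) (Z ^ δ)) (degreeLT ℚ m)) / Real.log Z := by
  have hZ0 : 0 < Z := by linarith
  have hl : 0 < Real.log Z := Real.log_pos hZ
  have h1 := full2 M m hm h2 ζ (Z ^ B) (Z ^ δ) (Real.rpow_pos_of_pos hZ0 _)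
    (Real.rpow_pos_of_pos hZ0 _)
  rw [← Real.rpow_add hZ0] at h1
  have h3 := Real.log_le_log (Real.rpow_pos_of_pos hZ0 _) h1
  rw [Real.log_rpow hZ0] at h3
  rwa [le_div_iff₀ hl]

theorem ky1 (n : ℕ) (hn : 2 ≤ n) (ζ : ℝ) (hζ : ζ ≠ 0) : ∃ K : ℝ, 1 ≤ K ∧
    ∀ (k J ρ j1 d r : ℕ) (Z B δ e : ℝ) (y : ℕ → ℤ[X]) (μ : ℕ → ℝ)
    (L : ℕ → Submodule ℚ ℚ[X]), 1 < Z → 0 < e → K ≤ Z ^ e → 0 ≤ δ → δ ≤ B →
    Dat n k ζ Z B δ e y μ → 2 ≤ k → k ≤ n → 1 ≤ J → k + J + ρ = n + 1 → j1 < J →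
    up^[J] (Vk y k) = degreeLT ℚ (n + J + 1) →
    (∀ j, j1 ≤ j → j ≤ J →
      Module.finrank ℚ (up^[j] (Vk y k) : Submodule ℚ ℚ[X]) = k + ρ + 2 * j) →
    Chn n J j1 (Vk y k) d r L → ∀ f : ℕ → ℝ,
    (∀ i, f i = Real.log (cov (2 * n + 4) ζ (w2 (Z ^ B) (Z ^ δ)) (L i)) / Real.log Z) →
      (∀ i < d, f (i + 2) + f i ≤ 2 * f (i + 1) + e) ∧ B + δ ≤ f (d + 1) ∧
      f (d + 1) ≤ f d + 2 * μ (k - 1) + 3 * e ∧
      f (d + 1 + j1 - J) ≤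
        ∑ a ∈ Finset.range k, μ a + 2 * j1 + ρ * μ (k - 1) + (3 * n + 2) * e ∧
      f d ≤ ∑ a ∈ Finset.range k, μ a + 2 * ((J : ℝ) - 1) + ρ * μ (k - 1) + (3 * n + 2) * e := by
  obtain ⟨K1, hK1, hcost⟩ := cost n ζ
  obtain ⟨K2, hK2, hstep⟩ := cost_step n ζ
  obtain ⟨K3, hK3, hcc⟩ := cc (2 * n + 4) ζ hζ
  refine ⟨max K1 (max K2 K3), hK1.trans (le_max_left _ _), ?_⟩
  intro k J ρ j1 d r Z B δ e y μ L hZ he hKe hδ0 hδB hdat hk2 hkn hJ1 hkJ hj1 hfull hdim hL f hf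
  have hZ0 : 0 < Z := by linarith
  have hl : 0 < Real.log Z := Real.log_pos hZ
  have hKe1 : K1 ≤ Z ^ e := (le_max_left _ _).trans hKe
  have hKe2 : K2 ≤ Z ^ e := ((le_max_left _ _).trans (le_max_right _ _)).trans hKe
  have hKe3 : K3 ≤ Z ^ e := ((le_max_right _ _).trans (le_max_right _ _)).trans hKe
  have hYpos : 0 < Z ^ B := Real.rpow_pos_of_pos hZ0 _
  have hDpos : 0 < Z ^ δ := Real.rpow_pos_of_pos hZ0 _
  have htpos : ∀ c, 0 < w2 (Z ^ B) (Z ^ δ) c := KY1_pos hYpos hDpos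
  have htanti : ∀ c, w2 (Z ^ B) (Z ^ δ) (c + 1) ≤ w2 (Z ^ B) (Z ^ δ) c :=
    KY1_anti (Real.rpow_le_rpow_of_exponent_le hZ.le hδB) (Real.one_le_rpow hZ.le hδ0)
  have hm : n + J + 1 ≤ 2 * n + 4 := by omega
  have hpos : ∀ i ≤ d + 1, 0 < cov (2 * n + 4) ζ (w2 (Z ^ B) (Z ^ δ)) (L i) := fun i hi =>
    cov_pos (2 * n + 4) (n + J + 1) hm ζ _ htpos (L i) (hL.deg i hi)
  have hLfull : L (d + 1) = up^[J] (Vk y k) := hL.full.trans hfull.symm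
  have hJd := hL.hJ
  refine ⟨?_, ?_, ?_, ?_, ?_⟩
  · intro i hi
    have h1 := hcc (w2 (Z ^ B) (Z ^ δ)) htpos htanti (n + J + 1) (L (i + 1)) (by omega)
      (hL.deg (i + 1) (by omega))
    rw [hL.up_eq i hi, hL.dn_eq i hi] at h1
    have p0 := hpos i (by omega)
    have p1 := hpos (i + 1) (by omega)
    have p2 := hpos (i + 2) (by omega)
    have h2 := Real.log_le_log (mul_pos p2 p0) h1
    rw [Real.log_mul p2.ne' p0.ne', Real.log_mul (by linarith : K3 ≠ 0) (pow_pos p1 2).ne',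
      Real.log_pow] at h2
    have h3 := Real.log_le_log (by linarith : 0 < K3) hKe3
    rw [Real.log_rpow hZ0] at h3
    rw [hf i, hf (i + 1), hf (i + 2), ← add_div]
    rw [div_le_iff₀ hl, add_mul, mul_assoc, div_mul_cancel₀ _ hl.ne']
    push_cast at h2
    linarith
  · rw [hf (d + 1), hL.full]
    exact KY1_full hm (by omega) ζ hZ
  · have h1 := hstep k J Z B δ e y μ hZ.le he.le hdat hk2 (by omega) hJ1 (by omega) (by
      rw [hdim J hj1.le le_rfl, hdim (J - 1) (by omega) (by omega)]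
      omega)
    rw [← hLfull, ← hL.top] at h1
    have pd := hpos d (by omega)
    have pd1 := hpos (d + 1) le_rfl
    have h2 : cov (2 * n + 4) ζ (w2 (Z ^ B) (Z ^ δ)) (L (d + 1)) /
        cov (2 * n + 4) ζ (w2 (Z ^ B) (Z ^ δ)) (L d) ≤ K2 * Z ^ (2 * μ (k - 1) + 2 * e) := by
      rw [div_le_iff₀ pd]
      calc _ ≤ _ := h1
        _ = _ := by ring
    have h3 := KY1_log (div_pos pd1 pd) hZ hKe2 h2
    rw [Real.log_div pd1.ne' pd.ne', sub_div, ← hf (d + 1), ← hf d] at h3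
    linarith
  · have h1 := hcost k j1 ρ Z B δ e y μ hZ.le he.le hdat hk2 (by omega) (by omega)
      (hdim j1 le_rfl hj1.le)
    rw [← hL.mid] at h1
    have h3 := KY1_log (hpos (d + 1 + j1 - J) (by omega)) hZ hKe1 h1
    rw [← hf] at h3
    linarith
  · have h1 := hcost k (J - 1) ρ Z B δ e y μ hZ.le he.le hdat hk2 (by omega) (by omega)
      (hdim (J - 1) (by omega) (by omega))
    rw [← hL.top] at h1
    have h3 := KY1_log (hpos d (by omega)) hZ hKe1 h1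
    rw [← hf, Nat.cast_sub hJ1, Nat.cast_one] at h3
    linarith

theorem ky1_top (n : ℕ) (hn : 2 ≤ n) (ζ : ℝ) : ∃ K : ℝ, 1 ≤ K ∧
    ∀ (k J ρ : ℕ) (Z B δ e : ℝ) (y : ℕ → ℤ[X]) (μ : ℕ → ℝ), 1 < Z → 0 < e → K ≤ Z ^ e →
    0 ≤ δ → δ ≤ B → Dat n k ζ Z B δ e y μ → 2 ≤ k → k ≤ n → 1 ≤ J → k + J + ρ = n + 1 →
    up^[J] (Vk y k) = degreeLT ℚ (n + J + 1) →
    Module.finrank ℚ (up^[J] (Vk y k) : Submodule ℚ ℚ[X]) = k + ρ + 2 * J →
      B + δ ≤ ∑ a ∈ Finset.range k, μ a + 2 * J + ρ * μ (k - 1) + (3 * n + 2) * e := by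
  obtain ⟨K1, hK1, hcost⟩ := cost n ζ
  refine ⟨K1, hK1, ?_⟩
  intro k J ρ Z B δ e y μ hZ he hKe hδ0 hδB hdat hk2 hkn hJ1 hkJ hfull hdim
  have hZ0 : 0 < Z := by linarith
  have htpos : ∀ c, 0 < w2 (Z ^ B) (Z ^ δ) c :=
    KY1_pos (Real.rpow_pos_of_pos hZ0 _) (Real.rpow_pos_of_pos hZ0 _)
  have hm : n + J + 1 ≤ 2 * n + 4 := by omega
  have h1 := hcost k J ρ Z B δ e y μ hZ.le he.le hdat hk2 (by omega) (by omega) hdim
  rw [hfull] at h1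
  have h2 := KY1_log (cov_pos (2 * n + 4) (n + J + 1) hm ζ _ htpos _ le_rfl) hZ hKe h1
  have h3 := KY1_full (B := B) (δ := δ) hm (by omega) ζ hZ
  linarith

end Pool.Agent.Lib.H42Y
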