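import Pool.Agent.Lib.H42Y.Defs

/-!
# Chunk LC1 (M)
`ℤ`-bases of the integer points of a rational subspace exist and can be extended.

Proof. For `V ≤ degreeLT ℚ m` let `Λ V` be the `ℤ`-submodule of `ℤ[X]` of the `f` with `toQ f ∈ V` (`Submodule.comap`, restrict scalars). It is contained in `degreeLT ℤ m`, which is free of
rank `m` (`Polynomial.degreeLTEquiv`), so `Λ V` is a finitely generated torsion-free, hence free, module over the PID `ℤ`. A `ℤ`-basis of `Λ V` is `ℚ`-independent after `toQ` (clear denominators; or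
`LinearIndependent.iff_fractionRing`) and spans `V` over `ℚ` (every element of `V` times a nonzero integer is the image of an integer polynomial: `IsLocalization.integerNormalization`, or a common
denominator of the coefficients), so it has `finrank ℚ V` elements. `extend_zb`: `Λ V ≤ Λ W` and `Λ W / Λ V` is torsion-free (`k f ∈ Λ V`, `k ≠ 0` gives `f ∈ Λ V`) and finitely generated, so free
(`Module.free_of_finite_type_torsion_free'`); lift a basis of the quotient to `u` in `Λ W`: then `v` together with `u` is a `ℤ`-basis of `Λ W` (independent and spanning); the number of elements of `u` is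
`finrank W - finrank V` (count dimensions over `ℚ`; `Fintype.card ι = finrank V` by `hv`). `zb_card`: `finrank_span_eq_card`.
-/

open Polynomial

namespace Pool.Agent.Lib.H42Y

private lemma lc_inj : Function.Injective toQ :=
  map_injective _ Int.cast_injective

private lemma lc_add (f g : ℤ[X]) : toQ (f + g) = toQ f + toQ g := Polynomial.map_add _

private lemma lc_smul (c : ℤ) (f : ℤ[X]) : toQ (c • f) = (c : ℚ) • toQ f := by
  unfold toQ
  ext i
  simp

/-- The integer polynomials in `V`. -/
private def lc_L (V : Submodule ℚ ℚ[X]) : Submodule ℤ ℤ[X] where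
  carrier := {f | toQ f ∈ V}
  add_mem' := by
    intro a b ha hb
    rw [Set.mem_ofPred_eq] at ha hb ⊢
    rw [lc_add]
    exact V.add_mem ha hb
  zero_mem' := by
    rw [Set.mem_ofPred_eq]
    unfold toQ
    rw [Polynomial.map_zero]
    exact V.zero_mem
  smul_mem' := by
    intro c f hf
    rw [Set.mem_ofPred_eq] at hf ⊢
    rw [lc_smul]
    exact V.smul_mem _ hf

private lemma lc_mem (V : Submodule ℚ ℚ[X]) (f : ℤ[X]) : f ∈ lc_L V ↔ toQ f ∈ V := Iff.rfl

/-- `toQ` as a linear map. -/
private noncomputable def lc_lin : ℤ[X] →ₗ[ℤ] ℚ[X] where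
  toFun := toQ
  map_add' := lc_add
  map_smul' := by
    intro c f
    rw [lc_smul]
    simp only [eq_intCast, Int.cast_eq]
    rw [← Int.cast_smul_eq_zsmul ℚ c (toQ f)]

private lemma lc_span {ι : Type} (v : ι → ℤ[X]) (f : ℤ[X])
    (hf : f ∈ Submodule.span ℤ (Set.range v)) :
    toQ f ∈ Submodule.span ℚ (Set.range fun i => toQ (v i)) := by
  induction hf using Submodule.span_induction with
  | mem x hx =>
    obtain ⟨i, rfl⟩ := hx
    exact Submodule.subset_span ⟨i, rfl⟩
  | zero =>
    unfold toQ
    rw [Polynomial.map_zero]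
    exact Submodule.zero_mem _
  | add x y _ _ hx hy =>
    rw [lc_add]
    exact Submodule.add_mem _ hx hy
  | smul c x _ hx =>
    rw [lc_smul]
    exact Submodule.smul_mem _ _ hx

private lemma lc_denom (g : ℚ[X]) : ∃ (b : ℤ) (f : ℤ[X]), b ≠ 0 ∧ toQ f = (b : ℚ) • g := by
  obtain ⟨b, hb, h⟩ := IsLocalization.integerNormalization_spec (nonZeroDivisors ℤ) g
  refine ⟨b, IsLocalization.integerNormalization (nonZeroDivisors ℤ) g,
    nonZeroDivisors.ne_zero hb, ?_⟩
  have h2 : toQ (IsLocalization.integerNormalization (nonZeroDivisors ℤ) g) = b • g := h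
  rw [h2]
  rw [← Int.cast_smul_eq_zsmul ℚ b g]

private lemma lc_zb {ι : Type} (V : Submodule ℚ ℚ[X]) (v : ι → ℤ[X])
    (hi : LinearIndependent ℤ v) (hs : Submodule.span ℤ (Set.range v) = lc_L V) : ZB V v := by
  refine ⟨?_, ?_, ?_⟩
  · rw [← LinearIndependent.iff_fractionRing (R := ℤ) (K := ℚ)]
    have h := hi.map' lc_lin (LinearMap.ker_eq_bot.mpr lc_inj)
    exact h
  · apply le_antisymm
    · rw [Submodule.span_le]
      rintro _ ⟨i, rfl⟩
      have : v i ∈ lc_L V := by
        rw [← hs]
        exact Submodule.subset_span ⟨i, rfl⟩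
      exact this
    · intro g hg
      obtain ⟨b, f, hb, hf⟩ := lc_denom g
      have h1 : f ∈ lc_L V := by
        rw [lc_mem, hf]
        exact V.smul_mem _ hg
      rw [← hs] at h1
      have h2 := lc_span v f h1
      rw [hf] at h2
      have h3 := Submodule.smul_mem _ ((b : ℚ)⁻¹) h2
      rwa [smul_smul, inv_mul_cancel₀ (by exact_mod_cast hb), one_smul] at h3
  · intro f hf
    rw [hs]
    exact hf

private lemma lc_zb_ind {ι : Type} (V : Submodule ℚ ℚ[X]) (v : ι → ℤ[X]) (hv : ZB V v) :
    LinearIndependent ℤ v := by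
  have h : LinearIndependent ℤ fun i => toQ (v i) := by
    rw [LinearIndependent.iff_fractionRing (R := ℤ) (K := ℚ)]
    exact hv.ind
  exact LinearIndependent.of_comp lc_lin h

private lemma lc_zb_span {ι : Type} (V : Submodule ℚ ℚ[X]) (v : ι → ℤ[X]) (hv : ZB V v) :
    Submodule.span ℤ (Set.range v) = lc_L V := by
  apply le_antisymm
  · intro f hf
    rw [lc_mem, ← hv.span]
    exact lc_span v f hf
  · intro f hf
    exact hv.int f hf

private lemma lc_le (m : ℕ) (V : Submodule ℚ ℚ[X]) (hV : V ≤ degreeLT ℚ m) :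
    lc_L V ≤ degreeLT ℤ m := by
  intro f hf
  have h := hV hf
  rw [mem_degreeLT] at h ⊢
  unfold toQ at h
  rwa [degree_map_eq_of_injective Int.cast_injective] at h

private lemma lc_noeth (m : ℕ) (V : Submodule ℚ ℚ[X]) (hV : V ≤ degreeLT ℚ m) :
    IsNoetherian ℤ (lc_L V) := by
  have : IsNoetherian ℤ (degreeLT ℤ m) := isNoetherian_of_linearEquiv (degreeLTEquiv ℤ m).symm
  exact isNoetherian_of_le (lc_le m V hV)

theorem zb_card {ι : Type} [Fintype ι] (V : Submodule ℚ ℚ[X]) (v : ι → ℤ[X]) (hv : ZB V v) :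
    Fintype.card ι = Module.finrank ℚ V := by
  rw [← hv.span, finrank_span_eq_card hv.ind]

private lemma lc_reindex {ι κ : Type} (e : κ ≃ ι) (V : Submodule ℚ ℚ[X]) (v : ι → ℤ[X])
    (hv : ZB V v) : ZB V fun k => v (e k) := by
  apply lc_zb
  · exact (lc_zb_ind V v hv).comp e e.injective
  · have h : Set.range (fun k => v (e k)) = Set.range v := e.surjective.range_comp v
    rw [h]
    exact lc_zb_span V v hv

theorem exists_zb (m : ℕ) (V : Submodule ℚ ℚ[X]) (hV : V ≤ degreeLT ℚ m) :
    ∃ v : Fin (Module.finrank ℚ V) → ℤ[X], ZB V v := by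
  have := lc_noeth m V hV
  let b := Module.finBasis ℤ (lc_L V)
  have h1 : LinearIndependent ℤ fun i => ((b i : lc_L V) : ℤ[X]) :=
    b.linearIndependent.map' (lc_L V).subtype (Submodule.ker_subtype _)
  have h2 : Submodule.span ℤ (Set.range fun i => ((b i : lc_L V) : ℤ[X])) = lc_L V := by
    have e : Set.range (fun i => ((b i : lc_L V) : ℤ[X])) = (lc_L V).subtype '' Set.range b := by
      rw [← Set.range_comp]
      rfl
    rw [e, Submodule.span_image, b.span_eq, Submodule.map_top, Submodule.range_subtype]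
  have h3 := lc_zb V _ h1 h2
  have h4 := zb_card V _ h3
  rw [Fintype.card_fin] at h4
  exact ⟨_, lc_reindex (finCongr h4.symm) V _ h3⟩

private lemma lc_quot (V : Submodule ℚ ℚ[X]) : Module.IsTorsionFree ℤ (ℤ[X] ⧸ lc_L V) := by
  refine ⟨?_⟩
  intro r hr x y hxy
  have hr0 : r ≠ 0 := hr.ne_zero
  obtain ⟨a, rfl⟩ := Submodule.mkQ_surjective _ x
  obtain ⟨b, rfl⟩ := Submodule.mkQ_surjective _ y
  simp only [Submodule.mkQ_apply] at hxy ⊢
  rw [← Submodule.Quotient.mk_smul, ← Submodule.Quotient.mk_smul,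
    Submodule.Quotient.eq, ← smul_sub, lc_mem, lc_smul] at hxy
  rw [Submodule.Quotient.eq, lc_mem]
  have h3 := V.smul_mem ((r : ℚ)⁻¹) hxy
  rwa [smul_smul, inv_mul_cancel₀ (by exact_mod_cast hr0), one_smul] at h3

theorem extend_zb (m : ℕ) (V W : Submodule ℚ ℚ[X]) (hW : W ≤ degreeLT ℚ m) (hVW : V ≤ W)
    {ι : Type} [Fintype ι] (v : ι → ℤ[X]) (hv : ZB V v) :
    ∃ u : Fin (Module.finrank ℚ W - Module.finrank ℚ V) → ℤ[X], ZB W (Sum.elim v u) := by
  have hN := lc_noeth m W hW
  have hT := lc_quot V
  have hfg : (lc_L W).FG := by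
    have h := hN.noetherian (⊤ : Submodule ℤ (lc_L W))
    exact (Submodule.fg_top _).mp h
  have hQfg : ((lc_L W).map (lc_L V).mkQ).FG := hfg.map _
  have hQ : Module.Finite ℤ ((lc_L W).map (lc_L V).mkQ) := Module.Finite.iff_fg.mpr hQfg
  let c := Module.finBasis ℤ ((lc_L W).map (lc_L V).mkQ)
  have hc : ∀ j, ∃ f : ℤ[X], f ∈ lc_L W ∧ (lc_L V).mkQ f =
      ((c j : (lc_L W).map (lc_L V).mkQ) : ℤ[X] ⧸ lc_L V) := by
    intro j
    have h := (c j : (lc_L W).map (lc_L V).mkQ).2
    rw [Submodule.mem_map] at h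
    exact h
  choose u hu1 hu2 using hc
  have hvi := lc_zb_ind V v hv
  have hvs := lc_zb_span V v hv
  have hvm : ∀ i, v i ∈ lc_L V := fun i => by
    rw [← hvs]
    exact Submodule.subset_span ⟨i, rfl⟩
  have hVW' : lc_L V ≤ lc_L W := fun f hf => hVW hf
  have hind : LinearIndependent ℤ (Sum.elim v u) := by
    have h1 : LinearIndependent ℤ fun i => (⟨v i, hvm i⟩ : lc_L V) :=
      LinearIndependent.of_comp (lc_L V).subtype hvi
    have h2 : LinearIndependent ℤ (Submodule.Quotient.mk (p := lc_L V) ∘ u) := by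
      have h3 : LinearIndependent ℤ fun j =>
          ((c j : (lc_L W).map (lc_L V).mkQ) : ℤ[X] ⧸ lc_L V) :=
        c.linearIndependent.map' ((lc_L W).map (lc_L V).mkQ).subtype (Submodule.ker_subtype _)
      have h4 : (Submodule.Quotient.mk (p := lc_L V) ∘ u) = fun j =>
          ((c j : (lc_L W).map (lc_L V).mkQ) : ℤ[X] ⧸ lc_L V) := by
        funext j
        exact hu2 j
      rw [h4]
      exact h3
    exact LinearIndependent.sumElim_of_quotient h1 u h2
  have hspan : Submodule.span ℤ (Set.range (Sum.elim v u)) = lc_L W := by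
    rw [Set.Sum.elim_range, Submodule.span_union, hvs]
    apply le_antisymm
    · refine sup_le hVW' ?_
      rw [Submodule.span_le]
      rintro _ ⟨j, rfl⟩
      exact hu1 j
    · intro f hf
      have h1 : (lc_L V).mkQ f ∈ (lc_L W).map (lc_L V).mkQ := Submodule.mem_map_of_mem hf
      have h2 : (lc_L W).map (lc_L V).mkQ = (Submodule.span ℤ (Set.range u)).map (lc_L V).mkQ := by
        rw [Submodule.map_span, ← Set.range_comp]
        have e : Set.range ((lc_L V).mkQ ∘ u) =
            ((lc_L W).map (lc_L V).mkQ).subtype '' Set.range c := by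
          rw [← Set.range_comp]
          congr 1
          funext j
          exact hu2 j
        rw [e, Submodule.span_image, c.span_eq, Submodule.map_top, Submodule.range_subtype]
      rw [h2, Submodule.mem_map] at h1
      obtain ⟨g, hg, hgf⟩ := h1
      have h3 : f - g ∈ lc_L V := by
        rw [← Submodule.Quotient.eq]
        exact hgf.symm
      have h4 : f = (f - g) + g := by ring
      rw [h4]
      exact Submodule.add_mem_sup h3 hg
  have hz := lc_zb W _ hind hspan
  have hcard := zb_card W _ hz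
  rw [Fintype.card_sum, Fintype.card_fin, zb_card V v hv] at hcard
  have hk : Module.finrank ℤ ((lc_L W).map (lc_L V).mkQ) =
      Module.finrank ℚ W - Module.finrank ℚ V := by omega
  refine ⟨fun j => u (finCongr hk.symm j), ?_⟩
  have hr := lc_reindex (Equiv.sumCongr (Equiv.refl ι) (finCongr hk.symm)) W _ hz
  have he : (fun k => Sum.elim v u ((Equiv.sumCongr (Equiv.refl ι) (finCongr hk.symm)) k)) =
      Sum.elim v (fun j => u (finCongr hk.symm j)) := by
    funext k
    rcases k with i | j <;> rfl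
  rw [he] at hr
  exact hr

end Pool.Agent.Lib.H42Y
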