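import Pool.Agent.Lib.H42Y.Defs

/-!
# Chunk MA1 (S)
Basic facts on the largest minor `mx u = ⨆ s : ι → Fin M, |det (u i (s j))|`.

Proof. The index type `ι → Fin M` is finite, so the supremum is over a finite set (`Set.finite_range`, `Finite.bddAbove_range`,
`le_ciSup`, `ciSup_le`, `Real.iSup_of_isEmpty` if `M = 0` and `ι` is not empty). `mx_reindex`: `Matrix.det_submatrix_equiv_self`
and the bijection `s ↦ s ∘ e` of the index types (`Equiv.iSup_congr` or two inequalities). `mx_empty`: `Matrix.det_isEmpty`.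
`mx_congr`: `u = u'` row by row. `mx_exists`: a finite supremum is attained (`exists_eq_ciSup_of_finite`), if the index type is
nonempty.
-/

open Polynomial

namespace Pool.Agent.Lib.H42Y

variable {M : ℕ} {ι κ : Type} [Fintype ι] [DecidableEq ι] [Fintype κ] [DecidableEq κ]

theorem le_mx (u : ι → Fin M → ℝ) (s : ι → Fin M) :
    |(Matrix.of fun i j : ι => u i (s j)).det| ≤ mx u :=
  le_ciSup (f := fun s : ι → Fin M => |(Matrix.of fun i j : ι => u i (s j)).det|)
    (Finite.bddAbove_range _) s

theorem mx_le (u : ι → Fin M → ℝ) (K : ℝ) (hK : 0 ≤ K)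
    (h : ∀ s : ι → Fin M, |(Matrix.of fun i j : ι => u i (s j)).det| ≤ K) : mx u ≤ K :=
  Real.iSup_le h hK

theorem mx_nonneg (u : ι → Fin M → ℝ) : 0 ≤ mx u :=
  Real.iSup_nonneg fun _ => abs_nonneg _

theorem mx_reindex (e : κ ≃ ι) (u : ι → Fin M → ℝ) : mx (fun k => u (e k)) = mx u := by
  unfold mx
  refine Equiv.iSup_congr (e.arrowCongr (Equiv.refl (Fin M))) fun s => ?_
  have h := Matrix.det_submatrix_equiv_self e
    (Matrix.of fun i j : ι => u i (s (e.symm j)))
  have h2 : (Matrix.of fun i j : ι => u i (s (e.symm j))).submatrix e e =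
      Matrix.of fun i j : κ => u (e i) (s j) := by
    ext i j
    simp [Matrix.submatrix_apply, Matrix.of_apply]
  rw [h2] at h
  rw [h]
  rfl

theorem mx_empty [IsEmpty ι] (u : ι → Fin M → ℝ) : mx u = 1 := by
  unfold mx
  simp [Matrix.det_isEmpty]

theorem mx_exists (u : ι → Fin M → ℝ) :
    mx u = 0 ∨ ∃ s : ι → Fin M, |(Matrix.of fun i j : ι => u i (s j)).det| = mx u := by
  rcases isEmpty_or_nonempty (ι → Fin M) with hE | hN
  · left
    unfold mx
    exact Real.iSup_of_isEmpty _
  · right
    exact exists_eq_ciSup_of_finite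

end Pool.Agent.Lib.H42Y
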