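import Pool.Agent.Lib.H42Y.MA1

/-!
# Chunk MA2 (S/M)
Linear changes of the rows.

Proof. `mx_lin`: for every `s` the matrix of the new family is `A * (matrix of u)` (`Matrix.det_mul`), so every minor is multiplied by
`det A`; use `le_mx`, `mx_le` in both directions (if `|det A| = 0` both sides are 0; if not, divide by `|det A|`), or
`Real.mul_iSup_of_nonneg`. `mx_elim_sub`: apply `mx_lin` on `ι ⊕ κ` with `A = Matrix.fromBlocks 1 0 (-(Matrix.of c)) 1`, of determinant 1
(`Matrix.det_fromBlocks_zero₁₂`). `mx_dep`: a nontrivial relation between the rows passes to every `s` (determinant 0: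
`Matrix.exists_vecMul_eq_zero_iff`, or `Matrix.det_eq_zero_of...`), then `mx_le` with `K = 0`.
`mx_pos`: the `ι × M` matrix has independent rows, so its rank is `card ι` and some `card ι` columns are independent (column rank = row rank);
for instance: if all minors vanish, let `W ⊆ ℝ^ι` be the span of the columns `c ↦ (u i c)_i`; if `W` is everything, choose a basis
of `ℝ^ι` among the columns (`exists_linearIndependent`/`Module.Basis.ofSpan`-type results, cardinality `card ι`), this gives an `s` with nonzero determinant; if `W` is not everything,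
there is a nonzero functional vanishing on `W`, a nontrivial relation between the rows.
-/

open Polynomial

namespace Pool.Agent.Lib.H42Y

variable {M : ℕ} {ι κ : Type} [Fintype ι] [DecidableEq ι] [Fintype κ] [DecidableEq κ]

theorem mx_lin (A : Matrix ι ι ℝ) (u : ι → Fin M → ℝ) :
    mx (fun i => ∑ j, A i j • u j) = |A.det| * mx u := by
  unfold mx
  rw [Real.mul_iSup_of_nonneg (abs_nonneg _)]
  refine iSup_congr fun s => ?_
  rw [← abs_mul, ← Matrix.det_mul]
  congr 2
  ext i j
  simp [Matrix.mul_apply, Finset.sum_apply]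

theorem mx_elim_sub (u : ι → Fin M → ℝ) (w : κ → Fin M → ℝ) (c : κ → ι → ℝ) :
    mx (Sum.elim u fun k => w k - ∑ i, c k i • u i) = mx (Sum.elim u w) := by
  have h := mx_lin (Matrix.fromBlocks (1 : Matrix ι ι ℝ) 0 (-(Matrix.of c)) (1 : Matrix κ κ ℝ))
    (Sum.elim u w)
  rw [Matrix.det_fromBlocks_zero₁₂, Matrix.det_one, Matrix.det_one, mul_one, abs_one, one_mul] at h
  rw [← h]
  congr 1
  funext x
  rcases x with i | k
  · rw [Fintype.sum_sum_type]
    simp [Matrix.one_apply]
  · rw [Fintype.sum_sum_type]
    simp [Matrix.one_apply, sub_eq_neg_add]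

theorem mx_dep (u : ι → Fin M → ℝ) (h : ¬ LinearIndependent ℝ u) : mx u = 0 := by
  refine le_antisymm (mx_le u 0 le_rfl fun s => ?_) (mx_nonneg u)
  obtain ⟨g, hg, i, hi⟩ := Fintype.not_linearIndependent_iff.mp h
  have hdet : (Matrix.of fun i j : ι => u i (s j)).det = 0 := by
    rw [← Matrix.exists_vecMul_eq_zero_iff]
    refine ⟨g, fun h0 => hi (by rw [h0]; rfl), ?_⟩
    funext j
    have h1 := congrFun hg (s j)
    simpa [Matrix.vecMul, dotProduct, Finset.sum_apply] using h1
  rw [hdet, abs_zero]

theorem mx_pos (u : ι → Fin M → ℝ) (h : LinearIndependent ℝ u) : 0 < mx u := by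
  have h1 : (Matrix.of u).rank = Fintype.card ι := LinearIndependent.rank_matrix (M := Matrix.of u) h
  rw [Matrix.rank_eq_finrank_span_cols] at h1
  have h2 : Submodule.span ℝ (Set.range (Matrix.of u).col) = ⊤ := by
    apply Submodule.eq_top_of_finrank_eq
    rw [h1, Module.finrank_fintype_fun_eq_card]
  obtain ⟨b, hb, hspan, hlin⟩ := exists_linearIndependent ℝ (Set.range (Matrix.of u).col)
  rw [h2] at hspan
  have B : Module.Basis b ℝ (ι → ℝ) := Module.Basis.mk hlin (by
    rw [Subtype.range_coe, hspan])
  have : Finite b := Module.Finite.finite_basis B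
  have : Fintype b := Fintype.ofFinite b
  have hcard : Fintype.card b = Fintype.card ι := by
    rw [← Module.finrank_eq_card_basis B, Module.finrank_fintype_fun_eq_card]
  let e : ι ≃ b := Fintype.equivOfCardEq hcard.symm
  choose s hs using fun j : ι => hb (e j).2
  have hrow : LinearIndependent ℝ ((Matrix.of fun i j : ι => u i (s j)).transpose).row := by
    have h3 : ((Matrix.of fun i j : ι => u i (s j)).transpose).row =
        (fun j => ((e j : b) : ι → ℝ)) := by
      funext j
      rw [← hs j]
      rfl
    rw [h3]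
    exact hlin.comp e e.injective
  have hunit := Matrix.linearIndependent_rows_iff_isUnit.mp hrow
  have hdet : (Matrix.of fun i j : ι => u i (s j)).det ≠ 0 := by
    rw [← Matrix.det_transpose]
    exact ((Matrix.isUnit_iff_isUnit_det _).mp hunit).ne_zero
  exact lt_of_lt_of_le (abs_pos.mpr hdet) (le_mx u s)

end Pool.Agent.Lib.H42Y
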