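import Pool.Agent.Lib.H42Y.MA1

/-!
# Chunk MA4 (M)
Cramer's rule: a vector is close to the span of the others when the minor is small.

Proof. If `mx u = 0` take `c = 0`. Otherwise (`mx_exists`) let `s` be such that `|det A| = mx u > 0`, `A = (u i (s j))_(i,j)`. As `A` is
invertible there is `c` with `∑ i, c i * u i (s j) = α (s j)` for all `j` (`c = (α ∘ s) ᵥ* A⁻¹`). Put `β = α - ∑ i, c i • u i`, so
`β (s j) = 0` for all `j`. For every column `x : Fin M` the minor of `Sum.elim u β` with the columns `Sum.elim s (fun _ => x)` is (block triangular, the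
bottom left block is 0: `Matrix.det_fromBlocks_zero₂₁`) `det A * β x`, and it equals the minor of `Sum.elim u α` with the same columns (row operation; e.g.
the matrix of `Sum.elim u β` is `fromBlocks 1 0 (-c) 1` times the other one, of determinant 1). So `|β x| * mx u ≤ mx (Sum.elim u α)` for every `x`
(`le_mx`), which gives the claim (`pi_norm_le_iff_of_nonneg`, or divide by `mx u > 0`).
-/

open Polynomial

namespace Pool.Agent.Lib.H42Y

variable {M : ℕ} {ι : Type} [Fintype ι] [DecidableEq ι]

theorem mx_near (u : ι → Fin M → ℝ) (α : Fin M → ℝ) :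
    ∃ c : ι → ℝ, ‖α - ∑ i, c i • u i‖ * mx u ≤ mx (Sum.elim u fun _ : Unit => α) := by
  have hnn : 0 ≤ mx (Sum.elim u fun _ : Unit => α) := mx_nonneg _
  by_cases hz : mx u = 0
  · refine ⟨0, ?_⟩
    rw [hz, mul_zero]
    exact hnn
  rcases mx_exists u with h0 | ⟨s, hs⟩
  · exact absurd h0 hz
  obtain ⟨A, hA⟩ : ∃ A : Matrix ι ι ℝ, A = Matrix.of fun i j : ι => u i (s j) := ⟨_, rfl⟩
  rw [← hA] at hs
  have hdet : A.det ≠ 0 := by
    intro h
    rw [h, abs_zero] at hs
    exact hz hs.symm
  have hu : IsUnit A.det := hdet.isUnit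
  obtain ⟨c, hc⟩ : ∃ c : ι → ℝ, c = Matrix.vecMul (fun j => α (s j)) A⁻¹ := ⟨_, rfl⟩
  refine ⟨c, ?_⟩
  have key : ∀ x : Fin M, |(α - ∑ i, c i • u i) x| * mx u ≤
      mx (Sum.elim u fun _ : Unit => α) := by
    intro x
    have h1 := le_mx (Sum.elim u fun _ : Unit => α) (Sum.elim s fun _ => x)
    have h2 : (Matrix.of fun i j : ι ⊕ Unit =>
        (Sum.elim u fun _ : Unit => α) i ((Sum.elim s fun _ => x) j)) =
        Matrix.fromBlocks A (Matrix.of fun i _ => u i x) (Matrix.of fun _ j => α (s j))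
          (Matrix.of fun _ _ => α x) := by
      ext i j
      rcases i with i | i <;> rcases j with j | j <;>
        simp [hA, Matrix.fromBlocks, Matrix.of_apply]
    let _ := Matrix.invertibleOfIsUnitDet A hu
    have h3 : (Matrix.fromBlocks A (Matrix.of fun i (_ : Unit) => u i x)
        (Matrix.of fun (_ : Unit) j => α (s j)) (Matrix.of fun (_ _ : Unit) => α x)).det =
        A.det * (α - ∑ i, c i • u i) x := by
      rw [Matrix.det_fromBlocks₁₁, Matrix.invOf_eq_nonsing_inv]
      congr 1
      rw [Matrix.det_unique, Pi.sub_apply, Finset.sum_apply, Matrix.sub_apply, Matrix.of_apply,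
        Matrix.mul_apply]
      congr 1
      refine Finset.sum_congr rfl fun i _ => ?_
      rw [Pi.smul_apply, smul_eq_mul, hc, Matrix.of_apply]
      congr 1
    rw [h2, h3, abs_mul, hs, mul_comm] at h1
    exact h1
  have hpos : 0 < mx u := lt_of_le_of_ne (mx_nonneg u) (Ne.symm hz)
  rw [← le_div_iff₀ hpos, pi_norm_le_iff_of_nonneg (div_nonneg hnn hpos.le)]
  intro x
  rw [le_div_iff₀ hpos, Real.norm_eq_abs]
  exact key x

end Pool.Agent.Lib.H42Y
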