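import Pool.Agent.Lib.H42Y.MA2
import Pool.Agent.Lib.H42Y.MA3
import Pool.Agent.Lib.H42Y.MA4

/-!
# Chunk MA5 (M)
Submodularity of the covolume (a Fischer inequality for sup norms).

Proof. `K = (M + 1)^M`. Induction on `c` with the constant `(M+1)^c`: `c = 0`: both sides are `mx (u, v) * mx u` (`mx_reindex`, the index types `(Fin a ⊕ Fin b) ⊕ Fin 0`
and `Fin a ⊕ Fin 0`). Step: let `w` have `c + 1` vectors, `w'` the first `c`, `γ` the last. By `mx_near` applied to the family `(u, w')` and `γ` there is a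
combination `x` of `u, w'` with `‖γ - x‖ * mx (u, w') ≤ mx (u, w', γ) = mx (u, w)`. And `mx (u, v, w) = mx (u, v, w', γ - x)` (`mx_elim_sub`)
`≤ (a + b + c + 1) * ‖γ - x‖ * mx (u, v, w')` (`mx_snoc_le`). So `mx (u,v,w) * mx u ≤ (a+b+c+1) ‖γ - x‖ (M+1)^c mx (u,v) mx (u,w') ≤
(a+b+c+1) (M+1)^c mx (u,v) mx (u,w)`. If `a + b + c + 1 > M` the left side is 0 (`mx_card`), otherwise the factor is at most `M + 1`. For the number
of vectors `c > M` the left side is 0. All regroupings of the index types by `mx_reindex`.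
-/

open Polynomial

namespace Pool.Agent.Lib.H42Y

/-- The equivalence `(X ⊕ Fin c) ⊕ Unit ≃ X ⊕ Fin (c + 1)`. -/
private def MA5_e (X : Type) (c : ℕ) : (X ⊕ Fin c) ⊕ Unit ≃ X ⊕ Fin (c + 1) where
  toFun := Sum.elim (Sum.map id Fin.castSucc) fun _ => Sum.inr (Fin.last c)
  invFun := Sum.elim (fun x => Sum.inl (Sum.inl x))
    fun i => Fin.lastCases (motive := fun _ => (X ⊕ Fin c) ⊕ Unit) (Sum.inr ()) (fun i => Sum.inl (Sum.inr i)) i
  left_inv := by
    rintro ((x | i) | u) <;> simp
  right_inv := by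
    rintro (x | i)
    · simp
    · refine Fin.lastCases ?_ (fun i => ?_) i <;> simp

private theorem MA5_snoc {M : ℕ} {X : Type} [Fintype X] [DecidableEq X] (c : ℕ) (U : X → Fin M → ℝ)
    (w : Fin (c + 1) → Fin M → ℝ) :
    mx (Sum.elim (Sum.elim U fun i : Fin c => w i.castSucc) fun _ : Unit => w (Fin.last c)) =
      mx (Sum.elim U w) := by
  rw [← mx_reindex (MA5_e X c) (Sum.elim U w)]
  have h : (Sum.elim (Sum.elim U fun i : Fin c => w i.castSucc) fun _ : Unit => w (Fin.last c)) =
      fun k => Sum.elim U w (MA5_e X c k) := by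
    funext k
    rcases k with (x | i) | u <;> rfl
  rw [h]

private theorem MA5_aux (M c : ℕ) : ∀ (a b : ℕ) (u : Fin a → Fin M → ℝ)
    (v : Fin b → Fin M → ℝ) (w : Fin c → Fin M → ℝ),
      mx (Sum.elim (Sum.elim u v) w) * mx u ≤
        ((M : ℝ) + 1) ^ c * (mx (Sum.elim u v) * mx (Sum.elim u w)) := by
  induction c with
  | zero =>
    intro a b u v w
    have h1 : mx (Sum.elim (Sum.elim u v) w) = mx (Sum.elim u v) := by
      rw [← mx_reindex (Equiv.sumEmpty (Fin a ⊕ Fin b) (Fin 0)).symm (Sum.elim (Sum.elim u v) w)]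
      rfl
    have h2 : mx (Sum.elim u w) = mx u := by
      rw [← mx_reindex (Equiv.sumEmpty (Fin a) (Fin 0)).symm (Sum.elim u w)]
      rfl
    rw [h1, h2]
    simp
  | succ c ih =>
    intro a b u v w
    have hM : (0 : ℝ) ≤ (M : ℝ) + 1 := by positivity
    by_cases hc : M < a + b + c + 1
    · have h0 : mx (Sum.elim (Sum.elim u v) w) = 0 := by
        refine mx_card _ ?_
        simp only [Fintype.card_sum, Fintype.card_fin]
        omega
      rw [h0, zero_mul]
      have h1 := mx_nonneg (Sum.elim u v)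
      have h2 := mx_nonneg (Sum.elim u w)
      positivity
    · set w' : Fin c → Fin M → ℝ := fun i => w i.castSucc with hw'
      set γ : Fin M → ℝ := w (Fin.last c) with hγ
      obtain ⟨cc, hcc⟩ := mx_near (Sum.elim u w') γ
      set x : Fin M → ℝ := ∑ i, cc i • (Sum.elim u w' : Fin a ⊕ Fin c → Fin M → ℝ) i with hx
      have e1 : mx (Sum.elim (Sum.elim (Sum.elim u v) w') fun _ : Unit => γ) =
          mx (Sum.elim (Sum.elim u v) w) := MA5_snoc c (Sum.elim u v) w
      have e2 : mx (Sum.elim (Sum.elim u w') fun _ : Unit => γ) = mx (Sum.elim u w) :=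
        MA5_snoc c u w
      have e3 : mx (Sum.elim (Sum.elim (Sum.elim u v) w') fun _ : Unit => γ - x) =
          mx (Sum.elim (Sum.elim (Sum.elim u v) w') fun _ : Unit => γ) := by
        rw [← mx_elim_sub (Sum.elim (Sum.elim u v) w') (fun _ : Unit => γ)
          (fun _ => Sum.elim (Sum.elim (fun i => cc (Sum.inl i)) fun _ => 0) fun i => cc (Sum.inr i))]
        have h : (fun _ : Unit => γ - x) = fun k : Unit => (fun _ : Unit => γ) k -
            ∑ i, (fun _ : Unit => Sum.elim (Sum.elim (fun i => cc (Sum.inl i)) fun _ => 0)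
              fun i => cc (Sum.inr i)) k i • (Sum.elim (Sum.elim u v) w') i := by
          funext k
          simp only [Fintype.sum_sum_type, Sum.elim_inl, Sum.elim_inr, zero_smul,
            Finset.sum_const_zero, add_zero, hx]
        rw [h]
      have h1 := mx_snoc_le (Sum.elim (Sum.elim u v) w') (γ - x)
      rw [e3, e1] at h1
      rw [e2] at hcc
      have h2 := ih a b u v w'
      have hcard : ((Fintype.card ((Fin a ⊕ Fin b) ⊕ Fin c) : ℕ) : ℝ) + 1 ≤ (M : ℝ) + 1 := by
        simp only [Fintype.card_sum, Fintype.card_fin]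
        have : a + b + c ≤ M := by omega
        have h : ((a + b + c : ℕ) : ℝ) ≤ (M : ℝ) := by exact_mod_cast this
        linarith
      have n1 := mx_nonneg u
      have n2 := mx_nonneg (Sum.elim (Sum.elim u v) w')
      have n3 := mx_nonneg (Sum.elim u v)
      have n4 := norm_nonneg (γ - x)
      have h3 : mx (Sum.elim (Sum.elim u v) w) ≤
          ((M : ℝ) + 1) * (‖γ - x‖ * mx (Sum.elim (Sum.elim u v) w')) :=
        h1.trans (mul_le_mul_of_nonneg_right hcard (by positivity))
      have n5 : 0 ≤ ((M : ℝ) + 1) ^ c := by positivity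
      calc mx (Sum.elim (Sum.elim u v) w) * mx u
          ≤ ((M : ℝ) + 1) * (‖γ - x‖ * mx (Sum.elim (Sum.elim u v) w')) * mx u :=
            mul_le_mul_of_nonneg_right h3 n1
        _ = ((M : ℝ) + 1) * ‖γ - x‖ * (mx (Sum.elim (Sum.elim u v) w') * mx u) := by ring
        _ ≤ ((M : ℝ) + 1) * ‖γ - x‖ *
            (((M : ℝ) + 1) ^ c * (mx (Sum.elim u v) * mx (Sum.elim u w'))) :=
            mul_le_mul_of_nonneg_left h2 (by positivity)
        _ = ((M : ℝ) + 1) ^ (c + 1) * mx (Sum.elim u v) * (‖γ - x‖ * mx (Sum.elim u w')) := by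
            ring
        _ ≤ ((M : ℝ) + 1) ^ (c + 1) * mx (Sum.elim u v) * mx (Sum.elim u w) :=
            mul_le_mul_of_nonneg_left hcc (by positivity)
        _ = ((M : ℝ) + 1) ^ (c + 1) * (mx (Sum.elim u v) * mx (Sum.elim u w)) := by ring

theorem two_step (M : ℕ) : ∃ K : ℝ, 1 ≤ K ∧ ∀ (a b c : ℕ) (u : Fin a → Fin M → ℝ)
    (v : Fin b → Fin M → ℝ) (w : Fin c → Fin M → ℝ),
      mx (Sum.elim (Sum.elim u v) w) * mx u ≤
        K * (mx (Sum.elim u v) * mx (Sum.elim u w)) := by
  have hM : (1 : ℝ) ≤ (M : ℝ) + 1 := by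
    have : (0 : ℝ) ≤ (M : ℝ) := Nat.cast_nonneg M
    linarith
  refine ⟨((M : ℝ) + 1) ^ M, one_le_pow₀ hM, ?_⟩
  intro a b c u v w
  have n3 := mx_nonneg (Sum.elim u v)
  have n4 := mx_nonneg (Sum.elim u w)
  by_cases hc : M < c
  · have h0 : mx (Sum.elim (Sum.elim u v) w) = 0 := by
      refine mx_card _ ?_
      simp only [Fintype.card_sum, Fintype.card_fin]
      omega
    rw [h0, zero_mul]
    positivity
  · refine (MA5_aux M c a b u v w).trans (mul_le_mul_of_nonneg_right ?_ (by positivity))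
    exact pow_le_pow_right₀ hM (by omega)

end Pool.Agent.Lib.H42Y
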