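import Pool.Agent.Lib.H42Y.MA3

/-!
# Chunk MA6 (M)
Transformations of the columns.

Proof. `K = max 1 ((M * max κ 1)^M)`. Let `k = a`; if `a > M` both sides are 0 (`mx_card`). For `s : Fin a → Fin M`, the `(i, j)` entry of the minor is
`∑ c, A (s j) c * u i c`. By multilinearity in the columns (`Matrix.det_transpose`, `MultilinearMap.map_sum` for `Matrix.detRowAlternating`, `Finset.sum` over
`Fin a → Fin M`, and `MultilinearMap.map_smul_univ`), `det = ∑ over f : Fin a → Fin M of (∏ j, A (s j) (f j)) * det (u i (f j))`, so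
`|det| ≤ M^a * (max κ 1)^a * mx u` (`le_mx`).
-/

open Polynomial

namespace Pool.Agent.Lib.H42Y

theorem mx_col (M : ℕ) (κ : ℝ) : ∃ K : ℝ, 1 ≤ K ∧ ∀ (a : ℕ) (A : Matrix (Fin M) (Fin M) ℝ)
    (u : Fin a → Fin M → ℝ), (∀ i j, |A i j| ≤ κ) →
      mx (fun i => A.mulVec (u i)) ≤ K * mx u := by
  have hk1 : (1 : ℝ) ≤ max κ 1 := le_max_right _ _
  have hM0 : (0 : ℝ) ≤ M := Nat.cast_nonneg M
  have hM1 : (1 : ℝ) ≤ (M : ℝ) + 1 := by linarith
  have hK1 : (1 : ℝ) ≤ ((M : ℝ) + 1) * max κ 1 := by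
    calc (1 : ℝ) = 1 * 1 := (one_mul 1).symm
      _ ≤ ((M : ℝ) + 1) * max κ 1 := mul_le_mul hM1 hk1 zero_le_one (by linarith)
  refine ⟨(((M : ℝ) + 1) * max κ 1) ^ M, one_le_pow₀ hK1, fun a A u hA => ?_⟩
  have hR : 0 ≤ (((M : ℝ) + 1) * max κ 1) ^ M * mx u :=
    mul_nonneg (by positivity) (mx_nonneg u)
  by_cases ha : M < a
  · rw [mx_card _ (by simpa using ha)]
    exact hR
  refine mx_le _ _ hR fun s => ?_
  have h1 : (Matrix.of fun i j : Fin a => (A.mulVec (u i)) (s j)).det =
      ∑ r : Fin a → Fin M, (∏ j, A (s j) (r j)) *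
        (Matrix.of fun i j : Fin a => u i (r j)).det := by
    have e1 : (Matrix.of fun i j : Fin a => (A.mulVec (u i)) (s j)).det =
        Matrix.detRowAlternating.toMultilinearMap
          (fun j : Fin a => ∑ c : Fin M, A (s j) c • (fun i : Fin a => u i c)) := by
      rw [← Matrix.det_transpose]
      show Matrix.det _ = Matrix.det _
      apply congrArg Matrix.det
      ext j i
      show (A.mulVec (u i)) (s j) = (∑ c : Fin M, A (s j) c • (fun i : Fin a => u i c)) i
      rw [Finset.sum_apply]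
      rfl
    rw [e1, MultilinearMap.map_sum]
    refine Finset.sum_congr rfl fun r _ => ?_
    rw [MultilinearMap.map_smul_univ, smul_eq_mul]
    have e2 : Matrix.detRowAlternating.toMultilinearMap (fun j i : Fin a => u i (r j)) =
        (Matrix.of fun i j : Fin a => u i (r j)).det := by
      rw [← Matrix.det_transpose]
      rfl
    rw [← e2]
  rw [h1]
  refine (Finset.abs_sum_le_sum_abs _ _).trans ?_
  have h2 : ∀ r : Fin a → Fin M, |(∏ j, A (s j) (r j)) *
      (Matrix.of fun i j : Fin a => u i (r j)).det| ≤ (max κ 1) ^ a * mx u := by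
    intro r
    rw [abs_mul, Finset.abs_prod]
    refine mul_le_mul ?_ (le_mx u r) (abs_nonneg _) (by positivity)
    calc ∏ j, |A (s j) (r j)| ≤ ∏ _j : Fin a, max κ 1 :=
          Finset.prod_le_prod (fun j _ => abs_nonneg _) fun j _ =>
            (hA _ _).trans (le_max_left _ _)
      _ = (max κ 1) ^ a := by
          rw [Finset.prod_const, Finset.card_univ, Fintype.card_fin]
  refine (Finset.sum_le_sum fun r _ => h2 r).trans ?_
  rw [Finset.sum_const, Finset.card_univ, Fintype.card_fun, Fintype.card_fin, Fintype.card_fin,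
    nsmul_eq_mul, ← mul_assoc]
  refine mul_le_mul_of_nonneg_right ?_ (mx_nonneg u)
  push_cast
  calc (M : ℝ) ^ a * max κ 1 ^ a = ((M : ℝ) * max κ 1) ^ a := (mul_pow _ _ _).symm
    _ ≤ (((M : ℝ) + 1) * max κ 1) ^ a := by
        refine pow_le_pow_left₀ (by positivity) ?_ a
        exact mul_le_mul_of_nonneg_right (by linarith) (by linarith)
    _ ≤ (((M : ℝ) + 1) * max κ 1) ^ M := pow_le_pow_right₀ hK1 (not_lt.mp ha)

end Pool.Agent.Lib.H42Y
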