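import Pool.Agent.Lib.H42Y.Defs3

/-!
# Chunk NE1 (M)
The reduction of the key inequalities.

Proof. `c = cN h`, `v = vv`, `R = 1 - x`, `Δ = (1 - x - t - v)/2` (so `Δ = M - x - 2t + c (1+w)`), `δ = 1 + t - c (1 + w)`. Facts: `(1-x) w ≤ t + h`, `x ≤ 11/20`, so `w < 1/2`. Take `p, y, J` from `KQ`. The cost inequality is (`J = 1 - x - p`) `p (1 - w) ≤ Δ + h`.
(1) `p ≤ R/2 - v/4`: otherwise `p (1-w) > (R/2 - v/4)(1-w) ≥ R/2 - v/4 - R w/2 ≥ R/2 - v/4 - (t+h)/2`, but `Δ + h = (R - t - v)/2 + h`, so `v/4 < 3h/2`, a contradiction. So `J - y ≥ J - p = R - 2p ≥ v/2 ≥ 1/200`, `y ≠ J`, `j := J - y - h ≥ 1/250`, and `J ≥ R/2 ≥ 9/40`.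
(2) `d, r, f1, fd`; `m = d - J + y ≥ 0`, `m + j = d - h`, `S' = M + x + p (1+w) + 2y`, `M' = M + p w`; `r + 2h + 2m + M' = S'`. `g := S' + 2 j - fd = 1 + J - 2 h + M' - fd`. The bounds for `fd` give `-h ≤ g ≤ M' + J - t - δ + 2 h w + h ≤ Δ - p (1-w) + 3h`. Concavity: `j f1 ≤ (m + j) S' - m (S' + 2j - g) + h^2 = j (r + 2h + M') + m g + h^2`.
(A) `f1 ≥ 1 + t + 2δ - fd + r - h`, `fd = 1 + J - 2h + M' - g`; with `v = δ - M - Δ`, i.e. `v + p (1 - 2w) = 2 δ + t - 2 M' - J`: multiply by `j`: `j (v + p(1-2w)) ≤ (m - j) g + j h + h^2`, and `m - j = d - h - 2j`. This is `CA`.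
(B) the same with `+ q - r (1-η) ... - max 0 (q - c w)`: `b1`. `b2`: multiply `d (q + r (1-η)) + h (...) ≤ (d+h) f1 + h^2` by `j`, use the bound for `j f1`, divide by `d ≥ 9/40`: `j (q - r η - M') ≤ m g + 2 h j + h^2 + (h/d)(j (r + 2h + M') + m g + h^2 + h j)`, and the last bracket is at most `4` (`j, r, M', m, g, d ≤ 1`). `b3`: insert `fd = r + 2 d + M' - g`.
-/

namespace Pool.Agent.Lib.H42Y

theorem reduce (h t x M w : ℝ) (P : Pt h t x M w) (K : KQ h t x M w) :
    ∃ p y J d r g j : ℝ, RD h t x M w p y J d r g j ∧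
      (CA h t x M w p d g j ∨ ∃ η q : ℝ, CB h t x M w p J d r g j η q) := by
  obtain ⟨p, y, J, hp0, hy0, hsum, hyJ, hyp, hcost, hK⟩ := K
  have hh0 := P.h0
  have hh1 := P.h1
  have ht0 := P.t0
  have ht1 := P.t1
  have hx0 := P.x0
  have hx1 := P.x1
  have hM0 := P.M0
  have hw0 := P.w0
  have hf2 := P.f2
  have hv0 := P.v0
  obtain ⟨c, hc⟩ : ∃ c, c = cN h := ⟨_, rfl⟩
  obtain ⟨v, hv⟩ : ∃ v, v = vv h t x M w := ⟨_, rfl⟩
  have hcv : c = 4 / 5 + h / 5 := by rw [hc]; rfl
  have hvd : v = x + 3 * t + 1 - 2 * (c * (1 + w)) - 2 * M := by rw [hv, hc]; rfl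
  rw [← hv] at hv0
  rw [← hc] at hcost hK
  have hw1 : w ≤ 9 / 20 := by
    by_contra hcon
    push Not at hcon
    have h1 : 9 / 20 * w ≤ (1 - x) * w := mul_le_mul_of_nonneg_right (by linarith) hw0
    linarith
  have hJ : J = 1 - x - p := by linarith
  -- the cost inequality
  have hcost2 : p * (1 - w) ≤ (1 - x - t - v) / 2 + h := by
    rw [hvd]
    rw [hJ] at hcost
    linarith
  -- (1)
  have hp1 : p ≤ (1 - x) / 2 - v / 4 := by
    by_contra hcon
    push Not at hcon
    have h1 : ((1 - x) / 2 - v / 4) * (1 - w) < p * (1 - w) :=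
      mul_lt_mul_of_pos_right hcon (by linarith)
    have h2 : 0 ≤ w * v := mul_nonneg hw0 (by linarith)
    have h3 : ((1 - x) / 2 - v / 4) * (1 - w) =
        (1 - x) / 2 - v / 4 - (1 - x) * w / 2 + w * v / 4 := by ring
    rw [h3] at h1
    linarith
  have hJp : 1 / 200 ≤ J - y := by linarith
  have hJ9 : 9 / 40 ≤ J := by linarith
  have hJ1 : J ≤ 1 := by linarith
  have hc0 : 0 ≤ c := by rw [hcv]; positivity
  have hc1 : c ≤ 81 / 100 := by rw [hcv]; linarith
  have hcw : c * (1 + w) ≤ 6 / 5 := by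
    have h1 : c * (1 + w) ≤ 81 / 100 * (29 / 20) := by
      refine mul_le_mul hc1 (by linarith) (by linarith) (by norm_num)
    linarith
  rcases hK with hyJ' | ⟨d, r, f1, fd, hyhJ, hJd, hr0, hrd, hfd1, hfd2, hconc, hAB⟩
  · exfalso
    linarith
  obtain ⟨g, hg⟩ : ∃ g, g = 1 + J - 2 * h + (M + p * w) - fd := ⟨_, rfl⟩
  obtain ⟨j, hj⟩ : ∃ j, j = J - y - h := ⟨_, rfl⟩
  have hfd : fd = 1 + J - 2 * h + (M + p * w) - g := by linarith
  have hj0 : 1 / 250 ≤ j := by linarith
  have hj1 : j ≤ 1 := by linarith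
  have hd1 : d ≤ 1 := by linarith
  have hd0 : 9 / 40 ≤ d := by linarith
  have hr1 : r ≤ 1 := by linarith
  have hg0 : -h ≤ g := by
    rw [hg]
    have h1 : p * (1 + w) = p + p * w := by ring
    rw [h1] at hfd1
    linarith
  have hhw : h * w ≤ h := by
    have h1 : h * w ≤ h * 1 := mul_le_mul_of_nonneg_left (by linarith) hh0.le
    rwa [mul_one] at h1
  have hg1 : g ≤ (1 - x - t - v) / 2 - p * (1 - w) + 3 * h := by
    rw [hg]
    have h1 : 2 * h * (1 + w) = 2 * h + 2 * (h * w) := by ring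
    rw [h1] at hfd2
    rw [hvd]
    linarith
  have hpw0 : 0 ≤ p * w := mul_nonneg hp0 hw0
  have hpw1 : M + p * w ≤ 1 / 4 := by
    have h1 : p * w ≤ (1 - x) * w := mul_le_mul_of_nonneg_right (by linarith) hw0
    linarith
  have hp1w : 0 ≤ p * (1 - w) := mul_nonneg hp0 (by linarith)
  have hg2 : g ≤ 1 := by linarith
  -- the concavity
  have hG : j * f1 ≤ j * (r + 2 * h + (M + p * w)) + (d - h - j) * g + h ^ 2 := by
    have e1 : (J - y - h) * f1 + (d - J + y) * fd ≤ (d - h) * (M + x + p * (1 + w) + 2 * y) + h ^ 2 := hconc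
    have e2 : d - J + y = d - h - j := by rw [hj]; ring
    rw [← hj, e2, hfd] at e1
    have e3 : M + x + p * (1 + w) + 2 * y = r + 2 * h + 2 * (d - h - j) + (M + p * w) := by
      rw [hj]
      linear_combination -(1 : ℝ) * hrd + hsum
    rw [e3] at e1
    have e4 : 1 + J - 2 * h + (M + p * w) - g = r + 2 * d + (M + p * w) - g := by
      linear_combination -(1 : ℝ) * hrd
    rw [e4] at e1
    linarith
  have hvp : v + p * (1 - 2 * w) = 2 * (1 + t - c * (1 + w)) + t - 2 * (M + p * w) - J := by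
    rw [hvd, hJ]
    ring
  have hj0' : 0 ≤ j := by linarith
  have hjh : j * h ≤ h := by
    have h1 : j * h ≤ 1 * h := mul_le_mul_of_nonneg_right hj1 hh0.le
    rwa [one_mul] at h1
  have hh2 : h ^ 2 ≤ h := by
    have h1 : h * h ≤ h * 1 := mul_le_mul_of_nonneg_left (by linarith) hh0.le
    rwa [mul_one, ← sq] at h1
  refine ⟨p, y, J, d, r, g, j, ⟨hp0, hy0, hsum, hyp, by linarith, hj, hj0, hJd, hr0, hrd, hg0, ?_⟩, ?_⟩
  · rw [← hv]
    exact hg1
  rcases hAB with hA | ⟨η, q, he0, he1, hrq, hb1, hb2, hb3⟩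
  · left
    unfold CA
    rw [← hv]
    rw [hfd] at hA
    have h1 : v + p * (1 - 2 * w) + (M + p * w) + h + g + r ≤ f1 := by
      rw [hvp]
      linarith
    have h2 := (mul_le_mul_of_nonneg_left h1 hj0').trans hG
    have h3 : j * (v + p * (1 - 2 * w) + (M + p * w) + h + g + r) =
        j * (v + p * (1 - 2 * w)) + j * (M + p * w) + j * h + j * g + j * r := by ring
    have h4 : j * (r + 2 * h + (M + p * w)) = j * r + 2 * (j * h) + j * (M + p * w) := by ring
    have h5 : (d - h - 2 * j) * g = (d - h - j) * g - j * g := by ring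
    rw [h3, h4] at h2
    rw [h5]
    linarith
  · right
    refine ⟨η, q, ⟨he0, he1, hrq, ?_, ?_, ?_⟩⟩
    · rw [← hv, ← hc]
      rw [hfd] at hb1
      obtain ⟨mx, hmx⟩ : ∃ mx, mx = max 0 (q - c * w) := ⟨_, rfl⟩
      rw [← hmx] at hb1 ⊢
      have h1 : v + p * (1 - 2 * w) + (M + p * w) + h + g + r - r * η + q - mx ≤ f1 := by
        rw [hvp]
        linarith
      have h2 := (mul_le_mul_of_nonneg_left h1 hj0').trans hG
      have h3 : j * (v + p * (1 - 2 * w) + (M + p * w) + h + g + r - r * η + q - mx) =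
          j * (v + p * (1 - 2 * w) + q - mx - r * η) + j * (M + p * w) + j * h + j * g + j * r := by ring
      have h4 : j * (r + 2 * h + (M + p * w)) = j * r + 2 * (j * h) + j * (M + p * w) := by ring
      have h5 : (d - h - 2 * j) * g = (d - h - j) * g - j * g := by ring
      rw [h3, h4] at h2
      rw [h5]
      linarith
    · obtain ⟨B, hB⟩ : ∃ B, B = j * (r + 2 * h + (M + p * w)) + (d - h - j) * g + h ^ 2 := ⟨_, rfl⟩
      rw [← hB] at hG
      have hB1 : B + j * h ≤ 4 := by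
        have h1 : j * (r + 2 * h + (M + p * w)) ≤ 1 * 2 :=
          mul_le_mul hj1 (by linarith) (by linarith) (by norm_num)
        have h2 : (d - h - j) * g ≤ 1 := by
          have h3 : 0 ≤ d - h - j := by linarith
          calc (d - h - j) * g ≤ (d - h - j) * 1 := mul_le_mul_of_nonneg_left hg2 h3
            _ ≤ 1 := by linarith
        rw [hB]
        linarith
      have h1 := mul_le_mul_of_nonneg_left hb2 hj0'
      have h2 : j * ((d + h) * f1 + h ^ 2) ≤ (d + h) * B + j * h ^ 2 := by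
        have h3 : (d + h) * (j * f1) ≤ (d + h) * B := mul_le_mul_of_nonneg_left hG (by linarith)
        linarith
      have h4 : 0 ≤ j * (h * ((1 + t) + (1 + t - c * (1 + w)))) :=
        mul_nonneg hj0' (mul_nonneg hh0.le (by linarith))
      have h5 : d * (j * (q + r * (1 - η))) ≤ (d + h) * B + j * h ^ 2 := by
        have h6 : j * (d * (q + r * (1 - η)) + h * ((1 + t) + (1 + t - c * (1 + w)))) =
          d * (j * (q + r * (1 - η))) + j * (h * ((1 + t) + (1 + t - c * (1 + w)))) := by ring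
        rw [h6] at h1
        linarith
      have h7 : (d + h) * B + j * h ^ 2 = d * B + h * (B + j * h) := by ring
      rw [h7] at h5
      have h8 : h * (B + j * h) ≤ h * 4 := mul_le_mul_of_nonneg_left hB1 hh0.le
      have h9 : h * 4 ≤ d * (20 * h) := by
        have : 9 / 40 * h ≤ d * h := mul_le_mul_of_nonneg_right hd0 hh0.le
        linarith
      have h10 : d * (j * (q + r * (1 - η))) ≤ d * (B + 20 * h) := by
        rw [mul_add d B]
        linarith
      have h11 := le_of_mul_le_mul_left h10 (by linarith)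
      rw [hB] at h11
      have h12 : j * (q + r * (1 - η)) = j * (q - r * η - (M + p * w)) + j * r + j * (M + p * w) := by ring
      have h13 : j * (r + 2 * h + (M + p * w)) = j * r + 2 * (j * h) + j * (M + p * w) := by ring
      rw [h12, h13] at h11
      linarith
    · rw [← hc]
      obtain ⟨mx, hmx⟩ : ∃ mx, mx = max 0 (q - c * (1 + w)) := ⟨_, rfl⟩
      rw [← hmx] at hb3 ⊢
      rw [hfd] at hb3
      linarith

end Pool.Agent.Lib.H42Y
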