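import Pool.Agent.Lib.H42Y.Defs2
import Pool.Agent.Lib.H42Y.Defs3

/-!
# Chunk NK (M)
Normalisation of the key inequalities (division by `N = n + 1`).

Proof. `p = h ρ`, `y = h j1`, `J' = h J`, `d' = h d`, `r' = h r`, `f1' = h f1`, `fd' = h fd`, `q' = h q`; `h Ω = cN h` (`h n = 1 - h`), `M + x = h S`, `1 + w = ν`, `1 + t = h B`. `x + J' + p = h (k + J + ρ) = 1`; `r' + 2 d' = h (n + J - 1) = 1 + J' - 2h`. If `j1 ≠ J` then `j1 + 1 ≤ J`. Multiply the linear inequalities by `h` (`h ε ≤ h`), the concavity inequality and the inequality with `d (q + r (1-η))` by `h^2`; `h max(0, a) = max(0, h a)`.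
-/

namespace Pool.Agent.Lib.H42Y

theorem KI_norm (n k : ℕ) (B Ω S ν ε h : ℝ) (hh : h * ((n : ℝ) + 1) = 1)
    (hΩ : Ω = 1 + 4 * (n : ℝ) / 5) (hε0 : 0 ≤ ε) (hε1 : ε ≤ 1) (K : KI n k B Ω S ν ε) :
    KQ h (h * B - 1) (h * k) (h * (S - k)) (ν - 1) := by
  have hh0 : 0 < h := by
    have h1 : 0 < (n : ℝ) + 1 := by positivity
    by_contra hc
    have h2 : h ≤ 0 := not_lt.mp hc
    have h3 : h * ((n : ℝ) + 1) ≤ 0 := mul_nonpos_of_nonpos_of_nonneg h2 h1.le
    linarith
  have hO : cN h = h * Ω := by
    unfold cN
    rw [hΩ]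
    linear_combination (-(4 / 5) : ℝ) * hh
  obtain ⟨ρ, j1, J, h1, h2, h3, h4, -, h6, h7⟩ := K
  have hs : (k : ℝ) + J + ρ = n + 1 := by exact_mod_cast h1
  have h3' : (j1 : ℝ) ≤ J := by exact_mod_cast h3
  have h4' : (j1 : ℝ) ≤ ρ := by exact_mod_cast h4
  have hε : h * ε ≤ h := by nlinarith
  have hε2 : h ^ 2 * ε ≤ h ^ 2 := by
    have : 0 ≤ h ^ 2 := sq_nonneg h
    nlinarith
  have hmax : ∀ a : ℝ, h * max 0 a = max 0 (h * a) := fun a => by
    rw [mul_max_of_nonneg _ _ hh0.le, mul_zero]
  unfold KQ
  rw [hO]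
  refine ⟨h * ρ, h * j1, h * J, by positivity, by positivity, ?_, ?_, ?_, ?_, ?_⟩
  · linear_combination h * hs + hh
  · exact mul_le_mul_of_nonneg_left h3' hh0.le
  · exact mul_le_mul_of_nonneg_left h4' hh0.le
  · have := mul_le_mul_of_nonneg_left h6 hh0.le
    linarith
  · rcases h7 with h7 | ⟨d, r, f1, fd, a1, a2, a3, a4, a5, a6⟩
    · left
      rw [h7]
    · by_cases hj : j1 = J
      · left
        rw [hj]
      · right
        have hj' : (j1 : ℝ) + 1 ≤ J := by
          have : j1 + 1 ≤ J := by omega
          exact_mod_cast this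
        have a1' : (J : ℝ) ≤ d := by exact_mod_cast a1
        have a2' : (r : ℝ) + 1 + 2 * d = n + J := by exact_mod_cast a2
        have hh2 : 0 ≤ h ^ 2 := sq_nonneg h
        refine ⟨h * d, h * r, h * f1, h * fd, ?_, ?_, by positivity, ?_, ?_, ?_, ?_, ?_⟩
        · have := mul_le_mul_of_nonneg_left hj' hh0.le
          linarith
        · exact mul_le_mul_of_nonneg_left a1' hh0.le
        · linear_combination h * a2' + hh
        · have := mul_le_mul_of_nonneg_left a3 hh0.le
          linarith
        · have := mul_le_mul_of_nonneg_left a4 hh0.le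
          linarith
        · have := mul_le_mul_of_nonneg_left a5 hh2
          linarith
        · rcases a6 with a6 | ⟨η, q, b0, b1, b2, b3, -, b5, b6, b7⟩
          · left
            have := mul_le_mul_of_nonneg_left a6 hh0.le
            linarith
          · right
            have m1 : h * max 0 (q - Ω * (ν - 1)) = max 0 (h * q - h * Ω * (ν - 1)) := by
              rw [hmax]
              congr 1
              ring
            have m2 : h * max 0 (q - Ω * ν) = max 0 (h * q - h * Ω * (1 + (ν - 1))) := by
              rw [hmax]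
              congr 1
              ring
            refine ⟨η, h * q, b1, b2, ?_, ?_, ?_, ?_⟩
            · have := mul_le_mul_of_nonneg_left b3 hh0.le
              linarith
            · rw [← m1]
              have := mul_le_mul_of_nonneg_left b5 hh0.le
              linarith
            · have := mul_le_mul_of_nonneg_left b6 hh2
              linarith
            · rw [← m2]
              have := mul_le_mul_of_nonneg_left b7 hh0.le
              linarith

end Pool.Agent.Lib.H42Y
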