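import Pool.Agent.Lib.H42Y.UD

/-!
# Chunk ONE (M)
Subspaces of growth one (compare the proof of `grow` in `Lib/H42W/GL1.lean`).

Proof. Let `r = finrank W ≥ 1`. By `growth_dn` the subspaces `dn^[i] W` have growth at most 1 too, so `finrank (dn^[i+1] W) ≥ finrank (dn^[i] W) - 1` (`finrank_up_add_dn`), and
`dn^[r-1] W ≠ ⊥`: there is `e ≠ 0` with `X^i * e ∈ W` for all `i ≤ r - 1`. These `r` elements are independent (distinct degrees), so `W = {e * g : degree g < r}`. Multiply `e` by a nonzero rational to get a primitive integer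
polynomial `D` (`IsLocalization.integerNormalization`, `Polynomial.primPart`), which spans the same `W`.
-/

open Polynomial

namespace Pool.Agent.Lib.H42Y

private theorem ONE_fd (m : ℕ) (W : Submodule ℚ ℚ[X]) (hW : W ≤ degreeLT ℚ m) :
    Module.Finite ℚ W := by
  have h1 : Module.Finite ℚ (degreeLT ℚ m) :=
    Module.Finite.equiv (Polynomial.degreeLTEquiv ℚ m).symm
  exact Submodule.finiteDimensional_of_le hW

private theorem ONE_rank (e : ℚ[X]) (he : e ≠ 0) (r : ℕ) :
    Module.finrank ℚ ((degreeLT ℚ r).map (LinearMap.mulLeft ℚ e)) = r := by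
  have hinj : Function.Injective (LinearMap.mulLeft ℚ e) := by
    intro a b hab
    exact mul_left_cancel₀ he hab
  have h1 := (Submodule.equivMapOfInjective (LinearMap.mulLeft ℚ e) hinj
    (degreeLT ℚ r)).finrank_eq
  rw [← h1, (Polynomial.degreeLTEquiv ℚ r).finrank_eq, Module.finrank_fin_fun]

private theorem ONE_prim (e : ℚ[X]) (he : e ≠ 0) :
    ∃ (D : ℤ[X]) (c : ℚ), D.IsPrimitive ∧ toQ D = c • e := by
  obtain ⟨b, hbm, hb⟩ := IsLocalization.integerNormalization_spec (nonZeroDivisors ℤ) e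
  obtain ⟨P, hP⟩ : ∃ P : ℤ[X], P = IsLocalization.integerNormalization (nonZeroDivisors ℤ) e :=
    ⟨_, rfl⟩
  rw [← hP] at hb
  have hb0 : ((b : ℤ) : ℚ) ≠ 0 := by
    exact_mod_cast nonZeroDivisors.ne_zero hbm
  have hPQ : toQ P = ((b : ℤ) : ℚ) • e := by
    unfold toQ
    rw [← Int.cast_smul_eq_zsmul ℚ] at hb
    exact hb
  have hP0 : P ≠ 0 := by
    intro h
    rw [h] at hPQ
    have h2 : toQ 0 = 0 := by
      unfold toQ
      exact Polynomial.map_zero _
    rw [h2] at hPQ
    rcases smul_eq_zero.1 hPQ.symm with h3 | h3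
    · exact hb0 h3
    · exact he h3
  have hc0 : ((P.content : ℤ) : ℚ) ≠ 0 := by
    have : P.content ≠ 0 := fun h => hP0 (Polynomial.content_eq_zero_iff.1 h)
    exact_mod_cast this
  refine ⟨P.primPart, (((P.content : ℤ) : ℚ))⁻¹ * ((b : ℤ) : ℚ), P.isPrimitive_primPart, ?_⟩
  rw [mul_smul, ← hPQ]
  have h4 : toQ P = ((P.content : ℤ) : ℚ) • toQ P.primPart := by
    have h5 : toQ P = toQ (C P.content * P.primPart) := by
      rw [← P.eq_C_content_mul_primPart]
    rw [h5]
    unfold toQ
    rw [Polynomial.map_mul, Polynomial.map_C, Polynomial.smul_eq_C_mul]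
    rfl
  rw [h4, smul_smul, inv_mul_cancel₀ hc0, one_smul]

private theorem ONE_toQ_ne {D : ℤ[X]} (hD : D.IsPrimitive) : toQ D ≠ 0 := by
  intro h
  unfold toQ at h
  have h1 : D = 0 :=
    (Polynomial.map_eq_zero_iff (RingHom.injective_int (Int.castRingHom ℚ))).1 h
  exact hD.ne_zero h1

private theorem ONE_lt (m : ℕ) (W : Submodule ℚ ℚ[X]) (hW : W ≤ degreeLT ℚ m) (hne : W ≠ ⊥) :
    Module.finrank ℚ W < Module.finrank ℚ (up W) := by
  have hfd1 : Module.Finite ℚ (up W) := ONE_fd (m + 1) _ (up_deg m W hW)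
  by_contra hcon
  have heq : W = up W := Submodule.eq_of_le_of_finrank_le (le_up W) (not_lt.1 hcon)
  obtain ⟨v, hv, hv0⟩ := Submodule.exists_mem_ne_zero_of_ne_bot hne
  have hit : ∀ i : ℕ, X ^ i * v ∈ W := by
    intro i
    induction i with
    | zero => simpa using hv
    | succ i ih =>
        have h1 := X_mul_mem_up W _ ih
        rw [← heq] at h1
        rw [pow_succ', mul_assoc]
        exact h1
  have h2 := Polynomial.mem_degreeLT.1 (hW (hit m))
  rw [Polynomial.degree_mul, Polynomial.degree_X_pow] at h2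
  have h3 : (0 : WithBot ℕ) ≤ v.degree := Polynomial.zero_le_degree_iff.2 hv0
  have h4 : (m : WithBot ℕ) ≤ (m : WithBot ℕ) + v.degree := by
    calc (m : WithBot ℕ) = (m : WithBot ℕ) + 0 := (add_zero _).symm
      _ ≤ _ := by gcongr
  exact absurd h2 (not_lt.2 h4)

private theorem ONE_main (r : ℕ) : ∀ (m : ℕ) (W : Submodule ℚ ℚ[X]), W ≤ degreeLT ℚ m →
    Module.finrank ℚ W = r + 1 → Module.finrank ℚ (up W) ≤ r + 2 →
    ∃ D : ℤ[X], D.IsPrimitive ∧ W = (degreeLT ℚ (r + 1)).map (LinearMap.mulLeft ℚ (toQ D)) := by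
  induction r with
  | zero =>
      intro m W hW hr _
      have hfd := ONE_fd m W hW
      obtain ⟨v, hv0, hv⟩ := finrank_eq_one_iff'.1 hr
      have hv0' : (v : ℚ[X]) ≠ 0 := fun h => hv0 (Subtype.ext h)
      obtain ⟨D, c, hD, hDc⟩ := ONE_prim (v : ℚ[X]) hv0'
      refine ⟨D, hD, ?_⟩
      symm
      apply Submodule.eq_of_le_of_finrank_eq
      · rintro _ ⟨f, hf, rfl⟩
        have hf1 : f.degree < ((0 + 1 : ℕ) : WithBot ℕ) := Polynomial.mem_degreeLT.1 hf
        have hf2 : f = C (f.coeff 0) := by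
          ext k
          rcases k with _ | k
          · rw [Polynomial.coeff_C_zero]
          · rw [Polynomial.coeff_C_succ]
            apply Polynomial.coeff_eq_zero_of_degree_lt
            exact lt_of_lt_of_le hf1 (by exact_mod_cast (by omega))
        rw [LinearMap.mulLeft_apply, hDc, hf2, smul_mul_assoc, mul_comm, ← Polynomial.smul_eq_C_mul]
        exact W.smul_mem _ (W.smul_mem _ v.2)
      · rw [ONE_rank _ (ONE_toQ_ne hD), hr]
  | succ r ih =>
      intro m W hW hr hg
      have hfd := ONE_fd m W hW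
      have hne : W ≠ ⊥ := by
        intro h
        rw [h, finrank_bot] at hr
        omega
      have h1 := finrank_up_add_dn m W hW
      have h2 := ONE_lt m W hW hne
      have h3 := growth_dn m W hW
      have hdr : Module.finrank ℚ (dn W) = r + 1 := by omega
      have hdW : dn W ≤ degreeLT ℚ m := (dn_le W).trans hW
      obtain ⟨D, hD, hDW⟩ := ih m (dn W) hdW hdr (by omega)
      refine ⟨D, hD, ?_⟩
      symm
      apply Submodule.eq_of_le_of_finrank_eq
      · rintro _ ⟨f, hf, rfl⟩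
        have hf1 : f.degree < ((r + 1 + 1 : ℕ) : WithBot ℕ) := Polynomial.mem_degreeLT.1 hf
        have hmem : ∀ g ∈ degreeLT ℚ (r + 1), toQ D * g ∈ dn W := by
          intro g hg'
          rw [hDW]
          exact ⟨g, hg', rfl⟩
        have hC : C (f.coeff 0) ∈ degreeLT ℚ (r + 1) := by
          rw [Polynomial.mem_degreeLT]
          refine lt_of_le_of_lt Polynomial.degree_C_le ?_
          exact_mod_cast Nat.succ_pos r
        have hX : f.divX ∈ degreeLT ℚ (r + 1) := by
          rw [Polynomial.mem_degreeLT, Polynomial.degree_lt_iff_coeff_zero]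
          intro k hk
          rw [Polynomial.coeff_divX]
          exact Polynomial.coeff_eq_zero_of_degree_lt (lt_of_lt_of_le hf1 (by exact_mod_cast (by omega)))
        have hdec : toQ D * f = X * (toQ D * f.divX) + toQ D * C (f.coeff 0) := by
          conv_lhs => rw [← Polynomial.divX_mul_X_add f]
          ring
        rw [LinearMap.mulLeft_apply, hdec]
        apply W.add_mem
        · exact ((mem_dn W _).1 (hmem _ hX)).2
        · exact ((mem_dn W _).1 (hmem _ hC)).1
      · rw [ONE_rank _ (ONE_toQ_ne hD), hr]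

theorem growth_one (m : ℕ) (W : Submodule ℚ ℚ[X]) (hW : W ≤ degreeLT ℚ m) (hne : W ≠ ⊥)
    (hg : Module.finrank ℚ (up W) ≤ Module.finrank ℚ W + 1) :
    ∃ D : ℤ[X], D.IsPrimitive ∧ W =
      (degreeLT ℚ (Module.finrank ℚ W)).map (LinearMap.mulLeft ℚ (toQ D)) := by
  have hfd := ONE_fd m W hW
  have hpos : 0 < Module.finrank ℚ W := by
    rcases Nat.eq_zero_or_pos (Module.finrank ℚ W) with h | h
    · exact absurd (Submodule.finrank_eq_zero.1 h) hne
    · exact h
  obtain ⟨r, hr⟩ : ∃ r, Module.finrank ℚ W = r + 1 := ⟨_, (Nat.succ_pred_eq_of_pos hpos).symm⟩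
  rw [hr] at hg ⊢
  exact ONE_main r m W hW hr hg

end Pool.Agent.Lib.H42Y
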