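import Pool.Agent.Lib.H42Y.UB
import Pool.Agent.Lib.H42Y.MA7

/-!
# Chunk P3 (M)
The first main inequality.

Proof. `K` from `sub_step M`. Take the data of `up_basis`, `T = X - C ζ`. All polynomials in `V` have `natDegree + 1 < M` (`m + 1 < M`; for `m = 0`, `V = ⊥`), those in `up V` have `natDegree < M`. The real polynomials
`T * toR (u i)` and `X * toR (u i)` differ by `C ζ * toR (u i)`, a real combination of `(X w, z)` (both `(w, u)` and `(X w, z)` are bases of `V` over `ℚ`, `toR`), so by `wn_sub`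
`wn (X w, z, X u) = wn (X w, z, T u)`. Apply `sub_step` to the families `tv (T w)` (in the span of `tv (X w, z)`: `T w = X w - ζ w` and `w ∈ V`), `tv (X w, z)`, `tv (T u)`:
`wn (X w, z, T u) * wn (T w) ≤ K * wn (X w, z) * wn (T w, T u)`. Here `wn (X w, z) = cov t V`, `wn (T w, T u) = wn_{t(·+1)} (w, u) = cov t(·+1) V`, `wn (T w) = cov t(·+1) (dn V)` (`wn_shift`, `cov_eq`), and
`wn (X w, z, X u) ≥ cov t (up V)`. (Index types: `Fin e ⊕ Fin g` versus `Fin (e + g)`: `mx_reindex` with `finSumFinEquiv`.)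
-/

open Polynomial

namespace Pool.Agent.Lib.H42Y

private theorem p3_toR (f : ℤ[X]) : toR f = (toQ f).map (algebraMap ℚ ℝ) := by
  unfold toR toQ
  rw [Polynomial.map_map]
  congr 1

private theorem p3_comb {ι : Type} [Fintype ι] (v : ι → ℤ[X]) (f : ℤ[X])
    (hf : toQ f ∈ Submodule.span ℚ (Set.range fun i => toQ (v i))) :
    ∃ q : ι → ℝ, toR f = ∑ i, C (q i) * toR (v i) := by
  obtain ⟨c, hc⟩ := (Submodule.mem_span_range_iff_exists_fun ℚ).1 hf
  refine ⟨fun i => ((c i : ℚ) : ℝ), ?_⟩
  rw [p3_toR, ← hc, Polynomial.map_sum]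
  refine Finset.sum_congr rfl fun i _ => ?_
  rw [Polynomial.map_smul, p3_toR, Polynomial.smul_eq_C_mul]
  rfl

private theorem p3_XtoR (f : ℤ[X]) : toR (X * f) = X * toR f := by
  unfold toR
  rw [Polynomial.map_mul, Polynomial.map_X]

private theorem p3_deg {M m : ℕ} (hm : m + 1 < M) {V : Submodule ℚ ℚ[X]} (hV : V ≤ degreeLT ℚ m)
    (f : ℤ[X]) (hf : toQ f ∈ V) : (toR f).natDegree + 1 < M := by
  have h1 : (toQ f).degree < m := mem_degreeLT.1 (hV hf)
  have h2 : (toR f).natDegree = (toQ f).natDegree := by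
    rw [p3_toR, Polynomial.natDegree_map_eq_of_injective (algebraMap ℚ ℝ).injective]
  rw [h2]
  by_cases h0 : toQ f = 0
  · rw [h0, natDegree_zero]
    omega
  · have h3 := (natDegree_lt_iff_degree_lt h0).2 h1
    omega

theorem p3 (M : ℕ) (ζ : ℝ) : ∃ K : ℝ, 1 ≤ K ∧ ∀ t : ℕ → ℝ, (∀ c, 0 < t c) →
    ∀ (m : ℕ) (V : Submodule ℚ ℚ[X]), m + 1 < M → V ≤ degreeLT ℚ m →
      cov M ζ t (up V) * cov M ζ (fun c => t (c + 1)) (dn V) ≤
        K * (cov M ζ t V * cov M ζ (fun c => t (c + 1)) V) := by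
  obtain ⟨K, hK1, hK⟩ := sub_step M
  refine ⟨K, hK1, fun t _ m V hm hV => ?_⟩
  obtain ⟨e, g, w, u, z, hw, hwu, hwz, hcov⟩ := up_basis m V hV
  have hwV : ∀ i, toQ (w i) ∈ V := fun i => by
    have h1 : toQ (Sum.elim w u (Sum.inl i)) ∈ V := by
      rw [← hwu.span]
      exact Submodule.subset_span ⟨Sum.inl i, rfl⟩
    exact h1
  have huV : ∀ i, toQ (u i) ∈ V := fun i => by
    have h1 : toQ (Sum.elim w u (Sum.inr i)) ∈ V := by
      rw [← hwu.span]
      exact Submodule.subset_span ⟨Sum.inr i, rfl⟩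
    exact h1
  have hcomb : ∀ f : ℤ[X], toQ f ∈ V → ∃ q : Fin e ⊕ Fin g → ℝ,
      toR f = ∑ i, C (q i) * toR (Sum.elim (fun i => X * w i) z i) := fun f hf => by
    apply p3_comb
    rw [hwz.span]
    exact hf
  -- the families
  have e1 : wn M ζ t (fun i => toR (Sum.elim (Sum.elim (fun i => X * w i) z) (fun i => X * u i) i)) =
      wn M ζ t (Sum.elim (fun i => toR (Sum.elim (fun i => X * w i) z i))
        (fun k => (X - C ζ) * toR (u k))) := by
    choose q hq using fun k : Fin g => hcomb (u k) (huV k)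
    have h1 := wn_sub M ζ t (fun i => toR (Sum.elim (fun i => X * w i) z i))
      (fun k => X * toR (u k)) (fun k i => ζ * q k i)
    have h2 : (fun k : Fin g => X * toR (u k) -
        ∑ i, C (ζ * q k i) * toR (Sum.elim (fun i => X * w i) z i)) =
        fun k => (X - C ζ) * toR (u k) := by
      funext k
      rw [sub_mul]
      congr 1
      conv_rhs => rw [hq k]
      rw [Finset.mul_sum]
      refine Finset.sum_congr rfl fun i _ => ?_
      rw [C_mul, mul_assoc]
    rw [h2] at h1
    rw [h1]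
    congr 1
    funext i
    rcases i with i | i
    · rfl
    · exact p3_XtoR (u i)
  have hsp : ∀ i : Fin e, tv M ζ t ((X - C ζ) * toR (w i)) ∈ Submodule.span ℝ
      (Set.range fun j : Fin (e + g) => tv M ζ t
        (toR (Sum.elim (fun i => X * w i) z (finSumFinEquiv.symm j)))) := by
    intro i
    have hr : (Set.range fun j : Fin (e + g) => tv M ζ t
        (toR (Sum.elim (fun i => X * w i) z (finSumFinEquiv.symm j)))) =
        Set.range fun j : Fin e ⊕ Fin g => tv M ζ t (toR (Sum.elim (fun i => X * w i) z j)) :=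
      finSumFinEquiv.symm.surjective.range_comp
        (fun j : Fin e ⊕ Fin g => tv M ζ t (toR (Sum.elim (fun i => X * w i) z j)))
    rw [hr, sub_mul, tv_sub]
    apply Submodule.sub_mem
    · rw [← p3_XtoR]
      exact Submodule.subset_span ⟨Sum.inl i, rfl⟩
    · obtain ⟨q, hq⟩ := hcomb (w i) (hwV i)
      have h3 : C ζ * toR (w i) =
          ∑ j, C (ζ * q j) * toR (Sum.elim (fun i => X * w i) z j) := by
        rw [hq, Finset.mul_sum]
        refine Finset.sum_congr rfl fun j _ => ?_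
        rw [C_mul, mul_assoc]
      rw [h3, tv_sum]
      exact Submodule.sum_mem _ fun j _ => Submodule.smul_mem _ _ (Submodule.subset_span ⟨j, rfl⟩)
  have hmain := hK e (e + g) g (fun i => tv M ζ t ((X - C ζ) * toR (w i)))
    (fun j => tv M ζ t (toR (Sum.elim (fun i => X * w i) z (finSumFinEquiv.symm j))))
    (fun k => tv M ζ t ((X - C ζ) * toR (u k))) hsp
  -- identification of the four factors
  have f1 : mx (Sum.elim (fun j : Fin (e + g) => tv M ζ t
      (toR (Sum.elim (fun i => X * w i) z (finSumFinEquiv.symm j))))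
      (fun k => tv M ζ t ((X - C ζ) * toR (u k)))) =
      wn M ζ t (Sum.elim (fun i => toR (Sum.elim (fun i => X * w i) z i))
        (fun k => (X - C ζ) * toR (u k))) := by
    unfold wn
    rw [← mx_reindex (Equiv.sumCongr finSumFinEquiv.symm (Equiv.refl (Fin g)))]
    congr 1
    funext i
    rcases i with i | i
    · rfl
    · rfl
  have f2 : mx (fun i : Fin e => tv M ζ t ((X - C ζ) * toR (w i))) =
      cov M ζ (fun c => t (c + 1)) (dn V) := by
    rw [cov_eq M ζ _ (dn V) w hw, ← wn_shift M ζ t (fun i => toR (w i))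
      (fun i => p3_deg hm hV _ (hwV i))]
    rfl
  have f3 : mx (fun j : Fin (e + g) => tv M ζ t
      (toR (Sum.elim (fun i => X * w i) z (finSumFinEquiv.symm j)))) = cov M ζ t V := by
    rw [cov_eq M ζ t V _ hwz]
    exact mx_reindex finSumFinEquiv.symm
      (fun j => tv M ζ t (toR (Sum.elim (fun i => X * w i) z j)))
  have f4 : mx (Sum.elim (fun i : Fin e => tv M ζ t ((X - C ζ) * toR (w i)))
      (fun k : Fin g => tv M ζ t ((X - C ζ) * toR (u k)))) =
      cov M ζ (fun c => t (c + 1)) V := by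
    rw [cov_eq M ζ _ V _ hwu, ← wn_shift M ζ t (fun i => toR (Sum.elim w u i))
      (fun i => by
        rcases i with i | i
        · exact p3_deg hm hV _ (hwV i)
        · exact p3_deg hm hV _ (huV i))]
    unfold wn
    congr 1
    funext i
    rcases i with i | i
    · rfl
    · rfl
  rw [f1, f2, f3, f4] at hmain
  have h5 : 0 ≤ cov M ζ (fun c => t (c + 1)) (dn V) := by
    rw [← f2]
    exact mx_nonneg _
  refine le_trans ?_ hmain
  apply mul_le_mul_of_nonneg_right _ h5
  rw [← e1]
  exact hcov M ζ t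

end Pool.Agent.Lib.H42Y
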