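import Mathlib

/-!
# Chunk TS (S)
Telescoping, concave sequences, and the limit of the largest weight.

Proof. `telescope`: induction on `d` (multiply the inequalities and cancel the positive factors). `concave3`: with `g i = f (i+1) - f i`, `g (i+1) ≤ g i + e` for `i < d`, so `g j ≤ g i + (j - i) e` for `i ≤ j ≤ d`; `f b - f a ≥ (b - a) (g (b-1)) - ...`, `f c - f b ≤ (c-b) g(b-1) + ...`.
Precisely: `f c - f b = ∑_{b ≤ j < c} g j ≤ (c - b) γ + (c-b) (c - b) e` and `f b - f a ≥ (b - a) γ - (b-a)(b - a) e` for `γ = g (b-1)` if `b ≥ 1` (the case `b = 0 = a` is trivial), hence `(b-a)(f c - f b) - (c-b)(f b - f a) ≤ (b-a)(c-b)(c-a) e ≤ (d+1)^3 e`.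
`limit_le`: divide by `Λ` and let `Λ → ∞`.
-/

namespace Pool.Agent.Lib.H42Y

theorem telescope (d : ℕ) (K : ℝ) (hK : 1 ≤ K) (a b : ℕ → ℝ) (ha : ∀ i ≤ d + 1, 0 < a i)
    (hb : ∀ i ≤ d + 1, 0 < b i) (h : ∀ i < d, a (i + 2) * b i ≤ K * (a (i + 1) * b (i + 1))) :
    a (d + 1) * b 0 ≤ K ^ d * (a 1 * b d) := by
  induction d with
  | zero => simp
  | succ d ih =>
    have h1 := ih (fun i hi => ha i (by omega)) (fun i hi => hb i (by omega))
      (fun i hi => h i (by omega))
    have h2 := h d (by omega)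
    have p1 := ha (d + 1) (by omega)
    have p2 := hb d (by omega)
    have p3 := ha (d + 2) (by omega)
    have p4 := hb 0 (by omega)
    have p5 := hb (d + 1) (by omega)
    have p6 := ha 1 (by omega)
    have hpos : 0 < a (d + 1) * b d := mul_pos p1 p2
    have h3 : a (d + 2) * b d * (a (d + 1) * b 0) ≤
        K * (a (d + 1) * b (d + 1)) * (K ^ d * (a 1 * b d)) :=
      mul_le_mul h2 h1 (by positivity) (by positivity)
    have h4 : (a (d + 1) * b d) * (a (d + 1 + 1) * b 0) ≤
        (a (d + 1) * b d) * (K ^ (d + 1) * (a 1 * b (d + 1))) := by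
      calc (a (d + 1) * b d) * (a (d + 1 + 1) * b 0) = a (d + 2) * b d * (a (d + 1) * b 0) := by ring
        _ ≤ K * (a (d + 1) * b (d + 1)) * (K ^ d * (a 1 * b d)) := h3
        _ = (a (d + 1) * b d) * (K ^ (d + 1) * (a 1 * b (d + 1))) := by ring
    exact le_of_mul_le_mul_left h4 hpos

theorem concave3 (d : ℕ) (e : ℝ) (he : 0 ≤ e) (f : ℕ → ℝ)
    (h : ∀ i < d, f (i + 2) + f i ≤ 2 * f (i + 1) + e) (a b c : ℕ) (hab : a ≤ b) (hbc : b ≤ c)
    (hc : c ≤ d + 1) :
    ((c : ℝ) - b) * f a + ((b : ℝ) - a) * f c ≤ ((c : ℝ) - a) * f b + (d + 1 : ℝ) ^ 3 * e := by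
  have hg : ∀ n i : ℕ, i + n ≤ d → f (i + n + 1) - f (i + n) ≤ f (i + 1) - f i + n * e := by
    intro n
    induction n with
    | zero => intro i _; simp
    | succ n ih =>
      intro i hi
      have h1 := ih i (by omega)
      have h2 := h (i + n) (by omega)
      have e1 : i + (n + 1) + 1 = i + n + 2 := by ring
      have e2 : i + (n + 1) = i + n + 1 := by ring
      rw [e1, e2]
      push_cast
      linarith
  rcases Nat.eq_zero_or_pos b with hb0 | hb0
  · subst hb0
    have ha0 : a = 0 := by omega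
    subst ha0
    have h1 : 0 ≤ (d + 1 : ℝ) ^ 3 * e := by positivity
    push_cast
    linarith
  · obtain ⟨b', rfl⟩ : ∃ b', b = b' + 1 := ⟨b - 1, by omega⟩
    have hup : ∀ n : ℕ, b' + 1 + n ≤ d + 1 →
        f (b' + 1 + n) - f (b' + 1) ≤ n * (f (b' + 1) - f b' + (d + 1) * e) := by
      intro n
      induction n with
      | zero => intro _; simp
      | succ n ih =>
        intro hn
        have h1 := ih (by omega)
        have h2 := hg (n + 1) b' (by omega)
        have e1 : b' + (n + 1) + 1 = b' + 1 + (n + 1) := by ring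
        have e2 : b' + (n + 1) = b' + 1 + n := by ring
        rw [e1, e2] at h2
        have h3 : ((n + 1 : ℕ) : ℝ) * e ≤ (d + 1) * e := by
          refine mul_le_mul_of_nonneg_right ?_ he
          have : n + 1 ≤ d + 1 := by omega
          exact_mod_cast this
        push_cast at h2 h3 ⊢
        linarith
    have hdn : ∀ n : ℕ, n ≤ b' + 1 →
        f (b' + 1) - f (b' + 1 - n) ≥ n * (f (b' + 1) - f b' - (d + 1) * e) := by
      intro n
      induction n with
      | zero => intro _; simp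
      | succ n ih =>
        intro hn
        have h1 := ih (by omega)
        have h2 := hg n (b' - n) (by omega)
        have e1 : b' - n + n + 1 = b' + 1 := by omega
        have e2 : b' - n + n = b' := by omega
        have e3 : b' - n + 1 = b' + 1 - n := by omega
        rw [e1, e2, e3] at h2
        have e4 : b' + 1 - (n + 1) = b' - n := by omega
        rw [e4]
        have h3 : (n : ℝ) * e ≤ (d + 1) * e := by
          refine mul_le_mul_of_nonneg_right ?_ he
          have : n ≤ d + 1 := by omega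
          exact_mod_cast this
        push_cast
        linarith
    obtain ⟨n, rfl⟩ : ∃ n, c = b' + 1 + n := ⟨c - (b' + 1), by omega⟩
    obtain ⟨m, hm⟩ : ∃ m, b' + 1 = a + m := ⟨b' + 1 - a, by omega⟩
    have h1 := hup n hc
    have h2 := hdn m (by omega)
    have e1 : b' + 1 - m = a := by omega
    rw [e1] at h2
    have hbm : ((b' + 1 : ℕ) : ℝ) - a = m := by
      rw [hm]
      push_cast
      ring
    have hcn : ((b' + 1 + n : ℕ) : ℝ) - ((b' + 1 : ℕ) : ℝ) = n := by
      push_cast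
      ring
    have hca : ((b' + 1 + n : ℕ) : ℝ) - a = n + m := by
      have : ((b' + 1 + n : ℕ) : ℝ) = ((b' + 1 : ℕ) : ℝ) + n := by push_cast; ring
      rw [this]
      linarith
    rw [hbm, hcn, hca]
    set γ := f (b' + 1) - f b' with hγ
    have hn0 : (0 : ℝ) ≤ n := Nat.cast_nonneg n
    have hm0 : (0 : ℝ) ≤ m := Nat.cast_nonneg m
    have hnm : (n : ℝ) + m ≤ d + 1 := by
      have : n + m ≤ d + 1 := by omega
      exact_mod_cast this
    have k1 : (m : ℝ) * (f (b' + 1 + n) - f (b' + 1)) ≤ m * (n * (γ + (d + 1) * e)) :=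
      mul_le_mul_of_nonneg_left h1 hm0
    have k2 : (n : ℝ) * (m * (γ - (d + 1) * e)) ≤ n * (f (b' + 1) - f a) :=
      mul_le_mul_of_nonneg_left h2 hn0
    have k3 : 2 * ((m : ℝ) * n) ≤ (d + 1 : ℝ) ^ 2 := by
      have : (n + m : ℝ) ^ 2 ≤ (d + 1 : ℝ) ^ 2 := by
        apply pow_le_pow_left₀ (by linarith) hnm
      nlinarith [sq_nonneg ((m : ℝ) - n), mul_nonneg hm0 hn0]
    have hd0 : (0 : ℝ) ≤ (d + 1 : ℝ) * e := by positivity
    have k4 : 2 * ((m : ℝ) * n) * ((d + 1 : ℝ) * e) ≤ (d + 1 : ℝ) ^ 2 * ((d + 1 : ℝ) * e) :=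
      mul_le_mul_of_nonneg_right k3 hd0
    have k5 : (d + 1 : ℝ) ^ 2 * ((d + 1 : ℝ) * e) = (d + 1 : ℝ) ^ 3 * e := by ring
    rw [k5] at k4
    nlinarith [k1, k2, k4]

theorem limit_le (x y B0 : ℝ) (h : ∀ Λ : ℝ, 0 < Λ → Λ * x ≤ Λ * y + B0) : x ≤ y := by
  by_contra hxy
  push Not at hxy
  have h0 : 0 < x - y := by linarith
  have h1 := h ((|B0| + 1) / (x - y)) (by positivity)
  have h2 : (|B0| + 1) / (x - y) * (x - y) = |B0| + 1 := div_mul_cancel₀ _ h0.ne'
  have h3 := le_abs_self B0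
  nlinarith

end Pool.Agent.Lib.H42Y
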