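import Pool.Agent.Lib.H42Y.P3
import Pool.Agent.Lib.H42Y.AS2
import Pool.Agent.Lib.H42Y.TS

/-!
# Chunk TM1 (M)
Telescoping along the chain.

Proof. `K0` from `p3 (2n+4) ζ`, `K = K0^n`. For `i < d` `p3` for the weights `w3 Λ Y Δ` (shifted: `w2 Y Δ`) and `V = L (i+1)` (`up (L (i+1)) = L (i+2)`, `dn (L (i+1)) = L i`, degrees `< n + J + 1`, `n + J + 2 < 2n + 4`):
`a (i+2) * b i ≤ K0 * (a (i+1) * b (i+1))` for `a i = cov (w3 Λ Y Δ) (L i)`, `b i = cov (w2 Y Δ) (L i)`, all positive (`cov_pos`). `telescope`: `a (d+1) * b 0 ≤ K0^d * (a 1 * b d)`, `d ≤ n` (from `dim`: `r + 1 + 2 d = n + J ≤ 2n`), and `a (d+1) ≥ Λ Y Δ` (`full3`, `3 ≤ n + J + 1`: `J ≥ 1`, `n ≥ 1`).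
So `Λ * (Y Δ b 0) ≤ Λ * (K0^d A b d) + K0^d B0 b d` for all `Λ > 0`: `limit_le`. (`A b d ≥ 0` since the left side is positive, so `K0^d` may be replaced by `K0^n`.)
-/

open Polynomial

namespace Pool.Agent.Lib.H42Y

private theorem TM1_w2_pos {Y Δ : ℝ} (hY : 0 < Y) (hΔ : 0 < Δ) : ∀ c, 0 < w2 Y Δ c
  | 0 => hY
  | 1 => hΔ
  | _ + 2 => one_pos

private theorem TM1_w3_pos {Λ Y Δ : ℝ} (hΛ : 0 < Λ) (hY : 0 < Y) (hΔ : 0 < Δ) :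
    ∀ c, 0 < w3 Λ Y Δ c
  | 0 => hΛ
  | c + 1 => TM1_w2_pos hY hΔ c

theorem tm1 (n : ℕ) (hn : 1 ≤ n) (ζ : ℝ) : ∃ K : ℝ, 1 ≤ K ∧ ∀ (Y Δ A B0 : ℝ) (J j1 d r : ℕ)
    (V : Submodule ℚ ℚ[X]) (L : ℕ → Submodule ℚ ℚ[X]), 0 < Y → 0 < Δ → 1 ≤ J → J ≤ n →
    Chn n J j1 V d r L →
    (∀ Λ : ℝ, 0 < Λ → cov (2 * n + 4) ζ (w3 Λ Y Δ) (L 1) ≤ Λ * A + B0) →
      Y * Δ * cov (2 * n + 4) ζ (w2 Y Δ) (L 0) ≤
        K * (A * cov (2 * n + 4) ζ (w2 Y Δ) (L d)) := by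
  obtain ⟨K0, hK0, hp⟩ := p3 (2 * n + 4) ζ
  refine ⟨K0 ^ n, one_le_pow₀ hK0, ?_⟩
  intro Y Δ A B0 J j1 d r V L hY hΔ hJ hJn hC hA
  have hdn : d ≤ n := by
    have := hC.dim
    omega
  have hb : ∀ i ≤ d + 1, 0 < cov (2 * n + 4) ζ (w2 Y Δ) (L i) := fun i hi =>
    cov_pos (2 * n + 4) (n + J + 1) (by omega) ζ _ (TM1_w2_pos hY hΔ) (L i) (hC.deg i hi)
  have hK0' : (0 : ℝ) < K0 := lt_of_lt_of_le one_pos hK0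
  have hKd : (0 : ℝ) < K0 ^ d := pow_pos hK0' d
  have hlim : Y * Δ * cov (2 * n + 4) ζ (w2 Y Δ) (L 0) ≤
      K0 ^ d * (A * cov (2 * n + 4) ζ (w2 Y Δ) (L d)) := by
    refine limit_le _ _ (K0 ^ d * (B0 * cov (2 * n + 4) ζ (w2 Y Δ) (L d))) ?_
    intro Λ hΛ
    have ha : ∀ i ≤ d + 1, 0 < cov (2 * n + 4) ζ (w3 Λ Y Δ) (L i) := fun i hi =>
      cov_pos (2 * n + 4) (n + J + 1) (by omega) ζ _ (TM1_w3_pos hΛ hY hΔ) (L i) (hC.deg i hi)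
    have hstep : ∀ i < d, cov (2 * n + 4) ζ (w3 Λ Y Δ) (L (i + 2)) *
        cov (2 * n + 4) ζ (w2 Y Δ) (L i) ≤
        K0 * (cov (2 * n + 4) ζ (w3 Λ Y Δ) (L (i + 1)) *
          cov (2 * n + 4) ζ (w2 Y Δ) (L (i + 1))) := by
      intro i hi
      have h1 := hp (w3 Λ Y Δ) (TM1_w3_pos hΛ hY hΔ) (n + J + 1) (L (i + 1)) (by omega)
        (hC.deg (i + 1) (by omega))
      rw [hC.up_eq i hi, hC.dn_eq i hi] at h1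
      exact h1
    have h2 := telescope d K0 hK0 (fun i => cov (2 * n + 4) ζ (w3 Λ Y Δ) (L i))
      (fun i => cov (2 * n + 4) ζ (w2 Y Δ) (L i)) ha hb hstep
    have h3 := full3 (2 * n + 4) (n + J + 1) (by omega) (by omega) ζ Λ Y Δ hΛ hY hΔ
    rw [← hC.full] at h3
    have h4 := hA Λ hΛ
    have hb0 := hb 0 (by omega)
    have hbd := hb d (by omega)
    calc Λ * (Y * Δ * cov (2 * n + 4) ζ (w2 Y Δ) (L 0))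
        = Λ * (Y * Δ) * cov (2 * n + 4) ζ (w2 Y Δ) (L 0) := by ring
      _ ≤ cov (2 * n + 4) ζ (w3 Λ Y Δ) (L (d + 1)) * cov (2 * n + 4) ζ (w2 Y Δ) (L 0) :=
          mul_le_mul_of_nonneg_right h3 hb0.le
      _ ≤ K0 ^ d * (cov (2 * n + 4) ζ (w3 Λ Y Δ) (L 1) *
            cov (2 * n + 4) ζ (w2 Y Δ) (L d)) := h2
      _ ≤ K0 ^ d * ((Λ * A + B0) * cov (2 * n + 4) ζ (w2 Y Δ) (L d)) :=
          mul_le_mul_of_nonneg_left (mul_le_mul_of_nonneg_right h4 hbd.le) hKd.le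
      _ = Λ * (K0 ^ d * (A * cov (2 * n + 4) ζ (w2 Y Δ) (L d))) +
            K0 ^ d * (B0 * cov (2 * n + 4) ζ (w2 Y Δ) (L d)) := by ring
  have hpos : 0 < Y * Δ * cov (2 * n + 4) ζ (w2 Y Δ) (L 0) :=
    mul_pos (mul_pos hY hΔ) (hb 0 (by omega))
  have hA0 : 0 < A * cov (2 * n + 4) ζ (w2 Y Δ) (L d) :=
    pos_of_mul_pos_right (lt_of_lt_of_le hpos hlim) hKd.le
  exact hlim.trans (mul_le_mul_of_nonneg_right (pow_le_pow_right₀ hK0 hdn) hA0.le)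

end Pool.Agent.Lib.H42Y
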