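import Pool.Agent.Lib.H42Y.TB4
import Pool.Agent.Lib.H42Y.MA3

/-!
# Chunk XT1 (M)
An upper bound for the covolume of `D, T D, ..., T^(r-1) D, V` (`T = X - C ζ`) for the weights `Y, Δ, 1, 1, ...`.

Proof. Every minor is a sum of `(r+1)!` products with one entry from each row, in distinct columns. Bounds for the entries (`taylor_T_zero`, `taylor_T_succ` iterated: the `c`-th Taylor coefficient of `T^i D` is the `(c-i)`-th of `D`, and 0 for `c < i`), `h = nm M ζ D`:
row `D`: column 0: `Y v`, column 1: `Δ v1`, others `h`; row `T D`: column 0: 0, column 1: `Δ v`, others `h`; rows `T^i D`, `2 ≤ i < r`: columns 0, 1: 0, others `h`; row `V`: `Y a0`, `Δ a1`, others `a2`. So each product is at most one of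
(`V` in a column `≥ 2`) `a2 *` one of `h^r`, `Y v h^(r-1)`, `Δ v1 h^(r-1)`, `Δ v h^(r-1)`, `Y v Δ v h^(r-2)`; (`V` in column 0) `Y a0 *` one of `h^r`, `Δ v1 h^(r-1)`, `Δ v h^(r-1)`; (`V` in column 1) `Δ a1 *` one of `h^r`, `Y v h^(r-1)`.
After multiplication by `h^2` each one is at most `h^r` times the bracket. `(r+1)! ≤ M!` if `r + 1 ≤ M`; for `r + 1 > M` the left side is 0 (`mx_card`). A convenient way: for a permutation `σ` and columns `s` (injective, otherwise the minor is 0), the product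
over the rows `T^i D` is bounded by `h^r` times factors `≥ ...`; or split the determinant by multilinearity. `K = M!`.
-/

open Polynomial

namespace Pool.Agent.Lib.H42Y

private theorem xt1_coeff (ζ : ℝ) (D : ℝ[X]) (i c : ℕ) :
    (taylor ζ ((X - C ζ) ^ i * D)).coeff c = if i ≤ c then (taylor ζ D).coeff (c - i) else 0 := by
  have h : taylor ζ ((X - C ζ) ^ i * D) = X ^ i * taylor ζ D := by
    rw [taylor_mul, taylor_pow]
    congr 2
    simp
  rw [h, coeff_X_pow_mul']

private theorem xt1_prod {ι : Type} [Fintype ι] [DecidableEq ι] (f : ι → ℝ) (h : ℝ) (hh : 0 ≤ h)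
    (hf : ∀ i, 0 ≤ f i) (T : Finset ι) (hT : ∀ i, i ∉ T → f i ≤ h) :
    h ^ T.card * ∏ i, f i ≤ (∏ i ∈ T, f i) * h ^ Fintype.card ι := by
  have h1 : (∏ i, f i) = (∏ i ∈ Tᶜ, f i) * ∏ i ∈ T, f i := (Finset.prod_compl_mul_prod T f).symm
  have h2 : ∏ i ∈ Tᶜ, f i ≤ h ^ (Tᶜ).card := by
    rw [← Finset.prod_const]
    exact Finset.prod_le_prod (fun i _ => hf i) fun i hi => hT i (Finset.mem_compl.1 hi)
  have h3 : T.card + (Tᶜ).card = Fintype.card ι := Finset.card_add_card_compl T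
  have h4 : 0 ≤ ∏ i ∈ T, f i := Finset.prod_nonneg fun i _ => hf i
  calc h ^ T.card * ∏ i, f i = (h ^ T.card * ∏ i ∈ T, f i) * ∏ i ∈ Tᶜ, f i := by rw [h1]; ring
    _ ≤ (h ^ T.card * ∏ i ∈ T, f i) * h ^ (Tᶜ).card :=
        mul_le_mul_of_nonneg_left h2 (mul_nonneg (pow_nonneg hh _) h4)
    _ = (∏ i ∈ T, f i) * h ^ Fintype.card ι := by rw [← h3, pow_add]; ring

private theorem xt1_det {ι : Type} [Fintype ι] [DecidableEq ι] (A : Matrix ι ι ℝ) (g R : ℝ)
    (hg : 0 ≤ g) (h : ∀ τ : Equiv.Perm ι, g * ∏ i, |A i (τ i)| ≤ R) :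
    g * |A.det| ≤ (Fintype.card ι).factorial * R := by
  rw [Matrix.det_apply']
  calc g * |∑ σ : Equiv.Perm ι, (Equiv.Perm.sign σ : ℝ) * ∏ i, A (σ i) i|
      ≤ g * ∑ σ : Equiv.Perm ι, |(Equiv.Perm.sign σ : ℝ) * ∏ i, A (σ i) i| :=
        mul_le_mul_of_nonneg_left (Finset.abs_sum_le_sum_abs _ _) hg
    _ = ∑ σ : Equiv.Perm ι, g * ∏ i, |A i (σ⁻¹ i)| := by
        rw [Finset.mul_sum]
        refine Finset.sum_congr rfl fun σ _ => ?_
        rw [abs_mul, Finset.abs_prod]
        have h1 : |((Equiv.Perm.sign σ : ℤ) : ℝ)| = 1 := by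
          rcases Int.units_eq_one_or (Equiv.Perm.sign σ) with h | h <;> simp [h]
        rw [h1, one_mul]
        congr 1
        refine Fintype.prod_equiv σ _ _ fun i => ?_
        simp
    _ ≤ ∑ _σ : Equiv.Perm ι, R := Finset.sum_le_sum fun σ _ => h _
    _ = (Fintype.card ι).factorial * R := by
        rw [Finset.sum_const, Finset.card_univ, Fintype.card_perm, nsmul_eq_mul]

theorem xt1 (M : ℕ) (ζ : ℝ) : ∃ K : ℝ, 1 ≤ K ∧ ∀ (Y Δ v v1 a0 a1 a2 : ℝ) (r : ℕ) (D V : ℝ[X]),
    1 ≤ r → 1 ≤ Y → 1 ≤ Δ → |D.eval ζ| ≤ v → |(derivative D).eval ζ| ≤ v1 →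
    |(taylor ζ V).coeff 0| ≤ a0 → |(taylor ζ V).coeff 1| ≤ a1 →
    (∀ c, 2 ≤ c → |(taylor ζ V).coeff c| ≤ a2) → 0 ≤ a2 →
      nm M ζ D ^ 2 * wn M ζ (w2 Y Δ)
        (Sum.elim (fun i : Fin r => (X - C ζ) ^ (i : ℕ) * D) (fun _ : Unit => V)) ≤
      K * (nm M ζ D ^ r * (a2 * (nm M ζ D ^ 2 + Y * v * nm M ζ D + Δ * v1 * nm M ζ D +
          Δ * v * nm M ζ D + Y * Δ * v ^ 2) +
        Y * a0 * (nm M ζ D ^ 2 + Δ * v1 * nm M ζ D + Δ * v * nm M ζ D) +
        Δ * a1 * (nm M ζ D ^ 2 + Y * v * nm M ζ D))) := by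
  refine ⟨(M.factorial : ℝ), by exact_mod_cast Nat.one_le_iff_ne_zero.2 M.factorial_ne_zero, ?_⟩
  intro Y Δ v v1 a0 a1 a2 r D V hr hY hΔ hv hv1 ha0 ha1 ha2 ha2'
  have hh : 0 ≤ nm M ζ D := norm_nonneg _
  have hnm : ∀ c : ℕ, c < M → |(taylor ζ D).coeff c| ≤ nm M ζ D := by
    intro c hc
    have := norm_le_pi_norm (tv M ζ (fun _ => 1) D) ⟨c, hc⟩
    simpa [tv, nm] using this
  set h := nm M ζ D with hdef
  have hv0 : 0 ≤ v := (abs_nonneg _).trans hv
  have hv10 : 0 ≤ v1 := (abs_nonneg _).trans hv1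
  have ha00 : 0 ≤ a0 := (abs_nonneg _).trans ha0
  have ha10 : 0 ≤ a1 := (abs_nonneg _).trans ha1
  have hY0 : 0 ≤ Y := zero_le_one.trans hY
  have hΔ0 : 0 ≤ Δ := zero_le_one.trans hΔ
  set R : ℝ := h ^ r * (a2 * (h ^ 2 + Y * v * h + Δ * v1 * h + Δ * v * h + Y * Δ * v ^ 2) +
        Y * a0 * (h ^ 2 + Δ * v1 * h + Δ * v * h) + Δ * a1 * (h ^ 2 + Y * v * h)) with hR
  have hR0 : 0 ≤ R := by positivity
  set u : Fin r ⊕ Unit → ℝ[X] :=
    Sum.elim (fun i : Fin r => (X - C ζ) ^ (i : ℕ) * D) (fun _ : Unit => V) with hu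
  -- the key bound for an injective choice of columns
  have key : ∀ τ : Fin r ⊕ Unit → Fin M, Function.Injective τ →
      h ^ 2 * ∏ i, |tv M ζ (w2 Y Δ) (u i) (τ i)| ≤ R := by
    intro τ hτ
    rw [Fintype.prod_sum_type]
    simp only [Finset.univ_unique, Finset.prod_singleton]
    set f : Fin r → ℝ := fun i => |tv M ζ (w2 Y Δ) (u (Sum.inl i)) (τ (Sum.inl i))| with hf
    have hf0 : ∀ i, 0 ≤ f i := fun i => abs_nonneg _
    have hcard : Fintype.card (Fin r) = r := Fintype.card_fin r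
    have hfe : ∀ i, f i = |w2 Y Δ (τ (Sum.inl i) : ℕ) *
        (if (i : ℕ) ≤ (τ (Sum.inl i) : ℕ) then
          (taylor ζ D).coeff ((τ (Sum.inl i) : ℕ) - (i : ℕ)) else 0)| := by
      intro i
      simp only [hf, hu, tv, Sum.elim_inl]
      rw [xt1_coeff]
    -- columns at least 2
    have hbig : ∀ i, 2 ≤ (τ (Sum.inl i) : ℕ) → f i ≤ h := by
      intro i hi
      rw [hfe]
      obtain ⟨c, hc⟩ : ∃ c, (τ (Sum.inl i) : ℕ) = c + 2 := ⟨_, (Nat.sub_add_cancel hi).symm⟩
      have hlt : (τ (Sum.inl i) : ℕ) < M := (τ (Sum.inl i)).2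
      rw [hc] at hlt ⊢
      have : w2 Y Δ (c + 2) = 1 := rfl
      rw [this, one_mul]
      split_ifs with h1
      · exact hnm _ (lt_of_le_of_lt (Nat.sub_le _ _) hlt)
      · rw [abs_zero]; exact hh
    -- column 0
    have hzero : ∀ i, (τ (Sum.inl i) : ℕ) = 0 → (f i = 0 ∨ ((i : ℕ) = 0 ∧ f i ≤ Y * v)) := by
      intro i hi
      rw [hfe, hi]
      by_cases h1 : (i : ℕ) ≤ 0
      · right
        have h2 : (i : ℕ) = 0 := Nat.le_zero.1 h1
        refine ⟨h2, ?_⟩
        rw [if_pos h1, abs_mul]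
        have h3 : w2 Y Δ 0 = Y := rfl
        rw [h3, abs_of_nonneg hY0, h2, Nat.sub_zero, taylor_coeff_zero]
        exact mul_le_mul_of_nonneg_left hv hY0
      · left
        rw [if_neg h1, mul_zero, abs_zero]
    -- column 1
    have hone : ∀ i, (τ (Sum.inl i) : ℕ) = 1 →
        (f i = 0 ∨ ((i : ℕ) = 0 ∧ f i ≤ Δ * v1) ∨ ((i : ℕ) = 1 ∧ f i ≤ Δ * v)) := by
      intro i hi
      rw [hfe, hi]
      have h3 : w2 Y Δ 1 = Δ := rfl
      by_cases h1 : (i : ℕ) ≤ 1
      · right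
        rw [if_pos h1, abs_mul, h3, abs_of_nonneg hΔ0]
        rcases Nat.le_one_iff_eq_zero_or_eq_one.1 h1 with h2 | h2
        · left
          refine ⟨h2, ?_⟩
          rw [h2, Nat.sub_zero, taylor_coeff_one]
          exact mul_le_mul_of_nonneg_left hv1 hΔ0
        · right
          refine ⟨h2, ?_⟩
          rw [h2, Nat.sub_self, taylor_coeff_zero]
          exact mul_le_mul_of_nonneg_left hv hΔ0
      · left
        rw [if_neg h1, mul_zero, abs_zero]
    have hpow : 0 ≤ h ^ r := pow_nonneg hh r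
    have hP0 : 0 ≤ ∏ i, f i := Finset.prod_nonneg fun i _ => hf0 i
    have hinj : ∀ i j : Fin r, τ (Sum.inl i) = τ (Sum.inl j) → i = j := by
      intro i j hij
      exact Sum.inl_injective (hτ hij)
    -- bound of type 1
    have b1 : (∀ i, (τ (Sum.inl i) : ℕ) ≠ 0) → (∀ i, (τ (Sum.inl i) : ℕ) ≠ 1) →
        h ^ 2 * ∏ i, f i ≤ h ^ r * h ^ 2 := by
      intro h1 h2
      have h3 := xt1_prod f h hh hf0 ∅ fun i _ => hbig i (by have := h1 i; have := h2 i; omega)
      rw [hcard] at h3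
      simp only [Finset.card_empty, pow_zero, one_mul, Finset.prod_empty] at h3
      nlinarith [mul_le_mul_of_nonneg_left h3 (pow_nonneg hh 2)]
    -- type 2
    have b2 : (∀ i, (τ (Sum.inl i) : ℕ) ≠ 1) →
        h ^ 2 * ∏ i, f i ≤ h ^ r * (h ^ 2 + Y * v * h) := by
      intro h2
      by_cases h1 : ∀ i, (τ (Sum.inl i) : ℕ) ≠ 0
      · have h3 := b1 h1 h2
        have h4 : 0 ≤ h ^ r * (Y * v * h) := by positivity
        linarith
      · push Not at h1
        obtain ⟨i0, hi0⟩ := h1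
        have h3 := xt1_prod f h hh hf0 {i0} fun i hi => hbig i (by
          have h5 : i ≠ i0 := by simpa using hi
          have h6 : (τ (Sum.inl i) : ℕ) ≠ 0 := fun h7 =>
            h5 (hinj i i0 (Fin.ext (h7.trans hi0.symm)))
          have := h2 i
          omega)
        rw [hcard] at h3
        simp only [Finset.card_singleton, pow_one, Finset.prod_singleton] at h3
        have h4 : f i0 ≤ Y * v := by
          rcases hzero i0 hi0 with h5 | h5
          · rw [h5]; positivity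
          · exact h5.2
        have h5 : h * ∏ i, f i ≤ Y * v * h ^ r :=
          h3.trans (mul_le_mul_of_nonneg_right h4 hpow)
        have h6 := mul_le_mul_of_nonneg_left h5 hh
        have h7 : 0 ≤ h ^ r * h ^ 2 := by positivity
        nlinarith
    -- type 3
    have b3 : (∀ i, (τ (Sum.inl i) : ℕ) ≠ 0) →
        h ^ 2 * ∏ i, f i ≤ h ^ r * (h ^ 2 + Δ * v1 * h + Δ * v * h) := by
      intro h2
      have hp1 : 0 ≤ h ^ r * (Δ * v1 * h) := by positivity
      have hp2 : 0 ≤ h ^ r * (Δ * v * h) := by positivity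
      have hp3 : 0 ≤ h ^ r * h ^ 2 := by positivity
      by_cases h1 : ∀ i, (τ (Sum.inl i) : ℕ) ≠ 1
      · have h3 := b1 h2 h1
        linarith
      · push Not at h1
        obtain ⟨i0, hi0⟩ := h1
        have h3 := xt1_prod f h hh hf0 {i0} fun i hi => hbig i (by
          have h5 : i ≠ i0 := by simpa using hi
          have h6 : (τ (Sum.inl i) : ℕ) ≠ 1 := fun h7 =>
            h5 (hinj i i0 (Fin.ext (h7.trans hi0.symm)))
          have := h2 i
          omega)
        rw [hcard] at h3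
        simp only [Finset.card_singleton, pow_one, Finset.prod_singleton] at h3
        have hq1 : 0 ≤ Δ * v1 := by positivity
        have hq2 : 0 ≤ Δ * v := by positivity
        have h4 : f i0 ≤ Δ * v1 + Δ * v := by
          rcases hone i0 hi0 with h5 | h5 | h5
          · rw [h5]; positivity
          · linarith [h5.2]
          · linarith [h5.2]
        have h5 : h * ∏ i, f i ≤ (Δ * v1 + Δ * v) * h ^ r :=
          h3.trans (mul_le_mul_of_nonneg_right h4 hpow)
        have h6 := mul_le_mul_of_nonneg_left h5 hh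
        nlinarith
    -- type 4
    have b4 : h ^ 2 * ∏ i, f i ≤
        h ^ r * (h ^ 2 + Y * v * h + Δ * v1 * h + Δ * v * h + Y * Δ * v ^ 2) := by
      have hp1 : 0 ≤ h ^ r * (Δ * v1 * h) := by positivity
      have hp2 : 0 ≤ h ^ r * (Δ * v * h) := by positivity
      have hp3 : 0 ≤ h ^ r * h ^ 2 := by positivity
      have hp4 : 0 ≤ h ^ r * (Y * v * h) := by positivity
      have hp5 : 0 ≤ h ^ r * (Y * Δ * v ^ 2) := by positivity
      by_cases h1 : ∀ i, (τ (Sum.inl i) : ℕ) ≠ 0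
      · have h3 := b3 h1
        linarith
      · by_cases h2 : ∀ i, (τ (Sum.inl i) : ℕ) ≠ 1
        · have h3 := b2 h2
          linarith
        · push Not at h1 h2
          obtain ⟨i0, hi0⟩ := h1
          obtain ⟨i1, hi1⟩ := h2
          have hne : i0 ≠ i1 := by
            rintro rfl
            omega
          have h3 := xt1_prod f h hh hf0 {i0, i1} fun i hi => hbig i (by
            have h5 : i ≠ i0 ∧ i ≠ i1 := by simpa using hi
            have h6 : (τ (Sum.inl i) : ℕ) ≠ 0 := fun h7 =>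
              h5.1 (hinj i i0 (Fin.ext (h7.trans hi0.symm)))
            have h8 : (τ (Sum.inl i) : ℕ) ≠ 1 := fun h7 =>
              h5.2 (hinj i i1 (Fin.ext (h7.trans hi1.symm)))
            omega)
          rw [hcard, Finset.card_pair hne, Finset.prod_pair hne] at h3
          have h4 : f i0 * f i1 ≤ Y * v * (Δ * v) := by
            rcases hzero i0 hi0 with h5 | ⟨h5, h6⟩
            · rw [h5, zero_mul]; positivity
            · rcases hone i1 hi1 with h7 | ⟨h7, h8⟩ | ⟨h7, h8⟩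
              · rw [h7, mul_zero]; positivity
              · exact absurd (Fin.ext (h5.trans h7.symm)) hne
              · exact mul_le_mul h6 h8 (hf0 _) (by positivity)
          have h5 : h ^ 2 * ∏ i, f i ≤ Y * v * (Δ * v) * h ^ r :=
            h3.trans (mul_le_mul_of_nonneg_right h4 hpow)
          nlinarith
    -- the last row
    have hVe : |tv M ζ (w2 Y Δ) (u (Sum.inr default)) (τ (Sum.inr default))| =
        |w2 Y Δ (τ (Sum.inr default) : ℕ) * (taylor ζ V).coeff (τ (Sum.inr default) : ℕ)| := rfl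
    have hX0 : 0 ≤ h ^ 2 * ∏ i, f i := by positivity
    have hr1 : 0 ≤ h ^ r * (a2 * (h ^ 2 + Y * v * h + Δ * v1 * h + Δ * v * h + Y * Δ * v ^ 2)) := by
      positivity
    have hr2 : 0 ≤ h ^ r * (Y * a0 * (h ^ 2 + Δ * v1 * h + Δ * v * h)) := by positivity
    have hr3 : 0 ≤ h ^ r * (Δ * a1 * (h ^ 2 + Y * v * h)) := by positivity
    have hRe : R = h ^ r * (a2 * (h ^ 2 + Y * v * h + Δ * v1 * h + Δ * v * h + Y * Δ * v ^ 2)) +
        h ^ r * (Y * a0 * (h ^ 2 + Δ * v1 * h + Δ * v * h)) +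
        h ^ r * (Δ * a1 * (h ^ 2 + Y * v * h)) := by rw [hR]; ring
    rw [hVe, ← mul_assoc]
    have hne : ∀ i : Fin r, τ (Sum.inl i) ≠ τ (Sum.inr default) := fun i hi => by
      have := hτ hi
      simp at this
    rcases Nat.lt_or_ge (τ (Sum.inr default) : ℕ) 2 with hc | hc
    · rcases Nat.le_one_iff_eq_zero_or_eq_one.1 (Nat.lt_succ_iff.1 hc) with hc0 | hc1
      · have h1 : ∀ i, (τ (Sum.inl i) : ℕ) ≠ 0 := fun i hi =>
          hne i (Fin.ext (hi.trans hc0.symm))
        rw [hc0]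
        have h2 : |w2 Y Δ 0 * (taylor ζ V).coeff 0| ≤ Y * a0 := by
          have h3 : w2 Y Δ 0 = Y := rfl
          rw [h3, abs_mul, abs_of_nonneg hY0]
          exact mul_le_mul_of_nonneg_left ha0 hY0
        calc h ^ 2 * (∏ i, f i) * |w2 Y Δ 0 * (taylor ζ V).coeff 0|
            ≤ h ^ r * (h ^ 2 + Δ * v1 * h + Δ * v * h) * (Y * a0) :=
              mul_le_mul (b3 h1) h2 (abs_nonneg _) (by positivity)
          _ = h ^ r * (Y * a0 * (h ^ 2 + Δ * v1 * h + Δ * v * h)) := by ring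
          _ ≤ R := by rw [hRe]; linarith
      · have h1 : ∀ i, (τ (Sum.inl i) : ℕ) ≠ 1 := fun i hi =>
          hne i (Fin.ext (hi.trans hc1.symm))
        rw [hc1]
        have h2 : |w2 Y Δ 1 * (taylor ζ V).coeff 1| ≤ Δ * a1 := by
          have h3 : w2 Y Δ 1 = Δ := rfl
          rw [h3, abs_mul, abs_of_nonneg hΔ0]
          exact mul_le_mul_of_nonneg_left ha1 hΔ0
        calc h ^ 2 * (∏ i, f i) * |w2 Y Δ 1 * (taylor ζ V).coeff 1|
            ≤ h ^ r * (h ^ 2 + Y * v * h) * (Δ * a1) :=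
              mul_le_mul (b2 h1) h2 (abs_nonneg _) (by positivity)
          _ = h ^ r * (Δ * a1 * (h ^ 2 + Y * v * h)) := by ring
          _ ≤ R := by rw [hRe]; linarith
    · obtain ⟨c, hc2⟩ : ∃ c, (τ (Sum.inr default) : ℕ) = c + 2 :=
        ⟨_, (Nat.sub_add_cancel hc).symm⟩
      rw [hc2]
      have h2 : |w2 Y Δ (c + 2) * (taylor ζ V).coeff (c + 2)| ≤ a2 := by
        have h3 : w2 Y Δ (c + 2) = 1 := rfl
        rw [h3, one_mul]
        exact ha2 _ (by omega)
      calc h ^ 2 * (∏ i, f i) * |w2 Y Δ (c + 2) * (taylor ζ V).coeff (c + 2)|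
          ≤ h ^ r * (h ^ 2 + Y * v * h + Δ * v1 * h + Δ * v * h + Y * Δ * v ^ 2) * a2 :=
            mul_le_mul b4 h2 (abs_nonneg _) (by positivity)
        _ = h ^ r * (a2 * (h ^ 2 + Y * v * h + Δ * v1 * h + Δ * v * h + Y * Δ * v ^ 2)) := by
            ring
        _ ≤ R := by rw [hRe]; linarith
  -- the maximal minor
  have hwn : wn M ζ (w2 Y Δ) u = mx fun i => tv M ζ (w2 Y Δ) (u i) := rfl
  rw [hwn]
  rcases mx_exists (fun i => tv M ζ (w2 Y Δ) (u i)) with h0 | ⟨s, hs⟩
  · rw [h0, mul_zero]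
    positivity
  · rw [← hs]
    by_cases hinj : Function.Injective s
    · have hcardM : Fintype.card (Fin r ⊕ Unit) ≤ M := by
        have := Fintype.card_le_of_injective s hinj
        simpa using this
      have h1 := xt1_det (Matrix.of fun i j : Fin r ⊕ Unit => tv M ζ (w2 Y Δ) (u i) (s j))
        (h ^ 2) R (by positivity) (fun τ => by
          simp only [Matrix.of_apply]
          exact key (fun i => s (τ i)) (hinj.comp τ.injective))
      refine h1.trans (mul_le_mul_of_nonneg_right ?_ hR0)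
      exact_mod_cast Nat.factorial_le hcardM
    · have h1 : (Matrix.of fun i j : Fin r ⊕ Unit => tv M ζ (w2 Y Δ) (u i) (s j)).det = 0 := by
        rw [Function.Injective] at hinj
        push Not at hinj
        obtain ⟨a, b, hab, hne⟩ := hinj
        refine Matrix.det_zero_of_column_eq hne fun i => ?_
        simp [hab]
      rw [h1, abs_zero, mul_zero]
      positivity

end Pool.Agent.Lib.H42Y
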