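import Pool.Agent.Lib.H42Y.TB4
import Pool.Agent.Lib.H42Y.XS
import Pool.Agent.Lib.H42Y.MA3
import Pool.Agent.Lib.H42Y.MA4

/-!
# Chunk XT2 (M)
The largest weight goes to infinity.

Proof. Let `U1 = U - C (U(ζ)/D(ζ)) * D`, with value 0 at `ζ`, so `U1 = T * V` with `V = U1 /ₘ T` (`Polynomial.mul_divByMonic_eq_iff_isRoot`, `dvd_iff_isRoot`), `V.natDegree < M - 1`. By `wn_sub` (or `mx_elim_sub`) the covolume of
`(D, T D, ..., T^r D, U)` equals that of `(D, T D, ..., T^r D, T V)`, for all weights. Consider a minor with columns `s` for the weights `w3 Λ Y Δ`. If no column is 0 then it does not depend on `Λ` and is bounded by `B0 :=` the largest minor of the family for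
the weights `w3 1 Y Δ` (`w3 Λ Y Δ` and `w3 1 Y Δ` agree for `c ≥ 1`). If exactly one column is 0 (two equal columns give 0), expand along it: only the row `D` has a nonzero entry there, `Λ D(ζ)`, and the complementary minor is a minor of the family
`(T D, ..., T^r D, T V) = T * (D, ..., T^(r-1) D, V)` without the column 0, i.e. (`taylor_T_succ`, `w3 Λ Y Δ (c+1) = w2 Y Δ c`) a minor of `(D, ..., T^(r-1) D, V)` for `w2 Y Δ`: at most `wn`. In both cases the minor is `≤ Λ |D(ζ)| wn + B0`.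
(Use `mx_reindex` to put the row `D` first: `Fin (r+1) ⊕ Unit ≃ Option (Fin r ⊕ Unit)` or `Fin (r+2)`, and `Matrix.det_succ_column`/`det_succ_row`.)
-/

open Polynomial

namespace Pool.Agent.Lib.H42Y

private def xt_e (r : ℕ) : Fin (r + 1) ≃ Fin r ⊕ Unit :=
  finSumFinEquiv.symm.trans (Equiv.sumCongr (Equiv.refl _) (Equiv.ofUnique (Fin 1) Unit))

private lemma xt_e_castSucc (r : ℕ) (k : Fin r) : xt_e r k.castSucc = Sum.inl k := by
  have h : finSumFinEquiv.symm (Fin.castAdd 1 k) = Sum.inl k :=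
    finSumFinEquiv_symm_apply_castAdd k
  have h2 : k.castSucc = Fin.castAdd 1 k := rfl
  simp only [xt_e, Equiv.trans_apply, h2, h, Equiv.sumCongr_apply, Sum.map_inl, Equiv.refl_apply]

private lemma xt_e_last (r : ℕ) : xt_e r (Fin.last r) = Sum.inr () := by
  have h : finSumFinEquiv.symm (Fin.natAdd r (0 : Fin 1)) = Sum.inr 0 :=
    finSumFinEquiv_symm_apply_natAdd (0 : Fin 1)
  have h2 : Fin.last r = Fin.natAdd r (0 : Fin 1) := rfl
  simp only [xt_e, Equiv.trans_apply, h2, h, Equiv.sumCongr_apply, Sum.map_inr]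

private lemma xt_core (M : ℕ) (ζ Y Δ : ℝ) (m : ℕ) (f : Fin (m + 1) → ℝ[X]) (g : Fin m → ℝ[X])
    (hfg : ∀ k, f k.succ = (X - C ζ) * g k) (Λ : ℝ) (hΛ : 0 < Λ) :
    wn M ζ (w3 Λ Y Δ) f ≤
      Λ * (|(f 0).eval ζ| * wn M ζ (w2 Y Δ) g) + wn M ζ (w3 1 Y Δ) f := by
  have hw2 : 0 ≤ wn M ζ (w2 Y Δ) g := mx_nonneg _
  have hw3 : 0 ≤ wn M ζ (w3 1 Y Δ) f := mx_nonneg _
  have hL : 0 ≤ Λ * (|(f 0).eval ζ| * wn M ζ (w2 Y Δ) g) := by positivity
  apply mx_le _ _ (by positivity)
  intro s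
  by_cases h : ∃ j0, (s j0 : ℕ) = 0
  · obtain ⟨j0, hj0⟩ := h
    have hcol : ∀ k : Fin m, (taylor ζ (f k.succ)).coeff 0 = 0 := by
      intro k
      rw [hfg]
      exact taylor_T_zero ζ _
    rw [Matrix.det_succ_column _ j0, Fin.sum_univ_succ]
    have hz : ∑ i : Fin m, (-1 : ℝ) ^ ((i.succ : ℕ) + (j0 : ℕ)) *
        (Matrix.of fun i j => tv M ζ (w3 Λ Y Δ) (f i) (s j)) i.succ j0 *
        ((Matrix.of fun i j => tv M ζ (w3 Λ Y Δ) (f i) (s j)).submatrix i.succ.succAbove
          j0.succAbove).det = 0 := by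
      apply Finset.sum_eq_zero
      intro i _
      have : (Matrix.of fun i j => tv M ζ (w3 Λ Y Δ) (f i) (s j)) i.succ j0 = 0 := by
        simp only [Matrix.of_apply, tv]
        rw [hj0, hcol, mul_zero]
      rw [this, mul_zero, zero_mul]
    rw [hz, add_zero, abs_mul, abs_mul, abs_pow, abs_neg, abs_one, one_pow, one_mul]
    have h0 : |(Matrix.of fun i j => tv M ζ (w3 Λ Y Δ) (f i) (s j)) 0 j0| =
        Λ * |(f 0).eval ζ| := by
      simp only [Matrix.of_apply, tv]
      rw [hj0, taylor_coeff_zero, abs_mul]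
      simp only [w3]
      rw [abs_of_pos hΛ]
    rw [h0]
    have h1 : |((Matrix.of fun i j => tv M ζ (w3 Λ Y Δ) (f i) (s j)).submatrix
        (Fin.succAbove 0) j0.succAbove).det| ≤ wn M ζ (w2 Y Δ) g := by
      by_cases hs : ∃ j : Fin m, (s (j0.succAbove j) : ℕ) = 0
      · obtain ⟨j, hj⟩ := hs
        have : ((Matrix.of fun i j => tv M ζ (w3 Λ Y Δ) (f i) (s j)).submatrix
            (Fin.succAbove 0) j0.succAbove).det = 0 := by
          apply Matrix.det_eq_zero_of_column_eq_zero j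
          intro i
          simp only [Matrix.submatrix_apply, Matrix.of_apply, tv, Fin.succAbove_zero]
          rw [hj, hcol, mul_zero]
        rw [this, abs_zero]
        exact hw2
      · push Not at hs
        have hlt : ∀ j : Fin m, (s (j0.succAbove j) : ℕ) - 1 < M := fun j => by
          have := (s (j0.succAbove j)).2
          omega
        have e : (Matrix.of fun i j => tv M ζ (w3 Λ Y Δ) (f i) (s j)).submatrix
            (Fin.succAbove 0) j0.succAbove = Matrix.of fun i j : Fin m =>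
              tv M ζ (w2 Y Δ) (g i) ⟨(s (j0.succAbove j) : ℕ) - 1, hlt j⟩ := by
          ext i j
          simp only [Matrix.submatrix_apply, Matrix.of_apply, tv, Fin.succAbove_zero]
          obtain ⟨c, hc⟩ := Nat.exists_eq_succ_of_ne_zero (hs j)
          rw [hc, hfg]
          have h5 := taylor_T_succ ζ (g i) c
          rw [Nat.succ_eq_add_one, h5, Nat.add_sub_cancel]
          rfl
        rw [e]
        exact le_mx _ _
    calc Λ * |(f 0).eval ζ| * |((Matrix.of fun i j => tv M ζ (w3 Λ Y Δ) (f i) (s j)).submatrix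
        (Fin.succAbove 0) j0.succAbove).det| ≤ Λ * |(f 0).eval ζ| * wn M ζ (w2 Y Δ) g := by
          gcongr
      _ ≤ _ := by
          rw [mul_assoc]
          linarith
  · push Not at h
    have e : (Matrix.of fun i j => tv M ζ (w3 Λ Y Δ) (f i) (s j)) =
        Matrix.of fun i j => tv M ζ (w3 1 Y Δ) (f i) (s j) := by
      ext i j
      simp only [Matrix.of_apply, tv]
      obtain ⟨c, hc⟩ := Nat.exists_eq_succ_of_ne_zero (h j)
      rw [hc]
      rfl
    rw [e]
    have h1 : |(Matrix.of fun i j => tv M ζ (w3 1 Y Δ) (f i) (s j)).det| ≤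
        wn M ζ (w3 1 Y Δ) f := le_mx _ _
    linarith

theorem xt2 (M : ℕ) (ζ Y Δ : ℝ) (r : ℕ) (D U : ℝ[X]) (hU : U.natDegree + 1 < M)
    (hD : D.natDegree + r + 1 < M) (hY : 1 ≤ Y) (hΔ : 1 ≤ Δ) (h0 : D.eval ζ ≠ 0) :
    ∃ V : ℝ[X], V.natDegree + 1 < M ∧
      (X - C ζ) * V = U - C (U.eval ζ / D.eval ζ) * D ∧ ∃ B0 : ℝ, ∀ Λ : ℝ, 0 < Λ →
        wn M ζ (w3 Λ Y Δ)
          (Sum.elim (fun i : Fin (r + 1) => (X - C ζ) ^ (i : ℕ) * D) (fun _ : Unit => U)) ≤
        Λ * (|D.eval ζ| * wn M ζ (w2 Y Δ)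
          (Sum.elim (fun i : Fin r => (X - C ζ) ^ (i : ℕ) * D) (fun _ : Unit => V))) + B0 := by
  have hroot : (U - C (U.eval ζ / D.eval ζ) * D).IsRoot ζ := by
    rw [IsRoot.def, eval_sub, eval_mul, eval_C, div_mul_cancel₀ _ h0, sub_self]
  obtain ⟨V, hV⟩ := dvd_iff_isRoot.mpr hroot
  have hdeg : V.natDegree + 1 < M := by
    by_cases hV0 : V = 0
    · rw [hV0, natDegree_zero]
      omega
    · have h1 : ((X - C ζ) * V).natDegree = 1 + V.natDegree := by
        rw [natDegree_mul (X_sub_C_ne_zero ζ) hV0, natDegree_X_sub_C]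
      have h2 : (U - C (U.eval ζ / D.eval ζ) * D).natDegree ≤ max U.natDegree D.natDegree := by
        refine (natDegree_sub_le _ _).trans ?_
        exact max_le_max le_rfl (natDegree_C_mul_le _ _)
      rw [hV, h1] at h2
      rcases le_max_iff.mp h2 with h3 | h3 <;> omega
  refine ⟨V, hdeg, hV.symm, ?_⟩
  set v : Fin (r + 1) → ℝ[X] := fun i => (X - C ζ) ^ (i : ℕ) * D with hv
  set f : Fin (r + 2) → ℝ[X] := fun k => Sum.elim v (fun _ : Unit => (X - C ζ) * V)
    (xt_e (r + 1) k) with hf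
  set g : Fin (r + 1) → ℝ[X] := fun k => Sum.elim (fun i : Fin r => (X - C ζ) ^ (i : ℕ) * D)
    (fun _ : Unit => V) (xt_e r k) with hg
  have hfg : ∀ k, f k.succ = (X - C ζ) * g k := by
    intro k
    induction k using Fin.lastCases with
    | last =>
      rw [hf, hg]
      simp only [Fin.succ_last, xt_e_last, Sum.elim_inr]
    | cast i =>
      have e1 : i.castSucc.succ = i.succ.castSucc := rfl
      rw [hf, hg]
      simp only [e1, xt_e_castSucc, Sum.elim_inl, hv, Fin.val_succ]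
      ring
  have hf0 : f 0 = D := by
    have e1 : (0 : Fin (r + 2)) = (0 : Fin (r + 1)).castSucc := rfl
    rw [hf]
    simp only [e1, xt_e_castSucc, Sum.elim_inl, hv, Fin.val_zero, pow_zero, one_mul]
  refine ⟨wn M ζ (w3 1 Y Δ) f, ?_⟩
  intro Λ hΛ
  have h1 := xt_core M ζ Y Δ (r + 1) f g hfg Λ hΛ
  rw [hf0] at h1
  have h2 : wn M ζ (w2 Y Δ) g = wn M ζ (w2 Y Δ)
      (Sum.elim (fun i : Fin r => (X - C ζ) ^ (i : ℕ) * D) (fun _ : Unit => V)) := by
    unfold wn
    exact mx_reindex (xt_e r) (fun i => tv M ζ (w2 Y Δ)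
      (Sum.elim (fun i : Fin r => (X - C ζ) ^ (i : ℕ) * D) (fun _ : Unit => V) i))
  have h3 : wn M ζ (w3 Λ Y Δ) f = wn M ζ (w3 Λ Y Δ)
      (Sum.elim v (fun _ : Unit => (X - C ζ) * V)) := by
    unfold wn
    exact mx_reindex (xt_e (r + 1)) (fun i => tv M ζ (w3 Λ Y Δ)
      (Sum.elim v (fun _ : Unit => (X - C ζ) * V) i))
  have h4 := wn_sub M ζ (w3 Λ Y Δ) v (fun _ : Unit => U)
    (fun _ i => if i = 0 then U.eval ζ / D.eval ζ else 0)
  have h5 : (fun k : Unit => (fun _ : Unit => U) k - ∑ i, C ((fun (_ : Unit) (i : Fin (r + 1)) =>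
      if i = 0 then U.eval ζ / D.eval ζ else 0) k i) * v i) = fun _ : Unit => (X - C ζ) * V := by
    funext k
    rw [← hV]
    congr 1
    rw [Finset.sum_eq_single (0 : Fin (r + 1))]
    · simp [hv]
    · intro b _ hb
      simp [hb]
    · intro h
      exact absurd (Finset.mem_univ _) h
  rw [h5] at h4
  rw [← h4, ← h3, ← h2]
  exact h1

end Pool.Agent.Lib.H42Y
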