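import Pool.Agent.Lib.H42Y.XL1
import Pool.Agent.Lib.H42Y.XT1
import Pool.Agent.Lib.H42Y.XT2

/-!
# Chunk XT (M/L)
The base of the chain.

Proof. Notation: `T = X - C ζ`, `Φ = (D, T D, ..., T^r D, U)`, the same covolume as the family of the statement (`wn_shifts`); `d = ‖tv (w2 Y Δ) D‖`, `h = nm D` (`0 < h ≤ d`, `D ≠ 0`), `v = |D(ζ)| ≤ d / Y`, `v1 = |D'(ζ)| ≤ d / Δ`, `v, v1 ≤ h` (`le_tv`, `M ≥ 2`).
(1) `mx_near` (weights `w2 Y Δ`) gives `U' = U - ∑ c_i T^i D` with `u * wn (T^i D)_{i ≤ r} ≤ wn Φ`, `u = ‖tv (w2 Y Δ) U'‖` (`tv_sum`, `tv_sub`), and `shifts_lower` gives `u * d * h^r ≤ K1 * wn Φ`. `U'` has `natDegree + 1 < M`.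
(2) `wn Φ` is the same with `U'` in place of `U`, for all weights (`wn_sub`). `xt2` for `D, U'`: `V` with `T V = U' - (U'(ζ)/D(ζ)) D` and `wn_{w3} ≤ Λ v W + B0`, `W = wn_{w2} (D, ..., T^(r-1) D, V)`.
(3) Taylor coefficients `c_j` of `V` are the `c_(j+1)` of `T V` (`taylor_T_succ`): with `|U'(ζ)| ≤ u / Y`, `|U''(ζ)| ≤ u / Δ` (here `U''` is the derivative of `U'`), `|c_j(U')| ≤ u`, `|c_j(D)| ≤ h` (the norms are maxima over `j < M`; the coefficients with `j ≥ M` vanish):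
`v * |c_0(V)| ≤ v u / Δ + v1 u / Y`, `v * |c_j(V)| ≤ v u + h u / Y ≤ 2 d u / Y` for `j ≥ 1`. So apply `xt1` with `a0 = (v u / Δ + v1 u / Y) / v`, `a1 = a2 = 2 d u / (Y v)` (`v > 0`).
(4) Claim: `v * (bracket of xt1) ≤ 20 * (S / Δ) * d * u * h^2`. Hypotheses: `Δ v1 ≤ S h`, `Δ^2 v ≤ S h`, `Δ^2 ≤ Y`, `S, Δ ≥ 1`. The terms (each `≤ 2 (S/Δ) d u h^2`):
`v a2 h^2 ≤ 2 d u h^2 / Y`; `v a2 Y v h = 2 d u v h`, `v ≤ S h / Δ^2`; `v a2 Δ v1 h ≤ (2 d u / Y) S h h`; `v a2 Δ v h ≤ (2 d u / Y) (S h / Δ) h`; `v a2 Y Δ v^2 = 2 d u Δ v^2 ≤ 2 d u (S h / Δ) v`, `v ≤ h`;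
`v Y a0 h^2 ≤ (Y v u / Δ + v1 u) h^2 ≤ (2 d u / Δ) h^2`; `v Y a0 Δ v1 h ≤ (2 d u / Δ) S h h`; `v Y a0 Δ v h ≤ (2 d u / Δ)(S h / Δ) h`; `v Δ a1 h^2 = 2 d u Δ h^2 / Y ≤ 2 d u h^2 / Δ`; `v Δ a1 Y v h = 2 d u Δ v h ≤ 2 d u (S h / Δ) h`.
(5) `h^2 * v * W ≤ K2 h^r * 20 (S/Δ) d u h^2`, divide by `h^2 > 0`: `v W ≤ 20 K2 (S/Δ) d u h^r ≤ 20 K1 K2 (S/Δ) wn Φ`. `K = 20 K1 K2`.
`xt_zero` (`r = 0`): the same without `xt1`: `W = wn (V) = ‖tv (w2 Y Δ) V‖ ≤ max (Y |c_0|) (max (Δ |c_1|) (max |c_j|))` (one row), `v W ≤ max (2 d u / Δ) (2 d u Δ / Y) ≤ 2 d u / Δ`.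
-/

open Polynomial

namespace Pool.Agent.Lib.H42Y

private theorem XT_coeff_le (M : ℕ) (ζ : ℝ) (p : ℝ[X]) (hp : p.natDegree < M) (j : ℕ) :
    |(taylor ζ p).coeff j| ≤ nm M ζ p := by
  by_cases hj : j < M
  · have h := norm_le_pi_norm (tv M ζ (fun _ => 1) p) ⟨j, hj⟩
    simpa [tv, nm, Real.norm_eq_abs] using h
  · rw [coeff_eq_zero_of_natDegree_lt (by rw [natDegree_taylor]; omega), abs_zero]
    exact norm_nonneg _

private theorem XT_common (M : ℕ) (ζ : ℝ) (K1 : ℝ) (h0K : 0 ≤ K1)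
    (hK1 : ∀ (Y Δ : ℝ) (r : ℕ) (D : ℝ[X]), 1 ≤ Δ → Δ ^ 2 ≤ Y → D.natDegree + r < M →
      ‖tv M ζ (w2 Y Δ) D‖ * nm M ζ D ^ r ≤
        K1 * wn M ζ (w2 Y Δ) (fun i : Fin (r + 1) => (X - C ζ) ^ (i : ℕ) * D))
    (Y Δ : ℝ) (r : ℕ) (D U : ℝ[X]) (hΔ : 1 ≤ Δ) (hY : Δ ^ 2 ≤ Y)
    (hD : D.natDegree + r + 1 < M) (hU : U.natDegree + 1 < M) (h0 : D.eval ζ ≠ 0) :
    ∃ (V : ℝ[X]) (u B0 : ℝ), 0 ≤ u ∧ V.natDegree + 1 < M ∧
      (∀ Λ : ℝ, 0 < Λ → wn M ζ (w3 Λ Y Δ)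
        (Sum.elim (fun i : Fin (r + 1) => X ^ (i : ℕ) * D) (fun _ : Unit => U)) ≤
        Λ * (|D.eval ζ| * wn M ζ (w2 Y Δ)
          (Sum.elim (fun i : Fin r => (X - C ζ) ^ (i : ℕ) * D) (fun _ : Unit => V))) + B0) ∧
      u * (‖tv M ζ (w2 Y Δ) D‖ * nm M ζ D ^ r) ≤ K1 * wn M ζ (w2 Y Δ)
        (Sum.elim (fun i : Fin (r + 1) => X ^ (i : ℕ) * D) (fun _ : Unit => U)) ∧
      |D.eval ζ| * |(taylor ζ V).coeff 0| ≤
        |D.eval ζ| * (u / Δ) + u / Y * |(derivative D).eval ζ| ∧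
      ∀ c, 1 ≤ c → |D.eval ζ| * |(taylor ζ V).coeff c| ≤ |D.eval ζ| * u + u / Y * nm M ζ D := by
  have hM : 2 ≤ M := by omega
  have hY1 : 1 ≤ Y := by nlinarith
  have hY0 : 0 < Y := by linarith
  have hΔ0 : 0 < Δ := by linarith
  obtain ⟨c, hc⟩ := mx_near (fun i : Fin (r + 1) => tv M ζ (w2 Y Δ) ((X - C ζ) ^ (i : ℕ) * D))
    (tv M ζ (w2 Y Δ) U)
  set U' : ℝ[X] := U - ∑ i : Fin (r + 1), C (c i) * ((X - C ζ) ^ (i : ℕ) * D) with hU'
  have e1 : tv M ζ (w2 Y Δ) U' = tv M ζ (w2 Y Δ) U -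
      ∑ i : Fin (r + 1), c i • tv M ζ (w2 Y Δ) ((X - C ζ) ^ (i : ℕ) * D) := by
    rw [hU', tv_sub, tv_sum]
  rw [← e1] at hc
  have e2 : wn M ζ (w2 Y Δ) (Sum.elim (fun i : Fin (r + 1) => (X - C ζ) ^ (i : ℕ) * D)
      (fun _ : Unit => U)) = mx (Sum.elim (fun i : Fin (r + 1) =>
        tv M ζ (w2 Y Δ) ((X - C ζ) ^ (i : ℕ) * D)) fun _ : Unit => tv M ζ (w2 Y Δ) U) := by
    unfold wn
    congr 1
    funext i
    cases i <;> rfl
  have e4 : ∀ t : ℕ → ℝ, wn M ζ t (Sum.elim (fun i : Fin (r + 1) => (X - C ζ) ^ (i : ℕ) * D)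
      (fun _ : Unit => U')) = wn M ζ t (Sum.elim (fun i : Fin (r + 1) =>
        (X - C ζ) ^ (i : ℕ) * D) (fun _ : Unit => U)) := fun t =>
    wn_sub M ζ t (fun i : Fin (r + 1) => (X - C ζ) ^ (i : ℕ) * D) (fun _ : Unit => U) (fun _ => c)
  have hU'd : U'.natDegree + 1 < M := by
    have h1 : U'.natDegree ≤ max U.natDegree (D.natDegree + r) := by
      refine (natDegree_sub_le _ _).trans (max_le_max le_rfl ?_)
      refine natDegree_sum_le_of_forall_le _ _ fun i _ => ?_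
      refine (natDegree_C_mul_le _ _).trans ?_
      refine natDegree_mul_le.trans ?_
      have h2 : ((X - C ζ) ^ (i : ℕ) : ℝ[X]).natDegree ≤ (i : ℕ) := by
        refine natDegree_pow_le.trans ?_
        rw [natDegree_X_sub_C, mul_one]
      have h3 : (i : ℕ) < r + 1 := i.2
      omega
    rcases le_max_iff.mp h1 with h2 | h2 <;> omega
  obtain ⟨V, hV, hTV, B0, hB⟩ := xt2 M ζ Y Δ r D U' hU'd hD hY1 hΔ h0
  obtain ⟨k1, k2, k3, -, -⟩ := le_tv M hM ζ Y Δ U' hY1 hΔ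
  set u : ℝ := ‖tv M ζ (w2 Y Δ) U'‖ with hu
  have hu0 : 0 ≤ u := norm_nonneg _
  have k1' : |U'.eval ζ| ≤ u / Y := by
    rw [le_div_iff₀ hY0]
    linarith
  have k2' : |(derivative U').eval ζ| ≤ u / Δ := by
    rw [le_div_iff₀ hΔ0]
    linarith
  have hcoef : ∀ j, D.eval ζ * (taylor ζ V).coeff j =
      D.eval ζ * (taylor ζ U').coeff (j + 1) - U'.eval ζ * (taylor ζ D).coeff (j + 1) := by
    intro j
    rw [← taylor_T_succ, hTV, map_sub, coeff_sub, taylor_mul, taylor_C, coeff_C_mul]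
    field_simp
  have hcoef' : ∀ j, |D.eval ζ| * |(taylor ζ V).coeff j| ≤
      |D.eval ζ| * |(taylor ζ U').coeff (j + 1)| + |U'.eval ζ| * |(taylor ζ D).coeff (j + 1)| := by
    intro j
    rw [← abs_mul, hcoef, ← abs_mul, ← abs_mul]
    exact abs_sub _ _
  refine ⟨V, u, B0, hu0, hV, ?_, ?_, ?_, ?_⟩
  · intro Λ hΛ
    rw [wn_shifts, ← e4]
    exact hB Λ hΛ
  · rw [wn_shifts, e2]
    have h1 := hK1 Y Δ r D hΔ hY (by omega)
    calc u * (‖tv M ζ (w2 Y Δ) D‖ * nm M ζ D ^ r)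
        ≤ u * (K1 * wn M ζ (w2 Y Δ) (fun i : Fin (r + 1) => (X - C ζ) ^ (i : ℕ) * D)) :=
          mul_le_mul_of_nonneg_left h1 hu0
      _ = K1 * (u * mx fun i : Fin (r + 1) => tv M ζ (w2 Y Δ) ((X - C ζ) ^ (i : ℕ) * D)) := by
          rw [wn]
          ring
      _ ≤ _ := mul_le_mul_of_nonneg_left hc h0K
  · refine (hcoef' 0).trans (add_le_add (mul_le_mul_of_nonneg_left ?_ (abs_nonneg _))
      (mul_le_mul k1' ?_ (abs_nonneg _) (by positivity)))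
    · rw [zero_add, taylor_coeff_one]
      exact k2'
    · rw [zero_add, taylor_coeff_one]
  · intro j _
    refine (hcoef' j).trans (add_le_add (mul_le_mul_of_nonneg_left ?_ (abs_nonneg _))
      (mul_le_mul k1' ?_ (abs_nonneg _) (by positivity)))
    · exact (XT_coeff_le M ζ U' (by omega) _).trans k3
    · exact XT_coeff_le M ζ D (by omega) _

/-- The numerical estimate (4). -/
private theorem XT_num (Y Δ S d u h v v1 : ℝ) (hΔ : 1 ≤ Δ) (hY : Δ ^ 2 ≤ Y) (hS : 1 ≤ S)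
    (hu : 0 ≤ u) (hv : 0 ≤ v) (hv1 : 0 ≤ v1) (hh : 0 ≤ h) (hd : 0 ≤ d) (hvh : v ≤ h)
    (hYv : Y * v ≤ d) (hΔv1 : Δ * v1 ≤ d) (h1 : Δ * v1 ≤ S * h) (h2 : Δ ^ 2 * v ≤ S * h) :
    2 * d * u / Y * (h ^ 2 + Y * v * h + Δ * v1 * h + Δ * v * h + Y * Δ * v ^ 2) +
      Y * (v * (u / Δ) + u / Y * v1) * (h ^ 2 + Δ * v1 * h + Δ * v * h) +
      Δ * (2 * d * u / Y) * (h ^ 2 + Y * v * h) ≤ 20 * (S / Δ * (d * u * h ^ 2)) := by
  have hΔ0 : 0 < Δ := by linarith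
  have hY0 : 0 < Y := by nlinarith
  set e : ℝ := d * u with he
  have he0 : 0 ≤ e := mul_nonneg hd hu
  set s : ℝ := S / Δ with hs
  have hs0 : 0 ≤ s := by positivity
  have hsΔ : s * Δ = S := div_mul_cancel₀ _ hΔ0.ne'
  have hs1 : 1 / Δ ≤ s := div_le_div_of_nonneg_right hS hΔ0.le
  have hΔv : Δ * v ≤ s * h := by
    rw [hs, div_mul_eq_mul_div, le_div_iff₀ hΔ0]
    nlinarith
  have hsS : s ≤ S := div_le_self (by linarith) hΔ
  -- the second factor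
  have hQ : h ^ 2 + Δ * v1 * h + Δ * v * h ≤ 3 * (S * h ^ 2) := by
    have a1 : Δ * v1 * h ≤ S * h * h := mul_le_mul_of_nonneg_right h1 hh
    have a2 : Δ * v * h ≤ S * h * h := by
      refine mul_le_mul_of_nonneg_right (hΔv.trans ?_) hh
      exact mul_le_mul_of_nonneg_right hsS hh
    have a3 : h ^ 2 ≤ S * h ^ 2 := le_mul_of_one_le_left (by positivity) hS
    nlinarith
  have hQ0 : 0 ≤ h ^ 2 + Δ * v1 * h + Δ * v * h := by positivity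
  -- `2 e / Y ≤ 2 e / Δ ^ 2`
  have hB : 2 * d * u / Y ≤ 2 * e / Δ / Δ := by
    rw [div_div, ← pow_two, show 2 * d * u = 2 * e by rw [he]; ring]
    exact div_le_div_of_nonneg_left (by positivity) (by positivity) hY
  have hB' : 2 * d * u / Y ≤ 2 * e / Δ := hB.trans (div_le_self (by positivity) hΔ)
  have hB0 : 0 ≤ 2 * d * u / Y := by positivity
  have hA : Y * (v * (u / Δ) + u / Y * v1) ≤ 2 * e / Δ := by
    have a1 : Y * (v * (u / Δ) + u / Y * v1) = (Y * v * u + Δ * v1 * u) / Δ := by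
      field_simp
    rw [a1, div_le_div_iff_of_pos_right hΔ0]
    have a2 : Y * v * u ≤ d * u := mul_le_mul_of_nonneg_right hYv hu
    have a3 : Δ * v1 * u ≤ d * u := mul_le_mul_of_nonneg_right hΔv1 hu
    linarith
  have c1 : 2 * d * u / Y * (h ^ 2 + Δ * v1 * h + Δ * v * h) ≤ 6 * (s * (e * h ^ 2)) := by
    calc 2 * d * u / Y * (h ^ 2 + Δ * v1 * h + Δ * v * h) ≤ 2 * e / Δ * (3 * (S * h ^ 2)) :=
          mul_le_mul hB' hQ hQ0 (by positivity)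
      _ = 6 * (s * (e * h ^ 2)) := by
          rw [hs]
          ring
  have c2 : Y * (v * (u / Δ) + u / Y * v1) * (h ^ 2 + Δ * v1 * h + Δ * v * h) ≤
      6 * (s * (e * h ^ 2)) := by
    calc Y * (v * (u / Δ) + u / Y * v1) * (h ^ 2 + Δ * v1 * h + Δ * v * h)
        ≤ 2 * e / Δ * (3 * (S * h ^ 2)) := mul_le_mul hA hQ hQ0 (by positivity)
      _ = 6 * (s * (e * h ^ 2)) := by
          rw [hs]
          ring
  have c3 : 2 * d * u / Y * (Y * v * h) ≤ 2 * (s * (e * h ^ 2)) := by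
    have a1 : 2 * d * u / Y * (Y * v * h) = 2 * e * h * v := by
      rw [he]
      field_simp
    have a2 : v ≤ s * h := by
      have : v ≤ Δ * v := le_mul_of_one_le_left hv hΔ
      linarith
    rw [a1]
    calc 2 * e * h * v ≤ 2 * e * h * (s * h) := mul_le_mul_of_nonneg_left a2 (by positivity)
      _ = 2 * (s * (e * h ^ 2)) := by ring
  have c4 : 2 * d * u / Y * (Y * Δ * v ^ 2) ≤ 2 * (s * (e * h ^ 2)) := by
    have a1 : 2 * d * u / Y * (Y * Δ * v ^ 2) = 2 * e * (Δ * v * v) := by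
      rw [he]
      field_simp
    have a2 : Δ * v * v ≤ s * h * h := mul_le_mul hΔv hvh hv (by positivity)
    rw [a1]
    calc 2 * e * (Δ * v * v) ≤ 2 * e * (s * h * h) := mul_le_mul_of_nonneg_left a2 (by positivity)
      _ = 2 * (s * (e * h ^ 2)) := by ring
  have c5 : Δ * (2 * d * u / Y) * h ^ 2 ≤ 2 * (s * (e * h ^ 2)) := by
    have a1 : Δ * (2 * d * u / Y) ≤ 2 * e * (1 / Δ) := by
      calc Δ * (2 * d * u / Y) ≤ Δ * (2 * e / Δ / Δ) := mul_le_mul_of_nonneg_left hB hΔ0.le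
        _ = 2 * e * (1 / Δ) := by
            field_simp
    calc Δ * (2 * d * u / Y) * h ^ 2 ≤ 2 * e * (1 / Δ) * h ^ 2 :=
          mul_le_mul_of_nonneg_right a1 (by positivity)
      _ ≤ 2 * e * s * h ^ 2 :=
          mul_le_mul_of_nonneg_right (mul_le_mul_of_nonneg_left hs1 (by positivity)) (by positivity)
      _ = 2 * (s * (e * h ^ 2)) := by ring
  have c6 : Δ * (2 * d * u / Y) * (Y * v * h) ≤ 2 * (s * (e * h ^ 2)) := by
    have a1 : Δ * (2 * d * u / Y) * (Y * v * h) = 2 * e * h * (Δ * v) := by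
      rw [he]
      field_simp
    rw [a1]
    calc 2 * e * h * (Δ * v) ≤ 2 * e * h * (s * h) := mul_le_mul_of_nonneg_left hΔv (by positivity)
      _ = 2 * (s * (e * h ^ 2)) := by ring
  have c7 : 2 * d * u / Y * (h ^ 2 + Y * v * h + Δ * v1 * h + Δ * v * h + Y * Δ * v ^ 2) +
      Y * (v * (u / Δ) + u / Y * v1) * (h ^ 2 + Δ * v1 * h + Δ * v * h) +
      Δ * (2 * d * u / Y) * (h ^ 2 + Y * v * h) =
      2 * d * u / Y * (h ^ 2 + Δ * v1 * h + Δ * v * h) +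
      Y * (v * (u / Δ) + u / Y * v1) * (h ^ 2 + Δ * v1 * h + Δ * v * h) +
      2 * d * u / Y * (Y * v * h) + 2 * d * u / Y * (Y * Δ * v ^ 2) +
      Δ * (2 * d * u / Y) * h ^ 2 + Δ * (2 * d * u / Y) * (Y * v * h) := by ring
  rw [c7]
  linarith

theorem xt (M : ℕ) (ζ : ℝ) : ∃ K : ℝ, 1 ≤ K ∧ ∀ (Y Δ S : ℝ) (r : ℕ) (D U : ℝ[X]), 1 ≤ r → 1 ≤ Δ →
    Δ ^ 2 ≤ Y → 1 ≤ S → D.natDegree + r + 1 < M → U.natDegree + 1 < M → D.eval ζ ≠ 0 →
    Δ * |(derivative D).eval ζ| ≤ S * nm M ζ D → Δ ^ 2 * |D.eval ζ| ≤ S * nm M ζ D →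
    ∃ B0 : ℝ, ∀ Λ : ℝ, 0 < Λ →
      wn M ζ (w3 Λ Y Δ)
        (Sum.elim (fun i : Fin (r + 1) => X ^ (i : ℕ) * D) (fun _ : Unit => U)) ≤
      Λ * (K * (S / Δ * wn M ζ (w2 Y Δ)
        (Sum.elim (fun i : Fin (r + 1) => X ^ (i : ℕ) * D) (fun _ : Unit => U)))) + B0 := by
  obtain ⟨K1, hK1, H1⟩ := shifts_lower M ζ
  obtain ⟨K2, hK2, H2⟩ := xt1 M ζ
  refine ⟨20 * K1 * K2, by nlinarith, ?_⟩
  intro Y Δ S r D U hr hΔ hY hS hD hU h0 hS1 hS2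
  have hM : 2 ≤ M := by omega
  have hY1 : 1 ≤ Y := by nlinarith
  have hY0 : 0 < Y := by linarith
  have hΔ0 : 0 < Δ := by linarith
  obtain ⟨V, u, B0, hu, hV, hB, h1, h2, h3⟩ :=
    XT_common M ζ K1 (by linarith) H1 Y Δ r D U hΔ hY hD hU h0
  refine ⟨B0, fun Λ hΛ => (hB Λ hΛ).trans ?_⟩
  set F : ℝ := wn M ζ (w2 Y Δ)
    (Sum.elim (fun i : Fin (r + 1) => X ^ (i : ℕ) * D) (fun _ : Unit => U)) with hF
  set W : ℝ := wn M ζ (w2 Y Δ)
    (Sum.elim (fun i : Fin r => (X - C ζ) ^ (i : ℕ) * D) (fun _ : Unit => V)) with hW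
  refine add_le_add_left (mul_le_mul_of_nonneg_left ?_ hΛ.le) _
  obtain ⟨k1, k2, k3, k4, k5⟩ := le_tv M hM ζ Y Δ D hY1 hΔ
  set d : ℝ := ‖tv M ζ (w2 Y Δ) D‖ with hd
  set h : ℝ := nm M ζ D with hh
  set v : ℝ := |D.eval ζ| with hv
  set v1 : ℝ := |(derivative D).eval ζ| with hv1
  have hv0 : 0 < v := abs_pos.2 h0
  have hv10 : 0 ≤ v1 := abs_nonneg _
  have hh0 : 0 < h := lt_of_lt_of_le hv0 k4
  have hd0 : 0 ≤ d := norm_nonneg _
  have g1 := H2 Y Δ v v1 ((v * (u / Δ) + u / Y * v1) / v) (2 * d * u / Y / v)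
    (2 * d * u / Y / v) r D V hr hY1 hΔ le_rfl le_rfl
    (by rw [le_div_iff₀ hv0]; linarith)
    (by
      rw [le_div_iff₀ hv0]
      have a1 := h3 1 le_rfl
      have a2 : v * u ≤ d * u / Y := by
        rw [le_div_iff₀ hY0]
        nlinarith [mul_le_mul_of_nonneg_right k1 hu]
      have a3 : u / Y * h ≤ d * u / Y := by
        rw [div_mul_eq_mul_div]
        refine div_le_div_of_nonneg_right ?_ hY0.le
        nlinarith [mul_le_mul_of_nonneg_left k3 hu]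
      have a4 : 2 * d * u / Y = d * u / Y + d * u / Y := by ring
      rw [a4]
      linarith)
    (by
      intro c hc
      rw [le_div_iff₀ hv0]
      have a1 := h3 c (by omega)
      have a2 : v * u ≤ d * u / Y := by
        rw [le_div_iff₀ hY0]
        nlinarith [mul_le_mul_of_nonneg_right k1 hu]
      have a3 : u / Y * h ≤ d * u / Y := by
        rw [div_mul_eq_mul_div]
        refine div_le_div_of_nonneg_right ?_ hY0.le
        nlinarith [mul_le_mul_of_nonneg_left k3 hu]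
      have a4 : 2 * d * u / Y = d * u / Y + d * u / Y := by ring
      rw [a4]
      linarith)
    (by positivity)
  rw [← hW, ← hh] at g1
  have g2 := XT_num Y Δ S d u h v v1 hΔ hY hS hu hv0.le hv10 hh0.le hd0 k4 k1 k2 hS1 hS2
  have g3 : h ^ 2 * (v * W) ≤ h ^ 2 * (20 * K2 * (S / Δ) * (u * (d * h ^ r))) := by
    calc h ^ 2 * (v * W) = v * (h ^ 2 * W) := by ring
      _ ≤ v * (K2 * (h ^ r * (2 * d * u / Y / v * (h ^ 2 + Y * v * h + Δ * v1 * h +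
          Δ * v * h + Y * Δ * v ^ 2) +
        Y * ((v * (u / Δ) + u / Y * v1) / v) * (h ^ 2 + Δ * v1 * h + Δ * v * h) +
        Δ * (2 * d * u / Y / v) * (h ^ 2 + Y * v * h)))) := mul_le_mul_of_nonneg_left g1 hv0.le
      _ = K2 * h ^ r * (2 * d * u / Y * (h ^ 2 + Y * v * h + Δ * v1 * h + Δ * v * h +
          Y * Δ * v ^ 2) + Y * (v * (u / Δ) + u / Y * v1) * (h ^ 2 + Δ * v1 * h + Δ * v * h) +
          Δ * (2 * d * u / Y) * (h ^ 2 + Y * v * h)) := by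
          field_simp
      _ ≤ K2 * h ^ r * (20 * (S / Δ * (d * u * h ^ 2))) :=
          mul_le_mul_of_nonneg_left g2 (by positivity)
      _ = h ^ 2 * (20 * K2 * (S / Δ) * (u * (d * h ^ r))) := by ring
  have g4 : v * W ≤ 20 * K2 * (S / Δ) * (u * (d * h ^ r)) :=
    le_of_mul_le_mul_left g3 (by positivity)
  calc v * W ≤ 20 * K2 * (S / Δ) * (u * (d * h ^ r)) := g4
    _ ≤ 20 * K2 * (S / Δ) * (K1 * F) := mul_le_mul_of_nonneg_left h1 (by positivity)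
    _ = 20 * K1 * K2 * (S / Δ * F) := by ring

theorem xt_zero (M : ℕ) (ζ : ℝ) : ∃ K : ℝ, 1 ≤ K ∧ ∀ (Y Δ : ℝ) (D U : ℝ[X]), 1 ≤ Δ →
    Δ ^ 2 ≤ Y → D.natDegree + 1 < M → U.natDegree + 1 < M → D.eval ζ ≠ 0 →
    ∃ B0 : ℝ, ∀ Λ : ℝ, 0 < Λ →
      wn M ζ (w3 Λ Y Δ) (Sum.elim (fun i : Fin 1 => X ^ (i : ℕ) * D) (fun _ : Unit => U)) ≤
      Λ * (K * (1 / Δ * wn M ζ (w2 Y Δ)
        (Sum.elim (fun i : Fin 1 => X ^ (i : ℕ) * D) (fun _ : Unit => U)))) + B0 := by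
  obtain ⟨K1, hK1, H1⟩ := shifts_lower M ζ
  refine ⟨2 * K1, by linarith, ?_⟩
  intro Y Δ D U hΔ hY hD hU h0
  have hM : 2 ≤ M := by omega
  have hY1 : 1 ≤ Y := by nlinarith
  have hY0 : 0 < Y := by linarith
  have hΔ0 : 0 < Δ := by linarith
  obtain ⟨V, u, B0, hu, hV, hB, h1, h2, h3⟩ :=
    XT_common M ζ K1 (by linarith) H1 Y Δ 0 D U hΔ hY (by omega) hU h0
  refine ⟨B0, fun Λ hΛ => (hB Λ hΛ).trans ?_⟩
  set F : ℝ := wn M ζ (w2 Y Δ)
    (Sum.elim (fun i : Fin (0 + 1) => X ^ (i : ℕ) * D) (fun _ : Unit => U)) with hF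
  refine add_le_add_left (mul_le_mul_of_nonneg_left ?_ hΛ.le) _
  obtain ⟨k1, k2, k3, k4, k5⟩ := le_tv M hM ζ Y Δ D hY1 hΔ
  rw [pow_zero, mul_one] at h1
  set d : ℝ := ‖tv M ζ (w2 Y Δ) D‖ with hd
  set v : ℝ := |D.eval ζ| with hv
  have hv0 : 0 < v := abs_pos.2 h0
  have hd0 : 0 ≤ d := norm_nonneg _
  have hW : wn M ζ (w2 Y Δ) (Sum.elim (fun i : Fin 0 => (X - C ζ) ^ (i : ℕ) * D)
      (fun _ : Unit => V)) ≤ ‖tv M ζ (w2 Y Δ) V‖ := by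
    refine (mx_prod _ (fun i => ‖tv M ζ (w2 Y Δ) ((Sum.elim (fun i : Fin 0 =>
      (X - C ζ) ^ (i : ℕ) * D) (fun _ : Unit => V)) i)‖) fun i => le_rfl).trans (le_of_eq ?_)
    simp
  have a2 : v * u ≤ d * u / Y := by
    rw [le_div_iff₀ hY0]
    nlinarith [mul_le_mul_of_nonneg_right k1 hu]
  have a3 : u / Y * nm M ζ D ≤ d * u / Y := by
    rw [div_mul_eq_mul_div]
    refine div_le_div_of_nonneg_right ?_ hY0.le
    nlinarith [mul_le_mul_of_nonneg_left k3 hu]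
  have hYΔ : d * u / Y ≤ d * u / Δ / Δ := by
    rw [div_div, ← pow_two]
    exact div_le_div_of_nonneg_left (by positivity) (by positivity) hY
  have hΔΔ : d * u / Δ / Δ ≤ d * u / Δ := div_le_self (by positivity) hΔ
  have hj : ∀ c, 1 ≤ c → v * |(taylor ζ V).coeff c| ≤ 2 * (d * u / Δ / Δ) := by
    intro c hc
    have := h3 c hc
    linarith
  have hz : v * |(taylor ζ V).coeff 0| ≤ 2 * (d * u / Δ) / Y := by
    refine h2.trans ?_
    have b1 : v * (u / Δ) ≤ d * u / Δ / Y := by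
      rw [le_div_iff₀ hY0]
      calc v * (u / Δ) * Y = Y * v * (u / Δ) := by ring
        _ ≤ d * (u / Δ) := mul_le_mul_of_nonneg_right k1 (by positivity)
        _ = d * u / Δ := by ring
    have b2 : u / Y * |(derivative D).eval ζ| ≤ d * u / Δ / Y := by
      rw [div_mul_eq_mul_div]
      refine div_le_div_of_nonneg_right ?_ hY0.le
      rw [le_div_iff₀ hΔ0]
      nlinarith [mul_le_mul_of_nonneg_left k2 hu]
    calc v * (u / Δ) + u / Y * |(derivative D).eval ζ| ≤ d * u / Δ / Y + d * u / Δ / Y :=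
          add_le_add b1 b2
      _ = 2 * (d * u / Δ) / Y := by ring
  have hz' : 2 * (d * u / Δ) / Y ≤ 2 * (d * u / Δ) := div_le_self (by positivity) hY1
  have hVn : ‖tv M ζ (w2 Y Δ) V‖ ≤ 2 * (d * u / Δ) / v := by
    rw [pi_norm_le_iff_of_nonneg (by positivity)]
    rintro ⟨c, hc⟩
    rw [Real.norm_eq_abs, le_div_iff₀ hv0, tv]
    dsimp only
    rw [abs_mul]
    rcases c with _ | _ | c
    · have : w2 Y Δ 0 = Y := rfl
      rw [this, abs_of_pos hY0]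
      have b3 := mul_le_mul_of_nonneg_left hz hY0.le
      have b4 : Y * (2 * (d * u / Δ) / Y) = 2 * (d * u / Δ) := by field_simp
      rw [b4] at b3
      linarith
    · have : w2 Y Δ (0 + 1) = Δ := rfl
      rw [this, abs_of_pos hΔ0]
      have b3 := mul_le_mul_of_nonneg_left (hj (0 + 1) (by omega)) hΔ0.le
      have b4 : Δ * (2 * (d * u / Δ / Δ)) = 2 * (d * u / Δ) := by field_simp
      rw [b4] at b3
      linarith
    · have : w2 Y Δ (c + 1 + 1) = 1 := rfl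
      rw [this, abs_one, one_mul]
      have b3 := hj (c + 1 + 1) (by omega)
      linarith
  calc v * wn M ζ (w2 Y Δ) (Sum.elim (fun i : Fin 0 => (X - C ζ) ^ (i : ℕ) * D)
        (fun _ : Unit => V)) ≤ v * (2 * (d * u / Δ) / v) :=
          mul_le_mul_of_nonneg_left (hW.trans hVn) hv0.le
    _ = 2 * (1 / Δ) * (u * d) := by
        field_simp
    _ ≤ 2 * (1 / Δ) * (K1 * F) := mul_le_mul_of_nonneg_left h1 (by positivity)
    _ = 2 * K1 * (1 / Δ * F) := by ring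

end Pool.Agent.Lib.H42Y
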