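import Pool.Agent.Lib.H42Y.TM1
import Pool.Agent.Lib.H42Y.BA
import Pool.Agent.Lib.H42Y.XT

/-!
# Chunk TM2 (M)
The main inequality in multiplicative form.

Proof. Weights `w2 Y Δ`, `M = 2 n + 4`, `J ≤ n`. `tm2_zero`: `base_zero`, `xt_zero` (`D(ζ) ≠ 0` as `ζ` is transcendental and `D ≠ 0`; degrees `≤ n + J ≤ 2n`), so `cov w3 (L 1) ≤ Λ (K1 / Δ * cov w2 (L 1)) + B0` and `tm1` with `A = K1 / Δ * cov w2 (L 1)`, `cov (L 0) = 1`: `Y Δ ≤ K A cov (L d)`.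
`tm2_pos`: `base_pos` gives `D, U`. `shifts_lower` with `r - 1` (and `wn_shifts` to pass from `X^i D` to `(X-ζ)^i D`; `Sum.elim` with an empty family, `mx_reindex`): `‖tv D‖ * nm D ^ (r-1) ≤ K2 * cov (L 0)`. For `S` as in the statement `xt` gives
`cov w3 (L 1) ≤ Λ (K1 (S/Δ) cov w2 (L 1)) + B0` and `tm1`: `Y Δ * cov (L 0) ≤ K K1 (S/Δ) cov (L 1) cov (L d)`. Multiply by `Δ`. Degrees: `D.natDegree + r + 1 ≤ n + 1 < M`, `U.natDegree + 1 ≤ n + J + 1 < M`.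
-/

open Polynomial

namespace Pool.Agent.Lib.H42Y

private theorem TM2_eval {ζ : ℝ} (hζ : Transcendental ℤ ζ) {D : ℤ[X]} (hD : D ≠ 0) :
    (toR D).eval ζ ≠ 0 := by
  intro h
  apply hζ
  refine ⟨D, hD, ?_⟩
  rw [← h]
  unfold toR
  rw [Polynomial.eval_map, Polynomial.aeval_def]
  rfl

private theorem TM2_deg (D : ℤ[X]) : (toR D).natDegree ≤ D.natDegree :=
  Polynomial.natDegree_map_le

private theorem TM2_cov_nonneg (M : ℕ) (ζ : ℝ) (t : ℕ → ℝ) (V : Submodule ℚ ℚ[X]) :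
    0 ≤ cov M ζ t V := by
  classical
  unfold cov
  split_ifs
  · exact mx_nonneg _
  · exact le_rfl

private theorem TM2_shifts (M : ℕ) (ζ : ℝ) (t : ℕ → ℝ) (r : ℕ) (D : ℝ[X]) :
    wn M ζ t (fun i : Fin r => X ^ (i : ℕ) * D) =
      wn M ζ t (fun i : Fin r => (X - C ζ) ^ (i : ℕ) * D) := by
  have h := wn_shifts M ζ t r D (κ := Empty) (fun k => k.elim)
  have key : ∀ v : Fin r → ℝ[X], wn M ζ t (Sum.elim v (fun k : Empty => k.elim)) =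
      wn M ζ t v := by
    intro v
    have h1 := mx_reindex (Equiv.sumEmpty (Fin r) Empty) (fun i => tv M ζ t (v i))
    unfold wn
    rw [← h1]
    congr 1
    funext k
    rcases k with k | k
    · rfl
    · exact k.elim
  rw [key, key] at h
  exact h

theorem tm2_zero (n : ℕ) (hn : 1 ≤ n) (ζ : ℝ) (hζ : Transcendental ℤ ζ) : ∃ K : ℝ, 1 ≤ K ∧
    ∀ (Y Δ : ℝ) (J j1 d : ℕ) (V : Submodule ℚ ℚ[X]) (L : ℕ → Submodule ℚ ℚ[X]), 1 ≤ Δ →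
    Δ ^ 2 ≤ Y → 1 ≤ J → J ≤ n → Chn n J j1 V d 0 L →
      Y * Δ ^ 2 ≤ K * (cov (2 * n + 4) ζ (w2 Y Δ) (L 1) * cov (2 * n + 4) ζ (w2 Y Δ) (L d)) := by
  obtain ⟨K1, hK1, hx⟩ := xt_zero (2 * n + 4) ζ
  obtain ⟨Kt, hKt, ht⟩ := tm1 n hn ζ
  refine ⟨Kt * K1, one_le_mul_of_one_le_of_one_le hKt hK1, ?_⟩
  intro Y Δ J j1 d V L hΔ hY hJ hJn hC
  obtain ⟨D, U, hD, hdD, hdU, hcov⟩ := base_zero n J j1 d V L hJ hC
  have hΔ0 : 0 < Δ := by linarith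
  have hY0 : 0 < Y := lt_of_lt_of_le (by positivity) hY
  have h1 := TM2_deg D
  have h2 := TM2_deg U
  obtain ⟨B0, hB⟩ := hx Y Δ (toR D) (toR U) hΔ hY (by omega) (by omega) (TM2_eval hζ hD)
  have h3 := ht Y Δ (K1 * (1 / Δ * cov (2 * n + 4) ζ (w2 Y Δ) (L 1))) B0 J j1 d 0 V L hY0 hΔ0 hJ
    hJn hC (by
      intro Λ hΛ
      rw [(hcov _ _ _).2, (hcov _ _ _).2]
      exact hB Λ hΛ)
  rw [(hcov _ _ _).1, mul_one] at h3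
  have h4 := mul_le_mul_of_nonneg_right h3 hΔ0.le
  calc Y * Δ ^ 2 = Y * Δ * Δ := by ring
    _ ≤ _ := h4
    _ = _ := by
      field_simp

theorem tm2_pos (n : ℕ) (hn : 1 ≤ n) (ζ : ℝ) (hζ : Transcendental ℤ ζ) : ∃ K : ℝ, 1 ≤ K ∧
    ∀ (Y Δ : ℝ) (J j1 d r : ℕ) (V : Submodule ℚ ℚ[X]) (L : ℕ → Submodule ℚ ℚ[X]), 1 ≤ Δ →
    Δ ^ 2 ≤ Y → 1 ≤ J → J ≤ n → V ≤ degreeLT ℚ (n + 1) → Chn n J j1 V d r L → 1 ≤ r →
    ∃ D : ℤ[X], D ≠ 0 ∧ D.natDegree + r ≤ n ∧ (∀ i < r + d, X ^ i * toQ D ∈ L d) ∧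
      ‖tv (2 * n + 4) ζ (w2 Y Δ) (toR D)‖ * nm (2 * n + 4) ζ (toR D) ^ (r - 1) ≤
        K * cov (2 * n + 4) ζ (w2 Y Δ) (L 0) ∧
      ∀ S : ℝ, 1 ≤ S → Δ * |(derivative (toR D)).eval ζ| ≤ S * nm (2 * n + 4) ζ (toR D) →
        Δ ^ 2 * |(toR D).eval ζ| ≤ S * nm (2 * n + 4) ζ (toR D) →
        Y * Δ ^ 2 * (‖tv (2 * n + 4) ζ (w2 Y Δ) (toR D)‖ *
            nm (2 * n + 4) ζ (toR D) ^ (r - 1)) ≤
          K * (S * (cov (2 * n + 4) ζ (w2 Y Δ) (L 1) * cov (2 * n + 4) ζ (w2 Y Δ) (L d))) := by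
  obtain ⟨K1, hK1, hx⟩ := xt (2 * n + 4) ζ
  obtain ⟨K2, hK2, hs⟩ := shifts_lower (2 * n + 4) ζ
  obtain ⟨Kt, hKt, ht⟩ := tm1 n hn ζ
  have hK3 : 1 ≤ Kt * K1 := one_le_mul_of_one_le_of_one_le hKt hK1
  refine ⟨K2 * (Kt * K1), one_le_mul_of_one_le_of_one_le hK2 hK3, ?_⟩
  intro Y Δ J j1 d r V L hΔ hY hJ hJn hV hC hr
  obtain ⟨D, U, hD, hdD, hdU, hch, hcov⟩ := base_pos n J j1 d r V L hV hJ hC hr
  have hΔ0 : 0 < Δ := by linarith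
  have hY0 : 0 < Y := lt_of_lt_of_le (by positivity) hY
  have h1 := TM2_deg D
  have h2 := TM2_deg U
  have hc0 := TM2_cov_nonneg (2 * n + 4) ζ (w2 Y Δ) (L 0)
  have hc1 := TM2_cov_nonneg (2 * n + 4) ζ (w2 Y Δ) (L 1)
  have hcd := TM2_cov_nonneg (2 * n + 4) ζ (w2 Y Δ) (L d)
  have hlow : ‖tv (2 * n + 4) ζ (w2 Y Δ) (toR D)‖ * nm (2 * n + 4) ζ (toR D) ^ (r - 1) ≤
      K2 * cov (2 * n + 4) ζ (w2 Y Δ) (L 0) := by
    rw [(hcov _ _ _).1, TM2_shifts]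
    obtain ⟨r', rfl⟩ : ∃ r', r = r' + 1 := ⟨r - 1, by omega⟩
    exact hs Y Δ r' (toR D) hΔ hY (by omega)
  refine ⟨D, hD, hdD, hch, ?_, ?_⟩
  · refine hlow.trans ?_
    refine mul_le_mul_of_nonneg_right ?_ hc0
    exact le_mul_of_one_le_right (by linarith) hK3
  · intro S hS hS1 hS2
    obtain ⟨B0, hB⟩ := hx Y Δ S r (toR D) (toR U) hr hΔ hY hS (by omega) (by omega)
      (TM2_eval hζ hD) hS1 hS2
    have h3 := ht Y Δ (K1 * (S / Δ * cov (2 * n + 4) ζ (w2 Y Δ) (L 1))) B0 J j1 d r V L hY0 hΔ0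
      hJ hJn hC (by
        intro Λ hΛ
        rw [(hcov _ _ _).2, (hcov _ _ _).2]
        exact hB Λ hΛ)
    have h4 := mul_le_mul_of_nonneg_right h3 hΔ0.le
    have h5 : Y * Δ ^ 2 * cov (2 * n + 4) ζ (w2 Y Δ) (L 0) ≤
        Kt * K1 * (S * (cov (2 * n + 4) ζ (w2 Y Δ) (L 1) * cov (2 * n + 4) ζ (w2 Y Δ) (L d))) := by
      calc Y * Δ ^ 2 * cov (2 * n + 4) ζ (w2 Y Δ) (L 0) =
            Y * Δ * cov (2 * n + 4) ζ (w2 Y Δ) (L 0) * Δ := by ring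
        _ ≤ _ := h4
        _ = _ := by
          field_simp
    have hYD : 0 ≤ Y * Δ ^ 2 := by positivity
    have h6 := mul_le_mul_of_nonneg_left hlow hYD
    have h7 := mul_le_mul_of_nonneg_left h5 (by linarith : (0 : ℝ) ≤ K2)
    linarith

end Pool.Agent.Lib.H42Y
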