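import Pool.Agent.Lib.H42Y.UD
import Pool.Agent.Lib.H42Y.LC2

/-!
# Chunk UB (M)
Adapted bases.

Proof. `w` from `exists_zb` for `dn V`; `extend_zb` for `dn V ≤ V` gives `u` (`g = finrank V - finrank (dn V)`). `X * w` is a `ℤ`-basis of the integer points of `(dn V).map mulX` (`X f` is an integer polynomial iff `f` is, and `X * f ∈ (dn V).map mulX` iff
`f ∈ dn V`), contained in `V`, of the same dimension as `dn V`: `extend_zb` gives `z` with the same number `g` of elements. For the last claim the integer family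
`(X w, z, X u)` is independent over `ℚ` (`(X w, z)` is a basis of `V`; if a combination of the `X u` lies in `V` then the combination of the `u` lies in `dn V = span w`, so it is 0), lies in `up V`, and has
`finrank (dn V) + 2 g = 2 finrank V - finrank (dn V) = finrank (up V)` elements (`finrank_up_add_dn`): `cov_le`.
-/

open Polynomial

namespace Pool.Agent.Lib.H42Y

private theorem UB_apply (v : ℚ[X]) : mulX v = X * v := rfl

private theorem UB_toQ (f : ℤ[X]) : toQ (X * f) = mulX (toQ f) := by
  rw [UB_apply]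
  unfold toQ
  rw [Polynomial.map_mul, map_X]

private theorem UB_ker : LinearMap.ker mulX = ⊥ := by
  rw [LinearMap.ker_eq_bot]
  intro v w h
  rw [UB_apply, UB_apply] at h
  exact mul_left_cancel₀ X_ne_zero h

private theorem UB_inj : Function.Injective mulX := LinearMap.ker_eq_bot.1 UB_ker

private theorem UB_ind {ι : Type} (u : ι → ℤ[X]) (h : LinearIndependent ℚ fun i => toQ (u i)) :
    LinearIndependent ℚ fun i => toQ (X * u i) := by
  have h1 : (fun i => toQ (X * u i)) = mulX ∘ fun i => toQ (u i) := by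
    funext i
    exact UB_toQ (u i)
  rw [h1]
  exact h.map' mulX UB_ker

private theorem UB_range {ι : Type} (u : ι → ℤ[X]) :
    Submodule.span ℚ (Set.range fun i => toQ (X * u i)) =
      (Submodule.span ℚ (Set.range fun i => toQ (u i))).map mulX := by
  have h1 : (fun i => toQ (X * u i)) = mulX ∘ fun i => toQ (u i) := by
    funext i
    exact UB_toQ (u i)
  rw [h1, Set.range_comp, Submodule.map_span]

private theorem UB_zb {ι : Type} (W : Submodule ℚ ℚ[X]) (w : ι → ℤ[X]) (hw : ZB W w) :
    ZB (W.map mulX) (fun i => X * w i) := by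
  refine ⟨UB_ind w hw.ind, ?_, ?_⟩
  · rw [UB_range, hw.span]
  · intro f hf
    obtain ⟨v, hv, hvf⟩ := Submodule.mem_map.1 hf
    rw [UB_apply] at hvf
    have h1 : f.coeff 0 = 0 := by
      have h2 : (toQ f).coeff 0 = 0 := by
        rw [← hvf, coeff_X_mul_zero]
      unfold toQ at h2
      rw [coeff_map] at h2
      have h3 : ((f.coeff 0 : ℤ) : ℚ) = 0 := h2
      exact_mod_cast h3
    have h2 : X * f.divX = f := by
      have h3 := X_mul_divX_add f
      rw [h1, C_0, add_zero] at h3
      exact h3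
    have h3 : toQ f.divX ∈ W := by
      have h4 : mulX (toQ f.divX) = mulX v := by
        rw [← UB_toQ, h2, UB_apply, hvf]
      rw [UB_inj h4]
      exact hv
    have h4 := hw.int _ h3
    have h5 := Submodule.mem_map_of_mem (f := LinearMap.mulLeft ℤ (X : ℤ[X])) h4
    rw [Submodule.map_span, ← Set.range_comp] at h5
    have h6 : LinearMap.mulLeft ℤ (X : ℤ[X]) f.divX = f := h2
    rw [h6] at h5
    exact h5

theorem up_basis (m : ℕ) (V : Submodule ℚ ℚ[X]) (hV : V ≤ degreeLT ℚ m) :
    ∃ (e g : ℕ) (w : Fin e → ℤ[X]) (u z : Fin g → ℤ[X]), ZB (dn V) w ∧ ZB V (Sum.elim w u) ∧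
      ZB V (Sum.elim (fun i => X * w i) z) ∧
      ∀ (M : ℕ) (ζ : ℝ) (t : ℕ → ℝ), cov M ζ t (up V) ≤ wn M ζ t
        (fun i => toR (Sum.elim (Sum.elim (fun i => X * w i) z) (fun i => X * u i) i)) := by
  obtain ⟨w, hw⟩ := exists_zb m (dn V) ((dn_le V).trans hV)
  obtain ⟨u, hu⟩ := extend_zb m (dn V) V hV (dn_le V) w hw
  have hV' : (dn V).map mulX ≤ V := by
    rintro _ ⟨v, hv, rfl⟩
    rw [UB_apply]
    exact ((mem_dn V v).1 hv).2
  have hfin : Module.finrank ℚ ((dn V).map mulX) = Module.finrank ℚ (dn V) :=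
    (Submodule.equivMapOfInjective mulX UB_inj (dn V)).finrank_eq.symm
  have hz0 := extend_zb m ((dn V).map mulX) V hV hV' (fun i => X * w i) (UB_zb _ w hw)
  rw [hfin] at hz0
  obtain ⟨z, hz⟩ := hz0
  have huV : ∀ i, toQ (u i) ∈ V := by
    intro i
    exact hu.span.le (Submodule.subset_span ⟨Sum.inr i, rfl⟩)
  have hzV : ∀ i, toQ (Sum.elim (fun i => X * w i) z i) ∈ V := by
    intro i
    exact hz.span.le (Submodule.subset_span ⟨i, rfl⟩)
  refine ⟨_, _, w, u, z, hw, hu, hz, fun M ζ t => ?_⟩
  refine cov_le M ζ t (m + 1) (up V) (up_deg m V hV) _ ?_ ?_ ?_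
  · rintro (i | i)
    · exact le_up V (hzV i)
    · change toQ (X * u i) ∈ up V
      rw [UB_toQ, UB_apply]
      exact X_mul_mem_up V _ (huV i)
  · obtain ⟨h1, h2, h3⟩ := linearIndependent_sum.1 hu.ind
    rw [linearIndependent_sum]
    refine ⟨hz.ind, UB_ind u h2, ?_⟩
    rw [Submodule.disjoint_def]
    intro x hx hx'
    have hx1 : x ∈ V := hz.span.le hx
    have hx2 : x ∈ (Submodule.span ℚ (Set.range fun i => toQ (u i))).map mulX := by
      rw [← UB_range]
      exact hx'
    obtain ⟨y, hy, rfl⟩ := Submodule.mem_map.1 hx2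
    have hyV : y ∈ V := by
      refine (Submodule.span_le.2 ?_) hy
      rintro _ ⟨i, rfl⟩
      exact huV i
    have hyd : y ∈ dn V := (mem_dn V y).2 ⟨hyV, hx1⟩
    rw [Submodule.disjoint_def] at h3
    have hy0 : y = 0 := by
      exact h3 y (hw.span.ge hyd) hy
    rw [hy0, map_zero]
  · have h1 := finrank_up_add_dn m V hV
    have h2 : FiniteDimensional ℚ V := by
      have h3 : FiniteDimensional ℚ (degreeLT ℚ m) := Module.Finite.equiv (degreeLTEquiv ℚ m).symm
      exact Submodule.finiteDimensional_of_le hV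
    have h3 := Submodule.finrank_mono (dn_le V)
    simp only [Fintype.card_sum, Fintype.card_fin]
    omega

end Pool.Agent.Lib.H42Y
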