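import Pool.Agent.Lib.H42Y.Defs

/-!
# Chunk UD (S/M)
Dimensions for `up V = V + X V` and `dn V = {v ∈ V : X v ∈ V}`.

Proof. `mulX` is injective, `V ⊓ V.map mulX = (dn V).map mulX`, `Submodule.finrank_sup_add_finrank_inf_eq` (everything is finite-dimensional, inside `degreeLT ℚ (m+1)`), `finrank (V.map mulX) = finrank V`.
`up_dn_le`: `X v ∈ V` for `v ∈ dn V`. `le_dn_up`: `v ∈ V` gives `v ∈ up V` and `X v ∈ up V`. `dn_deg`: `v, X v` of degree `< m + 1` gives degree `< m`. `growth_dn`: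
`finrank (up (dn V)) ≤ finrank V` (`up_dn_le`) and `finrank (up V) + finrank (dn V) = 2 finrank V`. `growth_up`: `finrank (up (up V)) = 2 finrank (up V) - finrank (dn (up V))` and `V ≤ dn (up V)`.
`iter_*`: induction on `j` (`Function.iterate_succ_apply'`). `iter_span`: `up^[j] V` is spanned by the `X^e * g` with `e ≤ j`, `g` in a spanning set of `V`.
-/

open Polynomial

namespace Pool.Agent.Lib.H42Y

private theorem UD_apply (v : ℚ[X]) : mulX v = X * v := rfl

private theorem UD_inj : Function.Injective mulX := by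
  intro v w h
  rw [UD_apply, UD_apply] at h
  exact mul_left_cancel₀ X_ne_zero h

private theorem UD_mem (m : ℕ) (f : ℚ[X]) : f ∈ degreeLT ℚ m ↔ ∀ k, m ≤ k → f.coeff k = 0 := by
  rw [mem_degreeLT, degree_lt_iff_coeff_zero]

private theorem UD_fin (m : ℕ) (V : Submodule ℚ ℚ[X]) (hV : V ≤ degreeLT ℚ m) : FiniteDimensional ℚ V := by
  have h1 : FiniteDimensional ℚ (degreeLT ℚ m) := Module.Finite.equiv (degreeLTEquiv ℚ m).symm
  exact Submodule.finiteDimensional_of_le hV

theorem le_up (V : Submodule ℚ ℚ[X]) : V ≤ up V := by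
  unfold up
  exact le_sup_left

theorem X_mul_mem_up (V : Submodule ℚ ℚ[X]) (v : ℚ[X]) (hv : v ∈ V) : X * v ∈ up V := by
  unfold up
  exact Submodule.mem_sup_right ⟨v, hv, rfl⟩

theorem up_mono {V W : Submodule ℚ ℚ[X]} (h : V ≤ W) : up V ≤ up W := by
  unfold up
  exact sup_le_sup h (Submodule.map_mono h)

theorem dn_mono {V W : Submodule ℚ ℚ[X]} (h : V ≤ W) : dn V ≤ dn W := by
  unfold dn
  exact inf_le_inf h (Submodule.comap_mono h)

theorem dn_le (V : Submodule ℚ ℚ[X]) : dn V ≤ V := by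
  unfold dn
  exact inf_le_left

theorem mem_dn (V : Submodule ℚ ℚ[X]) (v : ℚ[X]) : v ∈ dn V ↔ v ∈ V ∧ X * v ∈ V := by
  unfold dn
  rw [Submodule.mem_inf, Submodule.mem_comap, UD_apply]

theorem up_dn_le (V : Submodule ℚ ℚ[X]) : up (dn V) ≤ V := by
  unfold up
  refine sup_le (dn_le V) ?_
  rw [Submodule.map_le_iff_le_comap]
  unfold dn
  exact inf_le_right

theorem le_dn_up (V : Submodule ℚ ℚ[X]) : V ≤ dn (up V) := by
  intro v hv
  rw [mem_dn]
  exact ⟨le_up V hv, X_mul_mem_up V v hv⟩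

theorem up_deg (m : ℕ) (V : Submodule ℚ ℚ[X]) (hV : V ≤ degreeLT ℚ m) :
    up V ≤ degreeLT ℚ (m + 1) := by
  unfold up
  refine sup_le ?_ ?_
  · intro v hv
    rw [UD_mem]
    exact fun k hk => (UD_mem m v).1 (hV hv) k (by omega)
  · rintro _ ⟨v, hv, rfl⟩
    rw [UD_mem, UD_apply]
    intro k hk
    obtain ⟨k', rfl⟩ : ∃ k', k = k' + 1 := ⟨k - 1, by omega⟩
    rw [coeff_X_mul]
    exact (UD_mem m v).1 (hV hv) k' (by omega)

theorem dn_deg (m : ℕ) (V : Submodule ℚ ℚ[X]) (hV : V ≤ degreeLT ℚ (m + 1)) :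
    dn V ≤ degreeLT ℚ m := by
  intro v hv
  rw [mem_dn] at hv
  rw [UD_mem]
  intro k hk
  have h1 := (UD_mem (m + 1) (X * v)).1 (hV hv.2) (k + 1) (by omega)
  rwa [coeff_X_mul] at h1

theorem finrank_up_add_dn (m : ℕ) (V : Submodule ℚ ℚ[X]) (hV : V ≤ degreeLT ℚ m) :
    Module.finrank ℚ (up V) + Module.finrank ℚ (dn V) = 2 * Module.finrank ℚ V := by
  have hf := UD_fin m V hV
  have h1 := Submodule.finrank_sup_add_finrank_inf_eq V (V.map mulX)
  have h2 : Module.finrank ℚ (V.map mulX) = Module.finrank ℚ V :=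
    (Submodule.equivMapOfInjective mulX UD_inj V).finrank_eq.symm
  have h3 : V ⊓ V.map mulX = (dn V).map mulX := by
    ext x
    rw [Submodule.mem_inf, Submodule.mem_map, Submodule.mem_map]
    constructor
    · rintro ⟨hx, v, hv, rfl⟩
      exact ⟨v, (mem_dn V v).2 ⟨hv, hx⟩, rfl⟩
    · rintro ⟨v, hv, rfl⟩
      rw [mem_dn] at hv
      exact ⟨hv.2, v, hv.1, rfl⟩
  have h4 : Module.finrank ℚ ((dn V).map mulX) = Module.finrank ℚ (dn V) :=
    (Submodule.equivMapOfInjective mulX UD_inj (dn V)).finrank_eq.symm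
  rw [h3, h4, h2] at h1
  unfold up
  omega

theorem growth_dn (m : ℕ) (V : Submodule ℚ ℚ[X]) (hV : V ≤ degreeLT ℚ m) :
    Module.finrank ℚ (up (dn V)) + Module.finrank ℚ V ≤
      Module.finrank ℚ (up V) + Module.finrank ℚ (dn V) := by
  have hf := UD_fin m V hV
  have h1 := finrank_up_add_dn m V hV
  have h2 := Submodule.finrank_mono (up_dn_le V)
  omega

theorem growth_up (m : ℕ) (V : Submodule ℚ ℚ[X]) (hV : V ≤ degreeLT ℚ m) :
    Module.finrank ℚ (up (up V)) + Module.finrank ℚ V ≤ 2 * Module.finrank ℚ (up V) := by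
  have h1 := finrank_up_add_dn (m + 1) (up V) (up_deg m V hV)
  have hf := UD_fin (m + 1) (dn (up V)) ((dn_le _).trans (up_deg m V hV))
  have h2 := Submodule.finrank_mono (le_dn_up V)
  omega

theorem up_le_two (m : ℕ) (V : Submodule ℚ ℚ[X]) (hV : V ≤ degreeLT ℚ m) :
    Module.finrank ℚ (up V) ≤ 2 * Module.finrank ℚ V := by
  have h1 := finrank_up_add_dn m V hV
  omega

theorem iter_deg (m j : ℕ) (V : Submodule ℚ ℚ[X]) (hV : V ≤ degreeLT ℚ m) :
    up^[j] V ≤ degreeLT ℚ (m + j) := by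
  induction j with
  | zero => exact hV
  | succ j ih =>
    rw [Function.iterate_succ_apply']
    exact up_deg (m + j) _ ih

theorem iter_mono (i j : ℕ) (hij : i ≤ j) (V : Submodule ℚ ℚ[X]) : up^[i] V ≤ up^[j] V := by
  induction j, hij using Nat.le_induction with
  | base => exact le_rfl
  | succ j _ ih =>
    rw [Function.iterate_succ_apply']
    exact ih.trans (le_up _)

theorem iter_mem (j e : ℕ) (he : e ≤ j) (V : Submodule ℚ ℚ[X]) (v : ℚ[X]) (hv : v ∈ V) :
    X ^ e * v ∈ up^[j] V := by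
  have h1 : X ^ e * v ∈ up^[e] V := by
    clear he
    induction e with
    | zero =>
      rw [pow_zero, one_mul]
      exact hv
    | succ e ih =>
      rw [Function.iterate_succ_apply', pow_succ', mul_assoc]
      exact X_mul_mem_up _ _ ih
  exact iter_mono e j he V h1

theorem iter_span (j : ℕ) (S : Set ℚ[X]) :
    up^[j] (Submodule.span ℚ S) = Submodule.span ℚ {f : ℚ[X] | ∃ e ≤ j, ∃ g ∈ S, f = X ^ e * g} := by
  induction j with
  | zero =>
    have h1 : {f : ℚ[X] | ∃ e ≤ 0, ∃ g ∈ S, f = X ^ e * g} = S := by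
      ext f
      constructor
      · rintro ⟨e, he, g, hg, rfl⟩
        have h2 : e = 0 := by omega
        rw [h2, pow_zero, one_mul]
        exact hg
      · intro hf
        exact ⟨0, le_rfl, f, hf, by rw [pow_zero, one_mul]⟩
    rw [h1]
    rfl
  | succ j ih =>
    rw [Function.iterate_succ_apply', ih]
    unfold up
    rw [Submodule.map_span, ← Submodule.span_union]
    congr 1
    ext f
    constructor
    · rintro (⟨e, he, g, hg, rfl⟩ | ⟨_, ⟨e, he, g, hg, rfl⟩, rfl⟩)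
      · exact ⟨e, by omega, g, hg, rfl⟩
      · refine ⟨e + 1, by omega, g, hg, ?_⟩
        rw [UD_apply, pow_succ', mul_assoc]
    · rintro ⟨e, he, g, hg, rfl⟩
      rcases Nat.lt_or_ge j e with h | h
      · right
        have h2 : e = j + 1 := by omega
        refine ⟨X ^ j * g, ⟨j, le_rfl, g, hg, rfl⟩, ?_⟩
        rw [UD_apply, h2, pow_succ', mul_assoc]
      · left
        exact ⟨e, h, g, hg, rfl⟩

end Pool.Agent.Lib.H42Y
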