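import Pool.Agent.Lib.H42Y.GF
import Pool.Agent.Lib.H42Y.MA4
import Pool.Agent.Lib.H42Y.MA3

/-!
# Chunk XL1 (M)
Lower bounds for the covolume of `D, T D, ..., T^r D`, `T = X - C ζ`.

Proof. `K` from `gelfond`. `shifts_unw`: induction on `r` (`r = 0`: both sides 1, `mx_empty`). For `r + 1`: `mx_near` for the family `u = (T^i D)_{1 ≤ i ≤ r}` and `α = D` (weights 1) gives `‖tv (D - ∑ c_i T^i D)‖ * wn u ≤ wn (u, D) = wn (D, T D, ..., T^r D)` (`mx_reindex`). `D - ∑ c_i T^i D = g * D`, `g = 1 - ∑_{i ≥ 1} c_i T^i`, whose zeroth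
Taylor coefficient is 1, so `nm g ≥ 1` and `nm (g D) ≥ nm D / K` (`(g * D).natDegree ≤ D.natDegree + r < M`). And `wn u = wn (D, ..., T^(r-1) D)` (`wn_shift` with weights 1; `natDegree (T^i D) + 1 ≤ D.natDegree + r < M` for `i ≤ r - 1`) `≥ nm D ^ r / K^r`. So the constant `K^r ≤ K^M` works.
`shifts_lower`: the same with the weights `w2 Y Δ` in the first step: `‖tv (g D)‖ * wn_{w2} u ≤ wn_{w2} (D, ..., T^r D)`, `wn_{w2} u ≥ wn_1 u` (`wn_mono`) `≥ nm D ^ r / K^M`. `g(ζ) = 1`. Claim: `‖tv (w2 Y Δ) D‖ ≤ 2 K ‖tv (w2 Y Δ) (g D)‖`. By `tv_le_nm` it is enough to bound `Y |D(ζ)| = Y |(g D)(ζ)|` (`le_tv`),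
`nm D ≤ K nm (g D) ≤ K ‖tv (g D)‖`, and `Δ |D'(ζ)|`: `(g D)'(ζ) = D'(ζ) + g'(ζ) D(ζ)`. If `|g'(ζ) D(ζ)| ≤ |D'(ζ)| / 2` then `Δ |D'(ζ)| ≤ 2 Δ |(g D)'(ζ)|`. Otherwise `D(ζ) ≠ 0`, `|g'(ζ)| ≥ |D'(ζ)| / (2 |D(ζ)|)`, and: if `nm D ≥ Δ |D(ζ)|` then
`K ‖tv (g D)‖ ≥ K nm (g D) ≥ nm g * nm D ≥ |g'(ζ)| Δ |D(ζ)| ≥ Δ |D'(ζ)| / 2`; if `nm D < Δ |D(ζ)|` then `Δ |D'(ζ)| ≤ Δ nm D < Δ^2 |D(ζ)| ≤ Y |D(ζ)|`. (`M ≥ 2` because `D.natDegree + r < M` and `r ≥ 1`; for `r = 0` the claim is `‖tv D‖ ≤ K * wn (D)`, one row.)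
-/

open Polynomial

namespace Pool.Agent.Lib.H42Y

private theorem XL1_nd (ζ : ℝ) (D : ℝ[X]) (i : ℕ) :
    ((X - C ζ) ^ i * D).natDegree ≤ i + D.natDegree := by
  refine natDegree_mul_le.trans (Nat.add_le_add_right ?_ _)
  refine natDegree_pow_le.trans ?_
  have h : (X - C ζ : ℝ[X]).natDegree ≤ 1 := natDegree_X_sub_C_le ζ
  calc i * (X - C ζ : ℝ[X]).natDegree ≤ i * 1 := Nat.mul_le_mul_left i h
    _ = i := Nat.mul_one i

private theorem XL1_g (M : ℕ) (ζ : ℝ) (t : ℕ → ℝ) (r : ℕ) (D : ℝ[X]) :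
    ∃ g : ℝ[X], g.eval ζ = 1 ∧ g.natDegree ≤ r ∧ (r = 0 → g = 1) ∧
      ‖tv M ζ t (g * D)‖ * wn M ζ t (fun i : Fin r => (X - C ζ) * ((X - C ζ) ^ (i : ℕ) * D)) ≤
        wn M ζ t (fun i : Fin (r + 1) => (X - C ζ) ^ (i : ℕ) * D) := by
  obtain ⟨c, hc⟩ := mx_near (fun i : Fin r => tv M ζ t ((X - C ζ) * ((X - C ζ) ^ (i : ℕ) * D)))
    (tv M ζ t D)
  refine ⟨1 - ∑ i : Fin r, C (c i) * (X - C ζ) ^ ((i : ℕ) + 1), ?_, ?_, ?_, ?_⟩
  · rw [eval_sub, eval_one, eval_finsetSum]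
    rw [Finset.sum_eq_zero]
    · ring
    · intro i _
      simp
  · refine (natDegree_sub_le _ _).trans (max_le ?_ ?_)
    · rw [natDegree_one]
      exact Nat.zero_le _
    · refine natDegree_sum_le_of_forall_le _ _ fun i _ => ?_
      have h1 := XL1_nd ζ (C (c i)) ((i : ℕ) + 1)
      rw [natDegree_C, mul_comm] at h1
      have h2 := i.2
      omega
  · intro h
    subst h
    simp
  · have e1 : tv M ζ t ((1 - ∑ i : Fin r, C (c i) * (X - C ζ) ^ ((i : ℕ) + 1)) * D) =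
        tv M ζ t D - ∑ i : Fin r, c i • tv M ζ t ((X - C ζ) * ((X - C ζ) ^ (i : ℕ) * D)) := by
      rw [← tv_sum, ← tv_sub]
      congr 1
      rw [sub_mul, one_mul, Finset.sum_mul]
      congr 1
      refine Finset.sum_congr rfl fun i _ => ?_
      rw [pow_succ]
      ring
    rw [e1]
    refine hc.trans (le_of_eq ?_)
    unfold wn
    rw [← mx_reindex ((Equiv.optionEquivSumPUnit (Fin r)).symm.trans (finSuccEquiv r).symm)]
    congr 1
    funext k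
    rcases k with i | u
    · have h1 : ((Equiv.optionEquivSumPUnit (Fin r)).symm.trans (finSuccEquiv r).symm) (Sum.inl i) =
          i.succ := by
        rw [Equiv.trans_apply, Equiv.optionEquivSumPUnit_symm_inl]
        exact finSuccEquiv_symm_some i
      rw [h1, Sum.elim_inl]
      show tv M ζ t ((X - C ζ) * ((X - C ζ) ^ (i : ℕ) * D)) =
        tv M ζ t ((X - C ζ) ^ ((i.succ : Fin (r + 1)) : ℕ) * D)
      rw [Fin.val_succ, pow_succ', mul_assoc]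
    · have h1 : ((Equiv.optionEquivSumPUnit (Fin r)).symm.trans (finSuccEquiv r).symm) (Sum.inr u) =
          0 := by
        rw [Equiv.trans_apply, Equiv.optionEquivSumPUnit_symm_inr]
        exact finSuccEquiv_symm_none
      rw [h1, Sum.elim_inr]
      show tv M ζ t D = tv M ζ t ((X - C ζ) ^ ((0 : Fin (r + 1)) : ℕ) * D)
      rw [Fin.val_zero, pow_zero, one_mul]

private theorem XL1_nm_nonneg (M : ℕ) (ζ : ℝ) (p : ℝ[X]) : 0 ≤ nm M ζ p := norm_nonneg _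

private theorem XL1_one_le {M : ℕ} (hM : 0 < M) {ζ : ℝ} {g : ℝ[X]} (hg : g.eval ζ = 1) :
    1 ≤ nm M ζ g := by
  have h := norm_le_pi_norm (tv M ζ (fun _ => 1) g) ⟨0, hM⟩
  have e : tv M ζ (fun _ => 1) g ⟨0, hM⟩ = 1 := by
    unfold tv
    simp only [one_mul]
    rw [taylor_coeff_zero]
    exact hg
  rw [e, norm_one] at h
  exact h

private theorem XL1_unw {M : ℕ} {ζ K : ℝ} (hK1 : 1 ≤ K)
    (hK : ∀ p q : ℝ[X], (p * q).natDegree < M → nm M ζ p * nm M ζ q ≤ K * nm M ζ (p * q))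
    (D : ℝ[X]) (r : ℕ) (hr : D.natDegree + r ≤ M) : nm M ζ D ^ r ≤
      K ^ r * wn M ζ (fun _ => 1) (fun i : Fin r => (X - C ζ) ^ (i : ℕ) * D) := by
  induction r with
  | zero =>
    have h : wn M ζ (fun _ => 1) (fun i : Fin 0 => (X - C ζ) ^ (i : ℕ) * D) = 1 := mx_empty _
    rw [h]
    simp
  | succ r ih =>
    have hih := ih (by omega)
    obtain ⟨g, hg1, hg2, -, hg4⟩ := XL1_g M ζ (fun _ => 1) r D
    rw [wn_shift M ζ (fun _ => 1) (fun i : Fin r => (X - C ζ) ^ (i : ℕ) * D) (fun i => by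
      have h1 := XL1_nd ζ D (i : ℕ)
      have h2 := i.2
      omega)] at hg4
    have h1 : nm M ζ D ≤ K * nm M ζ (g * D) := by
      have h2 := hK g D (lt_of_le_of_lt natDegree_mul_le (by omega))
      have h3 := XL1_one_le (M := M) (by omega) hg1
      have h4 : 1 * nm M ζ D ≤ nm M ζ g * nm M ζ D :=
        mul_le_mul_of_nonneg_right h3 (XL1_nm_nonneg _ _ _)
      linarith
    have hw : 0 ≤ wn M ζ (fun _ => 1) (fun i : Fin r => (X - C ζ) ^ (i : ℕ) * D) := mx_nonneg _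
    have hK0 : 0 ≤ K := le_trans zero_le_one hK1
    calc nm M ζ D ^ (r + 1) = nm M ζ D ^ r * nm M ζ D := pow_succ _ _
      _ ≤ (K ^ r * wn M ζ (fun _ => 1) (fun i : Fin r => (X - C ζ) ^ (i : ℕ) * D)) *
          (K * nm M ζ (g * D)) :=
        mul_le_mul hih h1 (XL1_nm_nonneg _ _ _) (mul_nonneg (pow_nonneg hK0 _) hw)
      _ = K ^ (r + 1) * (nm M ζ (g * D) *
          wn M ζ (fun _ => 1) (fun i : Fin r => (X - C ζ) ^ (i : ℕ) * D)) := by ring
      _ ≤ _ := mul_le_mul_of_nonneg_left hg4 (pow_nonneg hK0 _)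

theorem shifts_unw (M : ℕ) (ζ : ℝ) : ∃ K : ℝ, 1 ≤ K ∧ ∀ (r : ℕ) (D : ℝ[X]),
    D.natDegree + r ≤ M → nm M ζ D ^ r ≤
      K * wn M ζ (fun _ => 1) (fun i : Fin r => (X - C ζ) ^ (i : ℕ) * D) := by
  obtain ⟨K, hK1, hK⟩ := gelfond M ζ
  refine ⟨K ^ M, one_le_pow₀ hK1, fun r D hr => ?_⟩
  refine (XL1_unw hK1 hK D r hr).trans (mul_le_mul_of_nonneg_right ?_ (mx_nonneg _))
  exact pow_le_pow_right₀ hK1 (by omega)

private theorem XL1_w2 {Y Δ : ℝ} (hY : 1 ≤ Y) (hΔ : 1 ≤ Δ) (c : ℕ) : 1 ≤ w2 Y Δ c := by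
  match c with
  | 0 => exact hY
  | 1 => exact hΔ
  | c + 2 => exact le_rfl

theorem shifts_lower (M : ℕ) (ζ : ℝ) : ∃ K : ℝ, 1 ≤ K ∧ ∀ (Y Δ : ℝ) (r : ℕ) (D : ℝ[X]), 1 ≤ Δ →
    Δ ^ 2 ≤ Y → D.natDegree + r < M → ‖tv M ζ (w2 Y Δ) D‖ * nm M ζ D ^ r ≤
      K * wn M ζ (w2 Y Δ) (fun i : Fin (r + 1) => (X - C ζ) ^ (i : ℕ) * D) := by
  obtain ⟨K, hK1, hK⟩ := gelfond M ζ
  have hK0 : 0 ≤ K := le_trans zero_le_one hK1
  refine ⟨2 * K ^ M, ?_, fun Y Δ r D hΔ hY hr => ?_⟩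
  · have := one_le_pow₀ (n := M) hK1
    linarith
  have hΔ2 : Δ ≤ Δ ^ 2 := by nlinarith
  have hY1 : 1 ≤ Y := by linarith
  obtain ⟨g, hg1, hg2, hg3, hg4⟩ := XL1_g M ζ (w2 Y Δ) r D
  -- the unweighted family
  have hmono : wn M ζ (fun _ => 1) (fun i : Fin r => (X - C ζ) ^ (i : ℕ) * D) ≤
      wn M ζ (w2 Y Δ) (fun i : Fin r => (X - C ζ) * ((X - C ζ) ^ (i : ℕ) * D)) := by
    rw [← wn_shift M ζ (fun _ => 1) (fun i : Fin r => (X - C ζ) ^ (i : ℕ) * D) (fun i => by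
      have h1 := XL1_nd ζ D (i : ℕ)
      have h2 := i.2
      omega)]
    exact wn_mono M ζ _ _ (fun _ => zero_le_one) (XL1_w2 hY1 hΔ) _
  have hun := XL1_unw hK1 hK D r hr.le
  -- the claim
  have hclaim : ‖tv M ζ (w2 Y Δ) D‖ ≤ 2 * K * ‖tv M ζ (w2 Y Δ) (g * D)‖ := by
    rcases Nat.eq_zero_or_pos r with h0 | hpos
    · rw [hg3 h0, one_mul]
      have := norm_nonneg (tv M ζ (w2 Y Δ) D)
      nlinarith
    · have hM : 2 ≤ M := by omega
      set N := ‖tv M ζ (w2 Y Δ) (g * D)‖ with hN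
      have hN0 : 0 ≤ N := norm_nonneg _
      obtain ⟨a1, a2, a3, -, -⟩ := le_tv M hM ζ Y Δ (g * D) hY1 hΔ
      obtain ⟨-, -, -, -, b5⟩ := le_tv M hM ζ Y Δ g hY1 hΔ
      obtain ⟨-, -, -, d4, d5⟩ := le_tv M hM ζ Y Δ D hY1 hΔ
      rw [eval_mul, hg1, one_mul] at a1
      rw [derivative_mul, eval_add, eval_mul, eval_mul, hg1, one_mul] at a2
      have hgD : nm M ζ g * nm M ζ D ≤ K * nm M ζ (g * D) :=
        hK g D (lt_of_le_of_lt natDegree_mul_le (by omega))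
      have hg0 := XL1_one_le (M := M) (by omega) hg1
      have hD0 := XL1_nm_nonneg M ζ D
      have hKN : K * nm M ζ (g * D) ≤ K * N := mul_le_mul_of_nonneg_left a3 hK0
      have hKN2 : N ≤ K * N := by nlinarith
      refine (tv_le_nm M ζ Y Δ D (by linarith) (by linarith)).trans ?_
      refine max_le ?_ (max_le ?_ ?_)
      · nlinarith
      · by_cases hA : |(derivative g).eval ζ * D.eval ζ| ≤ |(derivative D).eval ζ| / 2
        · have h1 : |(derivative D).eval ζ| ≤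
              |(derivative g).eval ζ * D.eval ζ + (derivative D).eval ζ| +
              |(derivative g).eval ζ * D.eval ζ| := by
            have h2 := abs_sub ((derivative g).eval ζ * D.eval ζ + (derivative D).eval ζ)
              ((derivative g).eval ζ * D.eval ζ)
            rw [add_sub_cancel_left] at h2
            exact h2
          have h3 : |(derivative D).eval ζ| / 2 ≤
              |(derivative g).eval ζ * D.eval ζ + (derivative D).eval ζ| := by linarith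
          have h4 : Δ * (|(derivative D).eval ζ| / 2) ≤
              Δ * |(derivative g).eval ζ * D.eval ζ + (derivative D).eval ζ| :=
            mul_le_mul_of_nonneg_left h3 (by linarith)
          nlinarith
        · rw [not_le, abs_mul] at hA
          by_cases hB : Δ * |D.eval ζ| ≤ nm M ζ D
          · have h1 : |(derivative g).eval ζ| * (Δ * |D.eval ζ|) ≤ nm M ζ g * nm M ζ D :=
              mul_le_mul b5 hB (by positivity) (by linarith)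
            have h2 : Δ * (|(derivative D).eval ζ| / 2) ≤
                Δ * (|(derivative g).eval ζ| * |D.eval ζ|) :=
              mul_le_mul_of_nonneg_left hA.le (by linarith)
            have h3 : |(derivative g).eval ζ| * (Δ * |D.eval ζ|) =
                Δ * (|(derivative g).eval ζ| * |D.eval ζ|) := by ring
            linarith
          · rw [not_le] at hB
            have h1 : Δ * |(derivative D).eval ζ| ≤ Δ * (Δ * |D.eval ζ|) :=
              mul_le_mul_of_nonneg_left (d5.trans hB.le) (by linarith)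
            have h2 : Δ ^ 2 * |D.eval ζ| ≤ Y * |D.eval ζ| :=
              mul_le_mul_of_nonneg_right hY (abs_nonneg _)
            have h3 : Δ * (Δ * |D.eval ζ|) = Δ ^ 2 * |D.eval ζ| := by ring
            linarith
      · have h1 : 1 * nm M ζ D ≤ nm M ζ g * nm M ζ D := mul_le_mul_of_nonneg_right hg0 hD0
        linarith
  have hw : 0 ≤ wn M ζ (fun _ => 1) (fun i : Fin r => (X - C ζ) ^ (i : ℕ) * D) := mx_nonneg _
  have hw2 : 0 ≤ wn M ζ (w2 Y Δ) (fun i : Fin (r + 1) => (X - C ζ) ^ (i : ℕ) * D) :=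
    mx_nonneg _
  calc ‖tv M ζ (w2 Y Δ) D‖ * nm M ζ D ^ r ≤ (2 * K * ‖tv M ζ (w2 Y Δ) (g * D)‖) *
        (K ^ r * wn M ζ (fun _ => 1) (fun i : Fin r => (X - C ζ) ^ (i : ℕ) * D)) :=
        mul_le_mul hclaim hun (pow_nonneg (XL1_nm_nonneg _ _ _) _)
          (mul_nonneg (by linarith) (norm_nonneg _))
    _ = (2 * K ^ (r + 1) * ‖tv M ζ (w2 Y Δ) (g * D)‖) *
        wn M ζ (fun _ => 1) (fun i : Fin r => (X - C ζ) ^ (i : ℕ) * D) := by ring
    _ ≤ (2 * K ^ (r + 1) * ‖tv M ζ (w2 Y Δ) (g * D)‖) *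
        wn M ζ (w2 Y Δ) (fun i : Fin r => (X - C ζ) * ((X - C ζ) ^ (i : ℕ) * D)) :=
        mul_le_mul_of_nonneg_left hmono
          (mul_nonneg (mul_nonneg zero_le_two (pow_nonneg hK0 _)) (norm_nonneg _))
    _ = 2 * K ^ (r + 1) * (‖tv M ζ (w2 Y Δ) (g * D)‖ *
        wn M ζ (w2 Y Δ) (fun i : Fin r => (X - C ζ) * ((X - C ζ) ^ (i : ℕ) * D))) := by ring
    _ ≤ 2 * K ^ (r + 1) * wn M ζ (w2 Y Δ) (fun i : Fin (r + 1) => (X - C ζ) ^ (i : ℕ) * D) :=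
        mul_le_mul_of_nonneg_left hg4 (mul_nonneg zero_le_two (pow_nonneg hK0 _))
    _ ≤ 2 * K ^ M * wn M ζ (w2 Y Δ) (fun i : Fin (r + 1) => (X - C ζ) ^ (i : ℕ) * D) :=
        mul_le_mul_of_nonneg_right (mul_le_mul_of_nonneg_left
          (pow_le_pow_right₀ hK1 (by omega)) zero_le_two) hw2

end Pool.Agent.Lib.H42Y
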